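import Mathlib

/-!
Jordan: a primitive permutation group containing a cycle of prime length `q ≠ 3` with at least
three fixed points contains the alternating group.
-/

set_option autoImplicit false

namespace Pool.Agent.J4H41.NC.Jord

open Equiv Equiv.Perm MulAction

variable {α : Type*} [Fintype α] [DecidableEq α] {G : Subgroup (Perm α)}

theorem multi_trans (hG : IsPreprimitive G α) {c : Perm α} (hc : c.IsCycle) (hcG : c ∈ G)
    (hq : c.support.card.Prime) {k : ℕ} (hk : c.support.card + (k + 1) = Fintype.card α) :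
    IsMultiplyPretransitive G α (k + 1) := by
  classical
  have hsc : Set.ncard ((c.support)ᶜ : Set α) = k + 1 := by
    apply Nat.add_left_cancel (n := c.support.card)
    rw [hk, ← Set.ncard_coe_finset, Set.ncard_add_ncard_compl, Nat.card_eq_fintype_card]
  have h1 : IsMultiplyPreprimitive G α (k + 2) := by
    apply hG.isMultiplyPreprimitive hsc
    · rw [Nat.card_eq_fintype_card, ← hk]; have := hq.two_le; omega
    have := isPretransitive_of_isCycle_mem hc hcG
    apply IsPreprimitive.of_prime_card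
    convert! hq
    rw [Nat.card_eq_fintype_card, Fintype.card_subtype]
    congr 1
    ext x
    rw [Finset.mem_filter, SubMulAction.mem_ofFixingSubgroup_iff]
    simp
  have h2 : IsMultiplyPretransitive G α (k + 2) := h1.isMultiplyPretransitive
  exact isMultiplyPretransitive_of_le (n := k + 2) (by omega)
    (by rw [Nat.card_eq_fintype_card, ← hk]; have := hq.two_le; omega)

theorem realize (S : Finset α) {m : ℕ} (hS : S.card = m) (h : IsMultiplyPretransitive G α m)
    (π : Perm α) : ∃ g ∈ G, ∀ x ∈ S, g x = π x := by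
  obtain ⟨e, he⟩ : ∃ e : Fin m ↪ α, ∀ x ∈ S, ∃ i, e i = x := by
    subst hS
    refine ⟨S.equivFin.symm.toEmbedding.trans (Function.Embedding.subtype _), fun x hx => ?_⟩
    refine ⟨S.equivFin ⟨x, hx⟩, ?_⟩
    simp
  obtain ⟨g, hg⟩ := h.exists_smul_eq e (e.trans π.toEmbedding)
  refine ⟨g.1, g.2, fun x hx => ?_⟩
  obtain ⟨i, rfl⟩ := he x hx
  have := congrArg (fun f : Fin m ↪ α => f i) hg
  exact this

/-- The permutations in `G` which fix every point outside the support of `c`. -/
def Fx (G : Subgroup (Perm α)) (c : Perm α) : Subgroup (Perm α) where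
  carrier := {h | h ∈ G ∧ ∀ x, x ∉ c.support → h x = x}
  mul_mem' := by
    rintro a b ⟨ha, ha'⟩ ⟨hb, hb'⟩
    refine ⟨G.mul_mem ha hb, fun x hx => ?_⟩
    rw [Perm.mul_apply, hb' x hx, ha' x hx]
  one_mem' := ⟨G.one_mem, fun x _ => rfl⟩
  inv_mem' := by
    rintro a ⟨ha, ha'⟩
    refine ⟨G.inv_mem ha, fun x hx => ?_⟩
    rw [Perm.inv_eq_iff_eq, ha' x hx]

theorem card_Fx (c : Perm α) : Nat.card (Fx G c) ∣ (c.support.card).factorial := by
  have hmem : ∀ h : Fx G c, ∀ x, x ∈ c.support ↔ (h : Perm α) x ∈ c.support := by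
    intro h x
    constructor
    · intro hx
      by_contra hcon
      have h1 := h.2.2 _ hcon
      exact hcon (by rw [(h : Perm α).injective h1]; exact hx)
    · intro hx
      by_contra hcon
      rw [h.2.2 x hcon] at hx
      exact hcon hx
  let φ : Fx G c →* Perm {x // x ∈ c.support} :=
    { toFun := fun h => (h : Perm α).subtypePerm (fun x => (hmem h x).symm)
      map_one' := by ext x; rfl
      map_mul' := fun a b => by ext x; rfl }
  have hφ : Function.Injective φ := by
    intro a b hab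
    apply Subtype.ext
    ext x
    by_cases hx : x ∈ c.support
    · have := congrArg (fun f : Perm {x // x ∈ c.support} => (f ⟨x, hx⟩ : α)) hab
      exact this
    · rw [a.2.2 x hx, b.2.2 x hx]
  have := Subgroup.card_dvd_of_injective φ hφ
  have e : Nat.card {x // x ∈ c.support} = c.support.card := by
    rw [Nat.card_eq_fintype_card, Fintype.card_coe]
  rwa [Nat.card_perm, e] at this

theorem fact_pow {q : ℕ} (hq : q.Prime) : (q.factorial).factorization q = 1 := by
  obtain ⟨m, rfl⟩ : ∃ m, q = m + 1 := ⟨q - 1, by have := hq.pos; omega⟩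
  rw [Nat.factorial_succ, Nat.factorization_mul hq.ne_zero (Nat.factorial_ne_zero m)]
  rw [Finsupp.add_apply, hq.factorization_self,
    Nat.factorization_factorial_eq_zero_of_lt (Nat.lt_succ_self m)]

/-- A permutation in `G` preserving the support of `c` can be corrected to normalize `⟨c⟩`. -/
theorem normalize {c : Perm α} (hc : c.IsCycle) (hcG : c ∈ G) (hq : c.support.card.Prime)
    {g : Perm α} (hg : g ∈ G) (hgs : ∀ x, x ∉ c.support → g x ∉ c.support) :
    ∃ g' ∈ G, (∀ x, x ∉ c.support → g' x = g x) ∧ ∃ i : ℤ, g' * c * g'⁻¹ = c ^ i := by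
  set q := c.support.card with hqdef
  have hfact : Fact q.Prime := ⟨hq⟩
  have hord : orderOf c = q := hc.orderOf
  have hcF : c ∈ Fx G c := ⟨hcG, fun x hx => by rwa [Perm.mem_support, not_not] at hx⟩
  have hdF : g * c * g⁻¹ ∈ Fx G c := by
    refine ⟨G.mul_mem (G.mul_mem hg hcG) (G.inv_mem hg), fun x hx => ?_⟩
    have hbij : ∀ y, y ∉ c.support → g⁻¹ y ∉ c.support := by
      intro y hy
      have hsurj : Function.Surjective (fun z : {z // z ∉ c.support} =>
          (⟨g z, hgs z z.2⟩ : {z // z ∉ c.support})) := by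
        apply Finite.surjective_of_injective
        intro a b hab
        exact Subtype.ext (g.injective (congrArg Subtype.val hab))
      obtain ⟨z, hz⟩ := hsurj ⟨y, hy⟩
      have : g z = y := congrArg Subtype.val hz
      have h5 : g⁻¹ y = z := by rw [← this]; simp
      rw [h5]
      exact z.2
    have h1 := hbij x hx
    rw [Perm.notMem_support] at h1
    rw [Perm.mul_apply, Perm.mul_apply, h1]
    simp
  let c1 : Fx G c := ⟨c, hcF⟩
  let d1 : Fx G c := ⟨g * c * g⁻¹, hdF⟩
  have hc1 : orderOf c1 = q := by rw [Subgroup.orderOf_mk]; exact hord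
  have hd1 : orderOf d1 = q := by
    rw [Subgroup.orderOf_mk, ← hord]
    have := orderOf_injective (MulAut.conj g).toMonoidHom (MulAut.conj g).injective c
    simpa using this
  have hfac : (Nat.card (Fx G c)).factorization q = 1 := by
    apply le_antisymm
    · have := (Nat.factorization_le_iff_dvd Nat.card_pos.ne' (Nat.factorial_ne_zero _)).mpr
        (card_Fx (G := G) c) q
      rwa [fact_pow hq] at this
    · have h1 : q ∣ Nat.card (Fx G c) := hc1 ▸ orderOf_dvd_natCard c1
      exact (hq.dvd_iff_one_le_factorization Nat.card_pos.ne').mp h1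
  let P : Sylow q (Fx G c) := Sylow.ofCard (Subgroup.zpowers d1) (by
    rw [Nat.card_zpowers, hd1, hfac, pow_one])
  let Q : Sylow q (Fx G c) := Sylow.ofCard (Subgroup.zpowers c1) (by
    rw [Nat.card_zpowers, hc1, hfac, pow_one])
  obtain ⟨h, hh⟩ := MulAction.exists_smul_eq (Fx G c) P Q
  have h2 : h * d1 * h⁻¹ ∈ Subgroup.zpowers c1 := by
    have h3 : h * d1 * h⁻¹ ∈ (h • P : Sylow q (Fx G c)) := by
      have : h * d1 * h⁻¹ = MulAut.conj h • d1 := rfl
      rw [this]
      exact Subgroup.smul_mem_pointwise_smul _ _ _ (Subgroup.mem_zpowers d1)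
    rw [hh] at h3
    exact h3
  obtain ⟨i, hi⟩ := Subgroup.mem_zpowers_iff.mp h2
  refine ⟨h.1 * g, G.mul_mem h.2.1 hg, fun x hx => ?_, i, ?_⟩
  · rw [Perm.mul_apply, h.2.2 _ (hgs x hx)]
  · have := congrArg Subtype.val hi
    rw [mul_inv_rev]
    have h4 : c ^ i = h.1 * (g * c * g⁻¹) * h.1⁻¹ := this
    rw [h4]
    group

theorem pow_on {c z : Perm α} {m : ℤ} (hz : ∀ b ∈ c.support, z b = (c ^ m) b) (l : ℕ) :
    ∀ b ∈ c.support, (z ^ l) b = ((c ^ m) ^ l) b := by
  induction l with
  | zero => intro b _; rfl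
  | succ l ih =>
    intro b hb
    rw [pow_succ, pow_succ, Perm.mul_apply, Perm.mul_apply, hz b hb]
    apply ih
    exact (Perm.zpow_apply_mem_support).mpr hb

theorem jordan (hG : IsPreprimitive G α) {c : Perm α} (hc : c.IsCycle) (hcG : c ∈ G)
    (hq : c.support.card.Prime) (hq3 : c.support.card ≠ 3)
    (hk : c.support.card + 3 ≤ Fintype.card α) : alternatingGroup α ≤ G := by
  classical
  set q := c.support.card with hqdef
  obtain ⟨k, hk1⟩ : ∃ k, q + (k + 1) = Fintype.card α := ⟨Fintype.card α - q - 1, by omega⟩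
  have hmt := multi_trans hG hc hcG hq hk1
  have hScard : (c.supportᶜ).card = k + 1 := by
    rw [Finset.card_compl]; omega
  have h3S : 2 < (c.supportᶜ).card := by omega
  obtain ⟨x1, x2, x3, hx1, hx2, hx3, h12, h13, h23⟩ := Finset.two_lt_card_iff.mp h3S
  rw [Finset.mem_compl] at hx1 hx2 hx3
  have hreal : ∀ π : Perm α, (∀ x, x ∉ c.support → π x ∉ c.support) →
      ∃ g ∈ G, (∀ x, x ∉ c.support → g x = π x) ∧ ∃ i : ℤ, g * c * g⁻¹ = c ^ i := by
    intro π hπ
    obtain ⟨g, hg, hgx⟩ := realize (c.supportᶜ) hScard hmt π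
    have hgx' : ∀ x, x ∉ c.support → g x = π x := fun x hx => hgx x (Finset.mem_compl.mpr hx)
    obtain ⟨g', hg', h1, h2⟩ := normalize hc hcG hq hg (fun x hx => by
      rw [hgx' x hx]; exact hπ x hx)
    exact ⟨g', hg', fun x hx => (h1 x hx).trans (hgx' x hx), h2⟩
  have hswap : ∀ a b : α, a ∉ c.support → b ∉ c.support → ∀ x, x ∉ c.support →
      (swap a b) x ∉ c.support := by
    intro a b ha hb x hx
    rw [swap_apply_def]
    split_ifs
    · exact hb
    · exact ha
    · exact hx
  obtain ⟨g1, hg1, hg1x, i, hi⟩ := hreal (swap x1 x2) (hswap x1 x2 hx1 hx2)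
  obtain ⟨g2, hg2, hg2x, j, hj⟩ := hreal (swap x2 x3) (hswap x2 x3 hx2 hx3)
  set z : Perm α := (g2 * g1)⁻¹ * (g1 * g2) with hz
  have hzG : z ∈ G := G.mul_mem (G.inv_mem (G.mul_mem hg2 hg1)) (G.mul_mem hg1 hg2)
  have e12 : (g1 * g2) * c * (g1 * g2)⁻¹ = c ^ (j * i) := by
    have : (g1 * g2) * c * (g1 * g2)⁻¹ = g1 * (g2 * c * g2⁻¹) * g1⁻¹ := by group
    rw [this, hj, ← conj_zpow, hi, ← zpow_mul, mul_comm]
  have e21 : (g2 * g1) * c * (g2 * g1)⁻¹ = c ^ (j * i) := by
    have : (g2 * g1) * c * (g2 * g1)⁻¹ = g2 * (g1 * c * g1⁻¹) * g2⁻¹ := by group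
    rw [this, hi, ← conj_zpow, hj, ← zpow_mul]
  have hcomm : z * c = c * z := by
    have h1 : (g1 * g2) * c * (g1 * g2)⁻¹ = (g2 * g1) * c * (g2 * g1)⁻¹ := e12.trans e21.symm
    rw [hz]
    calc (g2 * g1)⁻¹ * (g1 * g2) * c
        = (g2 * g1)⁻¹ * ((g1 * g2) * c * (g1 * g2)⁻¹) * (g1 * g2) := by group
      _ = (g2 * g1)⁻¹ * ((g2 * g1) * c * (g2 * g1)⁻¹) * (g1 * g2) := by rw [h1]
      _ = c * ((g2 * g1)⁻¹ * (g1 * g2)) := by group
  -- the action outside the support
  have hout : ∀ x, x ∉ c.support → z x =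
      ((swap x2 x3 * swap x1 x2)⁻¹ * (swap x1 x2 * swap x2 x3) : Perm α) x := by
    intro x hx
    have h1 : ∀ y, y ∉ c.support → (g2 * g1) y = (swap x2 x3 * swap x1 x2 : Perm α) y := by
      intro y hy
      rw [Perm.mul_apply, Perm.mul_apply, hg1x y hy, hg2x _ (hswap x1 x2 hx1 hx2 y hy)]
    have h2 : (g1 * g2) x = (swap x1 x2 * swap x2 x3 : Perm α) x := by
      rw [Perm.mul_apply, Perm.mul_apply, hg2x x hx, hg1x _ (hswap x2 x3 hx2 hx3 x hx)]
    set y : α := ((swap x2 x3 * swap x1 x2)⁻¹ * (swap x1 x2 * swap x2 x3) : Perm α) x with hy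
    have hyS : y ∉ c.support := by
      rw [hy, mul_inv_rev, swap_inv, swap_inv, Perm.mul_apply, Perm.mul_apply, Perm.mul_apply]
      exact hswap x1 x2 hx1 hx2 _ (hswap x2 x3 hx2 hx3 _ (hswap x1 x2 hx1 hx2 _
        (hswap x2 x3 hx2 hx3 _ hx)))
    have h3 : (g2 * g1) y = (swap x1 x2 * swap x2 x3 : Perm α) x := by
      rw [h1 y hyS, hy, Perm.mul_apply (_)⁻¹, ← Perm.mul_apply, mul_inv_cancel, Perm.one_apply]
    rw [hz, Perm.mul_apply, Perm.inv_eq_iff_eq, h2, h3]
  have z1 : z x1 = x3 := by
    rw [hout x1 hx1]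
    simp [swap_apply_def, h12, h13, h23, h12.symm, h13.symm, h23.symm]
  have z3 : z x3 = x2 := by
    rw [hout x3 hx3]
    simp [swap_apply_def, h12, h13, h23, h12.symm, h13.symm, h23.symm]
  have z2 : z x2 = x1 := by
    rw [hout x2 hx2]
    simp [swap_apply_def, h12, h13, h23, h12.symm, h13.symm, h23.symm]
  have zo : ∀ x, x ∉ c.support → x ≠ x1 → x ≠ x2 → x ≠ x3 → z x = x := by
    intro x hx n1 n2 n3
    rw [hout x hx]
    simp [swap_apply_def, n1, n2, n3]
  -- the action on the support
  obtain ⟨m, hm⟩ : ∃ m : ℤ, ∀ b ∈ c.support, z b = (c ^ m) b := by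
    obtain ⟨a, ha, hall⟩ := hc
    have hza : c (z a) ≠ z a := by
      rw [← Perm.mul_apply, ← hcomm, Perm.mul_apply]
      exact fun h => ha (z.injective h)
    obtain ⟨m, hm⟩ := hall hza
    refine ⟨m, fun b hb => ?_⟩
    obtain ⟨l, hl⟩ := hall (Perm.mem_support.mp hb)
    have hcl : z * c ^ l = c ^ l * z := (Commute.zpow_right hcomm l).eq
    rw [← hl, ← Perm.mul_apply, hcl, Perm.mul_apply, ← hm, ← Perm.mul_apply, ← Perm.mul_apply,
      ← zpow_add, ← zpow_add, add_comm]
  have hord : orderOf c = q := hc.orderOf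
  have w_on : ∀ b ∈ c.support, (z ^ q) b = b := by
    intro b hb
    rw [pow_on hm q b hb, ← zpow_natCast, ← zpow_mul, mul_comm, zpow_mul, zpow_natCast, ← hord,
      pow_orderOf_eq_one, one_zpow, Perm.one_apply]
  have w_off : ∀ x, z x = x → (z ^ q) x = x := fun x hx =>
    pow_apply_eq_self_of_apply_eq_self hx q
  obtain ⟨t, ht⟩ : ∃ t, q = 3 * t + 1 ∨ q = 3 * t + 2 := by
    refine ⟨q / 3, ?_⟩
    have h1 : ¬ 3 ∣ q := fun h => hq3 ((Nat.prime_dvd_prime_iff_eq Nat.prime_three hq).mp h).symm
    omega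
  have w_x : ∀ x, (x = x1 ∨ x = x2 ∨ x = x3) → (z ^ q) x ≠ x := by
    intro x hx
    have h3 : (z ^ 3) x = x := by
      rcases hx with rfl | rfl | rfl <;> simp [pow_succ, z1, z2, z3]
    have h4 : ((z ^ 3) ^ t) x = x := pow_apply_eq_self_of_apply_eq_self h3 t
    rcases ht with ht | ht
    · rw [ht, add_comm, pow_add, pow_mul, Perm.mul_apply, h4]
      rcases hx with rfl | rfl | rfl
      · simp [z1, h13.symm]
      · simp [z2, h12]
      · simp [z3, h23]
    · rw [ht, add_comm, pow_add, pow_mul, Perm.mul_apply, h4]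
      rcases hx with rfl | rfl | rfl
      · simp [pow_succ, z1, z3, h12.symm]
      · simp [pow_succ, z2, z1, h23.symm]
      · simp [pow_succ, z3, z2, h13]
  have hsupp : (z ^ q).support = {x1, x2, x3} := by
    ext x
    rw [Perm.mem_support]
    constructor
    · intro hx
      by_contra hcon
      simp only [Finset.mem_insert, Finset.mem_singleton, not_or] at hcon
      by_cases hxc : x ∈ c.support
      · exact hx (w_on x hxc)
      · exact hx (w_off x (zo x hxc hcon.1 hcon.2.1 hcon.2.2))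
    · intro hx
      simp only [Finset.mem_insert, Finset.mem_singleton] at hx
      exact w_x x hx
  have h3c : (z ^ q).IsThreeCycle := by
    rw [← card_support_eq_three_iff, hsupp]
    exact Finset.card_eq_three.mpr ⟨x1, x2, x3, h12, h13, h23, rfl⟩
  exact alternatingGroup_le_of_isPreprimitive_of_isThreeCycle_mem hG h3c (G.pow_mem hzG q)

theorem prim_of_cycle [IsPretransitive G α] {c : Perm α} (hc : c.IsCycle) (hcG : c ∈ G)
    (hq : c.support.card.Prime) (h2 : Fintype.card α < 2 * c.support.card) :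
    IsPreprimitive G α := by
  classical
  have := isPretransitive_of_isCycle_mem hc hcG
  have h1 : IsPreprimitive (fixingSubgroup G (c.support : Set α)ᶜ)
      (SubMulAction.ofFixingSubgroup G (c.support : Set α)ᶜ) := by
    apply IsPreprimitive.of_prime_card
    convert! hq
    rw [Nat.card_eq_fintype_card, Fintype.card_subtype]
    congr 1
    ext x
    rw [Finset.mem_filter, SubMulAction.mem_ofFixingSubgroup_iff]
    simp
  let f : (SubMulAction.ofFixingSubgroup G (c.support : Set α)ᶜ) →ₑ[fun h :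
      fixingSubgroup G (c.support : Set α)ᶜ => (h : G)] α :=
    { toFun := fun x => x.1
      map_smul' := fun h x => rfl }
  apply IsPreprimitive.of_card_lt (f := f)
  have hr : Set.range f = (c.support : Set α) := by
    ext x
    constructor
    · rintro ⟨y, rfl⟩
      have := y.2
      rw [SubMulAction.mem_ofFixingSubgroup_iff, Set.mem_compl_iff, not_not] at this
      exact this
    · intro hx
      refine ⟨⟨x, ?_⟩, rfl⟩
      rw [SubMulAction.mem_ofFixingSubgroup_iff]
      simpa using hx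
  rw [hr, Set.ncard_coe_finset, Nat.card_eq_fintype_card]
  exact h2

/-- A transitive group of degree `n` whose order is divisible by a prime `q` with
`n / 2 < q ≤ n - 3`, or by `q = 3` with `n ≤ 5`, contains the alternating group. -/
theorem alt_le [IsPretransitive G α] {q : ℕ} (hq : q.Prime) (h1 : Fintype.card α < 2 * q)
    (h2 : q = 3 ∨ q + 3 ≤ Fintype.card α) (hd : q ∣ Nat.card G) : alternatingGroup α ≤ G := by
  have : Fact q.Prime := ⟨hq⟩
  obtain ⟨c, hc⟩ := exists_prime_orderOf_dvd_card' q hd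
  have hc' : orderOf (c : Perm α) = q := by rw [Subgroup.orderOf_coe, hc]
  have hcyc : (c : Perm α).IsCycle := isCycle_of_prime_order' (by rwa [hc']) (by rwa [hc'])
  have hcard : (c : Perm α).support.card = q := by rw [← hcyc.orderOf, hc']
  have hG := prim_of_cycle hcyc c.2 (by rwa [hcard]) (by rwa [hcard])
  rcases eq_or_ne q 3 with h3 | h3
  · exact alternatingGroup_le_of_isPreprimitive_of_isThreeCycle_mem hG
      (card_support_eq_three_iff.mp (hcard.trans h3)) c.2
  · exact jordan hG hcyc c.2 (by rwa [hcard]) (by rwa [hcard])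
      (by rw [hcard]; exact h2.resolve_left h3)

end Pool.Agent.J4H41.NC.Jord
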