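import Mathlib

/-!
Solvable transitive groups of prime degree: an element with two fixed points is trivial.
-/

set_option autoImplicit false

namespace Pool.Agent.J4H41.NC

theorem exists_abelian_normal (G : Type*) [Group G] [Group.IsSolvable G] [Nontrivial G] :
    ∃ N : Subgroup G, N.Normal ∧ N ≠ ⊥ ∧ ∀ a ∈ N, ∀ b ∈ N, a * b = b * a := by
  classical
  have hex : ∃ n : ℕ, derivedSeries G n = ⊥ := Group.IsSolvable.solvable
  set n := Nat.find hex with hn
  have h1 : derivedSeries G n = ⊥ := Nat.find_spec hex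
  have h0 : n ≠ 0 := by
    intro h
    rw [h, derivedSeries_zero] at h1
    exact top_ne_bot h1
  obtain ⟨m, hm⟩ := Nat.exists_eq_succ_of_ne_zero h0
  refine ⟨derivedSeries G m, derivedSeries_normal G m, ?_, ?_⟩
  · intro h
    have := Nat.find_min hex (m := m) (by omega)
    exact this h
  · intro a ha b hb
    rw [hm, Nat.succ_eq_add_one, derivedSeries_succ,
      Subgroup.commutator_eq_bot_iff_le_centralizer] at h1
    have h2 := h1 ha
    rw [Subgroup.mem_centralizer_iff] at h2
    exact (h2 b hb).symm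

theorem fix_two {G X : Type*} [Group G] [Group.IsSolvable G] [MulAction G X] [FaithfulSMul G X]
    [MulAction.IsPretransitive G X] (hp : Nat.Prime (Nat.card X)) (x y : X) (hxy : x ≠ y) (g : G)
    (hx : g • x = x) (hy : g • y = y) : g = 1 := by
  classical
  rcases subsingleton_or_nontrivial G with hG | hG
  · exact Subsingleton.elim _ _
  obtain ⟨N, hN, hN0, hab⟩ := exists_abelian_normal G
  have hprim : MulAction.IsPreprimitive G X := MulAction.IsPreprimitive.of_prime_card hp
  have hfix : MulAction.fixedPoints N X ≠ Set.univ := by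
    intro h
    apply hN0
    rw [Subgroup.eq_bot_iff_forall]
    intro a ha
    apply FaithfulSMul.eq_of_smul_eq_smul (α := X)
    intro z
    have h1 : z ∈ MulAction.fixedPoints N X := by rw [h]; exact Set.mem_univ z
    have h2 := h1 ⟨a, ha⟩
    rw [one_smul]
    exact h2
  have htrans : MulAction.IsPretransitive N X :=
    MulAction.IsQuasiPreprimitive.isPretransitive_of_normal hfix
  have hmove : ∀ z : X, ∃ μ ∈ N, μ • x = z := by
    intro z
    obtain ⟨μ, hμ⟩ := MulAction.exists_smul_eq N x z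
    exact ⟨μ, μ.2, hμ⟩
  have hreg : ∀ ν ∈ N, ν • x = x → ν = 1 := by
    intro ν hν h
    apply FaithfulSMul.eq_of_smul_eq_smul (α := X)
    intro z
    obtain ⟨μ, hμ, rfl⟩ := hmove z
    rw [one_smul, smul_smul, hab ν hν μ hμ, ← smul_smul, h]
  obtain ⟨τ, hτ, hτx⟩ := hmove y
  have hconj : g * τ * g⁻¹ = τ := by
    have h1 : g * τ * g⁻¹ ∈ N := hN.conj_mem τ hτ g
    have h2 : (τ⁻¹ * (g * τ * g⁻¹)) • x = x := by
      have h3 : g⁻¹ • x = x := by
        rw [inv_smul_eq_iff, hx]
      rw [← smul_smul, ← smul_smul, ← smul_smul, h3, hτx, hy, inv_smul_eq_iff, hτx]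
    have h4 := hreg _ (N.mul_mem (N.inv_mem hτ) h1) h2
    rw [inv_mul_eq_one] at h4
    exact h4.symm
  have hcard : Nat.card N = Nat.card X := by
    apply Nat.card_congr
    refine Equiv.ofBijective (fun μ : N => μ • x) ⟨?_, ?_⟩
    · intro a b hab'
      have h1 : ((b : G)⁻¹ * a) • x = x := by
        rw [← smul_smul, inv_smul_eq_iff]
        exact hab'
      have h2 := hreg _ (N.mul_mem (N.inv_mem b.2) a.2) h1
      rw [inv_mul_eq_one] at h2
      exact Subtype.ext h2.symm
    · intro z
      obtain ⟨μ, hμ, h⟩ := hmove z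
      exact ⟨⟨μ, hμ⟩, h⟩
  have hτ1 : (⟨τ, hτ⟩ : N) ≠ 1 := by
    intro h
    have h1 : τ = 1 := congrArg Subtype.val h
    rw [h1, one_smul] at hτx
    exact hxy hτx
  have hfact : Fact (Nat.card N).Prime := ⟨by rw [hcard]; exact hp⟩
  have hcomm : ∀ μ ∈ N, g * μ = μ * g := by
    intro μ hμ
    have h1 : (⟨μ, hμ⟩ : N) ∈ Subgroup.zpowers (⟨τ, hτ⟩ : N) :=
      mem_zpowers_of_prime_card (p := Nat.card N) rfl hτ1
    obtain ⟨k, hk⟩ := Subgroup.mem_zpowers_iff.mp h1
    have h2 : τ ^ k = μ := by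
      have := congrArg Subtype.val hk
      simpa using this
    have h3 : Commute g τ := by
      rw [mul_inv_eq_iff_eq_mul] at hconj
      exact hconj
    rw [← h2]
    exact (h3.zpow_right k).eq
  apply FaithfulSMul.eq_of_smul_eq_smul (α := X)
  intro z
  obtain ⟨μ, hμ, rfl⟩ := hmove z
  rw [one_smul, smul_smul, hcomm μ hμ, ← smul_smul, hx]

end Pool.Agent.J4H41.NC
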