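import Mathlib
import Pool.Agent.J4H41.NC.Grp

/-!
The Galois group of an irreducible separable polynomial of prime degree `n`, of order divisible by
a prime `q < n` not dividing `n - 1`, is not solvable.
-/

set_option autoImplicit false

namespace Pool.Agent.J4H41.NC

open Polynomial

/-- The Galois group acts transitively and faithfully on the roots in the splitting field. -/
theorem gal_trans {E : Type*} [Field E] (χ : E[X]) (hi : Irreducible χ) :
    MulAction.IsPretransitive χ.Gal (χ.rootSet χ.SplittingField) := by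
  refine ⟨fun x y => ?_⟩
  have hx := minpoly.eq_of_irreducible hi (mem_rootSet.mp x.2).2
  have hy := minpoly.eq_of_irreducible hi (mem_rootSet.mp y.2).2
  obtain ⟨g, hg⟩ := (Normal.minpoly_eq_iff_mem_orbit χ.SplittingField).mp (hy.symm.trans hx)
  exact ⟨g, Subtype.ext hg⟩

theorem gal_faithful {E : Type*} [Field E] (χ : E[X]) :
    FaithfulSMul χ.Gal (χ.rootSet χ.SplittingField) := by
  refine ⟨fun {a b} hab => ?_⟩
  apply Polynomial.Gal.ext χ
  intro x hx
  exact congrArg Subtype.val (hab ⟨x, hx⟩)

theorem dvd_of_solvable {E : Type*} [Field E] (χ : E[X]) (hi : Irreducible χ)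
    (hs : χ.Separable) (hn : χ.natDegree.Prime) (hsol : Group.IsSolvable χ.Gal) (q : ℕ)
    (hq : q.Prime) (hqn : q < χ.natDegree) (hd : q ∣ Nat.card χ.Gal) :
    q ∣ χ.natDegree - 1 := by
  classical
  have htrans := gal_trans χ hi
  have hfaith := gal_faithful χ
  have hcard : Nat.card (χ.rootSet χ.SplittingField) = χ.natDegree := by
    rw [Nat.card_eq_fintype_card, Polynomial.card_rootSet_eq_natDegree hs
      (IsSplittingField.splits χ.SplittingField χ)]
  have hfact : Fact q.Prime := ⟨hq⟩
  obtain ⟨τ, hτ⟩ := exists_prime_orderOf_dvd_card' q hd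
  have hP : IsPGroup q (Subgroup.zpowers τ) := by
    apply IsPGroup.of_card (n := 1)
    rw [Nat.card_zpowers, hτ, pow_one]
  have hmod := hP.card_modEq_card_fixedPoints (χ.rootSet χ.SplittingField)
  rw [hcard] at hmod
  have hτ1 : τ ≠ 1 := by
    rintro rfl
    rw [orderOf_one] at hτ
    exact hq.one_lt.ne hτ
  have hle : Nat.card (MulAction.fixedPoints (Subgroup.zpowers τ)
      (χ.rootSet χ.SplittingField)) ≤ 1 := by
    rw [Finite.card_le_one_iff_subsingleton]
    refine ⟨fun x y => ?_⟩
    by_contra hne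
    apply hτ1
    refine fix_two (by rw [hcard]; exact hn) (x : χ.rootSet χ.SplittingField) y
      (fun e => hne (Subtype.ext e)) τ ?_ ?_
    · exact x.2 ⟨τ, Subgroup.mem_zpowers τ⟩
    · exact y.2 ⟨τ, Subgroup.mem_zpowers τ⟩
  have hnq : ¬ q ∣ χ.natDegree := by
    intro h
    rcases (Nat.dvd_prime hn).mp h with h1 | h1
    · exact hq.one_lt.ne' h1
    · omega
  have h01 : Nat.card (MulAction.fixedPoints (Subgroup.zpowers τ)
      (χ.rootSet χ.SplittingField)) = 1 := by
    have hne : Nat.card (MulAction.fixedPoints (Subgroup.zpowers τ)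
      (χ.rootSet χ.SplittingField)) ≠ 0 := by
      intro h0
      rw [h0] at hmod
      exact hnq ((Nat.modEq_zero_iff_dvd).mp hmod)
    omega
  rw [h01] at hmod
  exact (Nat.modEq_iff_dvd' hn.one_le).mp hmod.symm

end Pool.Agent.J4H41.NC
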