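import Mathlib
import Pool.Agent.J4H41.NC.Jord
import Pool.Agent.J4H41.NC.Slv

/-! Irreducible separable polynomials of degree `n` whose Galois group has order divisible by a
prime `q` with `n / 2 < q ≤ n - 3`, or by `q = 3 > n / 2`: the group contains the alternating group. -/

set_option autoImplicit false

namespace Pool.Agent.J4H41.NC

open Polynomial

theorem alt_of_dvd {E : Type*} [Field E] (χ : E[X]) (hi : Irreducible χ) (hs : χ.Separable)
    (q : ℕ) (hq : q.Prime) (h1 : χ.natDegree < 2 * q) (h2 : q = 3 ∨ q + 3 ≤ χ.natDegree)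
    (hd : q ∣ Nat.card χ.Gal) [DecidableEq (χ.rootSet χ.SplittingField)] (π : Equiv.Perm (χ.rootSet χ.SplittingField))
    (hπ : Equiv.Perm.sign π = 1) : ∃ τ : χ.Gal, ∀ x, π x = τ • x := by
  have htrans := gal_trans χ hi
  have hfaith := gal_faithful χ
  have hcard : Fintype.card (χ.rootSet χ.SplittingField) = χ.natDegree := by
    rw [Polynomial.card_rootSet_eq_natDegree hs (IsSplittingField.splits χ.SplittingField χ)]
  set G : Subgroup (Equiv.Perm (χ.rootSet χ.SplittingField)) :=
    (MulAction.toPermHom χ.Gal (χ.rootSet χ.SplittingField)).range with hG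
  have hinj : Function.Injective (MulAction.toPermHom χ.Gal (χ.rootSet χ.SplittingField)) :=
    MulAction.toPerm_injective
  have hGt : MulAction.IsPretransitive G (χ.rootSet χ.SplittingField) := by
    refine ⟨fun x y => ?_⟩
    obtain ⟨τ, hτ⟩ := htrans.exists_smul_eq x y
    exact ⟨⟨MulAction.toPermHom _ _ τ, ⟨τ, rfl⟩⟩, hτ⟩
  have hGc : Nat.card G = Nat.card χ.Gal :=
    (Nat.card_congr (MonoidHom.ofInjective hinj).toEquiv).symm
  have h3 := Jord.alt_le (G := G) hq (by rwa [hcard]) (by rwa [hcard]) (by rwa [hGc])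
  obtain ⟨τ, hτ⟩ := h3 (Equiv.Perm.mem_alternatingGroup.mpr hπ)
  exact ⟨τ, fun x => by rw [← hτ]; rfl⟩

end Pool.Agent.J4H41.NC
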