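import Mathlib
import Pool.Agent.J4H41.NC.Jord

/-!
Group actions containing an element which acts as a cycle of length `q`: passage to a larger set,
and consequences for primitive actions.
-/

set_option autoImplicit false

namespace Pool.Agent.J4H41.NC

open MulAction

/-- Some element of `G` acts on `α` as a cycle of length `q`. -/
def HasCyc (G α : Type*) [Group G] [MulAction G α] (q : ℕ) : Prop :=
  ∃ (c : G) (S : Finset α), S.card = q ∧ (∀ x, x ∉ S → c • x = x) ∧
    ∀ x ∈ S, ∀ y ∈ S, ∃ m : ℕ, c ^ m • x = y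

theorem tr_step {G α H β : Type*} [Group G] [MulAction G α] [Group H] [MulAction H β]
    (e : β → α) (α0 : α) (h0 : ∀ x, e x ≠ α0)
    (hs : ∀ y, y ≠ α0 → ∃ x, e x = y)
    (hl : ∀ τ : H, ∃ g : G, g • α0 = α0 ∧ ∀ x, g • e x = e (τ • x))
    (hG : IsPretransitive G α) {k : ℕ} (hk : IsMultiplyPretransitive H β k) :
    IsMultiplyPretransitive G α (k + 1) := by
  rw [← Nat.succ_eq_add_one, SubMulAction.ofStabilizer.isMultiplyPretransitive (a := α0)]
  refine ⟨fun x y => ?_⟩
  have hne : ∀ z : SubMulAction.ofStabilizer G α0, (z : α) ≠ α0 := fun z =>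
    (SubMulAction.mem_ofStabilizer_iff G α0).mp z.2
  choose x' hx' using fun i => hs (x i) (hne (x i))
  choose y' hy' using fun i => hs (y i) (hne (y i))
  have hxi : Function.Injective x' := by
    intro i j hij
    apply x.injective
    apply Subtype.ext
    rw [← hx', ← hx', hij]
  have hyi : Function.Injective y' := by
    intro i j hij
    apply y.injective
    apply Subtype.ext
    rw [← hy', ← hy', hij]
  obtain ⟨τ, hτ⟩ := hk.exists_smul_eq (⟨x', hxi⟩ : Fin k ↪ β) ⟨y', hyi⟩
  obtain ⟨g, hg0, hg⟩ := hl τ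
  refine ⟨⟨g, hg0⟩, ?_⟩
  ext i
  change g • (x i : α) = (y i : α)
  rw [← hx', ← hy', hg]
  congr 1
  exact congrArg (fun f : Fin k ↪ β => f i) hτ

theorem cyc_step {G α H β : Type*} [Group G] [MulAction G α] [Group H] [MulAction H β]
    (e : β → α) (α0 : α) (he : Function.Injective e)
    (hs : ∀ y, y ≠ α0 → ∃ x, e x = y)
    (hl : ∀ τ : H, ∃ g : G, g • α0 = α0 ∧ ∀ x, g • e x = e (τ • x))
    {q : ℕ} (hq : HasCyc H β q) : HasCyc G α q := by
  obtain ⟨c, S, hS, h1, h2⟩ := hq
  obtain ⟨g, hg0, hg⟩ := hl c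
  refine ⟨g, S.map ⟨e, he⟩, by rw [Finset.card_map, hS], ?_, ?_⟩
  · intro y hy
    by_cases hy0 : y = α0
    · rw [hy0, hg0]
    · obtain ⟨x, rfl⟩ := hs y hy0
      rw [hg, h1 x]
      intro hx
      exact hy (Finset.mem_map_of_mem ⟨e, he⟩ hx)
  · intro x hx y hy
    obtain ⟨a, ha, rfl⟩ := Finset.mem_map.mp hx
    obtain ⟨b, hb, rfl⟩ := Finset.mem_map.mp hy
    obtain ⟨m, hm⟩ := h2 a ha b hb
    refine ⟨m, ?_⟩
    have hpow : ∀ m : ℕ, g ^ m • e a = e (c ^ m • a) := by
      intro m
      induction m with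
      | zero => simp
      | succ m ih => rw [pow_succ', mul_smul, ih, hg, pow_succ', mul_smul]
    change g ^ m • e a = e b
    rw [hpow, hm]

theorem cyc_base {G α : Type*} [Group G] [Finite G] [MulAction G α] [FaithfulSMul G α]
    [Fintype α] (htr : IsPretransitive G α) {q : ℕ} (hq : q.Prime) (hc : Fintype.card α = q) :
    HasCyc G α q := by
  classical
  have hfact : Fact q.Prime := ⟨hq⟩
  have hne : Nonempty α := by
    rw [← Fintype.card_pos_iff, hc]; exact hq.pos
  obtain ⟨a⟩ := hne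
  have hd : q ∣ Nat.card G := by
    have h1 := MulAction.index_stabilizer_of_transitive G a
    rw [Nat.card_eq_fintype_card, hc] at h1
    rw [← h1]
    exact (stabilizer G a).index_dvd_card
  obtain ⟨c, hcq⟩ := exists_prime_orderOf_dvd_card' q hd
  have hord : orderOf (toPermHom G α c) = q := by
    rw [orderOf_injective _ (MulAction.toPerm_injective), hcq]
  have hcyc : (toPermHom G α c).IsCycle :=
    Equiv.Perm.isCycle_of_prime_order'' (by rwa [hc]) (by rw [hord, hc])
  have hsupp : (toPermHom G α c).support = Finset.univ := by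
    rw [← Finset.card_eq_iff_eq_univ, ← hcyc.orderOf, hord, hc]
  refine ⟨c, Finset.univ, by rw [Finset.card_univ, hc], ?_, ?_⟩
  · intro x hx
    exact absurd (Finset.mem_univ x) hx
  · intro x _ y _
    have hx : (toPermHom G α c) x ≠ x := Equiv.Perm.mem_support.mp (by rw [hsupp]; simp)
    have hy : (toPermHom G α c) y ≠ y := Equiv.Perm.mem_support.mp (by rw [hsupp]; simp)
    obtain ⟨m, hm⟩ := hcyc.exists_pow_eq hx hy
    refine ⟨m, ?_⟩
    rw [← map_pow] at hm
    exact hm

theorem perm_of_cyc {G α : Type*} [Group G] [MulAction G α] [Fintype α] [DecidableEq α] {q : ℕ}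
    (hq : 2 ≤ q) (h : HasCyc G α q) :
    ∃ c : Equiv.Perm α, c ∈ (toPermHom G α).range ∧ c.IsCycle ∧ c.support.card = q := by
  obtain ⟨c, S, hS, h1, h2⟩ := h
  have hmove : ∀ x ∈ S, c • x ≠ x := by
    intro x hx hcx
    obtain ⟨y, hy, hxy⟩ := Finset.exists_mem_ne (by omega : 1 < S.card) x
    obtain ⟨m, hm⟩ := h2 x hx y hy
    apply hxy
    rw [← hm]
    clear hm
    induction m with
    | zero => simp
    | succ m ih => rw [pow_succ, mul_smul, hcx]; exact ih
  have hsupp : (toPermHom G α c).support = S := by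
    ext x
    rw [Equiv.Perm.mem_support]
    constructor
    · intro hx
      by_contra hcon
      exact hx (h1 x hcon)
    · intro hx
      exact hmove x hx
  refine ⟨toPermHom G α c, ⟨c, rfl⟩, ?_, by rw [hsupp, hS]⟩
  obtain ⟨x, hx⟩ := Finset.card_pos.mp (by omega : 0 < S.card)
  refine ⟨x, hmove x hx, fun y hy => ?_⟩
  have hyS : y ∈ S := by
    by_contra hcon
    exact hy (h1 y hcon)
  obtain ⟨m, hm⟩ := h2 x hx y hyS
  refine ⟨m, ?_⟩
  rw [zpow_natCast, ← map_pow]
  exact hm

theorem prim_range {G α : Type*} [Group G] [MulAction G α] (h : IsPreprimitive G α) :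
    IsPreprimitive (toPermHom G α).range α := by
  let f : α →ₑ[(toPermHom G α).rangeRestrict] α :=
    { toFun := id
      map_smul' := fun g x => rfl }
  exact IsPreprimitive.of_surjective (f := f) Function.surjective_id

theorem alt_of_cyc {G α : Type*} [Group G] [MulAction G α] [Fintype α] [DecidableEq α] {q : ℕ}
    (hq : q.Prime) (h : HasCyc G α q) (hp : IsPreprimitive G α)
    (hn : q = 3 ∨ q + 3 ≤ Fintype.card α) (π : Equiv.Perm α) (hπ : Equiv.Perm.sign π = 1) :
    ∃ g : G, ∀ x, π x = g • x := by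
  obtain ⟨c, hc, hcyc, hcard⟩ := perm_of_cyc hq.two_le h
  have h2 := prim_range hp
  have h3 : alternatingGroup α ≤ (toPermHom G α).range := by
    rcases eq_or_ne q 3 with h3 | h3
    · exact Equiv.Perm.alternatingGroup_le_of_isPreprimitive_of_isThreeCycle_mem h2
        (card_support_eq_three_iff.mp (hcard.trans h3)) hc
    · exact Jord.jordan h2 hcyc hc (by rwa [hcard]) (by rwa [hcard])
        (by rw [hcard]; exact hn.resolve_left h3)
  obtain ⟨g, hg⟩ := h3 (Equiv.Perm.mem_alternatingGroup.mpr hπ)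
  exact ⟨g, fun x => by rw [← hg]; rfl⟩

theorem top_of_cyc {G α : Type*} [Group G] [MulAction G α] [Fintype α]
    (h : HasCyc G α 2) (hp : IsPreprimitive G α) (π : Equiv.Perm α) :
    ∃ g : G, ∀ x, π x = g • x := by
  classical
  obtain ⟨c, hc, hcyc, hcard⟩ := perm_of_cyc le_rfl h
  have h3 : (toPermHom G α).range = ⊤ :=
    Equiv.Perm.subgroup_eq_top_of_isPreprimitive_of_isSwap_mem (prim_range hp) c
      (Equiv.Perm.card_support_eq_two.mp hcard) hc
  obtain ⟨g, hg⟩ : π ∈ (toPermHom G α).range := by rw [h3]; trivial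
  exact ⟨g, fun x => by rw [← hg]; rfl⟩

end Pool.Agent.J4H41.NC
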