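import Mathlib

/-!
Two commuting matrices over a power series ring, one of them with characteristic polynomial
`x ^ n - c`, the other with a simple eigenvalue at zero: all eigenvalues at zero of the other are
in the ground field.
-/

set_option autoImplicit false

namespace Pool.Agent.J4H41.NC

open Matrix Polynomial

section Field

variable {L : Type*} [Field L] {n : ℕ}

theorem eigenvector_of_root (T : Matrix (Fin n) (Fin n) L) {t : L} (ht : T.charpoly.IsRoot t) :
    ∃ v : Fin n → L, v ≠ 0 ∧ T.mulVec v = t • v := by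
  have h1 : (Matrix.scalar (Fin n) t - T).det = 0 := by
    rw [← Matrix.eval_charpoly]; exact ht
  obtain ⟨v, hv0, hv⟩ := Matrix.exists_mulVec_eq_zero_iff.mpr h1
  refine ⟨v, hv0, ?_⟩
  rw [Matrix.sub_mulVec, sub_eq_zero] at hv
  rw [← hv]
  ext a
  simp [Matrix.scalar_apply, Matrix.mulVec_diagonal]

theorem root_of_eigenvector (T : Matrix (Fin n) (Fin n) L) {t : L} {v : Fin n → L} (hv0 : v ≠ 0)
    (hv : T.mulVec v = t • v) : T.charpoly.IsRoot t := by
  have h1 : (Matrix.scalar (Fin n) t - T).det = 0 := by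
    apply Matrix.exists_mulVec_eq_zero_iff.mp
    refine ⟨v, hv0, ?_⟩
    rw [Matrix.sub_mulVec, sub_eq_zero, hv]
    ext a
    simp [Matrix.scalar_apply, Matrix.mulVec_diagonal]
  rw [← Matrix.eval_charpoly] at h1
  exact h1

/-- A matrix commuting with one with `n` different eigenvalues has all its eigenvalues in the
field. -/
theorem splits_of_commute (F A : Matrix (Fin n) (Fin n) L) (hFA : F * A = A * F)
    (φ : Fin n → L) (hφ : Function.Injective φ) (hF : ∀ i, F.charpoly.IsRoot (φ i)) :
    ∃ α : Fin n → L, A.charpoly = ∏ i, (X - C (α i)) := by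
  choose v hv0 hv using fun i => eigenvector_of_root F (hF i)
  have hli : LinearIndependent L v := by
    refine Module.End.eigenvectors_linearIndependent' (Matrix.toLin' F) φ hφ v (fun i => ?_)
    refine ⟨?_, hv0 i⟩
    rw [Module.End.mem_eigenspace_iff, Matrix.toLin'_apply]
    exact hv i
  set P : Matrix (Fin n) (Fin n) L := Matrix.of fun a i => v i a with hP
  have hPu : IsUnit P := by
    rw [← Matrix.linearIndependent_cols_iff_isUnit]
    exact hli
  have hdet : IsUnit P.det := (Matrix.isUnit_iff_isUnit_det _).mp hPu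
  have hTP : F * P = P * Matrix.diagonal φ := by
    ext a i
    have := congrFun (hv i) a
    rw [Matrix.mul_diagonal, Matrix.mul_apply]
    simp only [hP, Matrix.of_apply]
    rw [Matrix.mulVec, dotProduct] at this
    rw [this, Pi.smul_apply, smul_eq_mul, mul_comm]
  set B : Matrix (Fin n) (Fin n) L := P⁻¹ * A * P with hB
  have h1 : P⁻¹ * P = 1 := Matrix.nonsing_inv_mul _ hdet
  have h2 : P * P⁻¹ = 1 := Matrix.mul_nonsing_inv _ hdet
  have hcomm : Matrix.diagonal φ * B = B * Matrix.diagonal φ := by
    have e1 : Matrix.diagonal φ = P⁻¹ * F * P := by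
      rw [mul_assoc, hTP, ← mul_assoc, h1, one_mul]
    rw [e1, hB]
    calc P⁻¹ * F * P * (P⁻¹ * A * P) = P⁻¹ * F * (P * P⁻¹) * A * P := by simp only [mul_assoc]
      _ = P⁻¹ * (F * A) * P := by rw [h2]; simp only [mul_assoc, one_mul]
      _ = P⁻¹ * (A * F) * P := by rw [hFA]
      _ = P⁻¹ * A * (P * P⁻¹) * F * P := by rw [h2]; simp only [mul_assoc, one_mul]
      _ = P⁻¹ * A * P * (P⁻¹ * F * P) := by simp only [mul_assoc]
  have hBd : B = Matrix.diagonal (fun i => B i i) := by
    ext i j
    by_cases hij : i = j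
    · subst hij; rw [Matrix.diagonal_apply_eq]
    · rw [Matrix.diagonal_apply_ne _ hij]
      have e := congrFun (congrFun hcomm i) j
      rw [Matrix.diagonal_mul, Matrix.mul_diagonal] at e
      have hne : φ i - φ j ≠ 0 := sub_ne_zero.mpr (fun h => hij (hφ h))
      have : (φ i - φ j) * B i j = 0 := by rw [sub_mul, e]; ring
      exact (mul_eq_zero.mp this).resolve_left hne
  refine ⟨fun i => B i i, ?_⟩
  have e3 : B.charpoly = A.charpoly := by
    have hinv : P⁻¹ = ((hPu.unit)⁻¹ : (Matrix (Fin n) (Fin n) L)ˣ).val := by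
      rw [Matrix.coe_units_inv]; rfl
    have h3 := Matrix.charpoly_units_conj' hPu.unit A
    rw [hB]
    exact h3
  rw [← e3]
  conv_lhs => rw [hBd]
  exact Matrix.charpoly_diagonal _

theorem common_eigen (F A : Matrix (Fin n) (Fin n) L) (hFA : F * A = A * F) (α : L)
    (h0 : A.charpoly.IsRoot α) (h1 : A.charpoly.derivative.eval α ≠ 0) :
    ∃ φ, F.charpoly.IsRoot φ := by
  obtain ⟨v, hv0, hv⟩ := eigenvector_of_root A h0
  set E := Module.End.eigenspace (Matrix.toLin' A) α with hE
  have hvE : v ∈ E := by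
    rw [hE, Module.End.mem_eigenspace_iff, Matrix.toLin'_apply]; exact hv
  have hFvE : F.mulVec v ∈ E := by
    rw [hE, Module.End.mem_eigenspace_iff, Matrix.toLin'_apply, Matrix.mulVec_mulVec, ← hFA,
      ← Matrix.mulVec_mulVec, hv, Matrix.mulVec_smul]
  have hne : A.charpoly ≠ 0 := (Matrix.charpoly_monic A).ne_zero
  have hmult : A.charpoly.rootMultiplicity α ≤ 1 := by
    by_contra hcon
    push Not at hcon
    exact h1 ((Polynomial.one_lt_rootMultiplicity_iff_isRoot hne).mp hcon).2
  have hfin : Module.finrank L E ≤ 1 := by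
    have h2 := LinearMap.finrank_eigenspace_le (Matrix.toLin' A) α
    rw [Matrix.charpoly_toLin'] at h2
    exact h2.trans hmult
  have hpos : 0 < Module.finrank L E := by
    rw [Module.finrank_pos_iff]
    exact ⟨⟨v, hvE⟩, 0, fun h => hv0 (congrArg Subtype.val h)⟩
  have hone : Module.finrank L E = 1 := by omega
  obtain ⟨φ, hφ⟩ := (finrank_eq_one_iff_of_nonzero' (⟨v, hvE⟩ : E)
    (fun h => hv0 (congrArg Subtype.val h))).mp hone ⟨F.mulVec v, hFvE⟩
  exact ⟨φ, root_of_eigenvector F hv0 (congrArg Subtype.val hφ).symm⟩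

end Field

section Local

variable {k : Type*} [Field k] {n : ℕ}

theorem hensel_root (f : Polynomial (PowerSeries k)) (hf : f.Monic) (a : k)
    (h0 : (f.map (PowerSeries.constantCoeff (R := k))).eval a = 0)
    (h1 : (f.map (PowerSeries.constantCoeff (R := k))).derivative.eval a ≠ 0) :
    ∃ α : PowerSeries k, f.eval α = 0 ∧ PowerSeries.constantCoeff α = a := by
  have e0 : PowerSeries.constantCoeff (f.eval (PowerSeries.C a)) = 0 := by
    rw [← h0, ← Polynomial.eval_map_apply, PowerSeries.constantCoeff_C]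
  have e1 : PowerSeries.constantCoeff (f.derivative.eval (PowerSeries.C a)) ≠ 0 := by
    rw [← Polynomial.eval_map_apply, PowerSeries.constantCoeff_C, ← Polynomial.derivative_map]
    exact h1
  obtain ⟨α, hα, hα'⟩ := HenselianRing.is_henselian
    (I := Ideal.span {(PowerSeries.X : PowerSeries k)}) f hf (PowerSeries.C a)
    (by rw [Ideal.mem_span_singleton, PowerSeries.X_dvd_iff]; exact e0)
    (((PowerSeries.isUnit_iff_constantCoeff.2 (isUnit_iff_ne_zero.2 e1))).map _)
  refine ⟨α, hα, ?_⟩
  rw [Ideal.mem_span_singleton, PowerSeries.X_dvd_iff, map_sub, PowerSeries.constantCoeff_C,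
    sub_eq_zero] at hα'
  exact hα'

/-- The local theorem. -/
theorem loc {ζ : k} (hζ : IsPrimitiveRoot ζ n) (hn : 0 < n)
    (F A : Matrix (Fin n) (Fin n) (PowerSeries k)) (hFA : F * A = A * F)
    (c : PowerSeries k) (hc : c ≠ 0) (hF : F.charpoly = X ^ n - C c) (a : k)
    (h0 : (A.map (PowerSeries.constantCoeff (R := k))).charpoly.eval a = 0)
    (h1 : (A.map (PowerSeries.constantCoeff (R := k))).charpoly.derivative.eval a ≠ 0) :
    ∃ α : Fin n → k, (A.map (PowerSeries.constantCoeff (R := k))).charpoly =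
      ∏ i, (X - C (α i)) := by
  classical
  rw [Matrix.charpoly_map] at h0 h1 ⊢
  obtain ⟨α, hα, hαa⟩ := hensel_root A.charpoly (Matrix.charpoly_monic A) a h0 h1
  have hα1 : A.charpoly.derivative.eval α ≠ 0 := by
    intro h
    apply h1
    rw [Polynomial.derivative_map, ← hαa, Polynomial.eval_map_apply, h, map_zero]
  set L := FractionRing (PowerSeries k) with hL
  set ι : PowerSeries k →+* L := algebraMap (PowerSeries k) L with hι
  have hinj : Function.Injective ι := IsFractionRing.injective (PowerSeries k) L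
  have hFA' : F.map ι * A.map ι = A.map ι * F.map ι := by
    rw [← Matrix.map_mul, ← Matrix.map_mul, hFA]
  obtain ⟨φ, hφ⟩ := common_eigen (F.map ι) (A.map ι) hFA' (ι α)
    (by
      rw [Matrix.charpoly_map, Polynomial.IsRoot, Polynomial.eval_map_apply, hα, map_zero])
    (by
      rw [Matrix.charpoly_map, Polynomial.derivative_map, Polynomial.eval_map_apply]
      exact (map_ne_zero_iff ι hinj).mpr hα1)
  have hcp : (F.map ι).charpoly = X ^ n - C (ι c) := by
    rw [Matrix.charpoly_map, hF, Polynomial.map_sub, Polynomial.map_pow, Polynomial.map_X,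
      Polynomial.map_C]
  have hφn : φ ^ n = ι c := by
    rw [hcp, Polynomial.IsRoot, Polynomial.eval_sub, Polynomial.eval_pow, Polynomial.eval_X,
      Polynomial.eval_C, sub_eq_zero] at hφ
    exact hφ
  have hφ0 : φ ≠ 0 := by
    rintro rfl
    rw [zero_pow hn.ne'] at hφn
    exact hc (hinj (by rw [← hφn, map_zero]))
  set z : L := ι (PowerSeries.C ζ) with hz
  have hzp : IsPrimitiveRoot z n := by
    have := hζ.map_of_injective (f := (ι.comp (PowerSeries.C (R := k))))
      (RingHom.injective _)
    exact this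
  obtain ⟨β, hβ⟩ := splits_of_commute (F.map ι) (A.map ι) hFA' (fun i : Fin n => z ^ (i : ℕ) * φ)
    (by
      intro i j hij
      have h2 := mul_right_cancel₀ hφ0 hij
      exact Fin.ext (hzp.pow_inj i.2 j.2 h2))
    (by
      intro i
      rw [hcp, Polynomial.IsRoot, Polynomial.eval_sub, Polynomial.eval_pow, Polynomial.eval_X,
        Polynomial.eval_C, mul_pow, ← pow_mul, mul_comm (i : ℕ) n, pow_mul, hzp.pow_eq_one, one_pow,
        one_mul, hφn, sub_self])
  have hint : ∀ i, ∃ b : PowerSeries k, ι b = β i := by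
    intro i
    have h2 : IsIntegral (PowerSeries k) (β i) := by
      refine ⟨A.charpoly, Matrix.charpoly_monic A, ?_⟩
      rw [← Polynomial.eval_map]
      have h3 : A.charpoly.map ι = ∏ i, (X - C (β i)) := by
        rw [← Matrix.charpoly_map, hβ]
      show Polynomial.eval (β i) (A.charpoly.map ι) = 0
      rw [h3, Polynomial.eval_prod]
      exact Finset.prod_eq_zero (Finset.mem_univ i) (by simp)
    exact IsIntegrallyClosed.isIntegral_iff.mp h2
  choose b hb using hint
  have hA : A.charpoly = ∏ i, (X - C (b i)) := by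
    apply Polynomial.map_injective ι hinj
    rw [← Matrix.charpoly_map, hβ, Polynomial.map_prod]
    refine Finset.prod_congr rfl fun i _ => ?_
    rw [Polynomial.map_sub, Polynomial.map_X, Polynomial.map_C, hb]
  refine ⟨fun i => PowerSeries.constantCoeff (b i), ?_⟩
  rw [hA, Polynomial.map_prod]
  refine Finset.prod_congr rfl fun i _ => ?_
  rw [Polynomial.map_sub, Polynomial.map_X, Polynomial.map_C]

end Local

end Pool.Agent.J4H41.NC
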