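import Mathlib
import Pool.Agent.H552R3.PC.Degen

/-!
If the characteristic polynomial of the value of a noncommutative polynomial at the generic
matrices splits into linear factors, then its roots are invariant under conjugation.
-/

set_option autoImplicit false

namespace Pool.Agent.J4H41.NC

open Matrix Polynomial Pool.Agent.H552R3.PC

variable {K : Type*} [Field K] {σ : Type*} {N : ℕ}

theorem spz_hom {B D : Type*} [CommRing B] [Algebra K B] [CommRing D] [Algebra K D]
    (φ : B →+* D) (hφ : ∀ r : K, φ (algebraMap K B r) = algebraMap K D r)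
    (W : σ → Matrix (Fin N) (Fin N) B) (p : GA K σ N) :
    φ (spz W p) = spz (fun s => (W s).map φ) p := by
  induction p using MvPolynomial.induction_on with
  | C r => simp [spz, hφ]
  | add p q hp hq => rw [map_add, map_add, map_add, hp, hq]
  | mul_X p q hp => rw [map_mul, map_mul, map_mul, hp]; congr 1; simp [spz]

theorem lift_hom {B D : Type*} [CommRing B] [Algebra K B] [CommRing D] [Algebra K D]
    (φ : B →+* D) (hφ : ∀ r : K, φ (algebraMap K B r) = algebraMap K D r)
    (W : σ → Matrix (Fin N) (Fin N) B) (f : FreeAlgebra K σ) :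
    (FreeAlgebra.lift K W f).map φ = FreeAlgebra.lift K (fun s => (W s).map φ) f := by
  let φ' : B →ₐ[K] D := { φ with commutes' := hφ }
  have h := lift_map (φ'.mapMatrix (m := Fin N)) W f
  exact h

theorem charpoly_at (g : FreeAlgebra K σ) (ρ : Fin N → GA K σ N)
    (hρ : (FreeAlgebra.lift K (gen K σ N) g).charpoly = ∏ i, (X - C (ρ i)))
    {B : Type*} [CommRing B] [Algebra K B] (W : σ → Matrix (Fin N) (Fin N) B) :
    (FreeAlgebra.lift K W g).charpoly = ∏ i, (X - C (spz W (ρ i))) := by
  have h1 := congrArg (Polynomial.map ((spz W : GA K σ N →ₐ[K] B) : GA K σ N →+* B)) hρ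
  rw [← Matrix.charpoly_map, Polynomial.map_prod] at h1
  have h2 : (FreeAlgebra.lift K (gen K σ N) g).map ((spz W : GA K σ N →ₐ[K] B) : GA K σ N →+* B) =
      FreeAlgebra.lift K W g := by
    rw [← spz_gen W g]; rfl
  rw [h2] at h1
  rw [h1]
  refine Finset.prod_congr rfl fun i _ => ?_
  simp

theorem lift_cj {B : Type*} [CommRing B] [Algebra K B] (W : σ → Matrix (Fin N) (Fin N) B)
    (P Q : Matrix (Fin N) (Fin N) B) (hPQ : P * Q = 1) (f : FreeAlgebra K σ) :
    FreeAlgebra.lift K (fun s => P * W s * Q) f = P * FreeAlgebra.lift K W f * Q := by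
  have hQP : Q * P = 1 := mul_eq_one_comm.mp hPQ
  induction f using FreeAlgebra.induction with
  | grade0 c =>
    rw [AlgHom.commutes, AlgHom.commutes, ← Algebra.commutes c P, mul_assoc, hPQ, mul_one]
  | grade1 i => rw [FreeAlgebra.lift_ι_apply, FreeAlgebra.lift_ι_apply]
  | mul a b ha hb =>
    rw [map_mul, map_mul, ha, hb]
    calc P * FreeAlgebra.lift K W a * Q * (P * FreeAlgebra.lift K W b * Q)
        = P * FreeAlgebra.lift K W a * (Q * P) * FreeAlgebra.lift K W b * Q := by
          simp only [mul_assoc]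
      _ = _ := by rw [hQP]; simp only [mul_assoc, one_mul]
  | add a b ha hb => rw [map_add, map_add, ha, hb]; noncomm_ring

theorem charpoly_cj {B : Type*} [CommRing B] (T P Q : Matrix (Fin N) (Fin N) B)
    (hPQ : P * Q = 1) : (P * T * Q).charpoly = T.charpoly := by
  have hQP : Q * P = 1 := mul_eq_one_comm.mp hPQ
  let U : (Matrix (Fin N) (Fin N) B)ˣ := ⟨P, Q, hPQ, hQP⟩
  have h := Matrix.charpoly_units_conj U T
  have h2 : (U.val)⁻¹ = Q := by
    rw [← Matrix.coe_units_inv]
    rfl
  rw [h2] at h
  exact h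

theorem conj_inv (g : FreeAlgebra K σ) (ρ : Fin N → GA K σ N)
    (hρ : (FreeAlgebra.lift K (gen K σ N) g).charpoly = ∏ i, (X - C (ρ i)))
    {L : Type*} [Field L] [Algebra K L] (W : σ → Matrix (Fin N) (Fin N) L)
    (P Q : Matrix (Fin N) (Fin N) L) (hPQ : P * Q = 1) (i : Fin N) :
    spz (fun s => P * W s * Q) (ρ i) = spz W (ρ i) := by
  classical
  set M : Matrix (Fin N) (Fin N) L[X] := 1 + (X : L[X]) • ((P - 1).map (C : L →+* L[X])) with hM
  set δ := M.det with hδ
  have hev : ∀ x : L, M.map (evalRingHom x) = 1 + x • (P - 1) := by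
    intro x
    ext a b
    simp only [hM, Matrix.map_apply, Matrix.add_apply, Matrix.smul_apply, smul_eq_mul, map_add,
      map_mul, Matrix.sub_apply, coe_evalRingHom, eval_X, eval_C]
    congr 1
    by_cases h : a = b
    · subst h; simp
    · simp [h]; ring
  have hM0 : M.map (evalRingHom (0 : L)) = 1 := by rw [hev, zero_smul, add_zero]
  have hM1 : M.map (evalRingHom (1 : L)) = P := by rw [hev, one_smul, add_sub_cancel]
  have hd0 : evalRingHom (0 : L) δ = 1 := by
    rw [hδ, RingHom.map_det, RingHom.mapMatrix_apply, hM0, Matrix.det_one]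
  have hd1 : IsUnit (evalRingHom (1 : L) δ) := by
    rw [hδ, RingHom.map_det, RingHom.mapMatrix_apply, hM1]
    exact (Matrix.isUnit_iff_isUnit_det P).mp (IsUnit.of_mul_eq_one Q hPQ)
  have hδ0 : δ ≠ 0 := by
    intro h
    rw [h, map_zero] at hd0
    exact zero_ne_one hd0
  let O := Localization.Away δ
  have : IsDomain O := IsLocalization.isDomain_localization
    (powers_le_nonZeroDivisors_of_noZeroDivisors hδ0)
  let jO : L[X] →+* O := algebraMap L[X] O
  have hjK : ∀ r : K, jO (algebraMap K L[X] r) = algebraMap K O r := fun r =>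
    (IsScalarTower.algebraMap_apply K L[X] O r).symm
  set MO := M.map jO with hMO
  have hdet : IsUnit MO.det := by
    have : MO.det = jO δ := by
      rw [hMO, ← RingHom.mapMatrix_apply, ← RingHom.map_det]
    rw [this]
    exact IsLocalization.Away.algebraMap_isUnit δ
  have hMM : MO * MO⁻¹ = 1 := Matrix.mul_nonsing_inv _ hdet
  let j1 : L →+* O := jO.comp C
  have hj1K : ∀ r : K, j1 (algebraMap K L r) = algebraMap K O r := by
    intro r
    rw [← hjK]
    rfl
  set W' : σ → Matrix (Fin N) (Fin N) O := fun s => (W s).map j1 with hW'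
  set Y : σ → Matrix (Fin N) (Fin N) O := fun s => MO * W' s * MO⁻¹ with hY
  have hcp : (FreeAlgebra.lift K Y g).charpoly = (FreeAlgebra.lift K W' g).charpoly := by
    rw [hY, lift_cj W' _ _ hMM, charpoly_cj _ _ _ hMM]
  rw [charpoly_at g ρ hρ, charpoly_at g ρ hρ] at hcp
  have hz := congrArg (Polynomial.eval (spz Y (ρ i))) hcp
  rw [Polynomial.eval_prod, Polynomial.eval_prod,
    Finset.prod_eq_zero (Finset.mem_univ i) (by simp)] at hz
  obtain ⟨j, -, hj⟩ := Finset.prod_eq_zero_iff.mp hz.symm
  rw [eval_sub, eval_X, eval_C, sub_eq_zero] at hj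
  have hWj : spz W' (ρ j) = j1 (spz W (ρ j)) := (spz_hom j1 hj1K W (ρ j)).symm
  rw [hWj] at hj
  -- evaluations
  let e0 : O →+* L := IsLocalization.Away.lift δ (g := evalRingHom (0 : L))
    (by rw [hd0]; exact isUnit_one)
  let e1 : O →+* L := IsLocalization.Away.lift δ (g := evalRingHom (1 : L)) hd1
  have he0 : ∀ p : L[X], e0 (jO p) = evalRingHom (0 : L) p := fun p =>
    IsLocalization.Away.lift_eq δ _ p
  have he1 : ∀ p : L[X], e1 (jO p) = evalRingHom (1 : L) p := fun p =>
    IsLocalization.Away.lift_eq δ _ p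
  have he0K : ∀ r : K, e0 (algebraMap K O r) = algebraMap K L r := by
    intro r
    rw [← hjK, he0]
    simp [Polynomial.algebraMap_apply]
  have he1K : ∀ r : K, e1 (algebraMap K O r) = algebraMap K L r := by
    intro r
    rw [← hjK, he1]
    simp [Polynomial.algebraMap_apply]
  have h0 := congrArg e0 hj
  have h1 := congrArg e1 hj
  rw [spz_hom e0 he0K] at h0
  rw [spz_hom e1 he1K] at h1
  have hj0 : ∀ x : L, e0 (j1 x) = x := by
    intro x; show e0 (jO (C x)) = x; rw [he0]; simp
  have hj1 : ∀ x : L, e1 (j1 x) = x := by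
    intro x; show e1 (jO (C x)) = x; rw [he1]; simp
  rw [hj0] at h0
  rw [hj1] at h1
  have hMO0 : MO.map e0 = 1 := by
    rw [← hM0, hMO]
    ext a b
    simp only [Matrix.map_apply]
    exact he0 _
  have hMO1 : MO.map e1 = P := by
    rw [← hM1, hMO]
    ext a b
    simp only [Matrix.map_apply]
    exact he1 _
  have hY0 : (fun s => (Y s).map e0) = W := by
    funext s
    have e : MO.map e0 * (MO⁻¹).map e0 = 1 := by
      rw [← Matrix.map_mul, hMM]; exact Matrix.map_one _ (map_zero _) (map_one _)
    rw [hMO0, one_mul] at e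
    have e2 : (W' s).map e0 = W s := by
      ext a b
      simp only [hW', Matrix.map_apply]
      exact hj0 _
    show (MO * W' s * MO⁻¹).map e0 = W s
    rw [Matrix.map_mul, Matrix.map_mul, hMO0, e, e2, one_mul, mul_one]
  have hY1 : (fun s => (Y s).map e1) = fun s => P * W s * Q := by
    funext s
    have e : MO.map e1 * (MO⁻¹).map e1 = 1 := by
      rw [← Matrix.map_mul, hMM]; exact Matrix.map_one _ (map_zero _) (map_one _)
    rw [hMO1] at e
    have e3 : (MO⁻¹).map e1 = Q := by
      have hQP : Q * P = 1 := mul_eq_one_comm.mp hPQ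
      calc (MO⁻¹).map e1 = Q * (P * (MO⁻¹).map e1) := by rw [← mul_assoc, hQP, one_mul]
        _ = Q := by rw [e, mul_one]
    have e2 : (W' s).map e1 = W s := by
      ext a b
      simp only [hW', Matrix.map_apply]
      exact hj1 _
    show (MO * W' s * MO⁻¹).map e1 = P * W s * Q
    rw [Matrix.map_mul, Matrix.map_mul, hMO1, e3, e2]
  rw [hY0] at h0
  rw [hY1] at h1
  rw [h0, h1]

end Pool.Agent.J4H41.NC
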