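import Mathlib
import Pool.Agent.J4H41.NC.Inv
import Pool.Agent.TH82.NC.Dom

/-!
If the characteristic polynomial of the value of a noncommutative polynomial at the generic
matrices splits into linear factors, then this value is a scalar matrix; if its determinant
vanishes then the value is zero.
-/

set_option autoImplicit false

namespace Pool.Agent.J4H41.NC

open Matrix Polynomial Pool.Agent.H552R3.PC Pool.Agent.TH82.NC

section Cancel

variable {K : Type*} [Field K] {N : ℕ} [NeZero N] {A : Type*} [CommRing A] [IsDomain A]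
  [Algebra K A]

theorem left_cancel (τ : A →ₐ[K] A) (hτ : Function.Injective τ)
    {P R : Matrix (Fin N) (Fin N) A[X]} (hP : matPolyEquiv P ∈ S (K := K) τ) (h : P * R = 0) :
    P = 0 ∨ R = 0 := by
  by_contra hne
  push Not at hne
  set q := matPolyEquiv P with hq
  set q' := matPolyEquiv R with hq'
  have hq0 : q ≠ 0 := fun e => hne.1 ((EmbeddingLike.map_eq_zero_iff (f := matPolyEquiv
    (n := Fin N) (R := A))).mp e)
  have hq'0 : q' ≠ 0 := fun e => hne.2 ((EmbeddingLike.map_eq_zero_iff (f := matPolyEquiv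
    (n := Fin N) (R := A))).mp e)
  have h1 : q.leadingCoeff ≠ 0 := leadingCoeff_ne_zero.mpr hq0
  have h2 : q'.leadingCoeff ≠ 0 := leadingCoeff_ne_zero.mpr hq'0
  have h3 := coeff_mul_degree_add_degree q q'
  have h4 : q * q' = 0 := by rw [hq, hq', ← map_mul, h, map_zero]
  rw [h4, coeff_zero] at h3
  obtain ⟨l, k, hlk⟩ : ∃ l k, q'.leadingCoeff l k ≠ 0 := by
    by_contra hcon
    push Not at hcon
    exact h2 (by ext1 a b; exact hcon a b)
  set d := q.natDegree with hd
  have hW := hP d
  have hne2 := W_ne (τ : A →+* A) hτ hW h1 (l - d • (1 : Fin N))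
  have e1 := congrFun (congrFun h3 (l - d • (1 : Fin N))) k
  rw [mul_apply, Finset.sum_eq_single l] at e1
  · rw [sub_add_cancel] at hne2
    exact mul_ne_zero hne2 hlk e1.symm
  · intro b _ hb
    have : q.leadingCoeff (l - d • (1 : Fin N)) b = 0 := by
      by_contra hcon
      apply hb
      have := hW.1 _ _ hcon
      rw [sub_add_cancel] at this
      exact this
    rw [this, zero_mul]
  · intro h1; exact absurd (Finset.mem_univ _) h1

theorem det_ne_zero (τ : A →ₐ[K] A) (hτ : Function.Injective τ)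
    {P : Matrix (Fin N) (Fin N) A[X]} (hP : matPolyEquiv P ∈ S (K := K) τ) (h : P.det = 0) :
    P = 0 := by
  obtain ⟨v, hv0, hv⟩ := Matrix.exists_mulVec_eq_zero_iff.mpr h
  set R : Matrix (Fin N) (Fin N) A[X] := Matrix.of fun k _ => v k with hR
  have hPR : P * R = 0 := by
    ext1 j l
    exact congrFun hv j
  rcases left_cancel τ hτ hP hPR with h1 | h1
  · exact h1
  · exfalso
    apply hv0
    funext k
    have := congrFun (congrFun h1 k) 0
    exact this

end Cancel

section Gen

variable {K : Type*} [Field K] {σ : Type*} {N : ℕ} [NeZero N]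

theorem lift_V_mem (g : FreeAlgebra K σ) :
    matPolyEquiv (FreeAlgebra.lift K (V K σ N) g) ∈ S (K := K) (sh K σ N) := by
  let Φ : Matrix (Fin N) (Fin N) (GA K σ N)[X] →ₐ[K] (Matrix (Fin N) (Fin N) (GA K σ N))[X] :=
    (matPolyEquiv (n := Fin N) (R := GA K σ N)).toAlgHom.restrictScalars K
  have h1 : Φ (FreeAlgebra.lift K (V K σ N) g) ∈ S (K := K) (sh K σ N) := by
    rw [lift_map]
    exact lift_mem _ _ (fun i => V_mem N i) g
  exact h1

/-- Specialisation of `V` to the generic matrices. -/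
theorem V_one (K : Type*) [Field K] (σ : Type*) (N : ℕ) [NeZero N] (s : σ) :
    (V K σ N s).map (evalRingHom (1 : GA K σ N)) = gen K σ N s := by
  ext1 j k
  simp [V, gen]

theorem lift_gen_of_V (g : FreeAlgebra K σ) :
    (FreeAlgebra.lift K (V K σ N) g).map (evalRingHom (1 : GA K σ N)) =
      FreeAlgebra.lift K (gen K σ N) g := by
  rw [lift_hom (evalRingHom (1 : GA K σ N)) (fun r => by simp [Polynomial.algebraMap_apply])]
  congr 2
  funext s
  exact V_one K σ N s

theorem zero_of_det (g : FreeAlgebra K σ) (h : (FreeAlgebra.lift K (gen K σ N) g).det = 0) :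
    FreeAlgebra.lift K (gen K σ N) g = 0 := by
  have h1 : (FreeAlgebra.lift K (V K σ N) g).det = 0 := by
    rw [← spz_gen (V K σ N) g, AlgHom.mapMatrix_apply]
    have := RingHom.map_det ((spz (V K σ N) : GA K σ N →ₐ[K] (GA K σ N)[X]) :
      GA K σ N →+* (GA K σ N)[X]) (FreeAlgebra.lift K (gen K σ N) g)
    rw [h, map_zero] at this
    exact this.symm
  have h2 := det_ne_zero (sh K σ N) (sh_inj N) (lift_V_mem g) h1
  rw [← lift_gen_of_V, h2]
  exact Matrix.map_zero _ (map_zero _)

/-- The roots at `V` are invariant under the shift. -/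
theorem root_shift (g : FreeAlgebra K σ) (ρ : Fin N → GA K σ N)
    (hρ : (FreeAlgebra.lift K (gen K σ N) g).charpoly = ∏ i, (X - C (ρ i))) (i : Fin N) :
    (spz (V K σ N) (ρ i)).map (sh K σ N : GA K σ N →+* GA K σ N) = spz (V K σ N) (ρ i) := by
  classical
  set L := FractionRing (GA K σ N)[X] with hL
  set ι : (GA K σ N)[X] →+* L := algebraMap (GA K σ N)[X] L with hι
  have hinj : Function.Injective ι := IsFractionRing.injective (GA K σ N)[X] L
  have hιK : ∀ r : K, ι (algebraMap K (GA K σ N)[X] r) = algebraMap K L r := fun r =>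
    (IsScalarTower.algebraMap_apply K (GA K σ N)[X] L r).symm
  apply hinj
  set τ' : (GA K σ N)[X] →+* (GA K σ N)[X] :=
    Polynomial.mapRingHom (sh K σ N : GA K σ N →+* GA K σ N) with hτ'
  have e1 : (spz (V K σ N) (ρ i)).map (sh K σ N : GA K σ N →+* GA K σ N) =
      τ' (spz (V K σ N) (ρ i)) := rfl
  have hτK : ∀ r : K, τ' (algebraMap K (GA K σ N)[X] r) = algebraMap K (GA K σ N)[X] r := by
    intro r
    simp [hτ', Polynomial.algebraMap_apply]
  rw [e1, spz_hom τ' hτK, spz_hom ι hιK, spz_hom ι hιK]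
  set P : Matrix (Fin N) (Fin N) L := Matrix.of fun j l => if l = j + 1 then 1 else 0 with hP
  set Q : Matrix (Fin N) (Fin N) L := Matrix.of fun l k => if l = k + 1 then 1 else 0 with hQ
  have hPQ : P * Q = 1 := by
    ext1 j k
    rw [Matrix.mul_apply, Finset.sum_eq_single (j + 1)]
    · by_cases h : j = k
      · subst h; simp [hP, hQ]
      · simp [hP, hQ, h]
    · intro b _ hb
      simp [hP, hb]
    · intro h; exact absurd (Finset.mem_univ _) h
  rw [← conj_inv g ρ hρ (fun s => (V K σ N s).map ι) P Q hPQ i]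
  congr 2
  funext s
  ext1 j k
  have h3 : (P * (V K σ N s).map ι * Q) j k = ι (V K σ N s (j + 1) (k + 1)) := by
    rw [Matrix.mul_apply, Finset.sum_eq_single (k + 1)]
    · rw [Matrix.mul_apply, Finset.sum_eq_single (j + 1)]
      · simp [hP, hQ]
      · intro b _ hb
        simp [hP, hb]
      · intro h; exact absurd (Finset.mem_univ _) h
    · intro b _ hb
      simp [hQ, hb]
    · intro h; exact absurd (Finset.mem_univ _) h
  rw [h3]
  simp [V, hτ', sh]

/-- The roots at `V` are polynomials in `X ^ N`. -/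
theorem root_expand (g : FreeAlgebra K σ) (ρ : Fin N → GA K σ N)
    (hρ : (FreeAlgebra.lift K (gen K σ N) g).charpoly = ∏ i, (X - C (ρ i))) (i : Fin N) :
    ∃ u : (GA K σ N)[X], spz (V K σ N) (ρ i) = expand (GA K σ N) N u := by
  classical
  set L := FractionRing (GA K σ N)[X] with hL
  set ι : (GA K σ N)[X] →+* L := algebraMap (GA K σ N)[X] L with hι
  have hinj : Function.Injective ι := IsFractionRing.injective (GA K σ N)[X] L
  have hιK : ∀ r : K, ι (algebraMap K (GA K σ N)[X] r) = algebraMap K L r := fun r =>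
    (IsScalarTower.algebraMap_apply K (GA K σ N)[X] L r).symm
  set U : σ → Matrix (Fin N) (Fin N) (GA K σ N)[X] := fun s => Matrix.of fun j k =>
    C (MvPolynomial.X (s, j, k)) * X ^ (if k < j then 1 else 0) with hU
  refine ⟨spz U (ρ i), ?_⟩
  set ex : (GA K σ N)[X] →+* (GA K σ N)[X] :=
    ((expand (GA K σ N) N : (GA K σ N)[X] →ₐ[GA K σ N] (GA K σ N)[X]) :
      (GA K σ N)[X] →+* (GA K σ N)[X]) with hex
  have hexK : ∀ r : K, ex (algebraMap K (GA K σ N)[X] r) = algebraMap K (GA K σ N)[X] r := by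
    intro r
    simp [hex, Polynomial.algebraMap_apply]
  have e1 : expand (GA K σ N) N (spz U (ρ i)) = ex (spz U (ρ i)) := rfl
  rw [e1, spz_hom ex hexK]
  apply hinj
  rw [spz_hom ι hιK, spz_hom ι hιK]
  set x : L := ι X with hx
  have hx0 : x ≠ 0 := (map_ne_zero_iff ι hinj).mpr X_ne_zero
  set P : Matrix (Fin N) (Fin N) L := Matrix.diagonal fun j => x ^ (j : ℕ) with hP
  set Q : Matrix (Fin N) (Fin N) L := Matrix.diagonal fun j => (x⁻¹) ^ (j : ℕ) with hQ
  have hPQ : P * Q = 1 := by
    rw [hP, hQ, Matrix.diagonal_mul_diagonal, ← Matrix.diagonal_one]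
    congr 1
    funext j
    rw [← mul_pow, mul_inv_cancel₀ hx0, one_pow]
  rw [← conj_inv g ρ hρ (fun s => (V K σ N s).map ι) P Q hPQ i]
  congr 2
  funext s
  ext1 j k
  rw [hP, hQ, Matrix.mul_diagonal, Matrix.diagonal_mul]
  simp only [Matrix.map_apply, V, hU, Matrix.of_apply, map_mul, map_pow, hex]
  rw [← hx]
  have e2 : ((expand (GA K σ N) N : (GA K σ N)[X] →ₐ[GA K σ N] (GA K σ N)[X]) :
      (GA K σ N)[X] →+* (GA K σ N)[X]) (C (MvPolynomial.X (s, j, k))) =
      C (MvPolynomial.X (s, j, k)) := by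
    simp
  have e3 : ((expand (GA K σ N) N : (GA K σ N)[X] →ₐ[GA K σ N] (GA K σ N)[X]) :
      (GA K σ N)[X] →+* (GA K σ N)[X]) X = X ^ N := by
    simp
  rw [e2, e3, map_pow, ← hx]
  by_cases hjk : k < j
  · rw [if_pos hjk, pow_one, Fin.coe_sub_iff_lt.mpr hjk]
    have hle : (j : ℕ) ≤ N + k := by have := j.2; omega
    have e4 : x ^ (j : ℕ) * x ^ (N + (k : ℕ) - (j : ℕ)) = x ^ N * x ^ (k : ℕ) := by
      rw [← pow_add, ← pow_add]; congr 1; omega
    calc x ^ (j : ℕ) * (ι (C (MvPolynomial.X (s, j, k))) * x ^ (N + (k : ℕ) - (j : ℕ))) *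
          x⁻¹ ^ (k : ℕ)
        = ι (C (MvPolynomial.X (s, j, k))) * (x ^ (j : ℕ) * x ^ (N + (k : ℕ) - (j : ℕ))) *
          x⁻¹ ^ (k : ℕ) := by ring
      _ = ι (C (MvPolynomial.X (s, j, k))) * x ^ N * (x * x⁻¹) ^ (k : ℕ) := by
          rw [e4, mul_pow]; ring
      _ = _ := by rw [mul_inv_cancel₀ hx0, one_pow, mul_one]
  · rw [if_neg hjk, pow_zero, mul_one, Fin.coe_sub_iff_le.mpr (not_lt.mp hjk)]
    have hle : (j : ℕ) ≤ k := not_lt.mp hjk
    have e4 : x ^ (j : ℕ) * x ^ ((k : ℕ) - (j : ℕ)) = x ^ (k : ℕ) := by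
      rw [← pow_add]; congr 1; omega
    calc x ^ (j : ℕ) * (ι (C (MvPolynomial.X (s, j, k))) * x ^ ((k : ℕ) - (j : ℕ))) *
          x⁻¹ ^ (k : ℕ)
        = ι (C (MvPolynomial.X (s, j, k))) * (x ^ (j : ℕ) * x ^ ((k : ℕ) - (j : ℕ))) *
          x⁻¹ ^ (k : ℕ) := by ring
      _ = ι (C (MvPolynomial.X (s, j, k))) * (x * x⁻¹) ^ (k : ℕ) := by
          rw [e4, mul_pow]; ring
      _ = _ := by rw [mul_inv_cancel₀ hx0, one_pow, mul_one]

theorem scalar_mem (g : FreeAlgebra K σ) (ρ : Fin N → GA K σ N)
    (hρ : (FreeAlgebra.lift K (gen K σ N) g).charpoly = ∏ i, (X - C (ρ i))) (i : Fin N) :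
    matPolyEquiv (Matrix.scalar (Fin N) (spz (V K σ N) (ρ i))) ∈ S (K := K) (sh K σ N) := by
  intro d
  obtain ⟨u, hu⟩ := root_expand g ρ hρ i
  have hsh := root_shift g ρ hρ i
  constructor
  · intro j k h
    rw [matPolyEquiv_coeff_apply, Matrix.scalar_apply] at h
    by_cases hjk : j = k
    · subst hjk
      rw [Matrix.diagonal_apply_eq, hu, coeff_expand (NeZero.pos N)] at h
      have hd : N ∣ d := by
        by_contra hcon
        rw [if_neg hcon] at h
        exact h rfl
      have : d • (1 : Fin N) = 0 := by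
        apply Fin.ext
        rw [nsmul_one_val, Nat.mod_eq_zero_of_dvd hd]
        rfl
      rw [this, add_zero]
    · rw [Matrix.diagonal_apply_ne _ hjk, coeff_zero] at h
      exact absurd rfl h
  · intro j k
    rw [matPolyEquiv_coeff_apply, matPolyEquiv_coeff_apply, Matrix.scalar_apply]
    by_cases hjk : j = k
    · subst hjk
      rw [Matrix.diagonal_apply_eq, Matrix.diagonal_apply_eq]
      conv_lhs => rw [← hsh]
      rw [coeff_map]
    · rw [Matrix.diagonal_apply_ne _ hjk,
        Matrix.diagonal_apply_ne _ (fun e => hjk (add_right_cancel e)), coeff_zero, map_zero]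

/-- If the characteristic polynomial of the value at the generic matrices splits, the value is a
scalar matrix. -/
theorem scalar_of_splits (g : FreeAlgebra K σ) (ρ : Fin N → GA K σ N)
    (hρ : (FreeAlgebra.lift K (gen K σ N) g).charpoly = ∏ i, (X - C (ρ i))) :
    ∃ r : GA K σ N, FreeAlgebra.lift K (gen K σ N) g = Matrix.scalar (Fin N) r := by
  classical
  set P := FreeAlgebra.lift K (V K σ N) g with hP
  set r : Fin N → (GA K σ N)[X] := fun i => spz (V K σ N) (ρ i) with hr
  have hcp : P.charpoly = ∏ i, (X - C (r i)) := charpoly_at g ρ hρ (V K σ N)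
  by_cases hall : ∃ i, P = Matrix.scalar (Fin N) (r i)
  · obtain ⟨i, hi⟩ := hall
    refine ⟨(r i).eval 1, ?_⟩
    rw [← lift_gen_of_V, ← hP, hi]
    ext1 a b
    by_cases hab : a = b
    · subst hab; simp
    · simp [hab]
  · exfalso
    push Not at hall
    have hne : ∀ s : Finset (Fin N), Polynomial.aeval P (∏ i ∈ s, (X - C (r i))) ≠ 0 := by
      intro s
      induction s using Finset.induction_on with
      | empty =>
        rw [Finset.prod_empty, map_one]
        exact one_ne_zero
      | insert a s ha ih =>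
        rw [Finset.prod_insert ha, map_mul]
        have hfac : Polynomial.aeval P (X - C (r a)) = P - Matrix.scalar (Fin N) (r a) := by
          have e : Polynomial.aeval P (X - C (r a)) =
              Polynomial.aeval P X - Polynomial.aeval P (C (r a)) :=
            _root_.map_sub (Polynomial.aeval (R := (GA K σ N)[X]) P) X (C (r a))
          rw [e, Polynomial.aeval_X, Polynomial.aeval_C]
          rfl
        intro h0
        have hmem : matPolyEquiv (Polynomial.aeval P (X - C (r a))) ∈
            S (K := K) (sh K σ N) := by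
          rw [hfac, map_sub]
          exact Subalgebra.sub_mem _ (lift_V_mem g) (scalar_mem g ρ hρ a)
        rcases left_cancel (sh K σ N) (sh_inj N) hmem h0 with h1 | h1
        · rw [hfac] at h1
          exact hall a (sub_eq_zero.mp h1)
        · exact ih h1
    apply hne Finset.univ
    rw [← hcp]
    exact Matrix.aeval_self_charpoly P

end Gen

end Pool.Agent.J4H41.NC
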