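import Mathlib
import Pool.Agent.J4H41.NC.Spl
import Pool.Agent.J4H41.NC.Loc
import Pool.Agent.H552R3.PC.DegBd

/-!
A polynomial commuting with a polynomial whose values on `(N + 1) × (N + 1)` matrices have the
characteristic polynomial `x ^ (N + 1) - c` is scalar valued on `N × N` matrices: generic part, for
fields containing a primitive root of unity of order `N + 1`.
-/

set_option autoImplicit false

namespace Pool.Agent.J4H41.NC

open Matrix Polynomial Pool.Agent.H552R3.PC

section Blk

variable {K : Type*} [Field K] {σ : Type*} {N : ℕ}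

/-- The block matrix with blocks `M` and `0`. -/
def blk {B : Type*} [CommRing B] (M : Matrix (Fin N) (Fin N) B) :
    Matrix (Fin (N + 1)) (Fin (N + 1)) B :=
  Matrix.reindex finSumFinEquiv finSumFinEquiv (fromBlocks M 0 0 (0 : Matrix (Fin 1) (Fin 1) B))

theorem lift_fb {B : Type*} [CommRing B] [Algebra K B] (Y : σ → Matrix (Fin N) (Fin N) B)
    (f : FreeAlgebra K σ) :
    FreeAlgebra.lift K (fun s => fromBlocks (Y s) 0 0 (0 : Matrix (Fin 1) (Fin 1) B)) f =
      fromBlocks (FreeAlgebra.lift K Y f) 0 0
        (FreeAlgebra.lift K (fun _ => (0 : Matrix (Fin 1) (Fin 1) B)) f) := by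
  induction f using FreeAlgebra.induction with
  | grade0 r =>
    rw [AlgHom.commutes, AlgHom.commutes, AlgHom.commutes]
    ext a b
    rcases a with a | a <;> rcases b with b | b <;> simp [algebraMap_matrix_apply]
  | grade1 x =>
    rw [FreeAlgebra.lift_ι_apply, FreeAlgebra.lift_ι_apply, FreeAlgebra.lift_ι_apply]
  | mul f g hf hg =>
    rw [map_mul, hf, hg, fromBlocks_multiply, map_mul, map_mul]
    simp
  | add f g hf hg =>
    rw [map_add, hf, hg, fromBlocks_add, map_add, map_add]
    simp

/-- The constant term. -/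
noncomputable def ct (f : FreeAlgebra K σ) : K := FreeAlgebra.lift K (fun _ : σ => (0 : K)) f

theorem lift_z {A : Type*} [Ring A] [Algebra K A] (f : FreeAlgebra K σ) :
    FreeAlgebra.lift K (fun _ : σ => (0 : A)) f = algebraMap K A (ct f) := by
  have := lift_map (Algebra.ofId K A) (fun _ : σ => (0 : K)) f
  rw [Algebra.ofId_apply] at this
  rw [ct, this]
  congr 2
  funext i
  simp

theorem charpoly_blk {B : Type*} [CommRing B] [Algebra K B]
    (Y : σ → Matrix (Fin N) (Fin N) B) (f : FreeAlgebra K σ) :
    (FreeAlgebra.lift K (fun s => blk (Y s)) f).charpoly =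
      (FreeAlgebra.lift K Y f).charpoly * (X - C (algebraMap K B (ct f))) := by
  have h1 : FreeAlgebra.lift K (fun s => blk (Y s)) f =
      Matrix.reindex finSumFinEquiv finSumFinEquiv (FreeAlgebra.lift K
        (fun s => fromBlocks (Y s) 0 0 (0 : Matrix (Fin 1) (Fin 1) B)) f) := by
    have := lift_map ((Matrix.reindexAlgEquiv K B (finSumFinEquiv (m := N) (n := 1)) :
      Matrix (Fin N ⊕ Fin 1) (Fin N ⊕ Fin 1) B ≃ₐ[K] Matrix (Fin (N + 1)) (Fin (N + 1)) B) :
      Matrix (Fin N ⊕ Fin 1) (Fin N ⊕ Fin 1) B →ₐ[K] Matrix (Fin (N + 1)) (Fin (N + 1)) B)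
      (fun s => fromBlocks (Y s) 0 0 (0 : Matrix (Fin 1) (Fin 1) B)) f
    exact this.symm
  rw [h1, Matrix.charpoly_reindex, lift_fb, Matrix.charpoly_fromBlocks_zero₁₂]
  congr 1
  rw [lift_z]
  have h2 : algebraMap K (Matrix (Fin 1) (Fin 1) B) (ct f) =
      Matrix.diagonal (fun _ => algebraMap K B (ct f)) := by
    ext a b
    rw [Subsingleton.elim a b]
    simp [algebraMap_matrix_apply]
  rw [h2, Matrix.charpoly_diagonal]
  simp

end Blk

section Cancel

theorem prod_cancel {B : Type*} [CommRing B] [IsDomain B] {N : ℕ} (p : B[X]) (a : B)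
    (α : Fin (N + 1) → B) (h : p * (X - C a) = ∏ i, (X - C (α i))) :
    ∃ β : Fin N → B, p = ∏ i, (X - C (β i)) := by
  have h1 := congrArg (Polynomial.eval a) h
  rw [eval_mul, eval_sub, eval_X, eval_C, sub_self, mul_zero, eval_prod] at h1
  obtain ⟨i, -, hi⟩ := Finset.prod_eq_zero_iff.mp h1.symm
  rw [eval_sub, eval_X, eval_C, sub_eq_zero] at hi
  refine ⟨fun j => α (i.succAbove j), ?_⟩
  rw [Fin.prod_univ_succAbove _ i, ← hi, mul_comm] at h
  exact mul_left_cancel₀ (X_sub_C_ne_zero a) h

theorem descend {R F : Type*} [CommRing R] [IsDomain R] [IsIntegrallyClosed R] [Field F]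
    [Algebra R F] [IsFractionRing R F] {N : ℕ} (p : R[X]) (hp : p.Monic) (β : Fin N → F)
    (h : p.map (algebraMap R F) = ∏ i, (X - C (β i))) :
    ∃ b : Fin N → R, p = ∏ i, (X - C (b i)) := by
  have hint : ∀ i, ∃ b : R, algebraMap R F b = β i := by
    intro i
    have h2 : IsIntegral R (β i) := by
      refine ⟨p, hp, ?_⟩
      rw [← Polynomial.eval_map, h, Polynomial.eval_prod]
      exact Finset.prod_eq_zero (Finset.mem_univ i) (by simp)
    exact IsIntegrallyClosed.isIntegral_iff.mp h2
  choose b hb using hint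
  refine ⟨b, ?_⟩
  apply Polynomial.map_injective _ (IsFractionRing.injective R F)
  rw [h, Polynomial.map_prod]
  refine Finset.prod_congr rfl fun i _ => ?_
  rw [Polynomial.map_sub, Polynomial.map_X, Polynomial.map_C, hb]

end Cancel

section Main

variable {K : Type*} [Field K] {σ : Type*} {N : ℕ}

/-- Coordinates of two families of generic matrices, of sizes `N` and `N + 1`. -/
abbrev R2 (K : Type*) [Field K] (σ : Type*) (N : ℕ) :=
  MvPolynomial ((σ × Fin N × Fin N) ⊕ (σ × Fin (N + 1) × Fin (N + 1))) K

noncomputable def Yg (K : Type*) [Field K] (σ : Type*) (N : ℕ) (s : σ) :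
    Matrix (Fin N) (Fin N) (R2 K σ N) :=
  Matrix.of fun j k => MvPolynomial.X (Sum.inl (s, j, k))

noncomputable def xg (K : Type*) [Field K] (σ : Type*) (N : ℕ) (s : σ) :
    Matrix (Fin (N + 1)) (Fin (N + 1)) (R2 K σ N) :=
  Matrix.of fun j k => MvPolynomial.X (Sum.inr (s, j, k))

/-- The line through the block matrix and the generic matrix. -/
noncomputable def Tg (K : Type*) [Field K] (σ : Type*) (N : ℕ) (s : σ) :
    Matrix (Fin (N + 1)) (Fin (N + 1)) (R2 K σ N)[X] :=
  (blk (Yg K σ N s)).map C + (X : (R2 K σ N)[X]) • (xg K σ N s).map C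

theorem blk_map {B D : Type*} [CommRing B] [CommRing D] (φ : B →+* D)
    (M : Matrix (Fin N) (Fin N) B) : (blk M).map φ = blk (M.map φ) := by
  unfold blk
  ext a b
  rw [Matrix.map_apply, Matrix.reindex_apply, Matrix.reindex_apply, Matrix.submatrix_apply,
    Matrix.submatrix_apply]
  rcases finSumFinEquiv.symm a with a' | a' <;> rcases finSumFinEquiv.symm b with b' | b' <;> simp

theorem main_generic [Infinite K] (hN : 0 < N) {ζ : K} (hζ : IsPrimitiveRoot ζ (N + 1))
    (f g : FreeAlgebra K σ)
    (hch : ∀ X : σ → Matrix (Fin (N + 1)) (Fin (N + 1)) K,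
      ∃ c : K, (FreeAlgebra.lift K X f).charpoly = Polynomial.X ^ (N + 1) - Polynomial.C c)
    (hne : ∃ X : σ → Matrix (Fin (N + 1)) (Fin (N + 1)) K, (FreeAlgebra.lift K X f).det ≠ 0)
    (hfg : ∀ X : σ → Matrix (Fin (N + 1)) (Fin (N + 1)) K,
      FreeAlgebra.lift K X (f * g - g * f) = 0) :
    ∃ r : GA K σ N, FreeAlgebra.lift K (gen K σ N) g = Matrix.scalar (Fin N) r := by
  classical
  have : NeZero N := ⟨hN.ne'⟩
  set R := R2 K σ N with hR
  set k0 := FractionRing R with hk0
  set ι : R →+* k0 := algebraMap R k0 with hι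
  have hιinj : Function.Injective ι := IsFractionRing.injective R k0
  -- the characteristic polynomial
  obtain ⟨c0, hc0⟩ : ∃ c0 : R[X], (FreeAlgebra.lift K (Tg K σ N) f).charpoly =
      X ^ (N + 1) - C c0 := by
    have hco : ∀ i, 0 < i → i < N + 1 →
        (FreeAlgebra.lift K (Tg K σ N) f).charpoly.coeff i = 0 := by
      intro i hi hiN
      apply transfer_charpoly
      intro X
      obtain ⟨c, hc⟩ := hch X
      rw [hc, coeff_sub, coeff_X_pow, coeff_C, if_neg (by omega), if_neg (by omega), sub_self]
    refine ⟨-(FreeAlgebra.lift K (Tg K σ N) f).charpoly.coeff 0, ?_⟩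
    have hdeg : (FreeAlgebra.lift K (Tg K σ N) f).charpoly.natDegree = N + 1 := by
      rw [Matrix.charpoly_natDegree_eq_dim, Fintype.card_fin]
    have hmon := Matrix.charpoly_monic (FreeAlgebra.lift K (Tg K σ N) f)
    ext1 i
    rw [Polynomial.coeff_sub, Polynomial.coeff_X_pow, Polynomial.coeff_C]
    rcases Nat.eq_zero_or_pos i with rfl | hi
    · rw [if_neg (by omega), if_pos rfl]; ring
    · rw [if_neg hi.ne', sub_zero]
      rcases lt_trichotomy i (N + 1) with h1 | h1 | h1
      · rw [hco i hi h1, if_neg h1.ne]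
      · rw [if_pos h1, h1]
        rw [Polynomial.Monic, Polynomial.leadingCoeff, hdeg] at hmon
        exact hmon
      · rw [if_neg h1.ne']
        exact Polynomial.coeff_eq_zero_of_natDegree_lt (by rw [hdeg]; exact h1)
  have hc00 : c0 ≠ 0 := by
    rintro rfl
    obtain ⟨X0, hX0⟩ := hne
    apply hX0
    have hdet : (FreeAlgebra.lift K (Tg K σ N) f).det = 0 := by
      rw [Matrix.det_eq_sign_charpoly_coeff, hc0, coeff_sub, coeff_X_pow,
        if_neg (by omega), map_zero, coeff_zero, sub_zero, mul_zero]
    let θ : R →ₐ[K] K := MvPolynomial.aeval (Sum.elim (fun _ => 0) (fun p => X0 p.1 p.2.1 p.2.2))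
    let e : R[X] →+* K := (θ : R →+* K).comp (evalRingHom (1 : R))
    have heK : ∀ r : K, e (algebraMap K R[X] r) = algebraMap K K r := by
      intro r
      simp [e, Polynomial.algebraMap_apply]
    have hT : (fun s => (Tg K σ N s).map e) = X0 := by
      funext s
      ext1 a b
      have h1 : (blk (Yg K σ N s)).map (θ : R →+* K) = 0 := by
        rw [blk_map]
        have : (Yg K σ N s).map (θ : R →+* K) = 0 := by
          ext1 j k
          exact MvPolynomial.aeval_X _ _
        rw [this]
        unfold blk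
        ext1 j k
        simp
      have h2 := congrFun (congrFun h1 a) b
      simp only [Matrix.map_apply, Matrix.zero_apply] at h2
      simp only [Tg, Matrix.map_apply, Matrix.add_apply, Matrix.smul_apply, smul_eq_mul, e,
        RingHom.comp_apply, coe_evalRingHom, eval_add, eval_mul, eval_C, eval_X, one_mul, map_add]
      rw [h2, zero_add]
      exact MvPolynomial.aeval_X _ _
    have h3 := lift_hom e heK (Tg K σ N) f
    rw [hT] at h3
    rw [← h3, ← RingHom.mapMatrix_apply, ← RingHom.map_det, hdet, map_zero]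
  -- power series
  let j : R[X] →+* PowerSeries k0 :=
    (PowerSeries.map ι).comp (Polynomial.coeToPowerSeries.ringHom)
  have hjinj : Function.Injective j := by
    intro p q hpq
    have h1 : PowerSeries.map ι (p : PowerSeries R) = PowerSeries.map ι (q : PowerSeries R) := hpq
    have h2 : (p : PowerSeries R) = (q : PowerSeries R) := by
      refine PowerSeries.ext fun i => ?_
      have h3 := congrArg (PowerSeries.coeff i) h1
      rw [PowerSeries.coeff_map, PowerSeries.coeff_map] at h3
      exact hιinj h3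
    exact Polynomial.coe_injective R h2
  have hccj : (PowerSeries.constantCoeff (R := k0)).comp j = ι.comp (evalRingHom (0 : R)) := by
    apply RingHom.ext
    intro p
    show PowerSeries.constantCoeff (PowerSeries.map ι (p : PowerSeries R)) = ι (p.eval 0)
    rw [← PowerSeries.coeff_zero_eq_constantCoeff_apply, PowerSeries.coeff_map,
      Polynomial.coeff_coe, Polynomial.coeff_zero_eq_eval_zero]
  set F := (FreeAlgebra.lift K (Tg K σ N) f).map j with hF
  set A := (FreeAlgebra.lift K (Tg K σ N) g).map j with hA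
  have hFA : F * A = A * F := by
    rw [hF, hA, ← Matrix.map_mul, ← Matrix.map_mul, ← map_mul, ← map_mul]
    have := transfer (f * g - g * f) hfg (Tg K σ N)
    rw [map_sub, sub_eq_zero] at this
    rw [this]
  have hFc : F.charpoly = X ^ (N + 1) - C (j c0) := by
    rw [hF, ← RingHom.mapMatrix_apply, RingHom.mapMatrix_apply, Matrix.charpoly_map, hc0,
      Polynomial.map_sub, Polynomial.map_pow, Polynomial.map_X, Polynomial.map_C]
  have hjc : j c0 ≠ 0 := (map_ne_zero_iff j hjinj).mpr hc00
  have hA0 : A.map (PowerSeries.constantCoeff (R := k0)) =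
      (FreeAlgebra.lift K (fun s => blk (Yg K σ N s)) g).map ι := by
    have h1 : A.map (PowerSeries.constantCoeff (R := k0)) =
        ((FreeAlgebra.lift K (Tg K σ N) g).map (evalRingHom (0 : R))).map ι := by
      rw [hA, Matrix.map_map, Matrix.map_map, ← RingHom.coe_comp, ← RingHom.coe_comp, hccj]
    rw [h1, lift_hom (evalRingHom (0 : R)) (fun r => by simp [Polynomial.algebraMap_apply])]
    congr 3
    funext s
    ext1 a b
    simp [Tg]
  set χ := (FreeAlgebra.lift K (Yg K σ N) g).charpoly with hχ
  set a : R := algebraMap K R (ct g) with ha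
  have hcpA : (A.map (PowerSeries.constantCoeff (R := k0))).charpoly =
      (χ * (X - C a)).map ι := by
    rw [hA0, Matrix.charpoly_map, charpoly_blk]
  -- specialisation to the generic matrices of size `N`
  let θ : R →ₐ[K] GA K σ N := MvPolynomial.aeval (Sum.elim (fun p => MvPolynomial.X p) (fun _ => 0))
  have hθK : ∀ r : K, (θ : R →+* GA K σ N) (algebraMap K R r) = algebraMap K (GA K σ N) r :=
    fun r => θ.commutes r
  have hY : (fun s => (Yg K σ N s).map (θ : R →+* GA K σ N)) = gen K σ N := by
    funext s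
    ext1 b c
    exact MvPolynomial.aeval_X _ _
  have hθg : ∀ u : FreeAlgebra K σ, (FreeAlgebra.lift K (Yg K σ N) u).map (θ : R →+* GA K σ N) =
      FreeAlgebra.lift K (gen K σ N) u := by
    intro u
    rw [lift_hom (θ : R →+* GA K σ N) hθK, hY]
  by_cases hcase : χ.eval a = 0
  · -- constant
    refine ⟨algebraMap K _ (ct g), ?_⟩
    have h1 : (FreeAlgebra.lift K (gen K σ N) (algebraMap K _ (ct g) - g)).det = 0 := by
      have h2 : (FreeAlgebra.lift K (Yg K σ N) (algebraMap K _ (ct g) - g)).det = 0 := by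
        rw [← hcase, hχ, Matrix.eval_charpoly]
        congr 1
        rw [map_sub, AlgHom.commutes]
        congr 1
      rw [← hθg, ← RingHom.mapMatrix_apply, ← RingHom.map_det, h2, map_zero]
    have h4 := zero_of_det _ h1
    rw [map_sub, AlgHom.commutes, sub_eq_zero] at h4
    rw [← h4]
    rfl
  · have h0 : (A.map (PowerSeries.constantCoeff (R := k0))).charpoly.eval (ι a) = 0 := by
      rw [hcpA, Polynomial.eval_map_apply, eval_mul, eval_sub, eval_X, eval_C, sub_self, mul_zero,
        map_zero]
    have h1 : (A.map (PowerSeries.constantCoeff (R := k0))).charpoly.derivative.eval (ι a) ≠ 0 := by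
      rw [hcpA, Polynomial.derivative_map, Polynomial.eval_map_apply, derivative_mul, eval_add,
        eval_mul, eval_mul, eval_sub, eval_X, eval_C, sub_self, mul_zero, zero_add, derivative_sub,
        derivative_X, derivative_C, sub_zero, eval_one, mul_one]
      exact (map_ne_zero_iff ι hιinj).mpr hcase
    obtain ⟨α, hα⟩ := loc (hζ.map_of_injective (f := algebraMap K k0)
      (algebraMap K k0).injective) (Nat.succ_pos N) F A hFA (j c0) hjc hFc (ι a) h0 h1
    rw [hcpA, Polynomial.map_mul, Polynomial.map_sub, Polynomial.map_X, Polynomial.map_C] at hα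
    obtain ⟨β, hβ⟩ := prod_cancel _ _ _ hα
    obtain ⟨b, hb⟩ := descend (F := k0) χ (Matrix.charpoly_monic _) β hβ
    have h5 : (FreeAlgebra.lift K (gen K σ N) g).charpoly = ∏ i, (X - C (θ (b i))) := by
      rw [← hθg, Matrix.charpoly_map, ← hχ, hb, Polynomial.map_prod]
      refine Finset.prod_congr rfl fun i _ => ?_
      rw [Polynomial.map_sub, Polynomial.map_X, Polynomial.map_C]
      rfl
    exact scalar_of_splits g _ h5

end Main

end Pool.Agent.J4H41.NC
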