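import Mathlib
import Pool.Agent.J4H41.NC.Cent
import Pool.Agent.TH82.NC.Fin
import Pool.Agent.H552R3.PC.Gen

/-!
Consequences of being scalar valued on matrices of size `N`.
-/

set_option autoImplicit false

namespace Pool.Agent.J4H41.NC

open Matrix Polynomial Pool.Agent.H552R3.PC Pool.Agent.TH82.NC

variable {K : Type*} [Field K] {σ : Type*}

theorem lift_blk {k : ℕ} {B : Type*} [CommRing B] [Algebra K B]
    (Y : σ → Matrix (Fin k) (Fin k) B) (f : FreeAlgebra K σ) :
    FreeAlgebra.lift K (fun s => blk (Y s)) f =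
      Matrix.reindex finSumFinEquiv finSumFinEquiv (fromBlocks (FreeAlgebra.lift K Y f) 0 0
        (FreeAlgebra.lift K (fun _ => (0 : Matrix (Fin 1) (Fin 1) B)) f)) := by
  have := lift_map ((Matrix.reindexAlgEquiv K B (finSumFinEquiv (m := k) (n := 1)) :
    Matrix (Fin k ⊕ Fin 1) (Fin k ⊕ Fin 1) B ≃ₐ[K] Matrix (Fin (k + 1)) (Fin (k + 1)) B) :
    Matrix (Fin k ⊕ Fin 1) (Fin k ⊕ Fin 1) B →ₐ[K] Matrix (Fin (k + 1)) (Fin (k + 1)) B)
    (fun s => fromBlocks (Y s) 0 0 (0 : Matrix (Fin 1) (Fin 1) B)) f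
  rw [← lift_fb]
  exact this.symm

theorem down {k : ℕ} (g : FreeAlgebra K σ)
    (h : ∀ X : σ → Matrix (Fin (k + 1)) (Fin (k + 1)) K,
      ∃ c : K, FreeAlgebra.lift K X g = Matrix.scalar (Fin (k + 1)) c)
    (Y : σ → Matrix (Fin k) (Fin k) K) :
    FreeAlgebra.lift K Y g = Matrix.scalar (Fin k) (ct g) := by
  obtain ⟨c, hc⟩ := h (fun s => blk (Y s))
  rw [lift_blk] at hc
  have h1 : ∀ i j : Fin k ⊕ Fin 1,
      fromBlocks (FreeAlgebra.lift K Y g) 0 0
        (FreeAlgebra.lift K (fun _ => (0 : Matrix (Fin 1) (Fin 1) K)) g) i j =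
      (Matrix.diagonal fun _ => c : Matrix (Fin (k + 1)) (Fin (k + 1)) K)
        (finSumFinEquiv i) (finSumFinEquiv j) := by
    intro i j
    have h2 := congrFun (congrFun hc (finSumFinEquiv i)) (finSumFinEquiv j)
    rw [Matrix.reindex_apply, Matrix.submatrix_apply, Equiv.symm_apply_apply,
      Equiv.symm_apply_apply, Matrix.scalar_apply] at h2
    exact h2
  have hc0 : c = ct g := by
    have h2 := h1 (Sum.inr 0) (Sum.inr 0)
    rw [Matrix.diagonal_apply_eq, fromBlocks_apply₂₂, lift_z] at h2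
    rw [← h2, algebraMap_matrix_apply, if_pos rfl]
    rfl
  ext1 i j
  have h2 := h1 (Sum.inl i) (Sum.inl j)
  rw [fromBlocks_apply₁₁] at h2
  rw [h2, Matrix.scalar_apply, hc0]
  by_cases hij : i = j
  · subst hij
    rw [Matrix.diagonal_apply_eq, Matrix.diagonal_apply_eq]
  · rw [Matrix.diagonal_apply_ne _ hij, Matrix.diagonal_apply_ne]
    intro e
    exact hij (Sum.inl_injective (finSumFinEquiv.injective e))

theorem all_down {N : ℕ} (g : FreeAlgebra K σ)
    (h : ∀ X : σ → Matrix (Fin N) (Fin N) K,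
      ∃ c : K, FreeAlgebra.lift K X g = Matrix.scalar (Fin N) c) :
    ∀ d k : ℕ, k + d + 1 = N → ∀ Y : σ → Matrix (Fin k) (Fin k) K,
      FreeAlgebra.lift K Y g = Matrix.scalar (Fin k) (ct g) := by
  intro d
  induction d with
  | zero =>
    intro k hk
    have hk' : N = k + 1 := by omega
    subst hk'
    exact down g h
  | succ d ih =>
    intro k hk
    apply down g
    intro X
    exact ⟨ct g, ih (k + 1) (by omega) X⟩

/-- Words with few steps do not occur in polynomials which are scalar valued. -/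
theorem cf_zero [Infinite K] {N : ℕ} (g : FreeAlgebra K σ)
    (h : ∀ X : σ → Matrix (Fin N) (Fin N) K,
      ∃ c : K, FreeAlgebra.lift K X g = Matrix.scalar (Fin N) c)
    (k : ℕ) (hk : k < N) (l : List σ) (hl : Pool.Agent.TH82.NC.Stair (k + 1) l)
    (hkN : k + 1 < N) : cf g l = 0 := by
  classical
  obtain ⟨x, y, e, h1, rfl⟩ := hl.exists_wd
  have h2 := lift_coeff (K := K) (k + 1) x y (Fin.last (k + 1)) e h1 g
  rw [Fin.val_last] at h2
  have hs : ∀ X : σ → Matrix (Fin (k + 2)) (Fin (k + 2)) K,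
      ∃ c : K, FreeAlgebra.lift K X g = Matrix.scalar (Fin (k + 2)) c := by
    by_cases h3 : k + 2 = N
    · subst h3; exact h
    · intro X
      exact ⟨ct g, all_down g h (N - (k + 3)) (k + 2) (by omega) X⟩
  have h0 : FreeAlgebra.lift K (lbd (pt K (k + 1) x) (pb K (k + 1) y)) g
      (Fin.last (k + 1)) 0 = 0 := by
    have hcomm : ∀ i j : Fin (k + 2),
        Commute (Matrix.single i j (1 : MvPolynomial ℕ K))
          (FreeAlgebra.lift K (lbd (pt K (k + 1) x) (pb K (k + 1) y)) g) := by
      intro i j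
      have e := transfer_comm g (Matrix.single i j 1) (fun X => by
        obtain ⟨c, hc⟩ := hs X
        rw [hc]
        exact (Matrix.scalar_commute c (fun _ => Commute.all _ _) _).eq)
        (lbd (pt K (k + 1) x) (pb K (k + 1) y))
      have e2 : (Matrix.single i j (1 : K)).map (algebraMap K (MvPolynomial ℕ K)) =
          Matrix.single i j 1 := by
        ext1 a b
        simp only [Matrix.map_apply, Matrix.single, Matrix.of_apply]
        split_ifs <;> simp
      rw [e2] at e
      exact e.symm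
    obtain ⟨c, hc⟩ := Matrix.mem_range_scalar_iff_commute_single'.mpr hcomm
    rw [← hc, Matrix.scalar_apply, Matrix.diagonal_apply_ne]
    exact Fin.last_pos.ne'
  rw [← h2, h0, MvPolynomial.coeff_zero]

theorem cf_zero_all [Infinite K] {N : ℕ} (hN : 2 ≤ N) (g : FreeAlgebra K σ)
    (h : ∀ X : σ → Matrix (Fin N) (Fin N) K,
      ∃ c : K, FreeAlgebra.lift K X g = Matrix.scalar (Fin N) c)
    (k : ℕ) (hk : k < N) (l : List σ) (hl0 : l ≠ []) (hl : Pool.Agent.TH82.NC.Stair k l) :
    cf g l = 0 := by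
  rcases k with _ | k
  · -- powers of a letter
    cases hl with
    | zero e x =>
      rcases e with _ | e
      · exact absurd rfl hl0
      · apply cf_zero g h 0 (by omega) _ _ (by omega)
        have h1 : List.replicate (e + 1) x = List.replicate e x ++ x :: [] := by
          rw [List.replicate_succ']
        rw [h1]
        exact Stair.succ 0 e x x [] (Stair.zero 0 x)
  · exact cf_zero g h k (by omega) l hl (by omega)

theorem len_ge [Infinite K] [DecidableEq σ] {N : ℕ} (hN : 2 ≤ N) (g : FreeAlgebra K σ)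
    (h : ∀ X : σ → Matrix (Fin N) (Fin N) K,
      ∃ c : K, FreeAlgebra.lift K X g = Matrix.scalar (Fin N) c)
    (l : List σ) (hl0 : l ≠ []) (hl : cf g l ≠ 0) :
    2 * N ≤ l.length ∧ ∀ x : σ, N ≤ l.countP (fun a => a ≠ x) := by
  constructor
  · by_contra hcon
    apply hl
    exact cf_zero_all hN g h (l.length / 2) (by omega) l hl0 (stair_half l.length l rfl hl0)
  · intro x
    by_contra hcon
    apply hl
    have h1 := stair_count x l 0
    rw [List.replicate_zero, List.nil_append] at h1
    exact cf_zero_all hN g h _ (by omega) l hl0 h1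

end Pool.Agent.J4H41.NC
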