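import Mathlib

/-!
Specialisation of Galois groups: if a monic polynomial over an integrally closed domain has a
separable reduction, then the automorphisms of the residual extension lift to the Galois group,
compatibly with the bijection of the roots.
-/

set_option autoImplicit false

namespace Pool.Agent.J4H41.NC

open Polynomial

universe u

theorem spec0 {A B : Type u} [CommRing A] [CommRing B] [Algebra A B] (G : Type u)
    [Group G] [Finite G] [MulSemiringAction G B] [SMulCommClass G A B] [Algebra.IsInvariant A B G]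
    (P : Ideal A) (Q : Ideal B) [P.IsPrime] [Q.IsPrime] [Q.LiesOver P]
    (E' : Type u) [Field E'] [Algebra (A ⧸ P) E'] [IsFractionRing (A ⧸ P) E'] :
    ∃ (L : Type u) (_ : Field L) (_ : Algebra E' L) (_ : Normal E' L) (π : B →+* L),
      (∀ a : A, π (algebraMap A B a) =
        algebraMap E' L (algebraMap (A ⧸ P) E' (Ideal.Quotient.mk P a))) ∧
      ∀ τ' : L ≃ₐ[E'] L, ∃ g : G, ∀ b : B, π (g • b) = τ' (π b) := by
  let L := FractionRing (B ⧸ Q)
  have i1 : Function.Injective (algebraMap (A ⧸ P) L) := by
    rw [IsScalarTower.algebraMap_eq (A ⧸ P) (B ⧸ Q) L]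
    exact (IsFractionRing.injective (B ⧸ Q) L).comp (FaithfulSMul.algebraMap_injective _ _)
  letI a2 : Algebra E' L := (IsFractionRing.lift i1 : E' →+* L).toAlgebra
  have t2 : IsScalarTower (A ⧸ P) E' L := by
    apply IsScalarTower.of_algebraMap_eq
    intro x
    exact (IsFractionRing.lift_algebraMap i1 x).symm
  have hn : Normal E' L := Ideal.IsFractionRing.normal G P Q E' L
  refine ⟨L, inferInstance, a2, hn, (algebraMap (B ⧸ Q) L).comp (Ideal.Quotient.mk Q), ?_, ?_⟩
  · intro a
    rw [← IsScalarTower.algebraMap_apply (A ⧸ P) E' L, IsScalarTower.algebraMap_apply (A ⧸ P)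
      (B ⧸ Q) L]
    rfl
  · intro τ'
    obtain ⟨g, hg⟩ := IsFractionRing.stabilizerHom_surjective G P Q E' L τ'
    refine ⟨g.1, fun b => ?_⟩
    have := IsFractionRing.stabilizerHom_apply_apply_mk G P Q E' L g b
    rw [hg] at this
    exact this.symm

theorem spec1 {A B A' E E' Ω : Type u} [CommRing A] [IsDomain A] [IsIntegrallyClosed A]
    [CommRing B] [IsDomain B] [Algebra A B] [Field E] [Algebra A E] [IsFractionRing A E]
    [Field Ω] [Algebra E Ω] [Algebra A Ω] [IsScalarTower A E Ω] [Algebra B Ω]
    [IsScalarTower A B Ω] [IsFractionRing B Ω] [IsIntegralClosure B A Ω]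
    [FiniteDimensional E Ω] [IsGalois E Ω] [CommRing A'] [IsDomain A'] [Field E']
    [Algebra A' E'] [IsFractionRing A' E'] (φ : A →+* A') (hφ : Function.Surjective φ) :
    ∃ (L : Type u) (_ : Field L) (_ : Algebra E' L) (_ : Normal E' L) (π : B →+* L),
      (∀ a : A, π (algebraMap A B a) = algebraMap E' L (algebraMap A' E' (φ a))) ∧
      ∀ τ' : L ≃ₐ[E'] L, ∃ g : Ω ≃ₐ[E] Ω, ∀ b b' : B,
        g (algebraMap B Ω b) = algebraMap B Ω b' → π b' = τ' (π b) := by
  have hinv : Algebra.IsInvariant A B (B ≃ₐ[A] B) := Algebra.isInvariant_of_isGalois' A E Ω B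
  have hfin : Finite (B ≃ₐ[A] B) := Finite.of_equiv _ (galRestrict A E Ω B).toEquiv
  have hP : (RingHom.ker φ).IsPrime := RingHom.ker_isPrime φ
  have hBinj : Function.Injective (algebraMap B Ω) := IsFractionRing.injective B Ω
  have hAinj : Function.Injective (algebraMap A Ω) := by
    rw [IsScalarTower.algebraMap_eq A E Ω]
    exact (algebraMap E Ω).injective.comp (IsFractionRing.injective A E)
  have hABinj : Function.Injective (algebraMap A B) := by
    intro x y hxy
    apply hAinj
    rw [IsScalarTower.algebraMap_apply A B Ω, IsScalarTower.algebraMap_apply A B Ω, hxy]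
  have hfaith : FaithfulSMul A B := (faithfulSMul_iff_algebraMap_injective A B).mpr hABinj
  have hint : Algebra.IsIntegral A B := Algebra.IsInvariant.isIntegral A B (B ≃ₐ[A] B)
  obtain ⟨⟨Q, hQp, hQo⟩⟩ := Ideal.nonempty_primesOver (S := B) (RingHom.ker φ)
  let eP : A ⧸ (RingHom.ker φ) ≃+* A' := RingHom.quotientKerEquivOfSurjective hφ
  letI a1 : Algebra (A ⧸ (RingHom.ker φ)) E' :=
    ((algebraMap A' E').comp (eP : A ⧸ (RingHom.ker φ) →+* A')).toAlgebra
  have f1 : IsFractionRing (A ⧸ (RingHom.ker φ)) E' :=
    IsFractionRing.of_ringEquiv_left eP (fun x => rfl)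
  obtain ⟨L, hL, hEL, hN, π, h1, h2⟩ := spec0 (B ≃ₐ[A] B) (RingHom.ker φ) Q E'
  refine ⟨L, hL, hEL, hN, π, ?_, ?_⟩
  · intro a
    rw [h1]
    rfl
  · intro τ'
    obtain ⟨g, hg⟩ := h2 τ'
    refine ⟨(galRestrict A E Ω B).symm g, fun b b' hb => ?_⟩
    have h3 := algebraMap_galRestrict_apply A ((galRestrict A E Ω B).symm g) b
    rw [MulEquiv.apply_symm_apply, hb] at h3
    have h4 : g b = b' := hBinj h3
    rw [← h4]
    exact hg b

theorem roots_of_prod {R L : Type*} [CommRing R] [Field L] (π : R →+* L) (s : Multiset R) :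
    (((s.map fun b => (X - C b : R[X])).prod).map π).roots = s.map π := by
  rw [Polynomial.map_multiset_prod, Multiset.map_map]
  have : (s.map (Polynomial.map π ∘ fun b => (X - C b : R[X]))) =
      (s.map π).map (fun y => (X - C y : L[X])) := by
    rw [Multiset.map_map]
    apply Multiset.map_congr rfl
    intro b _
    simp
  rw [this, Polynomial.roots_multiset_prod_X_sub_C]

theorem spec {A A' E E' Ω : Type u} [CommRing A] [IsDomain A] [IsIntegrallyClosed A]
    [CommRing A'] [IsDomain A'] [Field E] [Algebra A E] [IsFractionRing A E]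
    [Field Ω] [Algebra E Ω] [Algebra A Ω] [IsScalarTower A E Ω] [FiniteDimensional E Ω]
    [IsGalois E Ω] [Field E'] [Algebra A' E'] [IsFractionRing A' E']
    (φ : A →+* A') (hφ : Function.Surjective φ) (χ : A[X]) (hχ : χ.Monic)
    (hspl : (χ.map (algebraMap A Ω)).Splits)
    (hsep : ((χ.map φ).map (algebraMap A' E')).Separable) :
    ∃ (L : Type u) (_ : Field L) (_ : Algebra E' L) (_ : Normal E' L) (red : Ω → L),
      (((χ.map φ).map (algebraMap A' E')).map (algebraMap E' L)).Splits ∧
      (∀ x y, (χ.map (algebraMap A Ω)).IsRoot x → (χ.map (algebraMap A Ω)).IsRoot y →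
        red x = red y → x = y) ∧
      (∀ x, (χ.map (algebraMap A Ω)).IsRoot x →
        (((χ.map φ).map (algebraMap A' E')).map (algebraMap E' L)).IsRoot (red x)) ∧
      (∀ y, (((χ.map φ).map (algebraMap A' E')).map (algebraMap E' L)).IsRoot y →
        ∃ x, (χ.map (algebraMap A Ω)).IsRoot x ∧ red x = y) ∧
      ∀ τ' : L ≃ₐ[E'] L, ∃ g : Ω ≃ₐ[E] Ω, ∀ x, (χ.map (algebraMap A Ω)).IsRoot x →
        red (g x) = τ' (red x) := by
  classical
  have hfr : IsFractionRing (integralClosure A Ω) Ω :=
    integralClosure.isFractionRing_of_finite_extension E Ω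
  obtain ⟨L, hL, hEL, hN, π, h1, h2⟩ := spec1 (B := integralClosure A Ω) (E := E) (Ω := Ω)
    (E' := E') φ hφ
  set f : Polynomial Ω := χ.map (algebraMap A Ω) with hf
  have hfm : f.Monic := hχ.map _
  have hroot : ∀ x, f.IsRoot x → x ∈ integralClosure A Ω := by
    intro x hx
    refine ⟨χ, hχ, ?_⟩
    rw [← Polynomial.eval_map]
    exact hx
  let s : Multiset (integralClosure A Ω) :=
    f.roots.pmap (fun x hx => (⟨x, hx⟩ : integralClosure A Ω))
      (fun x hx => hroot x (Polynomial.isRoot_of_mem_roots hx))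
  have hs : s.map (algebraMap (integralClosure A Ω) Ω) = f.roots := by
    rw [Multiset.map_pmap]
    conv_rhs => rw [← Multiset.map_id f.roots, ← Multiset.pmap_eq_map (fun _ => True) id f.roots
      (fun _ _ => trivial)]
    exact Multiset.pmap_congr _ (fun _ _ _ _ => rfl)
  have hBinj : Function.Injective (algebraMap (integralClosure A Ω) Ω) := Subtype.val_injective
  have hB : χ.map (algebraMap A (integralClosure A Ω)) = (s.map fun b => X - C b).prod := by
    apply Polynomial.map_injective _ hBinj
    rw [Polynomial.map_map, Polynomial.map_multiset_prod, Multiset.map_map,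
      ← IsScalarTower.algebraMap_eq]
    have h3 : (s.map (Polynomial.map (algebraMap (integralClosure A Ω) Ω) ∘
        fun b => (X - C b : Polynomial (integralClosure A Ω)))) =
        (s.map (algebraMap (integralClosure A Ω) Ω)).map (fun y => (X - C y : Polynomial Ω)) := by
      rw [Multiset.map_map]
      apply Multiset.map_congr rfl
      intro b _
      simp
    rw [h3, hs]
    exact hspl.eq_prod_roots_of_monic hfm
  set F : Polynomial L := ((χ.map φ).map (algebraMap A' E')).map (algebraMap E' L) with hF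
  have hFm : F.Monic := ((hχ.map _).map _).map _
  have hFB : F = ((s.map fun b => (X - C b : Polynomial (integralClosure A Ω))).prod).map π := by
    rw [← hB, Polynomial.map_map, hF, Polynomial.map_map, Polynomial.map_map]
    congr 1
    ext a
    exact (h1 a).symm
  have hroots : F.roots = s.map π := by rw [hFB, roots_of_prod]
  have hnd : (s.map π).Nodup := by
    rw [← hroots]
    exact nodup_roots (hsep.map)
  have hmem : ∀ x, f.IsRoot x → ∀ h : x ∈ integralClosure A Ω,
      (⟨x, h⟩ : integralClosure A Ω) ∈ s := by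
    intro x hx h
    have h3 : x ∈ f.roots := (mem_roots hfm.ne_zero).mpr hx
    rw [← hs, Multiset.mem_map] at h3
    obtain ⟨b, hb, hbx⟩ := h3
    have : b = ⟨x, h⟩ := Subtype.ext hbx
    rwa [← this]
  let red : Ω → L := fun x => if h : x ∈ integralClosure A Ω then π ⟨x, h⟩ else 0
  have hred : ∀ x (h : x ∈ integralClosure A Ω), red x = π ⟨x, h⟩ := fun x h => dif_pos h
  refine ⟨L, hL, hEL, hN, red, ?_, ?_, ?_, ?_, ?_⟩
  · have h5 : ((s.map fun b => (X - C b : Polynomial (integralClosure A Ω))).prod).Splits := by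
      apply Splits.multisetProd
      intro h hh
      obtain ⟨b, _, rfl⟩ := Multiset.mem_map.mp hh
      exact Splits.X_sub_C b
    have h6 : F.Splits := by
      rw [hFB]
      exact h5.map π
    exact h6
  · intro x y hx hy hxy
    rw [hred x (hroot x hx), hred y (hroot y hy)] at hxy
    have := Multiset.inj_on_of_nodup_map hnd _ (hmem x hx (hroot x hx)) _
      (hmem y hy (hroot y hy)) hxy
    exact congrArg Subtype.val this
  · intro x hx
    rw [hred x (hroot x hx)]
    apply isRoot_of_mem_roots
    rw [hroots]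
    exact Multiset.mem_map_of_mem π (hmem x hx (hroot x hx))
  · intro y hy
    have h3 : y ∈ F.roots := (mem_roots hFm.ne_zero).mpr hy
    rw [hroots, Multiset.mem_map] at h3
    obtain ⟨b, hb, hby⟩ := h3
    refine ⟨(b : Ω), ?_, ?_⟩
    · apply isRoot_of_mem_roots
      rw [← hs]
      exact Multiset.mem_map_of_mem _ hb
    · rw [hred _ b.2]
      exact hby
  · intro τ'
    obtain ⟨g, hg⟩ := h2 τ'
    refine ⟨g, fun x hx => ?_⟩
    have hgx : f.IsRoot (g x) := by
      have h3 : (f.map (g : Ω →+* Ω)) = f := by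
        rw [hf, Polynomial.map_map]
        congr 1
        ext a
        simp only [RingHom.comp_apply]
        rw [IsScalarTower.algebraMap_apply A E Ω]
        exact g.commutes _
      rw [← h3]
      exact hx.map
    rw [hred x (hroot x hx), hred _ (hroot _ hgx)]
    exact hg _ _ rfl

end Pool.Agent.J4H41.NC
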