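import Mathlib
import Pool.Agent.J4H41.NC.Spec
import Pool.Agent.J4H41.NC.Slv
import Pool.Agent.J4H41.NC.Low

/-!
If the reduction of `χ` is `f (X - c)` with `f` irreducible and separable, then the Galois group of
`f` embeds into the stabilizer of a root of `χ`.
-/

set_option autoImplicit false

namespace Pool.Agent.J4H41.NC

open Polynomial

universe u

theorem emb {A A' E E' : Type u} [CommRing A] [IsDomain A] [IsIntegrallyClosed A]
    [CommRing A'] [IsDomain A'] [Field E] [Algebra A E] [IsFractionRing A E]
    [Field E'] [Algebra A' E'] [IsFractionRing A' E']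
    (φ : A →+* A') (hφ : Function.Surjective φ) (χ : A[X]) (hχ : χ.Monic)
    (hs : (χ.map (algebraMap A E)).Separable) (f : A'[X]) (hf : f.Monic) (c : A')
    (hfc : χ.map φ = f * (X - C c)) (hfs : (f.map (algebraMap A' E')).Separable)
    (hcf : f.eval c ≠ 0) :
    ∃ (e : (f.map (algebraMap A' E')).rootSet (f.map (algebraMap A' E')).SplittingField →
        (χ.map (algebraMap A E)).rootSet (χ.map (algebraMap A E)).SplittingField)
      (α0 : (χ.map (algebraMap A E)).rootSet (χ.map (algebraMap A E)).SplittingField),
      Function.Injective e ∧ (∀ x, e x ≠ α0) ∧ (∀ y, y ≠ α0 → ∃ x, e x = y) ∧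
      ∀ τ : (f.map (algebraMap A' E')).Gal, ∃ g : (χ.map (algebraMap A E)).Gal,
        g • α0 = α0 ∧ ∀ x, g • (e x) = e (τ • x) := by
  classical
  set F : E[X] := χ.map (algebraMap A E) with hF
  set f1 : E'[X] := f.map (algebraMap A' E') with hf1
  have hF0 : F ≠ 0 := (hχ.map _).ne_zero
  have hgal : IsGalois E F.SplittingField := IsGalois.of_separable_splitting_field hs
  have hmapF : χ.map (algebraMap A F.SplittingField) = F.map (algebraMap E F.SplittingField) := by
    rw [hF, Polynomial.map_map, ← IsScalarTower.algebraMap_eq]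
  have hred : (χ.map φ).map (algebraMap A' E') = f1 * (X - C (algebraMap A' E' c)) := by
    rw [hfc, Polynomial.map_mul, Polynomial.map_sub, map_X, map_C]
  have hinj' : Function.Injective (algebraMap A' E') := IsFractionRing.injective A' E'
  have hcf1 : f1.eval (algebraMap A' E' c) ≠ 0 := by
    rw [hf1, Polynomial.eval_map_algebraMap, Polynomial.aeval_algebraMap_apply]
    intro h
    apply hcf
    apply hinj'
    rw [map_zero, ← h]
    simp
  have hsep : ((χ.map φ).map (algebraMap A' E')).Separable := by
    rw [hred]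
    exact hfs.mul (separable_X_sub_C)
      (((irreducible_X_sub_C _).coprime_iff_not_dvd).mpr (fun h =>
        hcf1 (dvd_iff_isRoot.mp h))).symm
  obtain ⟨L, hL, hEL, hN, red, hspl, hinj, hrt, hsurj, hlift⟩ :=
    spec (E := E) (Ω := F.SplittingField) (E' := E') φ hφ χ hχ
      (by rw [hmapF]; exact IsSplittingField.splits _ _) hsep
  rw [hmapF] at hinj hrt hsurj hlift
  have hf10 : f1 ≠ 0 := (hf.map _).ne_zero
  have hprod : ((χ.map φ).map (algebraMap A' E')).map (algebraMap E' L) =
      (f1.map (algebraMap E' L)) * (X - C (algebraMap E' L (algebraMap A' E' c))) := by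
    rw [hred, Polynomial.map_mul, Polynomial.map_sub, map_X, map_C]
  rw [hprod] at hspl hrt hsurj
  have hne : (f1.map (algebraMap E' L)) * (X - C (algebraMap E' L (algebraMap A' E' c))) ≠ 0 :=
    mul_ne_zero ((hf.map _).map _).ne_zero (X_sub_C_ne_zero _)
  have hf1spl : (f1.map (algebraMap E' L)).Splits := hspl.of_dvd hne (dvd_mul_right _ _)
  let ι : f1.SplittingField →ₐ[E'] L := IsSplittingField.lift f1.SplittingField f1 hf1spl
  letI aι : Algebra f1.SplittingField L := ι.toRingHom.toAlgebra
  have tι : IsScalarTower E' f1.SplittingField L :=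
    IsScalarTower.of_algebraMap_eq (fun x => (ι.commutes x).symm)
  have hιinj : ∀ x y, ι x = ι y → x = y := fun x y h => ι.toRingHom.injective h
  have hιmap : algebraMap E' L =
      ι.toRingHom.comp (algebraMap E' f1.SplittingField) :=
    RingHom.ext fun a => (ι.commutes a).symm
  -- the root of `F` over the root `c`
  obtain ⟨a0, ha0, ha0'⟩ := hsurj (algebraMap E' L (algebraMap A' E' c)) (by simp)
  have hx : ∀ x : f1.rootSet f1.SplittingField, ∃ z,
      (F.map (algebraMap E F.SplittingField)).IsRoot z ∧ red z = ι x := by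
    intro x
    apply hsurj
    rw [IsRoot.def, eval_mul, Polynomial.eval_map_algebraMap, Polynomial.aeval_algHom_apply,
      (mem_rootSet.mp x.2).2, map_zero, zero_mul]
  choose z hz hz' using hx
  have hmem : ∀ y, (F.map (algebraMap E F.SplittingField)).IsRoot y →
      y ∈ F.rootSet F.SplittingField := by
    intro y hy
    rw [mem_rootSet]
    refine ⟨hF0, ?_⟩
    rw [← Polynomial.eval_map_algebraMap]
    exact hy
  have hmem' : ∀ y : F.rootSet F.SplittingField,
      (F.map (algebraMap E F.SplittingField)).IsRoot (y : F.SplittingField) := by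
    intro y
    rw [IsRoot.def, Polynomial.eval_map_algebraMap]
    exact (mem_rootSet.mp y.2).2
  have hιc : ∀ x : f1.rootSet f1.SplittingField,
      ι x ≠ algebraMap E' L (algebraMap A' E' c) := by
    intro x hxc
    apply hcf1
    have h1 : (x : f1.SplittingField) = algebraMap E' f1.SplittingField (algebraMap A' E' c) := by
      apply hιinj
      rw [hxc, ι.commutes]
    have h2 := (mem_rootSet.mp x.2).2
    rw [h1, Polynomial.aeval_algebraMap_apply] at h2
    have h3 := (map_eq_zero (algebraMap E' f1.SplittingField)).mp h2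
    simpa using h3
  refine ⟨fun x => ⟨z x, hmem _ (hz x)⟩, ⟨a0, hmem _ ha0⟩, ?_, ?_, ?_, ?_⟩
  · intro x y hxy
    have h1 : z x = z y := congrArg Subtype.val hxy
    have h2 : ι x = ι y := by rw [← hz', ← hz', h1]
    exact Subtype.ext (hιinj _ _ h2)
  · intro x hx
    have h1 : z x = a0 := congrArg Subtype.val hx
    exact hιc x (by rw [← hz', h1, ha0'])
  · intro y hy
    have h1 := hrt y (hmem' y)
    rw [IsRoot.def, eval_mul, mul_eq_zero] at h1
    rcases h1 with h1 | h1
    · obtain ⟨w, hw⟩ : ∃ w : f1.SplittingField, ι w = red y := by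
        have h2 : red y ∈ (f1.map (algebraMap E' L)).roots :=
          (mem_roots ((hf.map _).map _).ne_zero).mpr h1
        have h3 : (f1.map (algebraMap E' L)) =
            (f1.map (algebraMap E' f1.SplittingField)).map ι.toRingHom := by
          rw [hιmap]
          exact (Polynomial.map_map _ _ _).symm
        rw [h3, (IsSplittingField.splits f1.SplittingField f1).roots_map, Multiset.mem_map] at h2
        obtain ⟨w, _, hw⟩ := h2
        exact ⟨w, hw⟩
      have hwr : w ∈ f1.rootSet f1.SplittingField := by
        rw [mem_rootSet]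
        refine ⟨hf10, hιinj _ _ ?_⟩
        rw [← Polynomial.aeval_algHom_apply, hw, map_zero, ← Polynomial.eval_map_algebraMap]
        exact h1
      refine ⟨⟨w, hwr⟩, Subtype.ext ?_⟩
      apply hinj _ _ (hz _) (hmem' y)
      rw [hz']
      exact hw
    · exfalso
      apply hy
      apply Subtype.ext
      apply hinj _ _ (hmem' y) ha0
      rw [ha0']
      rw [eval_sub, eval_X, eval_C, sub_eq_zero] at h1
      exact h1
  · intro τ
    obtain ⟨g, hg⟩ := hlift (AlgEquiv.liftNormal τ L)
    have hgr : ∀ y, (F.map (algebraMap E F.SplittingField)).IsRoot y →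
        (F.map (algebraMap E F.SplittingField)).IsRoot (g y) := by
      intro y hy
      rw [IsRoot.def, Polynomial.eval_map_algebraMap] at hy ⊢
      have : aeval (g y) F = g (aeval y F) := Polynomial.aeval_algHom_apply g.toAlgHom y F
      rw [this, hy, map_zero]
    refine ⟨g, Subtype.ext ?_, fun x => Subtype.ext ?_⟩
    · change g a0 = a0
      apply hinj _ _ (hgr _ ha0) ha0
      rw [hg a0 ha0, ha0', AlgEquiv.commutes]
    · change g (z x) = z (τ • x)
      apply hinj _ _ (hgr _ (hz x)) (hz _)
      rw [hg _ (hz x), hz', hz']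
      exact AlgEquiv.liftNormal_commutes τ L x

end Pool.Agent.J4H41.NC
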