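import Mathlib
import Pool.Agent.J4H41.NC.Cent
import Pool.Agent.H552R3.PC.Quant3

/-!
A polynomial commuting with an `n`-central polynomial is scalar valued on matrices of size `n - 1`:
fields whose characteristic is not `n`.
-/

set_option autoImplicit false

namespace Pool.Agent.J4H41.NC

open Matrix Polynomial Pool.Agent.H552R3.PC

section Base

variable {K : Type*} [Field K] {L : Type*} [Field L] [Algebra K L] {σ : Type*} {N : ℕ}

/-- Extension of scalars of a noncommutative polynomial. -/
noncomputable def bc (K : Type*) [Field K] (L : Type*) [Field L] [Algebra K L] (σ : Type*) :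
    FreeAlgebra K σ →ₐ[K] FreeAlgebra L σ :=
  FreeAlgebra.lift K (fun s => FreeAlgebra.ι L s)

theorem lift_bc {B : Type*} [CommRing B] [Algebra K B] [Algebra L B] [IsScalarTower K L B]
    (W : σ → Matrix (Fin N) (Fin N) B) (f : FreeAlgebra K σ) :
    FreeAlgebra.lift L W (bc K L σ f) = FreeAlgebra.lift K W f := by
  induction f using FreeAlgebra.induction with
  | grade0 r =>
    rw [AlgHom.commutes, AlgHom.commutes]
    have h1 : algebraMap K (FreeAlgebra L σ) r = algebraMap L (FreeAlgebra L σ) (algebraMap K L r) :=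
      IsScalarTower.algebraMap_apply K L (FreeAlgebra L σ) r
    rw [h1, AlgHom.commutes]
    ext1 a b
    rw [Matrix.algebraMap_matrix_apply, Matrix.algebraMap_matrix_apply,
      ← IsScalarTower.algebraMap_apply]
  | grade1 x =>
    rw [bc, FreeAlgebra.lift_ι_apply, FreeAlgebra.lift_ι_apply, FreeAlgebra.lift_ι_apply]
  | mul f g hf hg => rw [map_mul, map_mul, map_mul, hf, hg]
  | add f g hf hg => rw [map_add, map_add, map_add, hf, hg]

end Base

section Gen

variable {K : Type*} [Field K] {σ : Type*} {N : ℕ}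

theorem scalar_of_gen {g : FreeAlgebra K σ} {r : GA K σ N}
    (hr : FreeAlgebra.lift K (gen K σ N) g = Matrix.scalar (Fin N) r)
    {B : Type*} [CommRing B] [Algebra K B] (W : σ → Matrix (Fin N) (Fin N) B) :
    FreeAlgebra.lift K W g = Matrix.scalar (Fin N) (spz W r) := by
  rw [← spz_gen, hr]
  ext1 a b
  by_cases h : a = b
  · subst h; simp
  · simp [h]

/-- The theorem for fields of characteristic different from `n`. -/
theorem cent_of_ne [Infinite K] (hN : 0 < N) (hp : (N + 1).Prime) (hK : ((N + 1 : ℕ) : K) ≠ 0)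
    (f g : FreeAlgebra K σ)
    (h : ∀ X : σ → Matrix (Fin (N + 1)) (Fin (N + 1)) K, ∀ Z : Matrix (Fin (N + 1)) (Fin (N + 1)) K,
      FreeAlgebra.lift K X (f ^ (N + 1)) * Z = Z * FreeAlgebra.lift K X (f ^ (N + 1)))
    (hns : ∃ X : σ → Matrix (Fin (N + 1)) (Fin (N + 1)) K,
      ∃ Z : Matrix (Fin (N + 1)) (Fin (N + 1)) K,
      FreeAlgebra.lift K X f * Z ≠ Z * FreeAlgebra.lift K X f)
    (hne : ∃ X : σ → Matrix (Fin (N + 1)) (Fin (N + 1)) K, FreeAlgebra.lift K X (f ^ (N + 1)) ≠ 0)
    (hfg : ∀ X : σ → Matrix (Fin (N + 1)) (Fin (N + 1)) K,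
      FreeAlgebra.lift K X (f * g - g * f) = 0)
    (X : σ → Matrix (Fin N) (Fin N) K) :
    ∃ c : K, FreeAlgebra.lift K X g = Matrix.scalar (Fin N) c := by
  classical
  have : NeZero N := ⟨hN.ne'⟩
  set L := AlgebraicClosure K with hL
  have hnL : ((N + 1 : ℕ) : L) ≠ 0 := by
    have := (algebraMap K L).injective.ne hK
    rwa [map_natCast, map_zero] at this
  obtain ⟨ζ, hζ⟩ : ∃ ζ : L, IsPrimitiveRoot ζ (N + 1) := by
    have : NeZero ((N + 1 : ℕ) : L) := ⟨hnL⟩
    obtain ⟨x, hx⟩ := IsAlgClosed.exists_root (Polynomial.cyclotomic (N + 1) L)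
      (Polynomial.degree_cyclotomic_pos (N + 1) L hp.pos).ne'
    exact ⟨x, Polynomial.isRoot_cyclotomic_iff.mp hx⟩
  have : Infinite L := Infinite.of_injective _ (algebraMap K L).injective
  have hch := charpoly_of_ncentral hp hK f h hns
  have hch' : ∀ X : σ → Matrix (Fin (N + 1)) (Fin (N + 1)) L,
      ∃ c : L, (FreeAlgebra.lift L X (bc K L σ f)).charpoly =
        Polynomial.X ^ (N + 1) - Polynomial.C c := by
    intro X
    rw [lift_bc]
    have hco : ∀ i, 0 < i → i < N + 1 → (FreeAlgebra.lift K X f).charpoly.coeff i = 0 := by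
      intro i hi hiN
      apply transfer_charpoly
      intro X
      obtain ⟨c, hc⟩ := hch X
      rw [hc, coeff_sub, coeff_X_pow, coeff_C, if_neg (by omega), if_neg (by omega), sub_self]
    refine ⟨-(FreeAlgebra.lift K X f).charpoly.coeff 0, ?_⟩
    have hdeg : (FreeAlgebra.lift K X f).charpoly.natDegree = N + 1 := by
      rw [Matrix.charpoly_natDegree_eq_dim, Fintype.card_fin]
    have hmon := Matrix.charpoly_monic (FreeAlgebra.lift K X f)
    ext1 i
    rw [Polynomial.coeff_sub, Polynomial.coeff_X_pow, Polynomial.coeff_C]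
    rcases Nat.eq_zero_or_pos i with rfl | hi
    · rw [if_neg (by omega), if_pos rfl]; ring
    · rw [if_neg hi.ne', sub_zero]
      rcases lt_trichotomy i (N + 1) with h1 | h1 | h1
      · rw [hco i hi h1, if_neg h1.ne]
      · rw [if_pos h1, h1]
        rw [Polynomial.Monic, Polynomial.leadingCoeff, hdeg] at hmon
        exact hmon
      · rw [if_neg h1.ne']
        exact Polynomial.coeff_eq_zero_of_natDegree_lt (by rw [hdeg]; exact h1)
  have hne' : ∃ X : σ → Matrix (Fin (N + 1)) (Fin (N + 1)) L,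
      (FreeAlgebra.lift L X (bc K L σ f)).det ≠ 0 := by
    obtain ⟨X, hX⟩ := hne
    obtain ⟨c, hc⟩ := scalar_of_comm _ (h X)
    have hc0 : c ≠ 0 := by
      rintro rfl
      apply hX
      rw [hc, map_zero]
    have hd : (FreeAlgebra.lift K X f).det ≠ 0 := by
      intro h0
      have h1 := congrArg Matrix.det hc
      rw [map_pow, Matrix.det_pow, h0, zero_pow (Nat.succ_ne_zero N), Matrix.scalar_apply,
        Matrix.det_diagonal, Finset.prod_const, Finset.card_univ, Fintype.card_fin] at h1
      exact (pow_ne_zero _ hc0) h1.symm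
    refine ⟨fun s => (X s).map (algebraMap K L), ?_⟩
    rw [lift_bc, ← lift_hom (algebraMap K L) (fun r => rfl), ← RingHom.mapMatrix_apply,
      ← RingHom.map_det]
    exact (map_ne_zero_iff _ (algebraMap K L).injective).mpr hd
  have hfg' : ∀ X : σ → Matrix (Fin (N + 1)) (Fin (N + 1)) L,
      FreeAlgebra.lift L X (bc K L σ f * bc K L σ g - bc K L σ g * bc K L σ f) = 0 := by
    intro X
    rw [← map_mul, ← map_mul, ← map_sub, lift_bc]
    exact transfer _ hfg X
  obtain ⟨r, hr⟩ := main_generic hN hζ (bc K L σ f) (bc K L σ g) hch' hne' hfg'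
  have h1 := scalar_of_gen hr (fun s => (X s).map (algebraMap K L))
  rw [lift_bc, ← lift_hom (algebraMap K L) (fun r => rfl)] at h1
  refine ⟨FreeAlgebra.lift K X g 0 0, ?_⟩
  ext1 a b
  apply (algebraMap K L).injective
  have h2 := congrFun (congrFun h1 a) b
  have h3 := congrFun (congrFun h1 0) 0
  rw [Matrix.map_apply, Matrix.scalar_apply] at h2 h3
  rw [Matrix.diagonal_apply_eq] at h3
  rw [h2, Matrix.scalar_apply]
  by_cases hab : a = b
  · subst hab
    rw [Matrix.diagonal_apply_eq, Matrix.diagonal_apply_eq, h3]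
  · rw [Matrix.diagonal_apply_ne _ hab, Matrix.diagonal_apply_ne _ hab, map_zero]

end Gen

end Pool.Agent.J4H41.NC
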