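import Mathlib

/-!
The degree of an irreducible factor over a larger field divides the order of the Galois group.
-/

set_option autoImplicit false

namespace Pool.Agent.J4H41.NC

open Polynomial

theorem dvd_card_self {F : Type*} [Field F] (χ : F[X]) (hs : χ.Separable) (m : F[X])
    (hm : Irreducible m) (hd : m ∣ χ) : m.natDegree ∣ Nat.card χ.Gal := by
  rw [Polynomial.Gal.card_of_separable hs]
  have hχ0 : χ ≠ 0 := hs.ne_zero
  have hsp : (m.map (algebraMap F χ.SplittingField)).Splits :=
    (IsSplittingField.splits χ.SplittingField χ).of_dvd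
      (Polynomial.map_ne_zero hχ0) (Polynomial.map_dvd _ hd)
  obtain ⟨β, hβ⟩ := hsp.exists_eval_eq_zero (by
    rw [Polynomial.degree_map]
    exact (Polynomial.degree_pos_of_irreducible hm).ne')
  have haev : Polynomial.aeval β m = 0 := by
    rw [Polynomial.aeval_def, ← Polynomial.eval_map]; exact hβ
  have hint : IsIntegral F β := (Algebra.IsIntegral.isIntegral β)
  have h1 := minpoly.eq_of_irreducible hm haev
  have h2 : (minpoly F β).natDegree = m.natDegree := by
    rw [← h1]
    exact Polynomial.natDegree_mul_C (inv_ne_zero (Polynomial.leadingCoeff_ne_zero.mpr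
      hm.ne_zero))
  rw [← h2, ← IntermediateField.adjoin.finrank hint]
  exact Dvd.intro _ (Module.finrank_mul_finrank F (IntermediateField.adjoin F {β})
    χ.SplittingField)

theorem dvd_card {E F : Type*} [Field E] [Field F] (j : E →+* F) (χ : E[X]) (hs : χ.Separable)
    (m : F[X]) (hm : Irreducible m) (hd : m ∣ χ.map j) : m.natDegree ∣ Nat.card χ.Gal := by
  classical
  let alg : Algebra E F := j.toAlgebra
  have h1 := dvd_card_self (χ.map j) hs.map m hm hd
  refine h1.trans ?_
  have hsp : ((χ.map j).map (algebraMap F (χ.map j).SplittingField)).Splits :=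
    IsSplittingField.splits _ _
  have hmm : (χ.map j).map (algebraMap F (χ.map j).SplittingField) =
      χ.map (algebraMap E (χ.map j).SplittingField) := by
    rw [Polynomial.map_map]
    rfl
  have hf : Fact ((χ.map (algebraMap E (χ.map j).SplittingField)).Splits) := ⟨by
    rw [← hmm]; exact hsp⟩
  let Ψ : (χ.map j).Gal →* χ.Gal :=
    (Polynomial.Gal.restrict χ (χ.map j).SplittingField).comp
      (AlgEquiv.restrictScalarsHom E (S := F) (A := (χ.map j).SplittingField))
  apply Subgroup.card_dvd_of_injective Ψ
  rw [injective_iff_map_eq_one]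
  intro ϕ hϕ
  apply Polynomial.Gal.ext (χ.map j)
  intro x hx
  have hx2 : x ∈ χ.rootSet (χ.map j).SplittingField := by
    rw [mem_rootSet] at hx ⊢
    refine ⟨hs.ne_zero, ?_⟩
    rw [Polynomial.aeval_def, ← Polynomial.eval_map, ← hmm, Polynomial.eval_map,
      ← Polynomial.aeval_def]
    exact hx.2
  have h2 := Polynomial.Gal.restrict_smul
    (AlgEquiv.restrictScalarsHom E (S := F) (A := (χ.map j).SplittingField) ϕ)
    (⟨x, hx2⟩ : χ.rootSet (χ.map j).SplittingField)
  have h3 : Polynomial.Gal.restrict χ (χ.map j).SplittingField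
      (AlgEquiv.restrictScalarsHom E (S := F) (A := (χ.map j).SplittingField) ϕ) = 1 := hϕ
  rw [h3, one_smul] at h2
  exact h2.symm

end Pool.Agent.J4H41.NC
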