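import Mathlib
import Pool.Agent.J4H41.NC.Loc

/-!
Hensel: a monic polynomial over `k[[t]]` whose reduction is the product of an irreducible separable
polynomial `μ` and a polynomial not divisible by `μ` has an irreducible factor of degree `deg μ`.
-/

set_option autoImplicit false

namespace Pool.Agent.J4H41.NC

open Polynomial

universe u

theorem hensel_factor {k : Type u} [Field k] (A : Polynomial (PowerSeries k)) (hA : A.Monic)
    (μ ν : k[X]) (hμ : Irreducible μ) (hμm : μ.Monic) (hd : μ.derivative ≠ 0)
    (h : A.map (PowerSeries.constantCoeff (R := k)) = μ * ν) (hν : ¬ μ ∣ ν) :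
    ∃ (L1 : Type u) (_ : Field L1) (j : FractionRing (PowerSeries k) →+* L1) (α : L1)
      (m : (FractionRing (PowerSeries k))[X]),
      ((A.map (algebraMap (PowerSeries k) (FractionRing (PowerSeries k)))).map j).eval α = 0 ∧
      ((A.map (algebraMap (PowerSeries k) (FractionRing (PowerSeries k)))).map
        j).derivative.eval α ≠ 0 ∧
      Irreducible m ∧ m.natDegree = μ.natDegree ∧
      m ∣ A.map (algebraMap (PowerSeries k) (FractionRing (PowerSeries k))) := by
  classical
  have hfact : Fact (Irreducible μ) := ⟨hμ⟩
  set k1 := AdjoinRoot μ with hk1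
  set φ : k →+* k1 := AdjoinRoot.of μ with hφ
  set β : k1 := AdjoinRoot.root μ with hβ
  set Φ : PowerSeries k →+* PowerSeries k1 := PowerSeries.map φ with hΦ
  have hφinj : Function.Injective φ := φ.injective
  have hΦinj : Function.Injective Φ := by
    intro u v huv
    ext i
    apply hφinj
    have := congrArg (PowerSeries.coeff i) huv
    rwa [hΦ, PowerSeries.coeff_map, PowerSeries.coeff_map] at this
  have hcc : (PowerSeries.constantCoeff (R := k1)).comp Φ =
      φ.comp (PowerSeries.constantCoeff (R := k)) := by
    apply RingHom.ext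
    intro u
    rw [RingHom.comp_apply, RingHom.comp_apply, ← PowerSeries.coeff_zero_eq_constantCoeff_apply,
      ← PowerSeries.coeff_zero_eq_constantCoeff_apply, hΦ, PowerSeries.coeff_map]
  set A1 := A.map Φ with hA1
  have hA1m : A1.Monic := hA.map Φ
  have hred : A1.map (PowerSeries.constantCoeff (R := k1)) = (μ * ν).map φ := by
    rw [hA1, Polynomial.map_map, hcc, ← Polynomial.map_map, h]
  have hmk : ∀ p : k[X], (p.map φ).eval β = AdjoinRoot.mk μ p := by
    intro p
    rw [Polynomial.eval_map, hφ, hβ, ← AdjoinRoot.aeval_eq]
    rfl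
  have e0 : (A1.map (PowerSeries.constantCoeff (R := k1))).eval β = 0 := by
    rw [hred, hmk, AdjoinRoot.mk_eq_zero]
    exact Dvd.intro _ rfl
  have e1 : (A1.map (PowerSeries.constantCoeff (R := k1))).derivative.eval β ≠ 0 := by
    rw [hred, Polynomial.derivative_map, hmk, Polynomial.derivative_mul, map_add, map_mul, map_mul,
      AdjoinRoot.mk_self, zero_mul, add_zero]
    apply mul_ne_zero
    · intro h0
      rw [AdjoinRoot.mk_eq_zero] at h0
      have h1 := Polynomial.natDegree_le_of_dvd h0 hd
      have h2 : 0 < μ.natDegree := hμ.natDegree_pos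
      have h3 := Polynomial.natDegree_derivative_lt h2.ne'
      omega
    · rw [Ne, AdjoinRoot.mk_eq_zero]
      exact hν
  obtain ⟨α, hα, hαβ⟩ := hensel_root A1 hA1m β e0 e1
  have hα1 : A1.derivative.eval α ≠ 0 := by
    intro h0
    apply e1
    rw [Polynomial.derivative_map, ← hαβ, Polynomial.eval_map_apply, h0, map_zero]
  let L := FractionRing (PowerSeries k)
  let L1 := FractionRing (PowerSeries k1)
  set ι1 : PowerSeries k1 →+* L1 := algebraMap (PowerSeries k1) L1 with hι1
  have hι1inj : Function.Injective ι1 := IsFractionRing.injective (PowerSeries k1) L1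
  set ι0 : PowerSeries k →+* L := algebraMap (PowerSeries k) L with hι0
  have hι0inj : Function.Injective ι0 := IsFractionRing.injective (PowerSeries k) L
  have hcompinj : Function.Injective (ι1.comp Φ) := by
    rw [RingHom.coe_comp]
    exact hι1inj.comp hΦinj
  set j : L →+* L1 := IsFractionRing.lift hcompinj with hj
  have hjι : ∀ u : PowerSeries k, j (ι0 u) = ι1 (Φ u) := fun u =>
    IsFractionRing.lift_algebraMap hcompinj u
  have hjι' : j.comp ι0 = ι1.comp Φ := RingHom.ext hjι
  let alg : Algebra L L1 := j.toAlgebra
  have hAL : (A.map ι0).map j = A1.map ι1 := by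
    rw [Polynomial.map_map, hjι', hA1, Polynomial.map_map]
  have f0 : ((A.map ι0).map j).eval (ι1 α) = 0 := by
    rw [hAL, Polynomial.eval_map_apply, hα, map_zero]
  have f1 : ((A.map ι0).map j).derivative.eval (ι1 α) ≠ 0 := by
    rw [hAL, Polynomial.derivative_map, Polynomial.eval_map_apply]
    exact (map_ne_zero_iff ι1 hι1inj).mpr hα1
  have haev : ∀ (p : L[X]) (x : L1), Polynomial.aeval x p = (p.map j).eval x := by
    intro p x
    rw [Polynomial.aeval_def, Polynomial.eval_map]
    rfl
  have hint : IsIntegral L (ι1 α) := by
    refine ⟨A.map ι0, hA.map ι0, ?_⟩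
    rw [← Polynomial.aeval_def, haev]
    exact f0
  have hmdvd : minpoly L (ι1 α) ∣ A.map ι0 := minpoly.dvd L _ (by rw [haev]; exact f0)
  refine ⟨L1, inferInstance, j, ι1 α, minpoly L (ι1 α), f0, f1, minpoly.irreducible hint, ?_,
    hmdvd⟩
  apply le_antisymm
  · -- `α` is in the field generated by `β`
    set b' : L1 := ι1 (PowerSeries.C β) with hb'
    have hμL : ((μ.map (PowerSeries.C (R := k))).map ι0).Monic := (hμm.map _).map _
    have hb0 : Polynomial.aeval b' ((μ.map (PowerSeries.C (R := k))).map ι0) = 0 := by
      rw [haev, Polynomial.map_map, hjι', Polynomial.map_map, hb']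
      have e2 : (ι1.comp Φ).comp (PowerSeries.C (R := k)) =
          (ι1.comp (PowerSeries.C (R := k1))).comp φ := by
        apply RingHom.ext
        intro c
        simp only [RingHom.comp_apply, hΦ, PowerSeries.map_C]
      rw [e2, ← Polynomial.map_map]
      have e3 : ι1 (PowerSeries.C β) = (ι1.comp (PowerSeries.C (R := k1))) β := rfl
      rw [e3, Polynomial.eval_map_apply, hmk, AdjoinRoot.mk_self, map_zero]
    have hbint : IsIntegral L b' := by
      refine ⟨_, hμL, ?_⟩
      rw [← Polynomial.aeval_def]; exact hb0
    have hbdeg : (minpoly L b').natDegree ≤ μ.natDegree := by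
      have h2 := Polynomial.natDegree_le_of_dvd (minpoly.dvd L b' hb0) hμL.ne_zero
      rw [Polynomial.natDegree_map_eq_of_injective hι0inj,
        Polynomial.natDegree_map_eq_of_injective PowerSeries.C_injective] at h2
      exact h2
    have hmem : ι1 α ∈ IntermediateField.adjoin L {b'} := by
      set pb := AdjoinRoot.powerBasis hμ.ne_zero with hpb
      have hgen : pb.gen = β := AdjoinRoot.powerBasis_gen hμ.ne_zero
      have hsum : α = ∑ i : Fin pb.dim, Φ (PowerSeries.mk fun n =>
          pb.basis.repr (PowerSeries.coeff n α) i) * (PowerSeries.C β) ^ (i : ℕ) := by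
        ext n
        rw [map_sum]
        have h3 : ∀ i : Fin pb.dim, PowerSeries.coeff n (Φ (PowerSeries.mk fun n =>
            pb.basis.repr (PowerSeries.coeff n α) i) * (PowerSeries.C β) ^ (i : ℕ)) =
            pb.basis.repr (PowerSeries.coeff n α) i • pb.basis i := by
          intro i
          rw [← map_pow, PowerSeries.coeff_mul_C, hΦ, PowerSeries.coeff_map,
            PowerSeries.coeff_mk, PowerBasis.basis_eq_pow, hgen, Algebra.smul_def]
          rfl
        rw [Finset.sum_congr rfl (fun i _ => h3 i)]
        exact (pb.basis.sum_repr _).symm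
      rw [hsum, map_sum]
      apply sum_mem
      intro i _
      rw [map_mul, map_pow, ← hjι]
      apply mul_mem
      · exact IntermediateField.algebraMap_mem _ _
      · exact pow_mem (IntermediateField.mem_adjoin_simple_self L b') _
    have h4 : IntermediateField.adjoin L {ι1 α} ≤ IntermediateField.adjoin L {b'} := by
      rw [IntermediateField.adjoin_simple_le_iff]
      exact hmem
    have hfd : FiniteDimensional L (IntermediateField.adjoin L {b'}) :=
      IntermediateField.adjoin.finiteDimensional hbint
    have h5 : Module.finrank L (IntermediateField.adjoin L {ι1 α}) ≤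
        Module.finrank L (IntermediateField.adjoin L {b'}) :=
      Submodule.finrank_mono (t := (IntermediateField.adjoin L {b'}).toSubmodule)
        (s := (IntermediateField.adjoin L {ι1 α}).toSubmodule) h4
    rw [IntermediateField.adjoin.finrank hint, IntermediateField.adjoin.finrank hbint] at h5
    exact h5.trans hbdeg
  · -- the reduction of the minimal polynomial is divisible by `μ`
    obtain ⟨m0, hm0⟩ := IsIntegrallyClosed.eq_map_mul_C_of_dvd L hA hmdvd
    rw [(minpoly.monic hint).leadingCoeff, C_1, mul_one] at hm0
    have hm0m : m0.Monic := by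
      have := minpoly.monic hint
      rw [← hm0] at this
      exact Polynomial.monic_of_injective hι0inj this
    have h6 : (m0.map Φ).eval α = 0 := by
      apply hι1inj
      rw [map_zero, ← Polynomial.eval_map_apply, Polynomial.map_map, ← hjι', ← Polynomial.map_map]
      have h7 := minpoly.aeval L (ι1 α)
      rw [haev, ← hm0] at h7
      exact h7
    have h8 : ((m0.map (PowerSeries.constantCoeff (R := k))).map φ).eval β = 0 := by
      rw [Polynomial.map_map, ← hcc, ← Polynomial.map_map, ← hαβ, Polynomial.eval_map_apply, h6,
        map_zero]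
    rw [hmk, AdjoinRoot.mk_eq_zero] at h8
    have h9 := Polynomial.natDegree_le_of_dvd h8 (hm0m.map _).ne_zero
    rw [hm0m.natDegree_map] at h9
    rw [← hm0, Polynomial.natDegree_map_eq_of_injective hι0inj]
    exact h9

end Pool.Agent.J4H41.NC
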