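import Mathlib
import Pool.Agent.J4H41.NC.Spl
import Pool.Agent.J4H41.NC.Loc
import Pool.Agent.J4H41.NC.Cent

/-!
Behaviour of the values of a noncommutative polynomial near block diagonal matrices with a fixed
block of size `a` and a generic block of size `b`.
-/

set_option autoImplicit false

namespace Pool.Agent.J4H41.NC

open Matrix Polynomial Pool.Agent.H552R3.PC

section Split

theorem fin_of_splits {F : Type*} [Field F] {n : ℕ} (p : F[X]) (hp : p.Monic) (hs : p.Splits)
    (hn : p.natDegree = n) : ∃ β : Fin n → F, p = ∏ i, (X - C (β i)) := by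
  classical
  have h1 := hs.eq_prod_roots_of_monic hp
  have h2 : p.roots.card = n := by rw [← hn]; exact hs.natDegree_eq_card_roots.symm
  obtain ⟨l, hl⟩ : ∃ l : List F, (l : Multiset F) = p.roots := ⟨_, Multiset.coe_toList _⟩
  have h3 : l.length = n := by rw [← h2, ← hl, Multiset.coe_card]
  subst h3
  refine ⟨fun i => l.get i, ?_⟩
  conv_lhs => rw [h1]
  rw [← hl, Multiset.map_coe, Multiset.prod_coe]
  conv_lhs => rw [← List.ofFn_get l]
  rw [List.map_ofFn, List.prod_ofFn]
  rfl

end Split

variable {K : Type*} [Field K] {σ : Type*} {a b : ℕ}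

/-- The block diagonal matrix with blocks `P` and `M`. -/
def bl {B : Type*} [CommRing B] (P : Matrix (Fin a) (Fin a) B) (M : Matrix (Fin b) (Fin b) B) :
    Matrix (Fin (a + b)) (Fin (a + b)) B :=
  Matrix.reindex finSumFinEquiv finSumFinEquiv (fromBlocks P 0 0 M)

theorem lift_fb2 {B : Type*} [CommRing B] [Algebra K B] (P : σ → Matrix (Fin a) (Fin a) B)
    (M : σ → Matrix (Fin b) (Fin b) B) (f : FreeAlgebra K σ) :
    FreeAlgebra.lift K (fun s => fromBlocks (P s) 0 0 (M s)) f =
      fromBlocks (FreeAlgebra.lift K P f) 0 0 (FreeAlgebra.lift K M f) := by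
  induction f using FreeAlgebra.induction with
  | grade0 r =>
    rw [AlgHom.commutes, AlgHom.commutes, AlgHom.commutes]
    ext i j
    rcases i with i | i <;> rcases j with j | j <;> simp [algebraMap_matrix_apply]
  | grade1 x =>
    rw [FreeAlgebra.lift_ι_apply, FreeAlgebra.lift_ι_apply, FreeAlgebra.lift_ι_apply]
  | mul f g hf hg =>
    rw [map_mul, hf, hg, fromBlocks_multiply, map_mul, map_mul]
    simp
  | add f g hf hg =>
    rw [map_add, hf, hg, fromBlocks_add, map_add, map_add]
    simp

theorem lift_bl {B : Type*} [CommRing B] [Algebra K B] (P : σ → Matrix (Fin a) (Fin a) B)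
    (M : σ → Matrix (Fin b) (Fin b) B) (f : FreeAlgebra K σ) :
    FreeAlgebra.lift K (fun s => bl (P s) (M s)) f =
      bl (FreeAlgebra.lift K P f) (FreeAlgebra.lift K M f) := by
  have := lift_map ((Matrix.reindexAlgEquiv K B (finSumFinEquiv (m := a) (n := b)) :
    Matrix (Fin a ⊕ Fin b) (Fin a ⊕ Fin b) B ≃ₐ[K] Matrix (Fin (a + b)) (Fin (a + b)) B) :
    Matrix (Fin a ⊕ Fin b) (Fin a ⊕ Fin b) B →ₐ[K] Matrix (Fin (a + b)) (Fin (a + b)) B)
    (fun s => fromBlocks (P s) 0 0 (M s)) f
  rw [lift_fb2] at this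
  exact this.symm

theorem charpoly_bl {B : Type*} [CommRing B] (P : Matrix (Fin a) (Fin a) B)
    (M : Matrix (Fin b) (Fin b) B) : (bl P M).charpoly = P.charpoly * M.charpoly := by
  unfold bl
  rw [Matrix.charpoly_reindex, Matrix.charpoly_fromBlocks_zero₁₂]

theorem bl_map {B D : Type*} [CommRing B] [CommRing D] (φ : B →+* D)
    (P : Matrix (Fin a) (Fin a) B) (M : Matrix (Fin b) (Fin b) B) :
    (bl P M).map φ = bl (P.map φ) (M.map φ) := by
  unfold bl
  ext i j
  rw [Matrix.map_apply, Matrix.reindex_apply, Matrix.reindex_apply, Matrix.submatrix_apply,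
    Matrix.submatrix_apply]
  rcases finSumFinEquiv.symm i with i' | i' <;> rcases finSumFinEquiv.symm j with j' | j' <;> simp

/-- Coordinates of generic matrices of sizes `b` and `a + b`. -/
abbrev R3 (K : Type*) [Field K] (σ : Type*) (a b : ℕ) :=
  MvPolynomial ((σ × Fin b × Fin b) ⊕ (σ × Fin (a + b) × Fin (a + b))) K

noncomputable def Y3 (K : Type*) [Field K] (σ : Type*) (a b : ℕ) (s : σ) :
    Matrix (Fin b) (Fin b) (R3 K σ a b) :=
  Matrix.of fun j k => MvPolynomial.X (Sum.inl (s, j, k))

noncomputable def x3 (K : Type*) [Field K] (σ : Type*) (a b : ℕ) (s : σ) :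
    Matrix (Fin (a + b)) (Fin (a + b)) (R3 K σ a b) :=
  Matrix.of fun j k => MvPolynomial.X (Sum.inr (s, j, k))

/-- The line through the block matrix and the generic matrix. -/
noncomputable def T3 (p : σ → Matrix (Fin a) (Fin a) K) (s : σ) :
    Matrix (Fin (a + b)) (Fin (a + b)) (R3 K σ a b)[X] :=
  (bl ((p s).map (algebraMap K (R3 K σ a b))) (Y3 K σ a b s)).map C +
    (X : (R3 K σ a b)[X]) • (x3 K σ a b s).map C

/-- Back to the generic matrices of size `a + b`. -/
noncomputable def back (p : σ → Matrix (Fin a) (Fin a) K) :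
    (R3 K σ a b)[X] →+* GA K σ (a + b) :=
  ((MvPolynomial.aeval (Sum.elim (fun _ => 0) (fun q => MvPolynomial.X q -
    algebraMap K (GA K σ (a + b)) (bl (p q.1) (0 : Matrix (Fin b) (Fin b) K) q.2.1 q.2.2))) :
    R3 K σ a b →ₐ[K] GA K σ (a + b)) : R3 K σ a b →+* GA K σ (a + b)).comp
    (evalRingHom (1 : R3 K σ a b))

theorem back_K (p : σ → Matrix (Fin a) (Fin a) K) (r : K) :
    back (b := b) p (algebraMap K (R3 K σ a b)[X] r) = algebraMap K (GA K σ (a + b)) r := by
  unfold back
  rw [RingHom.comp_apply, coe_evalRingHom, Polynomial.algebraMap_apply, Polynomial.eval_C]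
  exact (MvPolynomial.aeval (Sum.elim (fun _ => 0) (fun q => MvPolynomial.X q -
    algebraMap K (GA K σ (a + b)) (bl (p q.1) (0 : Matrix (Fin b) (Fin b) K) q.2.1 q.2.2))) :
    R3 K σ a b →ₐ[K] GA K σ (a + b)).commutes r

theorem back_T (p : σ → Matrix (Fin a) (Fin a) K) (s : σ) :
    (T3 (b := b) p s).map (back p) = gen K σ (a + b) s := by
  ext1 i j
  set θ : R3 K σ a b →ₐ[K] GA K σ (a + b) :=
    MvPolynomial.aeval (Sum.elim (fun _ => 0) (fun q => MvPolynomial.X q -
    algebraMap K (GA K σ (a + b)) (bl (p q.1) (0 : Matrix (Fin b) (Fin b) K) q.2.1 q.2.2)))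
    with hθ
  have h1 : (bl ((p s).map (algebraMap K (R3 K σ a b))) (Y3 K σ a b s)).map
      (θ : R3 K σ a b →+* GA K σ (a + b)) =
      (bl (p s) (0 : Matrix (Fin b) (Fin b) K)).map (algebraMap K (GA K σ (a + b))) := by
    rw [bl_map, bl_map]
    congr 1
    · ext1 j k
      simp only [Matrix.map_apply]
      exact θ.commutes _
    · ext1 j k
      rw [Matrix.map_apply, Matrix.map_apply, Matrix.zero_apply, map_zero]
      exact MvPolynomial.aeval_X _ _
  have h2 := congrFun (congrFun h1 i) j
  simp only [Matrix.map_apply] at h2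
  simp only [T3, Matrix.map_apply, Matrix.add_apply, Matrix.smul_apply, smul_eq_mul, back,
    RingHom.comp_apply, coe_evalRingHom, eval_mul, eval_C, eval_X, one_mul, eval_add, map_add]
  rw [← hθ, h2]
  have h3 : (θ : R3 K σ a b →+* GA K σ (a + b)) (x3 K σ a b s i j) = MvPolynomial.X (s, i, j) -
      algebraMap K (GA K σ (a + b)) (bl (p s) (0 : Matrix (Fin b) (Fin b) K) i j) :=
    MvPolynomial.aeval_X _ _
  rw [h3, add_sub_cancel]
  rfl

theorem spz_T3_inj (p : σ → Matrix (Fin a) (Fin a) K) :
    Function.Injective (spz (T3 (b := b) p) : GA K σ (a + b) → (R3 K σ a b)[X]) := by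
  have h1 : ∀ c : GA K σ (a + b), back (b := b) p (spz (T3 (b := b) p) c) = c := by
    intro c
    have h3 := spz_hom (back (b := b) p) (back_K p) (T3 (b := b) p) c
    have h4 : (fun s => (T3 (b := b) p s).map (back p)) = gen K σ (a + b) := by
      funext s
      exact back_T p s
    rw [h4] at h3
    rw [h3]
    unfold spz
    have : (fun q : σ × Fin (a + b) × Fin (a + b) => gen K σ (a + b) q.1 q.2.1 q.2.2) =
        MvPolynomial.X := by
      funext q
      rfl
    rw [this]
    exact MvPolynomial.aeval_X_left_apply c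
  intro c d hcd
  rw [← h1 c, ← h1 d, hcd]

/-- The field of rational functions in the coordinates. -/
abbrev K3 (K : Type*) [Field K] (σ : Type*) (a b : ℕ) := FractionRing (R3 K σ a b)

/-- From polynomials in `t` to power series over the fraction field. -/
noncomputable def jm3 (K : Type*) [Field K] (σ : Type*) (a b : ℕ) :
    (R3 K σ a b)[X] →+* PowerSeries (K3 K σ a b) :=
  (PowerSeries.map (algebraMap (R3 K σ a b) (K3 K σ a b))).comp
    (Polynomial.coeToPowerSeries.ringHom)

theorem jm3_inj (K : Type*) [Field K] (σ : Type*) (a b : ℕ) :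
    Function.Injective (jm3 K σ a b) := by
  intro p q hpq
  have h1 : PowerSeries.map (algebraMap (R3 K σ a b) (K3 K σ a b)) (p : PowerSeries (R3 K σ a b)) =
    PowerSeries.map (algebraMap (R3 K σ a b) (K3 K σ a b)) (q : PowerSeries (R3 K σ a b)) := hpq
  have h2 : (p : PowerSeries (R3 K σ a b)) = (q : PowerSeries (R3 K σ a b)) := by
    refine PowerSeries.ext fun i => ?_
    have h3 := congrArg (PowerSeries.coeff i) h1
    rw [PowerSeries.coeff_map, PowerSeries.coeff_map] at h3
    exact IsFractionRing.injective (R3 K σ a b) (K3 K σ a b) h3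
  exact Polynomial.coe_injective (R3 K σ a b) h2

/-- The field of Laurent series. -/
abbrev L3 (K : Type*) [Field K] (σ : Type*) (a b : ℕ) := FractionRing (PowerSeries (K3 K σ a b))

/-- From the coordinates of the generic matrices of size `a + b` to Laurent series. -/
noncomputable def j3 (p : σ → Matrix (Fin a) (Fin a) K) : GA K σ (a + b) →+* L3 K σ a b :=
  ((algebraMap (PowerSeries (K3 K σ a b)) (L3 K σ a b)).comp (jm3 K σ a b)).comp
    ((spz (T3 (b := b) p) : GA K σ (a + b) →ₐ[K] (R3 K σ a b)[X]) :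
      GA K σ (a + b) →+* (R3 K σ a b)[X])

theorem j3_inj (p : σ → Matrix (Fin a) (Fin a) K) : Function.Injective (j3 (b := b) p) := by
  rw [j3, RingHom.coe_comp, RingHom.coe_comp]
  exact ((IsFractionRing.injective (PowerSeries (K3 K σ a b)) (L3 K σ a b)).comp
    (jm3_inj K σ a b)).comp (spz_T3_inj p)

/-- The criterion. -/
theorem crit3 (hb : 0 < b) (p : σ → Matrix (Fin a) (Fin a) K) (g : FreeAlgebra K σ) (l1 l2 : K)
    (hl : l1 ≠ l2)
    (h10 : (FreeAlgebra.lift K p g).charpoly.eval l1 = 0)
    (h11 : (FreeAlgebra.lift K p g).charpoly.derivative.eval l1 ≠ 0)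
    (h20 : (FreeAlgebra.lift K p g).charpoly.eval l2 = 0)
    (h21 : (FreeAlgebra.lift K p g).charpoly.derivative.eval l2 ≠ 0)
    (H : ∀ α1 α2 : L3 K σ a b, α1 ≠ α2 →
      ((FreeAlgebra.lift K (gen K σ (a + b)) g).charpoly.map (j3 p)).eval α1 = 0 →
      ((FreeAlgebra.lift K (gen K σ (a + b)) g).charpoly.map (j3 p)).derivative.eval α1 ≠ 0 →
      ((FreeAlgebra.lift K (gen K σ (a + b)) g).charpoly.map (j3 p)).eval α2 = 0 →
      ((FreeAlgebra.lift K (gen K σ (a + b)) g).charpoly.map (j3 p)).Splits) :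
    ∃ r : GA K σ b, FreeAlgebra.lift K (gen K σ b) g = Matrix.scalar (Fin b) r := by
  classical
  have : NeZero b := ⟨hb.ne'⟩
  set R := R3 K σ a b with hR
  set k0 := K3 K σ a b with hk0
  set ι : R →+* k0 := algebraMap R k0 with hι
  have hιinj : Function.Injective ι := IsFractionRing.injective R k0
  have hccj : (PowerSeries.constantCoeff (R := k0)).comp (jm3 K σ a b) =
      ι.comp (evalRingHom (0 : R)) := by
    apply RingHom.ext
    intro p
    show PowerSeries.constantCoeff (PowerSeries.map ι (p : PowerSeries R)) = ι (p.eval 0)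
    rw [← PowerSeries.coeff_zero_eq_constantCoeff_apply, PowerSeries.coeff_map,
      Polynomial.coeff_coe, Polynomial.coeff_zero_eq_eval_zero]
  set A := (FreeAlgebra.lift K (T3 (b := b) p) g).map (jm3 K σ a b) with hA
  set κ := algebraMap (PowerSeries k0) (L3 K σ a b) with hκ
  have hκinj : Function.Injective κ := IsFractionRing.injective (PowerSeries k0) (L3 K σ a b)
  have hAL : (FreeAlgebra.lift K (gen K σ (a + b)) g).charpoly.map (j3 p) =
      A.charpoly.map κ := by
    have h1 : (FreeAlgebra.lift K (gen K σ (a + b)) g).map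
        ((spz (T3 (b := b) p) : GA K σ (a + b) →ₐ[K] (R3 K σ a b)[X]) :
        GA K σ (a + b) →+* (R3 K σ a b)[X]) = FreeAlgebra.lift K (T3 (b := b) p) g := by
      rw [← spz_gen (T3 (b := b) p) g]; rfl
    have h2 : (FreeAlgebra.lift K (gen K σ (a + b)) g).map (j3 p) = A.map κ := by
      rw [hA, ← h1]
      rfl
    rw [← Matrix.charpoly_map, ← Matrix.charpoly_map, h2]
  have hA0 : A.map (PowerSeries.constantCoeff (R := k0)) =
      (FreeAlgebra.lift K (fun s => bl ((p s).map (algebraMap K R)) (Y3 K σ a b s)) g).map ι := by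
    have h1 : A.map (PowerSeries.constantCoeff (R := k0)) =
        ((FreeAlgebra.lift K (T3 (b := b) p) g).map (evalRingHom (0 : R))).map ι := by
      rw [hA, Matrix.map_map, Matrix.map_map, ← RingHom.coe_comp, ← RingHom.coe_comp, hccj]
    rw [h1, lift_hom (evalRingHom (0 : R)) (fun r => by simp [Polynomial.algebraMap_apply])]
    congr 3
    funext s
    ext1 i j
    simp [T3]
    rfl
  set χp := (FreeAlgebra.lift K p g).charpoly with hχp
  set χ := (FreeAlgebra.lift K (Y3 K σ a b) g).charpoly with hχ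
  have hcp0 : (FreeAlgebra.lift K (fun s => (p s).map (algebraMap K R)) g).charpoly =
      χp.map (algebraMap K R) := by
    rw [hχp, ← Matrix.charpoly_map, lift_hom (algebraMap K R) (fun r => rfl)]
  have hcpA : (A.map (PowerSeries.constantCoeff (R := k0))).charpoly =
      (χp.map (algebraMap K R) * χ).map ι := by
    rw [hA0, Matrix.charpoly_map, lift_bl, charpoly_bl, hcp0]
  -- specialisation to the generic matrices of size `b`
  let θ : R →ₐ[K] GA K σ b := MvPolynomial.aeval (Sum.elim (fun q => MvPolynomial.X q) (fun _ => 0))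
  have hθK : ∀ r : K, (θ : R →+* GA K σ b) (algebraMap K R r) = algebraMap K (GA K σ b) r :=
    fun r => θ.commutes r
  have hY : (fun s => (Y3 K σ a b s).map (θ : R →+* GA K σ b)) = gen K σ b := by
    funext s
    ext1 i j
    exact MvPolynomial.aeval_X _ _
  have hθg : ∀ u : FreeAlgebra K σ, (FreeAlgebra.lift K (Y3 K σ a b) u).map
      (θ : R →+* GA K σ b) = FreeAlgebra.lift K (gen K σ b) u := by
    intro u
    rw [lift_hom (θ : R →+* GA K σ b) hθK, hY]
  have hcase : ∀ l : K, χ.eval (algebraMap K R l) = 0 →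
      ∃ r : GA K σ b, FreeAlgebra.lift K (gen K σ b) g = Matrix.scalar (Fin b) r := by
    intro l hl0
    refine ⟨algebraMap K _ l, ?_⟩
    have h1 : (FreeAlgebra.lift K (gen K σ b) (algebraMap K _ l - g)).det = 0 := by
      have h2 : (FreeAlgebra.lift K (Y3 K σ a b) (algebraMap K _ l - g)).det = 0 := by
        rw [← hl0, hχ, Matrix.eval_charpoly]
        congr 1
        rw [map_sub, AlgHom.commutes]
        congr 1
      rw [← hθg, ← RingHom.mapMatrix_apply, ← RingHom.map_det, h2, map_zero]
    have h4 := zero_of_det _ h1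
    rw [map_sub, AlgHom.commutes, sub_eq_zero] at h4
    rw [← h4]
    rfl
  by_cases hc1 : χ.eval (algebraMap K R l1) = 0
  · exact hcase l1 hc1
  by_cases hc2 : χ.eval (algebraMap K R l2) = 0
  · exact hcase l2 hc2
  -- simple roots
  have hroot : ∀ l : K, χp.eval l = 0 → χp.derivative.eval l ≠ 0 →
      χ.eval (algebraMap K R l) ≠ 0 →
      ∃ α : PowerSeries k0, A.charpoly.eval α = 0 ∧ A.charpoly.derivative.eval α ≠ 0 ∧
        PowerSeries.constantCoeff α = ι (algebraMap K R l) := by
    intro l e0 e1 e2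
    have f0 : (A.map (PowerSeries.constantCoeff (R := k0))).charpoly.eval
        (ι (algebraMap K R l)) = 0 := by
      rw [hcpA, Polynomial.eval_map_apply, eval_mul, Polynomial.eval_map_apply, e0, map_zero,
        zero_mul, map_zero]
    have f1 : (A.map (PowerSeries.constantCoeff (R := k0))).charpoly.derivative.eval
        (ι (algebraMap K R l)) ≠ 0 := by
      rw [hcpA, Polynomial.derivative_map, Polynomial.eval_map_apply, derivative_mul, eval_add,
        eval_mul, eval_mul, Polynomial.eval_map_apply (f := algebraMap K R) (p := χp), e0, map_zero,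
        zero_mul, add_zero, Polynomial.derivative_map, Polynomial.eval_map_apply]
      apply (map_ne_zero_iff ι hιinj).mpr
      exact mul_ne_zero ((map_ne_zero_iff _ (algebraMap K R).injective).mpr e1) e2
    rw [Matrix.charpoly_map] at f0 f1
    obtain ⟨α, hα, hαa⟩ := hensel_root A.charpoly (Matrix.charpoly_monic A) _ f0 f1
    refine ⟨α, hα, ?_, hαa⟩
    intro h
    apply f1
    rw [Polynomial.derivative_map, ← hαa, Polynomial.eval_map_apply, h, map_zero]
  obtain ⟨α1, ha1, ha1', hac1⟩ := hroot l1 h10 h11 hc1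
  obtain ⟨α2, ha2, ha2', hac2⟩ := hroot l2 h20 h21 hc2
  have hα12 : κ α1 ≠ κ α2 := by
    intro h
    have h1 := hκinj h
    rw [h1, hac2] at hac1
    exact hl ((algebraMap K R).injective (hιinj hac1)).symm
  have hsp := H (κ α1) (κ α2) hα12
    (by rw [hAL, Polynomial.eval_map_apply, ha1, map_zero])
    (by
      rw [hAL, Polynomial.derivative_map, Polynomial.eval_map_apply]
      exact (map_ne_zero_iff κ hκinj).mpr ha1')
    (by rw [hAL, Polynomial.eval_map_apply, ha2, map_zero])
  rw [hAL] at hsp
  obtain ⟨β, hβ⟩ := fin_of_splits (n := a + b) (A.charpoly.map κ)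
    ((Matrix.charpoly_monic A).map κ) hsp (by
      rw [Polynomial.natDegree_map_eq_of_injective hκinj, Matrix.charpoly_natDegree_eq_dim,
        Fintype.card_fin])
  obtain ⟨c, hc⟩ := descend (F := L3 K σ a b) A.charpoly (Matrix.charpoly_monic _) β hβ
  have hα2 : (χp.map (algebraMap K R)).map ι * χ.map ι =
      ∏ i, (X - C (PowerSeries.constantCoeff (c i))) := by
    rw [← Polynomial.map_mul, ← hcpA, Matrix.charpoly_map, hc, Polynomial.map_prod]
    refine Finset.prod_congr rfl fun i _ => ?_
    rw [Polynomial.map_sub, Polynomial.map_X, Polynomial.map_C]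
  have hsp2 : (χ.map ι).Splits := by
    have h1 : ((χp.map (algebraMap K R)).map ι * χ.map ι).Splits := by
      rw [hα2]
      exact Polynomial.Splits.prod (fun i _ => Polynomial.Splits.X_sub_C _)
    exact h1.of_dvd (by
      rw [hα2]
      exact (Polynomial.monic_prod_of_monic _ _ (fun i _ => Polynomial.monic_X_sub_C _)).ne_zero)
      (Dvd.intro_left _ rfl)
  obtain ⟨β', hβ'⟩ := fin_of_splits (n := b) (χ.map ι) ((Matrix.charpoly_monic _).map ι) hsp2 (by
      rw [Polynomial.natDegree_map_eq_of_injective hιinj, Matrix.charpoly_natDegree_eq_dim,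
        Fintype.card_fin])
  obtain ⟨b', hb'⟩ := descend (F := k0) χ (Matrix.charpoly_monic _) β' hβ'
  have h5 : (FreeAlgebra.lift K (gen K σ b) g).charpoly = ∏ i, (X - C (θ (b' i))) := by
    rw [← hθg, Matrix.charpoly_map, ← hχ, hb', Polynomial.map_prod]
    refine Finset.prod_congr rfl fun i _ => ?_
    rw [Polynomial.map_sub, Polynomial.map_X, Polynomial.map_C]
    rfl
  exact scalar_of_splits g _ h5

end Pool.Agent.J4H41.NC
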