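import Mathlib
import Pool.Agent.J4H41.NC.Inv

/-!
The coefficients of the monic factors of the characteristic polynomial of the value of a
noncommutative polynomial at the generic matrices are invariant under conjugation.
-/

set_option autoImplicit false

namespace Pool.Agent.J4H41.NC

open Matrix Polynomial Pool.Agent.H552R3.PC

variable {K : Type*} [Field K] {σ : Type*} {N : ℕ}

/-- A monic factor over a field of a polynomial which splits over a smaller field is defined over
the smaller field. -/
theorem factor_lifts {L F : Type*} [Field L] [Field F] (j : L →+* F) (χ : L[X]) (hχ : χ.Monic)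
    (hs : χ.Splits) (p : F[X]) (hp : p.Monic) (h : p ∣ χ.map j) (i : ℕ) :
    ∃ x : L, j x = p.coeff i := by
  have hs2 : (χ.map j).Splits := hs.map j
  have h0 : χ.map j ≠ 0 := (hχ.map j).ne_zero
  have hps : p.Splits := hs2.of_dvd h0 h
  have hmem : p ∈ Polynomial.lifts j := by
    rw [hps.eq_prod_roots_of_monic hp]
    apply Subsemiring.multiset_prod_mem
    intro u hu
    obtain ⟨r, hr, rfl⟩ := Multiset.mem_map.mp hu
    have hr1 : (χ.map j).IsRoot r := by
      obtain ⟨v, hv⟩ := h
      have := (Polynomial.mem_roots hp.ne_zero).mp hr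
      rw [hv, Polynomial.IsRoot, Polynomial.eval_mul, this.eq_zero, zero_mul]
    have hr2 : ∃ a : L, j a = r := by
      have h3 := congrArg (Polynomial.map j) (hs.eq_prod_roots_of_monic hχ)
      rw [h3] at hr1
      rw [Polynomial.IsRoot, Polynomial.map_multiset_prod, Polynomial.eval_multiset_prod,
        Multiset.map_map, Multiset.map_map, Multiset.prod_eq_zero_iff] at hr1
      obtain ⟨a, ha, ha2⟩ := Multiset.mem_map.mp hr1
      refine ⟨a, ?_⟩
      simp only [Function.comp_apply, Polynomial.map_sub, Polynomial.map_X, Polynomial.map_C,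
        Polynomial.eval_sub, Polynomial.eval_X, Polynomial.eval_C] at ha2
      exact (sub_eq_zero.mp ha2).symm
    obtain ⟨a, rfl⟩ := hr2
    rw [Polynomial.mem_lifts]
    exact ⟨X - C a, by simp⟩
  obtain ⟨q, hq⟩ := (Polynomial.mem_lifts p).mp hmem
  exact ⟨q.coeff i, by rw [← hq, Polynomial.coeff_map]⟩

theorem factor_inv (g : FreeAlgebra K σ) (p q : (GA K σ N)[X]) (hp : p.Monic)
    (hpq : (FreeAlgebra.lift K (gen K σ N) g).charpoly = p * q)
    {L : Type*} [Field L] [Algebra K L] [IsAlgClosed L] (W : σ → Matrix (Fin N) (Fin N) L)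
    (P Q : Matrix (Fin N) (Fin N) L) (hPQ : P * Q = 1) (i : ℕ) :
    spz (fun s => P * W s * Q) (p.coeff i) = spz W (p.coeff i) := by
  classical
  set M : Matrix (Fin N) (Fin N) L[X] := 1 + (X : L[X]) • ((P - 1).map (C : L →+* L[X])) with hM
  set δ := M.det with hδ
  have hev : ∀ x : L, M.map (evalRingHom x) = 1 + x • (P - 1) := by
    intro x
    ext a b
    simp only [hM, Matrix.map_apply, Matrix.add_apply, Matrix.smul_apply, smul_eq_mul, map_add,
      map_mul, Matrix.sub_apply, coe_evalRingHom, eval_X, eval_C]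
    congr 1
    by_cases h : a = b
    · subst h; simp
    · simp [h]; ring
  have hM0 : M.map (evalRingHom (0 : L)) = 1 := by rw [hev, zero_smul, add_zero]
  have hM1 : M.map (evalRingHom (1 : L)) = P := by rw [hev, one_smul, add_sub_cancel]
  have hd0 : evalRingHom (0 : L) δ = 1 := by
    rw [hδ, RingHom.map_det, RingHom.mapMatrix_apply, hM0, Matrix.det_one]
  have hd1 : IsUnit (evalRingHom (1 : L) δ) := by
    rw [hδ, RingHom.map_det, RingHom.mapMatrix_apply, hM1]
    exact (Matrix.isUnit_iff_isUnit_det P).mp (IsUnit.of_mul_eq_one Q hPQ)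
  have hδ0 : δ ≠ 0 := by
    intro h
    rw [h, map_zero] at hd0
    exact zero_ne_one hd0
  let O := Localization.Away δ
  have : IsDomain O := IsLocalization.isDomain_localization
    (powers_le_nonZeroDivisors_of_noZeroDivisors hδ0)
  let jO : L[X] →+* O := algebraMap L[X] O
  have hjK : ∀ r : K, jO (algebraMap K L[X] r) = algebraMap K O r := fun r =>
    (IsScalarTower.algebraMap_apply K L[X] O r).symm
  set MO := M.map jO with hMO
  have hdet : IsUnit MO.det := by
    have : MO.det = jO δ := by
      rw [hMO, ← RingHom.mapMatrix_apply, ← RingHom.map_det]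
    rw [this]
    exact IsLocalization.Away.algebraMap_isUnit δ
  have hMM : MO * MO⁻¹ = 1 := Matrix.mul_nonsing_inv _ hdet
  let j1 : L →+* O := jO.comp C
  have hj1K : ∀ r : K, j1 (algebraMap K L r) = algebraMap K O r := by
    intro r
    rw [← hjK]
    rfl
  set W' : σ → Matrix (Fin N) (Fin N) O := fun s => (W s).map j1 with hW'
  set Y : σ → Matrix (Fin N) (Fin N) O := fun s => MO * W' s * MO⁻¹ with hY
  have hcp : (FreeAlgebra.lift K Y g).charpoly = (FreeAlgebra.lift K W' g).charpoly := by
    rw [hY, lift_cj W' _ _ hMM, charpoly_cj _ _ _ hMM]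
  have hfac : ∀ {B : Type _} [CommRing B] [Algebra K B] (V : σ → Matrix (Fin N) (Fin N) B),
      (FreeAlgebra.lift K V g).charpoly =
        p.map ((spz V : GA K σ N →ₐ[K] B) : GA K σ N →+* B) *
        q.map ((spz V : GA K σ N →ₐ[K] B) : GA K σ N →+* B) := by
    intro B _ _ V
    rw [← Polynomial.map_mul, ← hpq, ← Matrix.charpoly_map]
    congr 1
    rw [← spz_gen V g]; rfl
  have hWχ : (FreeAlgebra.lift K W' g).charpoly = (FreeAlgebra.lift K W g).charpoly.map j1 := by
    rw [← Matrix.charpoly_map, lift_hom j1 hj1K]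
  rw [hfac Y, hWχ] at hcp
  let F' := FractionRing O
  let κ : O →+* F' := algebraMap O F'
  have hκ : Function.Injective κ := IsFractionRing.injective O F'
  obtain ⟨x, hx⟩ := factor_lifts (κ.comp j1) (FreeAlgebra.lift K W g).charpoly
    (Matrix.charpoly_monic _) (IsAlgClosed.splits _)
    ((p.map ((spz Y : GA K σ N →ₐ[K] O) : GA K σ N →+* O)).map κ) ((hp.map _).map _)
    (by
      rw [← Polynomial.map_map, ← hcp, Polynomial.map_mul]
      exact Dvd.intro _ rfl) i
  have hj : spz Y (p.coeff i) = j1 x := by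
    apply hκ
    rw [Polynomial.coeff_map, Polynomial.coeff_map] at hx
    exact hx.symm
  -- evaluations
  let e0 : O →+* L := IsLocalization.Away.lift δ (g := evalRingHom (0 : L))
    (by rw [hd0]; exact isUnit_one)
  let e1 : O →+* L := IsLocalization.Away.lift δ (g := evalRingHom (1 : L)) hd1
  have he0 : ∀ p : L[X], e0 (jO p) = evalRingHom (0 : L) p := fun p =>
    IsLocalization.Away.lift_eq δ _ p
  have he1 : ∀ p : L[X], e1 (jO p) = evalRingHom (1 : L) p := fun p =>
    IsLocalization.Away.lift_eq δ _ p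
  have he0K : ∀ r : K, e0 (algebraMap K O r) = algebraMap K L r := by
    intro r
    rw [← hjK, he0]
    simp [Polynomial.algebraMap_apply]
  have he1K : ∀ r : K, e1 (algebraMap K O r) = algebraMap K L r := by
    intro r
    rw [← hjK, he1]
    simp [Polynomial.algebraMap_apply]
  have h0 := congrArg e0 hj
  have h1 := congrArg e1 hj
  rw [spz_hom e0 he0K] at h0
  rw [spz_hom e1 he1K] at h1
  have hj0 : ∀ x : L, e0 (j1 x) = x := by
    intro x; show e0 (jO (C x)) = x; rw [he0]; simp
  have hj1 : ∀ x : L, e1 (j1 x) = x := by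
    intro x; show e1 (jO (C x)) = x; rw [he1]; simp
  rw [hj0] at h0
  rw [hj1] at h1
  have hMO0 : MO.map e0 = 1 := by
    rw [← hM0, hMO]
    ext a b
    simp only [Matrix.map_apply]
    exact he0 _
  have hMO1 : MO.map e1 = P := by
    rw [← hM1, hMO]
    ext a b
    simp only [Matrix.map_apply]
    exact he1 _
  have hY0 : (fun s => (Y s).map e0) = W := by
    funext s
    have e : MO.map e0 * (MO⁻¹).map e0 = 1 := by
      rw [← Matrix.map_mul, hMM]; exact Matrix.map_one _ (map_zero _) (map_one _)
    rw [hMO0, one_mul] at e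
    have e2 : (W' s).map e0 = W s := by
      ext a b
      simp only [hW', Matrix.map_apply]
      exact hj0 _
    show (MO * W' s * MO⁻¹).map e0 = W s
    rw [Matrix.map_mul, Matrix.map_mul, hMO0, e, e2, one_mul, mul_one]
  have hY1 : (fun s => (Y s).map e1) = fun s => P * W s * Q := by
    funext s
    have e : MO.map e1 * (MO⁻¹).map e1 = 1 := by
      rw [← Matrix.map_mul, hMM]; exact Matrix.map_one _ (map_zero _) (map_one _)
    rw [hMO1] at e
    have e3 : (MO⁻¹).map e1 = Q := by
      have hQP : Q * P = 1 := mul_eq_one_comm.mp hPQ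
      calc (MO⁻¹).map e1 = Q * (P * (MO⁻¹).map e1) := by rw [← mul_assoc, hQP, one_mul]
        _ = Q := by rw [e, mul_one]
    have e2 : (W' s).map e1 = W s := by
      ext a b
      simp only [hW', Matrix.map_apply]
      exact hj1 _
    show (MO * W' s * MO⁻¹).map e1 = P * W s * Q
    rw [Matrix.map_mul, Matrix.map_mul, hMO1, e3, e2]
  rw [hY0] at h0
  rw [hY1] at h1
  rw [h0, h1]

end Pool.Agent.J4H41.NC
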