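import Mathlib
import Pool.Agent.J4H41.NC.Inv2
import Pool.Agent.J4H41.NC.Spl

/-!
The characteristic polynomial of the value of a noncommutative polynomial at the generic matrices
is a power of an irreducible polynomial.
-/

set_option autoImplicit false

namespace Pool.Agent.J4H41.NC

open Matrix Polynomial Pool.Agent.H552R3.PC Pool.Agent.TH82.NC

section Gen

variable {K : Type*} [Field K] {σ : Type*} {N : ℕ} [NeZero N]

/-- An algebraically closed field containing the polynomials in `X` over the coordinate ring. -/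
abbrev LC (K : Type*) [Field K] (σ : Type*) (N : ℕ) := AlgebraicClosure (FractionRing (GA K σ N)[X])

/-- Invariance under conjugation over this field. -/
def CI (c : GA K σ N) : Prop :=
  ∀ (W : σ → Matrix (Fin N) (Fin N) (LC K σ N)) (P Q : Matrix (Fin N) (Fin N) (LC K σ N)),
    P * Q = 1 → spz (fun s => P * W s * Q) c = spz W c

omit [NeZero N] in
theorem lc_inj : Function.Injective (algebraMap (GA K σ N)[X] (LC K σ N)) := by
  rw [IsScalarTower.algebraMap_eq (GA K σ N)[X] (FractionRing (GA K σ N)[X]) (LC K σ N)]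
  rw [RingHom.coe_comp]
  exact (algebraMap (FractionRing (GA K σ N)[X]) (LC K σ N)).injective.comp
    (IsFractionRing.injective (GA K σ N)[X] (FractionRing (GA K σ N)[X]))

/-- Invariants at `V` are invariant under the shift. -/
theorem inv_shift (c : GA K σ N) (hc : CI c) :
    (spz (V K σ N) c).map (sh K σ N : GA K σ N →+* GA K σ N) = spz (V K σ N) c := by
  classical
  set L := LC K σ N with hL
  set ι : (GA K σ N)[X] →+* L := algebraMap (GA K σ N)[X] L with hι
  have hinj : Function.Injective ι := lc_inj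
  have hιK : ∀ r : K, ι (algebraMap K (GA K σ N)[X] r) = algebraMap K L r := fun r =>
    (IsScalarTower.algebraMap_apply K (GA K σ N)[X] L r).symm
  apply hinj
  set τ' : (GA K σ N)[X] →+* (GA K σ N)[X] :=
    Polynomial.mapRingHom (sh K σ N : GA K σ N →+* GA K σ N) with hτ'
  have e1 : (spz (V K σ N) c).map (sh K σ N : GA K σ N →+* GA K σ N) =
      τ' (spz (V K σ N) c) := rfl
  have hτK : ∀ r : K, τ' (algebraMap K (GA K σ N)[X] r) = algebraMap K (GA K σ N)[X] r := by
    intro r
    simp [hτ', Polynomial.algebraMap_apply]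
  rw [e1, spz_hom τ' hτK, spz_hom ι hιK, spz_hom ι hιK]
  set P : Matrix (Fin N) (Fin N) L := Matrix.of fun j l => if l = j + 1 then 1 else 0 with hP
  set Q : Matrix (Fin N) (Fin N) L := Matrix.of fun l k => if l = k + 1 then 1 else 0 with hQ
  have hPQ : P * Q = 1 := by
    ext1 j k
    rw [Matrix.mul_apply, Finset.sum_eq_single (j + 1)]
    · by_cases h : j = k
      · subst h; simp [hP, hQ]
      · simp [hP, hQ, h]
    · intro b _ hb
      simp [hP, hb]
    · intro h; exact absurd (Finset.mem_univ _) h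
  rw [← hc (fun s => (V K σ N s).map ι) P Q hPQ]
  congr 2
  funext s
  ext1 j k
  have h3 : (P * (V K σ N s).map ι * Q) j k = ι (V K σ N s (j + 1) (k + 1)) := by
    rw [Matrix.mul_apply, Finset.sum_eq_single (k + 1)]
    · rw [Matrix.mul_apply, Finset.sum_eq_single (j + 1)]
      · simp [hP, hQ]
      · intro b _ hb
        simp [hP, hb]
      · intro h; exact absurd (Finset.mem_univ _) h
    · intro b _ hb
      simp [hQ, hb]
    · intro h; exact absurd (Finset.mem_univ _) h
  rw [h3]
  simp [V, hτ', sh]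

/-- Invariants at `V` are polynomials in `X ^ N`. -/
theorem inv_expand (c : GA K σ N) (hc : CI c) :
    ∃ u : (GA K σ N)[X], spz (V K σ N) c = expand (GA K σ N) N u := by
  classical
  set L := LC K σ N with hL
  set ι : (GA K σ N)[X] →+* L := algebraMap (GA K σ N)[X] L with hι
  have hinj : Function.Injective ι := lc_inj
  have hιK : ∀ r : K, ι (algebraMap K (GA K σ N)[X] r) = algebraMap K L r := fun r =>
    (IsScalarTower.algebraMap_apply K (GA K σ N)[X] L r).symm
  set U : σ → Matrix (Fin N) (Fin N) (GA K σ N)[X] := fun s => Matrix.of fun j k =>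
    C (MvPolynomial.X (s, j, k)) * X ^ (if k < j then 1 else 0) with hU
  refine ⟨spz U c, ?_⟩
  set ex : (GA K σ N)[X] →+* (GA K σ N)[X] :=
    ((expand (GA K σ N) N : (GA K σ N)[X] →ₐ[GA K σ N] (GA K σ N)[X]) :
      (GA K σ N)[X] →+* (GA K σ N)[X]) with hex
  have hexK : ∀ r : K, ex (algebraMap K (GA K σ N)[X] r) = algebraMap K (GA K σ N)[X] r := by
    intro r
    simp [hex, Polynomial.algebraMap_apply]
  have e1 : expand (GA K σ N) N (spz U c) = ex (spz U c) := rfl
  rw [e1, spz_hom ex hexK]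
  apply hinj
  rw [spz_hom ι hιK, spz_hom ι hιK]
  set x : L := ι X with hx
  have hx0 : x ≠ 0 := (map_ne_zero_iff ι hinj).mpr X_ne_zero
  set P : Matrix (Fin N) (Fin N) L := Matrix.diagonal fun j => x ^ (j : ℕ) with hP
  set Q : Matrix (Fin N) (Fin N) L := Matrix.diagonal fun j => (x⁻¹) ^ (j : ℕ) with hQ
  have hPQ : P * Q = 1 := by
    rw [hP, hQ, Matrix.diagonal_mul_diagonal, ← Matrix.diagonal_one]
    congr 1
    funext j
    rw [← mul_pow, mul_inv_cancel₀ hx0, one_pow]
  rw [← hc (fun s => (V K σ N s).map ι) P Q hPQ]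
  congr 2
  funext s
  ext1 j k
  rw [hP, hQ, Matrix.mul_diagonal, Matrix.diagonal_mul]
  simp only [Matrix.map_apply, V, hU, Matrix.of_apply, map_mul, map_pow, hex]
  rw [← hx]
  have e2 : ((expand (GA K σ N) N : (GA K σ N)[X] →ₐ[GA K σ N] (GA K σ N)[X]) :
      (GA K σ N)[X] →+* (GA K σ N)[X]) (C (MvPolynomial.X (s, j, k))) =
      C (MvPolynomial.X (s, j, k)) := by
    simp
  have e3 : ((expand (GA K σ N) N : (GA K σ N)[X] →ₐ[GA K σ N] (GA K σ N)[X]) :
      (GA K σ N)[X] →+* (GA K σ N)[X]) X = X ^ N := by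
    simp
  rw [e2, e3, map_pow, ← hx]
  by_cases hjk : k < j
  · rw [if_pos hjk, pow_one, Fin.coe_sub_iff_lt.mpr hjk]
    have hle : (j : ℕ) ≤ N + k := by have := j.2; omega
    have e4 : x ^ (j : ℕ) * x ^ (N + (k : ℕ) - (j : ℕ)) = x ^ N * x ^ (k : ℕ) := by
      rw [← pow_add, ← pow_add]; congr 1; omega
    calc x ^ (j : ℕ) * (ι (C (MvPolynomial.X (s, j, k))) * x ^ (N + (k : ℕ) - (j : ℕ))) *
          x⁻¹ ^ (k : ℕ)
        = ι (C (MvPolynomial.X (s, j, k))) * (x ^ (j : ℕ) * x ^ (N + (k : ℕ) - (j : ℕ))) *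
          x⁻¹ ^ (k : ℕ) := by ring
      _ = ι (C (MvPolynomial.X (s, j, k))) * x ^ N * (x * x⁻¹) ^ (k : ℕ) := by
          rw [e4, mul_pow]; ring
      _ = _ := by rw [mul_inv_cancel₀ hx0, one_pow, mul_one]
  · rw [if_neg hjk, pow_zero, mul_one, Fin.coe_sub_iff_le.mpr (not_lt.mp hjk)]
    have hle : (j : ℕ) ≤ k := not_lt.mp hjk
    have e4 : x ^ (j : ℕ) * x ^ ((k : ℕ) - (j : ℕ)) = x ^ (k : ℕ) := by
      rw [← pow_add]; congr 1; omega
    calc x ^ (j : ℕ) * (ι (C (MvPolynomial.X (s, j, k))) * x ^ ((k : ℕ) - (j : ℕ))) *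
          x⁻¹ ^ (k : ℕ)
        = ι (C (MvPolynomial.X (s, j, k))) * (x ^ (j : ℕ) * x ^ ((k : ℕ) - (j : ℕ))) *
          x⁻¹ ^ (k : ℕ) := by ring
      _ = ι (C (MvPolynomial.X (s, j, k))) * (x * x⁻¹) ^ (k : ℕ) := by
          rw [e4, mul_pow]; ring
      _ = _ := by rw [mul_inv_cancel₀ hx0, one_pow, mul_one]

theorem inv_mem (c : GA K σ N) (hc : CI c) :
    matPolyEquiv (Matrix.scalar (Fin N) (spz (V K σ N) c)) ∈ S (K := K) (sh K σ N) := by
  intro d
  obtain ⟨u, hu⟩ := inv_expand c hc
  have hsh := inv_shift c hc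
  constructor
  · intro j k h
    rw [matPolyEquiv_coeff_apply, Matrix.scalar_apply] at h
    by_cases hjk : j = k
    · subst hjk
      rw [Matrix.diagonal_apply_eq, hu, coeff_expand (NeZero.pos N)] at h
      have hd : N ∣ d := by
        by_contra hcon
        rw [if_neg hcon] at h
        exact h rfl
      have : d • (1 : Fin N) = 0 := by
        apply Fin.ext
        rw [nsmul_one_val, Nat.mod_eq_zero_of_dvd hd]
        rfl
      rw [this, add_zero]
    · rw [Matrix.diagonal_apply_ne _ hjk, coeff_zero] at h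
      exact absurd rfl h
  · intro j k
    rw [matPolyEquiv_coeff_apply, matPolyEquiv_coeff_apply, Matrix.scalar_apply]
    by_cases hjk : j = k
    · subst hjk
      rw [Matrix.diagonal_apply_eq, Matrix.diagonal_apply_eq]
      conv_lhs => rw [← hsh]
      rw [coeff_map]
    · rw [Matrix.diagonal_apply_ne _ hjk,
        Matrix.diagonal_apply_ne _ (fun e => hjk (add_right_cancel e)), coeff_zero, map_zero]

/-- Values of polynomials with invariant coefficients at the value of `g`. -/
theorem aeval_mem (g : FreeAlgebra K σ) (p : (GA K σ N)[X]) (hp : ∀ i, CI (p.coeff i)) :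
    matPolyEquiv (Polynomial.aeval (FreeAlgebra.lift K (V K σ N) g)
      (p.map ((spz (V K σ N) : GA K σ N →ₐ[K] (GA K σ N)[X]) : GA K σ N →+* (GA K σ N)[X]))) ∈
      S (K := K) (sh K σ N) := by
  rw [Polynomial.aeval_eq_sum_range, map_sum]
  apply Subalgebra.sum_mem
  intro i _
  rw [Polynomial.coeff_map]
  have h1 : ((spz (V K σ N) : GA K σ N →ₐ[K] (GA K σ N)[X]) : GA K σ N →+* (GA K σ N)[X])
      (p.coeff i) • FreeAlgebra.lift K (V K σ N) g ^ i =
      Matrix.scalar (Fin N) (spz (V K σ N) (p.coeff i)) * FreeAlgebra.lift K (V K σ N) g ^ i := by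
    rw [Matrix.scalar_apply, ← Matrix.smul_eq_diagonal_mul]
    rfl
  rw [h1, map_mul, map_pow]
  exact Subalgebra.mul_mem _ (inv_mem _ (hp i)) (Subalgebra.pow_mem _ (lift_V_mem g) i)

/-- In a factorization of the characteristic polynomial one of the factors annihilates the value
at the generic matrices. -/
theorem factor_zero (g : FreeAlgebra K σ) (p q : (GA K σ N)[X]) (hp : p.Monic) (hq : q.Monic)
    (hpq : (FreeAlgebra.lift K (gen K σ N) g).charpoly = p * q) :
    Polynomial.aeval (FreeAlgebra.lift K (gen K σ N) g) p = 0 ∨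
      Polynomial.aeval (FreeAlgebra.lift K (gen K σ N) g) q = 0 := by
  classical
  set f1 := ((spz (V K σ N) : GA K σ N →ₐ[K] (GA K σ N)[X]) : GA K σ N →+* (GA K σ N)[X]) with hf1
  set P := FreeAlgebra.lift K (V K σ N) g with hP
  have hcp : P.charpoly = p.map f1 * q.map f1 := by
    rw [← Polynomial.map_mul, ← hpq, ← Matrix.charpoly_map]
    congr 1
    rw [hP, ← spz_gen (V K σ N) g]; rfl
  have hCp : ∀ i, CI (p.coeff i) := fun i W P' Q' hPQ => factor_inv g p q hp hpq W P' Q' hPQ i
  have hCq : ∀ i, CI (q.coeff i) := fun i W P' Q' hPQ =>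
    factor_inv g q p hq (by rw [hpq, mul_comm]) W P' Q' hPQ i
  have h0 : Polynomial.aeval P (p.map f1) * Polynomial.aeval P (q.map f1) = 0 := by
    rw [← map_mul, ← hcp]
    exact Matrix.aeval_self_charpoly P
  have hback : ∀ r : (GA K σ N)[X], Polynomial.aeval P (r.map f1) = 0 →
      Polynomial.aeval (FreeAlgebra.lift K (gen K σ N) g) r = 0 := by
    intro r hr
    set ev : (GA K σ N)[X] →+* GA K σ N := evalRingHom (1 : GA K σ N) with hev
    have h1 := congrArg (RingHom.mapMatrix (m := Fin N) ev) hr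
    rw [map_zero, Polynomial.aeval_def, Polynomial.hom_eval₂, RingHom.mapMatrix_apply,
      lift_gen_of_V, Polynomial.eval₂_map] at h1
    rw [Polynomial.aeval_def]
    rw [← h1]
    congr 1
    apply RingHom.ext
    intro c
    have h2 : ev (f1 c) = c := by
      have h3 := spz_hom ev (fun r => by simp [hev, Polynomial.algebraMap_apply]) (V K σ N) c
      have h4 : (fun s => (V K σ N s).map ev) = gen K σ N := by
        funext s
        exact V_one K σ N s
      rw [h4] at h3
      show ev (spz (V K σ N) c) = c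
      rw [h3]
      show (spz (gen K σ N)) c = c
      unfold spz
      have : (fun p : σ × Fin N × Fin N => gen K σ N p.1 p.2.1 p.2.2) = MvPolynomial.X := by
        funext p
        rfl
      rw [this]
      exact MvPolynomial.aeval_X_left_apply c
    ext1 a b
    simp only [RingHom.comp_apply, RingHom.mapMatrix_apply, Matrix.map_apply,
      Matrix.algebraMap_matrix_apply]
    by_cases hab : a = b
    · subst hab
      simp [h2]
    · simp [hab]
  rcases left_cancel (sh K σ N) (sh_inj N) (aeval_mem g p hCp) h0 with h1 | h1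
  · exact Or.inl (hback p h1)
  · exact Or.inr (hback q h1)

end Gen

end Pool.Agent.J4H41.NC
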