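import Mathlib
import Pool.Agent.J4H41.NC.Irr
import Pool.Agent.J4H41.NC.Loc

/-!
The characteristic polynomial of the value of a noncommutative polynomial at the generic matrices
is a power of an irreducible polynomial.
-/

set_option autoImplicit false

namespace Pool.Agent.J4H41.NC

open Matrix Polynomial Pool.Agent.H552R3.PC Pool.Agent.TH82.NC

section Lin

theorem aeval_mulVec {L : Type*} [Field L] {n : ℕ} (G : Matrix (Fin n) (Fin n) L) {β : L}
    {v : Fin n → L} (hv : G.mulVec v = β • v) (p : L[X]) :
    (Polynomial.aeval G p).mulVec v = p.eval β • v := by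
  have hpow : ∀ i : ℕ, (G ^ i).mulVec v = β ^ i • v := by
    intro i
    induction i with
    | zero => simp
    | succ i ih =>
      rw [pow_succ, ← Matrix.mulVec_mulVec, hv, Matrix.mulVec_smul, ih, smul_smul, pow_succ,
        mul_comm]
  induction p using Polynomial.induction_on' with
  | add p q hp hq => rw [map_add, Matrix.add_mulVec, hp, hq, eval_add, add_smul]
  | monomial i a =>
    rw [Polynomial.aeval_monomial, eval_monomial, mul_smul, ← hpow i]
    have : algebraMap L (Matrix (Fin n) (Fin n) L) a * G ^ i = a • G ^ i := by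
      rw [Algebra.algebraMap_eq_smul_one, smul_mul_assoc, one_mul]
    rw [this, Matrix.smul_mulVec]

theorem aeval_map {A B : Type*} [CommRing A] [CommRing B] {n : ℕ}
    (G : Matrix (Fin n) (Fin n) A) (r : A[X]) (j : A →+* B) :
    (Polynomial.aeval G r).map j = Polynomial.aeval (G.map j) (r.map j) := by
  have h1 : (Polynomial.aeval G r).map j = RingHom.mapMatrix (m := Fin n) j
    (Polynomial.aeval G r) := rfl
  rw [h1, Polynomial.aeval_def, Polynomial.hom_eval₂, RingHom.mapMatrix_apply,
    Polynomial.aeval_def, Polynomial.eval₂_map]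
  congr 1
  apply RingHom.ext
  intro c
  ext1 a b
  simp only [RingHom.comp_apply, RingHom.mapMatrix_apply, Matrix.map_apply,
    Matrix.algebraMap_matrix_apply]
  by_cases hab : a = b
  · subst hab; simp
  · simp [hab]

/-- Roots of the characteristic polynomial are roots of annihilating polynomials. -/
theorem root_of_annih {A Ω : Type*} [CommRing A] [Field Ω] {n : ℕ}
    (G : Matrix (Fin n) (Fin n) A) (r : A[X]) (hr : Polynomial.aeval G r = 0) (j : A →+* Ω)
    (β : Ω) (hβ : (G.charpoly.map j).IsRoot β) : (r.map j).IsRoot β := by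
  rw [← Matrix.charpoly_map] at hβ
  obtain ⟨v, hv0, hv⟩ := eigenvector_of_root _ hβ
  have h1 := aeval_mulVec (G.map j) hv (r.map j)
  rw [← aeval_map, hr] at h1
  have h2 : (0 : Matrix (Fin n) (Fin n) A).map j = 0 := Matrix.map_zero _ (map_zero _)
  rw [h2, Matrix.zero_mulVec] at h1
  exact (smul_eq_zero.mp h1.symm).resolve_right hv0

theorem dvd_of_root {A Ω : Type*} [CommRing A] [IsDomain A] [IsIntegrallyClosed A] [Field Ω]
    [Algebra (FractionRing A) Ω] (μ q : A[X]) (hμ : μ.Monic) (hi : Irreducible μ) (β : Ω)
    (h1 : ((μ.map (algebraMap A (FractionRing A))).map (algebraMap (FractionRing A) Ω)).IsRoot β)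
    (h2 : ((q.map (algebraMap A (FractionRing A))).map (algebraMap (FractionRing A) Ω)).IsRoot β) :
    μ ∣ q := by
  have hi2 : Irreducible (μ.map (algebraMap A (FractionRing A))) :=
    (Polynomial.Monic.irreducible_iff_irreducible_map_fraction_map hμ).mp hi
  have e1 : Polynomial.aeval β (μ.map (algebraMap A (FractionRing A))) = 0 := by
    rw [Polynomial.aeval_def, ← Polynomial.eval_map]; exact h1
  have e2 : Polynomial.aeval β (q.map (algebraMap A (FractionRing A))) = 0 := by
    rw [Polynomial.aeval_def, ← Polynomial.eval_map]; exact h2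
  have h3 := minpoly.eq_of_irreducible_of_monic hi2 e1 (hμ.map _)
  have h4 := minpoly.dvd (FractionRing A) β e2
  rw [← h3] at h4
  exact (Polynomial.map_dvd_map (algebraMap A (FractionRing A))
    (IsFractionRing.injective A (FractionRing A)) hμ).mp h4

end Lin

section Gen

variable {K : Type*} [Field K] {σ : Type*} {N : ℕ} [NeZero N]

/-- The characteristic polynomial is a power of an irreducible polynomial. -/
theorem pow_irr (g : FreeAlgebra K σ) : ∃ (μ : (GA K σ N)[X]) (k : ℕ), μ.Monic ∧
    Irreducible μ ∧ 0 < k ∧ (FreeAlgebra.lift K (gen K σ N) g).charpoly = μ ^ k := by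
  classical
  set G := FreeAlgebra.lift K (gen K σ N) g with hG
  set χ := G.charpoly with hχ
  have hχm : χ.Monic := Matrix.charpoly_monic G
  have hχd : χ.natDegree = N := by
    rw [hχ, Matrix.charpoly_natDegree_eq_dim, Fintype.card_fin]
  have hχu : ¬ IsUnit χ := by
    intro h
    have h1 := Polynomial.natDegree_eq_zero_of_isUnit h
    rw [hχd] at h1
    exact NeZero.ne N h1
  obtain ⟨p, hpi, hpd⟩ := WfDvdMonoid.exists_irreducible_factor hχu hχm.ne_zero
  have hpu := hχm.isUnit_leadingCoeff_of_dvd hpd
  obtain ⟨u, hu⟩ := hpu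
  set μ : (GA K σ N)[X] := C (↑u⁻¹ : GA K σ N) * p with hμ
  have hass : Associated μ p := by
    have hCu : IsUnit (C (↑u⁻¹ : GA K σ N)) := Polynomial.isUnit_C.mpr (Units.isUnit _)
    rw [hμ, mul_comm]
    exact associated_mul_unit_left p _ hCu
  have hμm : μ.Monic := by
    rw [Polynomial.Monic, hμ, Polynomial.leadingCoeff_mul, Polynomial.leadingCoeff_C, ← hu,
      Units.inv_mul]
  have hμi : Irreducible μ := hass.irreducible_iff.mpr hpi
  have hμd : μ ∣ χ := hass.dvd.trans hpd
  have hμdeg : 0 < μ.degree := by
    rw [← Polynomial.natDegree_pos_iff_degree_pos]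
    by_contra hcon
    have h0 : μ.natDegree = 0 := by omega
    have h1 : μ = 1 := Polynomial.eq_one_of_monic_natDegree_zero hμm h0
    exact hμi.not_isUnit (by rw [h1]; exact isUnit_one)
  have hF := finiteMultiplicity_of_degree_pos_of_monic hμdeg hμm hχm.ne_zero
  obtain ⟨q, hq, hqn⟩ := hF.exists_eq_pow_mul_and_not_dvd
  set k := multiplicity μ χ with hk
  have hk0 : 0 < k := multiplicity_pos_of_dvd hμd
  have hqm : q.Monic := (hμm.pow k).of_mul_monic_left (hq ▸ hχm)
  let Ω := AlgebraicClosure (FractionRing (GA K σ N))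
  set j : GA K σ N →+* Ω := (algebraMap (FractionRing (GA K σ N)) Ω).comp
    (algebraMap (GA K σ N) (FractionRing (GA K σ N))) with hj
  have hjinj : Function.Injective j := by
    rw [hj, RingHom.coe_comp]
    exact (algebraMap (FractionRing (GA K σ N)) Ω).injective.comp
      (IsFractionRing.injective (GA K σ N) (FractionRing (GA K σ N)))
  have hq1 : q = 1 := by
    by_contra hq1
    have hqdeg : q.natDegree ≠ 0 := fun h0 =>
      hq1 (Polynomial.eq_one_of_monic_natDegree_zero hqm h0)
    apply hqn
    rcases factor_zero g (μ ^ k) q (hμm.pow k) hqm hq with h | h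
    · -- a root of `q`
      obtain ⟨β, hβ⟩ := IsAlgClosed.exists_root (q.map j) (by
        rw [Polynomial.degree_map_eq_of_injective hjinj]
        exact fun e => hqdeg (Polynomial.natDegree_eq_of_degree_eq_some e))
      have h1 : (χ.map j).IsRoot β := by
        rw [hq, Polynomial.map_mul, Polynomial.IsRoot, Polynomial.eval_mul, hβ.eq_zero, mul_zero]
      have h2 := root_of_annih G (μ ^ k) h j β h1
      have h3 : (μ.map j).IsRoot β := by
        rw [Polynomial.map_pow, Polynomial.IsRoot, Polynomial.eval_pow] at h2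
        exact pow_eq_zero_iff hk0.ne' |>.mp h2
      apply dvd_of_root (Ω := Ω) μ q hμm hμi β
      · rw [Polynomial.map_map]; exact h3
      · rw [Polynomial.map_map]; exact hβ
    · obtain ⟨β, hβ⟩ := IsAlgClosed.exists_root (μ.map j) (by
        rw [Polynomial.degree_map_eq_of_injective hjinj]
        exact hμdeg.ne')
      have h1 : (χ.map j).IsRoot β := by
        rw [hq, Polynomial.map_mul, Polynomial.map_pow, Polynomial.IsRoot, Polynomial.eval_mul,
          Polynomial.eval_pow, hβ.eq_zero, zero_pow hk0.ne', zero_mul]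
      have h2 := root_of_annih G q h j β h1
      apply dvd_of_root (Ω := Ω) μ q hμm hμi β
      · rw [Polynomial.map_map]; exact hβ
      · rw [Polynomial.map_map]; exact h2
  exact ⟨μ, k, hμm, hμi, hk0, by rw [hq, hq1, mul_one]⟩

/-- If the characteristic polynomial has a simple root in some field, it is irreducible, and all
its roots in this field are simple. -/
theorem simple_all (g : FreeAlgebra K σ) {L : Type*} [Field L] (j : GA K σ N →+* L)
    (hj : Function.Injective j) (α : L)
    (h0 : ((FreeAlgebra.lift K (gen K σ N) g).charpoly.map j).eval α = 0)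
    (h1 : ((FreeAlgebra.lift K (gen K σ N) g).charpoly.map j).derivative.eval α ≠ 0) :
    Irreducible (FreeAlgebra.lift K (gen K σ N) g).charpoly ∧
    ∀ β : L, ((FreeAlgebra.lift K (gen K σ N) g).charpoly.map j).eval β = 0 →
      ((FreeAlgebra.lift K (gen K σ N) g).charpoly.map j).derivative.eval β ≠ 0 := by
  classical
  obtain ⟨μ, k, hμm, hμi, hk0, hμk⟩ := pow_irr (N := N) g
  have hk1 : k = 1 := by
    by_contra hne
    have hk2 : 2 ≤ k := by omega
    apply h1
    rw [hμk, Polynomial.map_pow] at h0 ⊢
    rw [Polynomial.eval_pow] at h0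
    have h3 := pow_eq_zero_iff (by omega) |>.mp h0
    rw [Polynomial.derivative_pow, Polynomial.eval_mul, Polynomial.eval_mul, Polynomial.eval_pow,
      h3, zero_pow (by omega), mul_zero, zero_mul]
  rw [hk1, pow_one] at hμk
  rw [hμk]
  refine ⟨hμi, ?_⟩
  rw [hμk] at h0 h1
  let E := FractionRing (GA K σ N)
  let jE : E →+* L := IsFractionRing.lift hj
  have hjE : jE.comp (algebraMap (GA K σ N) E) = j := by
    apply RingHom.ext
    intro c
    exact IsFractionRing.lift_algebraMap hj c
  have hiE : Irreducible (μ.map (algebraMap (GA K σ N) E)) :=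
    (Polynomial.Monic.irreducible_iff_irreducible_map_fraction_map hμm).mp hμi
  have hmj : μ.map j = (μ.map (algebraMap (GA K σ N) E)).map jE := by
    rw [Polynomial.map_map, hjE]
  have hsep : (μ.map (algebraMap (GA K σ N) E)).Separable := by
    rw [Polynomial.separable_iff_derivative_ne_zero hiE]
    intro h2
    apply h1
    rw [hmj, Polynomial.derivative_map, h2, Polynomial.map_zero, Polynomial.eval_zero]
  have hsepL : (μ.map j).Separable := by
    rw [hmj]
    exact hsep.map
  intro β hβ hβ'
  exact hsepL.eval₂_derivative_ne_zero (RingHom.id L) (by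
    rw [Polynomial.eval₂_id]; exact hβ) (by rw [Polynomial.eval₂_id]; exact hβ')

end Gen

end Pool.Agent.J4H41.NC
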