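import Mathlib
import Pool.Agent.J4H41.NC.Pow

/-!
For prime size `a`, different from the characteristic, a noncommutative polynomial which is not
scalar valued has values with `a` different eigenvalues.
-/

set_option autoImplicit false

namespace Pool.Agent.J4H41.NC

open Matrix Polynomial Pool.Agent.H552R3.PC

variable {K : Type*} [Field K] {σ : Type*}

/-- For prime size the characteristic polynomial is irreducible, or the value is scalar. -/
theorem irr_or_scalar {a : ℕ} [NeZero a] (ha : a.Prime) (g : FreeAlgebra K σ) :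
    (∃ r : GA K σ a, FreeAlgebra.lift K (gen K σ a) g = Matrix.scalar (Fin a) r) ∨
      Irreducible (FreeAlgebra.lift K (gen K σ a) g).charpoly := by
  classical
  obtain ⟨μ, k, hμm, hμi, hk0, hμk⟩ := pow_irr (N := a) g
  have hdeg : k * μ.natDegree = a := by
    rw [← hμm.natDegree_pow, ← hμk, Matrix.charpoly_natDegree_eq_dim, Fintype.card_fin]
  rcases (Nat.dvd_prime ha).mp (Dvd.intro _ hdeg) with hk | hk
  · right
    rw [hμk, hk, pow_one]
    exact hμi
  · left
    have h1 : μ.natDegree = 1 := by
      rw [hk] at hdeg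
      exact Nat.eq_of_mul_eq_mul_left ha.pos (by rw [hdeg, mul_one])
    have h2 : μ = X - C (-(μ.coeff 0)) := by
      rw [map_neg, sub_neg_eq_add]
      exact hμm.eq_X_add_C h1
    apply scalar_of_splits g (fun _ => -(μ.coeff 0))
    rw [hμk, hk, Finset.prod_const, Finset.card_univ, Fintype.card_fin, ← h2]

/-- An irreducible characteristic polynomial of degree prime to the characteristic is separable
over the fraction field, with a Bezout identity over the coordinate ring. -/
theorem bezout {a : ℕ} (g : FreeAlgebra K σ) (haK : (a : K) ≠ 0)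
    (hi : Irreducible (FreeAlgebra.lift K (gen K σ a) g).charpoly) :
    ∃ (U W : (GA K σ a)[X]) (d : GA K σ a), d ≠ 0 ∧
      U * (FreeAlgebra.lift K (gen K σ a) g).charpoly +
        W * (FreeAlgebra.lift K (gen K σ a) g).charpoly.derivative = C d := by
  classical
  set χ := (FreeAlgebra.lift K (gen K σ a) g).charpoly with hχ
  have hχm : χ.Monic := Matrix.charpoly_monic _
  have hχd : χ.natDegree = a := by
    rw [hχ, Matrix.charpoly_natDegree_eq_dim, Fintype.card_fin]
  let E := FractionRing (GA K σ a)
  set ι : GA K σ a →+* E := algebraMap (GA K σ a) E with hι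
  have hinj : Function.Injective ι := IsFractionRing.injective (GA K σ a) E
  have hiE : Irreducible (χ.map ι) :=
    (Polynomial.Monic.irreducible_iff_irreducible_map_fraction_map hχm).mp hi
  have ha0 : a ≠ 0 := by
    rintro rfl
    exact haK Nat.cast_zero
  have hsep : (χ.map ι).Separable := by
    rw [Polynomial.separable_iff_derivative_ne_zero hiE]
    intro h
    have h1 := congrArg (fun q => Polynomial.coeff q (a - 1)) h
    simp only [Polynomial.coeff_zero] at h1
    rw [Polynomial.derivative_map, Polynomial.coeff_map, Polynomial.coeff_derivative,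
      Nat.sub_add_cancel (by omega)] at h1
    have h2 : χ.coeff a = 1 := by
      have := hχm.coeff_natDegree
      rwa [hχd] at this
    rw [h2, one_mul] at h1
    have h3 : ((a - 1 : ℕ) : GA K σ a) + 1 = algebraMap K (GA K σ a) (a : K) := by
      rw [map_natCast]
      have : (a : GA K σ a) = ((a - 1 + 1 : ℕ) : GA K σ a) := by
        rw [Nat.sub_add_cancel (by omega)]
      rw [this]
      push_cast
      rfl
    rw [h3] at h1
    have h4 := hinj (h1.trans (map_zero ι).symm)
    exact haK ((algebraMap K (GA K σ a)).injective (h4.trans (map_zero _).symm))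
  obtain ⟨u, w, huw⟩ := hsep
  obtain ⟨bu, hbu⟩ := IsLocalization.integerNormalization_map_to_map
    (nonZeroDivisors (GA K σ a)) u
  obtain ⟨bw, hbw⟩ := IsLocalization.integerNormalization_map_to_map
    (nonZeroDivisors (GA K σ a)) w
  set U0 := IsLocalization.integerNormalization (nonZeroDivisors (GA K σ a)) u
  set W0 := IsLocalization.integerNormalization (nonZeroDivisors (GA K σ a)) w
  refine ⟨C (bw : GA K σ a) * U0, C (bu : GA K σ a) * W0, (bw : GA K σ a) * bu,
    mul_ne_zero (nonZeroDivisors.ne_zero bw.2) (nonZeroDivisors.ne_zero bu.2), ?_⟩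
  apply Polynomial.map_injective ι hinj
  have e1 : U0.map ι = C (ι bu) * u := by
    rw [hbu]
    ext i
    simp [Algebra.smul_def]
    exact Or.inl rfl
  have e2 : W0.map ι = C (ι bw) * w := by
    rw [hbw]
    ext i
    simp [Algebra.smul_def]
    exact Or.inl rfl
  rw [Polynomial.map_add, Polynomial.map_mul, Polynomial.map_mul, Polynomial.map_mul,
    Polynomial.map_mul, Polynomial.map_C, Polynomial.map_C, Polynomial.map_C, e1, e2,
    ← Polynomial.derivative_map, map_mul, C_mul]
  calc C (ι bw) * (C (ι bu) * u) * χ.map ι + C (ι bu) * (C (ι bw) * w) *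
        derivative (χ.map ι)
      = C (ι bw) * C (ι bu) * (u * χ.map ι + w * derivative (χ.map ι)) := by ring
    _ = _ := by rw [huw, mul_one]

/-- Points where the value has different eigenvalues. -/
theorem exists_point [IsAlgClosed K] {a : ℕ} (ha : a.Prime) (haK : (a : K) ≠ 0)
    (g : FreeAlgebra K σ)
    (hns : ¬ ∃ r : GA K σ a, FreeAlgebra.lift K (gen K σ a) g = Matrix.scalar (Fin a) r) :
    ∃ (p : σ → Matrix (Fin a) (Fin a) K) (l1 l2 : K), l1 ≠ l2 ∧
      (FreeAlgebra.lift K p g).charpoly.eval l1 = 0 ∧
      (FreeAlgebra.lift K p g).charpoly.derivative.eval l1 ≠ 0 ∧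
      (FreeAlgebra.lift K p g).charpoly.eval l2 = 0 ∧
      (FreeAlgebra.lift K p g).charpoly.derivative.eval l2 ≠ 0 := by
  classical
  have : NeZero a := ⟨ha.ne_zero⟩
  have hinf : Infinite K := IsAlgClosed.instInfinite
  have hi := (irr_or_scalar ha g).resolve_left hns
  obtain ⟨U, W, d, hd, hUW⟩ := bezout g haK hi
  obtain ⟨x, hx⟩ : ∃ x : σ × Fin a × Fin a → K, MvPolynomial.eval x d ≠ 0 := by
    by_contra hcon
    push Not at hcon
    exact hd (MvPolynomial.funext (fun x => by rw [hcon x, map_zero]))
  set p : σ → Matrix (Fin a) (Fin a) K := fun s => Matrix.of fun i j => x (s, i, j) with hp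
  set f1 := ((spz p : GA K σ a →ₐ[K] K) : GA K σ a →+* K) with hf1
  have hcp : (FreeAlgebra.lift K p g).charpoly =
      (FreeAlgebra.lift K (gen K σ a) g).charpoly.map f1 := by
    rw [← Matrix.charpoly_map]
    congr 1
    rw [← spz_gen p g]; rfl
  have hfd : f1 d ≠ 0 := by
    have : f1 d = MvPolynomial.eval x d := by
      show spz p d = _
      simp [spz, hp, MvPolynomial.coe_aeval_eq_eval]
    rw [this]
    exact hx
  have hsep : (FreeAlgebra.lift K p g).charpoly.Separable := by
    refine ⟨C (f1 d)⁻¹ * U.map f1, C (f1 d)⁻¹ * W.map f1, ?_⟩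
    have h1 := congrArg (Polynomial.map f1) hUW
    rw [Polynomial.map_add, Polynomial.map_mul, Polynomial.map_mul, Polynomial.map_C,
      ← Polynomial.derivative_map, ← hcp] at h1
    rw [mul_assoc, mul_assoc, ← mul_add, h1, ← C_mul, inv_mul_cancel₀ hfd, C_1]
  have hsp : (FreeAlgebra.lift K p g).charpoly.Splits := IsAlgClosed.splits _
  have hcard : (FreeAlgebra.lift K p g).charpoly.roots.toFinset.card = a := by
    rw [Multiset.toFinset_card_of_nodup (Polynomial.nodup_roots hsep),
      ← hsp.natDegree_eq_card_roots, Matrix.charpoly_natDegree_eq_dim, Fintype.card_fin]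
  obtain ⟨l1, hl1, l2, hl2, hne⟩ := Finset.one_lt_card.mp (by rw [hcard]; exact ha.one_lt)
  rw [Multiset.mem_toFinset, Polynomial.mem_roots (Matrix.charpoly_monic _).ne_zero] at hl1 hl2
  have hder : ∀ l : K, (FreeAlgebra.lift K p g).charpoly.eval l = 0 →
      (FreeAlgebra.lift K p g).charpoly.derivative.eval l ≠ 0 := by
    intro l hl hl'
    exact hsep.eval₂_derivative_ne_zero (RingHom.id K) (by
      rw [Polynomial.eval₂_id]; exact hl) (by rw [Polynomial.eval₂_id]; exact hl')
  exact ⟨p, l1, l2, hne, hl1, hder l1 hl1, hl2, hder l2 hl2⟩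

end Pool.Agent.J4H41.NC
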