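import Mathlib
import Pool.Agent.J4H41.NC.Loc3
import Pool.Agent.J4H41.NC.Pt
import Pool.Agent.J4H41.NC.HenFac
import Pool.Agent.J4H41.NC.DvdCard

/-!
If a noncommutative polynomial has a nonscalar value on `q × q` matrices, `q` prime, then `q`
divides the order of the Galois group of its characteristic polynomial at the generic matrices of
each size at least `q`.
-/

set_option autoImplicit false

namespace Pool.Agent.J4H41.NC

open Matrix Polynomial Pool.Agent.H552R3.PC

universe u

variable {K : Type*} [Field K] {σ : Type*} {a q : ℕ}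

theorem map_j3 (p : σ → Matrix (Fin a) (Fin a) K) (g : FreeAlgebra K σ) :
    (FreeAlgebra.lift K (gen K σ (a + q)) g).charpoly.map (j3 (b := q) p) =
      ((FreeAlgebra.lift K (T3 (b := q) p) g).map (jm3 K σ a q)).charpoly.map
        (algebraMap (PowerSeries (K3 K σ a q)) (L3 K σ a q)) := by
  have h1 : (FreeAlgebra.lift K (gen K σ (a + q)) g).map
      ((spz (T3 (b := q) p) : GA K σ (a + q) →ₐ[K] (R3 K σ a q)[X]) :
      GA K σ (a + q) →+* (R3 K σ a q)[X]) = FreeAlgebra.lift K (T3 (b := q) p) g := by
    rw [← spz_gen (T3 (b := q) p) g]; rfl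
  have h2 : (FreeAlgebra.lift K (gen K σ (a + q)) g).map (j3 p) =
      ((FreeAlgebra.lift K (T3 (b := q) p) g).map (jm3 K σ a q)).map
        (algebraMap (PowerSeries (K3 K σ a q)) (L3 K σ a q)) := by
    rw [← h1]
    rfl
  rw [← Matrix.charpoly_map, ← Matrix.charpoly_map, h2]

theorem red3 (p : σ → Matrix (Fin a) (Fin a) K) (g : FreeAlgebra K σ) :
    ((FreeAlgebra.lift K (T3 (b := q) p) g).map (jm3 K σ a q)).charpoly.map
      (PowerSeries.constantCoeff (R := K3 K σ a q)) =
    ((FreeAlgebra.lift K p g).charpoly.map (algebraMap K (R3 K σ a q)) *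
      (FreeAlgebra.lift K (Y3 K σ a q) g).charpoly).map
      (algebraMap (R3 K σ a q) (K3 K σ a q)) := by
  set R := R3 K σ a q with hR
  set k0 := K3 K σ a q with hk0
  set ι : R →+* k0 := algebraMap R k0 with hι
  have hccj : (PowerSeries.constantCoeff (R := k0)).comp (jm3 K σ a q) =
      ι.comp (evalRingHom (0 : R)) := by
    apply RingHom.ext
    intro p
    show PowerSeries.constantCoeff (PowerSeries.map ι (p : PowerSeries R)) = ι (p.eval 0)
    rw [← PowerSeries.coeff_zero_eq_constantCoeff_apply, PowerSeries.coeff_map,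
      Polynomial.coeff_coe, Polynomial.coeff_zero_eq_eval_zero]
  set A := (FreeAlgebra.lift K (T3 (b := q) p) g).map (jm3 K σ a q) with hA
  have hA0 : A.map (PowerSeries.constantCoeff (R := k0)) =
      (FreeAlgebra.lift K (fun s => bl ((p s).map (algebraMap K R)) (Y3 K σ a q s)) g).map ι := by
    have h1 : A.map (PowerSeries.constantCoeff (R := k0)) =
        ((FreeAlgebra.lift K (T3 (b := q) p) g).map (evalRingHom (0 : R))).map ι := by
      rw [hA, Matrix.map_map, Matrix.map_map, ← RingHom.coe_comp, ← RingHom.coe_comp, hccj]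
    rw [h1, lift_hom (evalRingHom (0 : R)) (fun r => by simp [Polynomial.algebraMap_apply])]
    congr 3
    funext s
    ext1 i j
    simp [T3]
    rfl
  have hcp0 : (FreeAlgebra.lift K (fun s => (p s).map (algebraMap K R)) g).charpoly =
      (FreeAlgebra.lift K p g).charpoly.map (algebraMap K R) := by
    rw [← Matrix.charpoly_map, lift_hom (algebraMap K R) (fun r => rfl)]
  rw [← Matrix.charpoly_map, hA0, Matrix.charpoly_map, lift_bl, charpoly_bl, hcp0]

theorem charpoly_zero (g : FreeAlgebra K σ) (a : ℕ) :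
    (FreeAlgebra.lift K (fun _ : σ => (0 : Matrix (Fin a) (Fin a) K)) g).charpoly =
      (X - C (ct g)) ^ a := by
  have h2 : FreeAlgebra.lift K (fun _ : σ => (0 : Matrix (Fin a) (Fin a) K)) g =
      Matrix.diagonal (fun _ => ct g) := by
    rw [lift_z]
    ext i j
    by_cases h : i = j
    · subst h; simp [algebraMap_matrix_apply]
    · simp [algebraMap_matrix_apply, h]
  rw [h2, Matrix.charpoly_diagonal, Finset.prod_const, Finset.card_univ, Fintype.card_fin]

theorem lift_exists {G0 F : Type*} [CommRing G0] [IsDomain G0] [Field F] (j0 : G0 →+* F)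
    (hj0 : Function.Injective j0) : ∃ jE : FractionRing G0 →+* F,
      jE.comp (algebraMap G0 (FractionRing G0)) = j0 :=
  ⟨IsFractionRing.lift hj0, RingHom.ext fun c => IsFractionRing.lift_algebraMap hj0 c⟩

/-- Abstract form of the last step. -/
theorem ord_abs {G0 : Type*} [CommRing G0] [IsDomain G0] [IsIntegrallyClosed G0]
    {k : Type u} [Field k] (χ : G0[X]) (hχ : χ.Monic)
    (j0 : G0 →+* FractionRing (PowerSeries k)) (hj0 : Function.Injective j0)
    (A : (PowerSeries k)[X]) (hA : A.Monic)
    (hmap : χ.map j0 = A.map (algebraMap (PowerSeries k) (FractionRing (PowerSeries k))))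
    (hs : ∀ (L1 : Type u) (_ : Field L1) (J : G0 →+* L1), Function.Injective J → ∀ α : L1,
      (χ.map J).eval α = 0 → (χ.map J).derivative.eval α ≠ 0 → Irreducible χ)
    (μ ν : k[X]) (hμ : Irreducible μ) (hμm : μ.Monic) (hd : μ.derivative ≠ 0)
    (hred : A.map (PowerSeries.constantCoeff (R := k)) = μ * ν) (hν : ¬ μ ∣ ν) :
    Irreducible (χ.map (algebraMap G0 (FractionRing G0))) ∧
    (χ.map (algebraMap G0 (FractionRing G0))).Separable ∧
    μ.natDegree ∣ Nat.card (χ.map (algebraMap G0 (FractionRing G0))).Gal := by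
  classical
  obtain ⟨L1, hL1, j, α, m, e0, e1, hm, hmd, hmdvd⟩ := hensel_factor A hA μ ν hμ hμm hd hred hν
  have hJ : Function.Injective (j.comp j0) := by
    rw [RingHom.coe_comp]
    exact j.injective.comp hj0
  have hJmap : χ.map (j.comp j0) =
      (A.map (algebraMap (PowerSeries k) (FractionRing (PowerSeries k)))).map j := by
    rw [← Polynomial.map_map, hmap]
  have hirrn : Irreducible χ := by
    refine hs L1 hL1 (j.comp j0) hJ α ?_ ?_
    · rw [hJmap]; exact e0
    · rw [hJmap]; exact e1
  have hiE : Irreducible (χ.map (algebraMap G0 (FractionRing G0))) :=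
    (Polynomial.Monic.irreducible_iff_irreducible_map_fraction_map hχ).mp hirrn
  obtain ⟨jE, hjE⟩ := lift_exists j0 hj0
  have hEmap : (χ.map (algebraMap G0 (FractionRing G0))).map jE =
      A.map (algebraMap (PowerSeries k) (FractionRing (PowerSeries k))) := by
    rw [Polynomial.map_map, hjE, hmap]
  have hsep : (χ.map (algebraMap G0 (FractionRing G0))).Separable := by
    rw [Polynomial.separable_iff_derivative_ne_zero hiE]
    intro h2
    apply e1
    rw [← hEmap, Polynomial.derivative_map, Polynomial.derivative_map, h2, Polynomial.map_zero,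
      Polynomial.map_zero, Polynomial.eval_zero]
  refine ⟨hiE, hsep, ?_⟩
  have h9 := dvd_card jE _ hsep m hm (by rw [hEmap]; exact hmdvd)
  rw [hmd] at h9
  exact h9

/-- The order of the Galois group. -/
theorem ord (hq : q.Prime) (hqK : (q : K) ≠ 0) (g : FreeAlgebra K σ)
    (hns : ¬ ∃ r : GA K σ q, FreeAlgebra.lift K (gen K σ q) g = Matrix.scalar (Fin q) r) :
    Irreducible ((FreeAlgebra.lift K (gen K σ (a + q)) g).charpoly.map
      (algebraMap (GA K σ (a + q)) (FractionRing (GA K σ (a + q))))) ∧
    ((FreeAlgebra.lift K (gen K σ (a + q)) g).charpoly.map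
      (algebraMap (GA K σ (a + q)) (FractionRing (GA K σ (a + q))))).Separable ∧
    q ∣ Nat.card ((FreeAlgebra.lift K (gen K σ (a + q)) g).charpoly.map
      (algebraMap (GA K σ (a + q)) (FractionRing (GA K σ (a + q))))).Gal := by
  classical
  have : NeZero q := ⟨hq.ne_zero⟩
  have : NeZero (a + q) := ⟨by have := hq.pos; omega⟩
  have hirr := (irr_or_scalar hq g).resolve_left hns
  set R := R3 K σ a q with hR
  set k0 := K3 K σ a q with hk0
  set ι : R →+* k0 := algebraMap R k0 with hι
  have hιinj : Function.Injective ι := IsFractionRing.injective R k0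
  set A := (FreeAlgebra.lift K (T3 (b := q) (fun _ => (0 : Matrix (Fin a) (Fin a) K))) g).map
    (jm3 K σ a q) with hA
  set χY := (FreeAlgebra.lift K (Y3 K σ a q) g).charpoly with hχY
  have hχYm : χY.Monic := Matrix.charpoly_monic _
  have hχYd : χY.natDegree = q := by
    rw [hχY, Matrix.charpoly_natDegree_eq_dim, Fintype.card_fin]
  -- irreducibility
  let θ : R →ₐ[K] GA K σ q := MvPolynomial.aeval (Sum.elim (fun u => MvPolynomial.X u) (fun _ => 0))
  have hθK : ∀ r : K, (θ : R →+* GA K σ q) (algebraMap K R r) = algebraMap K (GA K σ q) r :=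
    fun r => θ.commutes r
  have hY : (fun s => (Y3 K σ a q s).map (θ : R →+* GA K σ q)) = gen K σ q := by
    funext s
    ext1 i j
    exact MvPolynomial.aeval_X _ _
  have hθχ : χY.map (θ : R →+* GA K σ q) = (FreeAlgebra.lift K (gen K σ q) g).charpoly := by
    rw [hχY, ← Matrix.charpoly_map, lift_hom (θ : R →+* GA K σ q) hθK, hY]
  have hirrY : Irreducible χY := by
    apply Polynomial.Monic.irreducible_of_irreducible_map (θ : R →+* GA K σ q) χY hχYm
    rw [hθχ]
    exact hirr
  set μ := χY.map ι with hμ
  have hμm : μ.Monic := hχYm.map ι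
  have hμd : μ.natDegree = q := by
    rw [hμ, hχYm.natDegree_map, hχYd]
  have hμi : Irreducible μ :=
    (Polynomial.Monic.irreducible_iff_irreducible_map_fraction_map hχYm).mp hirrY
  have hμ' : μ.derivative ≠ 0 := by
    intro h
    have h1 := congrArg (fun u => Polynomial.coeff u (q - 1)) h
    simp only [Polynomial.coeff_zero] at h1
    rw [Polynomial.coeff_derivative, Nat.sub_add_cancel hq.one_le] at h1
    have h2 : μ.coeff q = 1 := by
      have := hμm.coeff_natDegree
      rwa [hμd] at this
    rw [h2, one_mul] at h1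
    have h3 : ((q - 1 : ℕ) : k0) + 1 = algebraMap K k0 (q : K) := by
      rw [map_natCast]
      have : (q : k0) = ((q - 1 + 1 : ℕ) : k0) := by
        rw [Nat.sub_add_cancel hq.one_le]
      rw [this]
      push_cast
      rfl
    rw [h3] at h1
    exact hqK ((algebraMap K k0).injective (h1.trans (map_zero _).symm))
  set ν := ((X - C (ct g)) ^ a : K[X]).map (algebraMap K R) |>.map ι with hν
  have hred : A.charpoly.map (PowerSeries.constantCoeff (R := k0)) = μ * ν := by
    rw [hA, red3, charpoly_zero, Polynomial.map_mul, mul_comm]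
  have hndvd : ¬ μ ∣ ν := by
    intro h
    rw [hν, Polynomial.map_pow, Polynomial.map_pow] at h
    have h1 := hμi.prime.dvd_of_dvd_pow h
    rw [Polynomial.map_sub, Polynomial.map_X, Polynomial.map_C, Polynomial.map_sub,
      Polynomial.map_X, Polynomial.map_C] at h1
    have h2 := Polynomial.natDegree_le_of_dvd h1 (Polynomial.X_sub_C_ne_zero _)
    rw [hμd, Polynomial.natDegree_X_sub_C] at h2
    have := hq.two_le
    omega
  have hfin := ord_abs (FreeAlgebra.lift K (gen K σ (a + q)) g).charpoly
    (Matrix.charpoly_monic _)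
    (j3 (b := q) (fun _ : σ => (0 : Matrix (Fin a) (Fin a) K))) (j3_inj _) A.charpoly
    (Matrix.charpoly_monic _) (map_j3 _ g)
    (fun L1 _ J hJ α h0 h1 => (simple_all g J hJ α h0 h1).1)
    μ ν hμi hμm hμ' hred hndvd
  rw [hμd] at hfin
  exact hfin

end Pool.Agent.J4H41.NC
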