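import Mathlib
import Pool.Agent.J4H41.NC.Emb
import Pool.Agent.J4H41.NC.Cyc
import Pool.Agent.J4H41.NC.Ord
import Pool.Agent.J4H41.NC.General

/-!
Galois groups of the characteristic polynomials of `g` at generic matrices of all sizes `n ≥ q`,
where `g` has a nonscalar value on `q × q` matrices, `q` prime.
-/

set_option autoImplicit false

namespace Pool.Agent.J4H41.NC

open Matrix Polynomial Pool.Agent.H552R3.PC

variable {K : Type*} [Field K] {σ : Type*} {q : ℕ}

/-- The characteristic polynomial of `g` at the generic matrices. -/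
noncomputable def CC (n : ℕ) (g : FreeAlgebra K σ) : (FractionRing (GA K σ n))[X] :=
  (FreeAlgebra.lift K (gen K σ n) g).charpoly.map
    (algebraMap (GA K σ n) (FractionRing (GA K σ n)))

/-- Specialisation of the last row and column to zero. -/
noncomputable def phi (K : Type*) [Field K] (σ : Type*) (k : ℕ) : GA K σ (k + 1) →ₐ[K] GA K σ k :=
  spz (fun s => blk (gen K σ k s))

theorem phi_surj (k : ℕ) : Function.Surjective (phi K σ k) := by
  intro p
  refine ⟨MvPolynomial.aeval (fun t : σ × Fin k × Fin k =>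
    (MvPolynomial.X (t.1, finSumFinEquiv (Sum.inl t.2.1), finSumFinEquiv (Sum.inl t.2.2)) :
      GA K σ (k + 1))) p, ?_⟩
  have h : (phi K σ k).comp (MvPolynomial.aeval (fun t : σ × Fin k × Fin k =>
      (MvPolynomial.X (t.1, finSumFinEquiv (Sum.inl t.2.1), finSumFinEquiv (Sum.inl t.2.2)) :
      GA K σ (k + 1)))) = AlgHom.id K (GA K σ k) := by
    apply MvPolynomial.algHom_ext
    intro t
    rw [AlgHom.comp_apply, MvPolynomial.aeval_X, phi, spz, MvPolynomial.aeval_X, blk,
      Matrix.reindex_apply, Matrix.submatrix_apply, Equiv.symm_apply_apply,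
      Equiv.symm_apply_apply, fromBlocks_apply₁₁]
    rfl
  exact congrArg (fun f : GA K σ k →ₐ[K] GA K σ k => f p) h

theorem map_phi (k : ℕ) (g : FreeAlgebra K σ) :
    ((FreeAlgebra.lift K (gen K σ (k + 1)) g).charpoly).map
      (phi K σ k : GA K σ (k + 1) →+* GA K σ k) =
    (FreeAlgebra.lift K (gen K σ k) g).charpoly *
      (X - C (algebraMap K (GA K σ k) (ct g))) := by
  rw [← Matrix.charpoly_map]
  have h1 : (FreeAlgebra.lift K (gen K σ (k + 1)) g).map
      (phi K σ k : GA K σ (k + 1) →+* GA K σ k) =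
      FreeAlgebra.lift K (fun s => blk (gen K σ k s)) g := by
    rw [← spz_gen (fun s => blk (gen K σ k s)) g]
    rfl
  rw [h1, lift_blk, Matrix.charpoly_reindex, Matrix.charpoly_fromBlocks_zero₂₁, lift_z]
  congr 1
  rw [Matrix.charpoly, Matrix.det_unique, Matrix.charmatrix_apply_eq]
  rfl

theorem CC_props [NeZero q] (hq : q.Prime) (hqK : (q : K) ≠ 0) (g : FreeAlgebra K σ)
    (hns : ¬ ∃ r : GA K σ q, FreeAlgebra.lift K (gen K σ q) g = Matrix.scalar (Fin q) r)
    (n : ℕ) (hn : q ≤ n) :
    Irreducible (CC n g) ∧ (CC n g).Separable ∧ (CC n g).natDegree = n := by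
  obtain ⟨a, rfl⟩ : ∃ a, n = a + q := ⟨n - q, by omega⟩
  obtain ⟨h1, h2, h3⟩ := ord (a := a) hq hqK g hns
  have : Nonempty (Fin (a + q)) := ⟨⟨0, by have := hq.pos; omega⟩⟩
  refine ⟨h1, h2, ?_⟩
  unfold CC
  rw [(Matrix.charpoly_monic _).natDegree_map, Matrix.charpoly_natDegree_eq_dim, Fintype.card_fin]

theorem ind (hq : q.Prime) (hqK : (q : K) ≠ 0) (g : FreeAlgebra K σ)
    (hns : ¬ ∃ r : GA K σ q, FreeAlgebra.lift K (gen K σ q) g = Matrix.scalar (Fin q) r)
    (n : ℕ) (hn : q ≤ n) :
    MulAction.IsMultiplyPretransitive (CC n g).Gal ((CC n g).rootSet (CC n g).SplittingField)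
      (n - q + 1) ∧
    HasCyc (CC n g).Gal ((CC n g).rootSet (CC n g).SplittingField) q := by
  have : NeZero q := ⟨hq.ne_zero⟩
  induction n, hn using Nat.le_induction with
  | base =>
    obtain ⟨h1, h2, h3⟩ := CC_props hq hqK g hns q le_rfl
    have htr := gal_trans (CC q g) h1
    have hfa := gal_faithful (CC q g)
    constructor
    · rw [Nat.sub_self, zero_add, MulAction.is_one_pretransitive_iff]
      exact htr
    · apply cyc_base htr hq
      rw [Polynomial.card_rootSet_eq_natDegree h2 (IsSplittingField.splits _ _), h3]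
  | succ n hn ih =>
    obtain ⟨h1, h2, h3⟩ := CC_props hq hqK g hns n hn
    obtain ⟨h1', h2', h3'⟩ := CC_props hq hqK g hns (n + 1) (by omega)
    have htr := gal_trans (CC (n + 1) g) h1'
    obtain ⟨e, α0, he, h0, hs, hl⟩ := emb (E := FractionRing (GA K σ (n + 1)))
      (E' := FractionRing (GA K σ n)) (phi K σ n : GA K σ (n + 1) →+* GA K σ n) (phi_surj n)
      (FreeAlgebra.lift K (gen K σ (n + 1)) g).charpoly (Matrix.charpoly_monic _) h2'
      (FreeAlgebra.lift K (gen K σ n) g).charpoly (Matrix.charpoly_monic _)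
      (algebraMap K (GA K σ n) (ct g)) (map_phi n g) h2 (by
        intro hcon
        have h4 : (CC n g).IsRoot (algebraMap (GA K σ n) (FractionRing (GA K σ n))
            (algebraMap K (GA K σ n) (ct g))) := by
          rw [IsRoot.def, CC, Polynomial.eval_map_algebraMap, Polynomial.aeval_algebraMap_apply]
          rw [Polynomial.coe_aeval_eq_eval, hcon, map_zero]
        have h5 : (CC n g).natDegree = 1 := Polynomial.natDegree_eq_of_degree_eq_some
          (degree_eq_one_of_irreducible_of_root h1 h4)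
        rw [h3] at h5
        have := hq.two_le
        omega)
    have hsub : n + 1 - q + 1 = (n - q + 1) + 1 := by omega
    rw [hsub]
    exact ⟨tr_step e α0 h0 hs hl htr ih.1, cyc_step e α0 he hs hl ih.2⟩

end Pool.Agent.J4H41.NC
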