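import Mathlib

/-!
Base change of Galois groups.
-/

set_option autoImplicit false

namespace Pool.Agent.J4H41.NC

open Polynomial

/-- The order of the Galois group of an extension generated by roots of `f` divides the order of
the Galois group of `f`. -/
theorem card_base_change {E E1 Ω : Type*} [Field E] [Field E1] [Field Ω] [Algebra E E1]
    [Algebra E1 Ω] [Algebra E Ω] [IsScalarTower E E1 Ω] (f : E[X]) (hf : f ≠ 0)
    [IsSplittingField E1 Ω (f.map (algebraMap E E1))] :
    Nat.card (Ω ≃ₐ[E1] Ω) ∣ Nat.card f.Gal := by
  classical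
  have hspl : (f.map (algebraMap E Ω)).Splits := by
    have := IsSplittingField.splits Ω (f.map (algebraMap E E1))
    rwa [Polynomial.map_map, ← IsScalarTower.algebraMap_eq] at this
  have : Fact ((f.map (algebraMap E Ω)).Splits) := ⟨hspl⟩
  let ψ : (Ω ≃ₐ[E1] Ω) →* f.Gal :=
    (Polynomial.Gal.restrict f Ω).comp (AlgEquiv.restrictScalarsHom E)
  have hψ : Function.Injective ψ := by
    rw [injective_iff_map_eq_one]
    intro τ hτ
    have hroot : ∀ x ∈ (f.map (algebraMap E E1)).rootSet Ω, τ x = x := by
      intro x hx
      have hx' : x ∈ f.rootSet Ω := by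
        rw [mem_rootSet]
        refine ⟨hf, ?_⟩
        have := (mem_rootSet.mp hx).2
        rwa [aeval_map_algebraMap] at this
      have h1 := Polynomial.Gal.restrict_smul (AlgEquiv.restrictScalarsHom E τ) ⟨x, hx'⟩
      have h2 : Polynomial.Gal.restrict f Ω (AlgEquiv.restrictScalarsHom E τ) = 1 := hτ
      rw [h2, one_smul] at h1
      exact h1.symm
    apply AlgEquiv.ext
    intro y
    have hy : y ∈ Algebra.adjoin E1 ((f.map (algebraMap E E1)).rootSet Ω) := by
      rw [IsSplittingField.adjoin_rootSet Ω (f.map (algebraMap E E1))]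
      exact Algebra.mem_top
    induction hy using Algebra.adjoin_induction with
    | mem x hx => exact hroot x hx
    | algebraMap r => exact τ.commutes r
    | add a b _ _ ha hb => rw [map_add, ha, hb]; rfl
    | mul a b _ _ ha hb => rw [map_mul, ha, hb]; rfl
  exact Subgroup.card_dvd_of_injective ψ hψ

end Pool.Agent.J4H41.NC
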