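import Mathlib

/-!
Ramification: if `r ^ 2 = t β` in the integral closure `B`, with `β` outside a prime `Q` over `(t)`,
then the Galois group has even order.
-/

set_option autoImplicit false

namespace Pool.Agent.J4H41.NC

open Ideal UniqueFactorizationMonoid

theorem ram_even {A B : Type*} [CommRing A] [IsDomain A] [CommRing B] [IsDedekindDomain B]
    [Algebra A B] [Module.Finite A B] [Module.Flat A B]
    (G : Type*) [Group G] [Finite G] [MulSemiringAction G B] [IsGaloisGroup G A B]
    (t : A) (ht : (Ideal.span {t}).IsPrime) (ht0 : algebraMap A B t ≠ 0)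
    (Q : Ideal B) (hQ : Q.IsPrime) (hQo : Q.LiesOver (Ideal.span {t})) (r β : B)
    (h : r ^ 2 = algebraMap A B t * β) (hβ : β ∉ Q) : 2 ∣ Nat.card G := by
  classical
  have hmap : (Ideal.span {t}).map (algebraMap A B) = Ideal.span {algebraMap A B t} := by
    rw [Ideal.map_span, Set.image_singleton]
  have hmap0 : (Ideal.span {t}).map (algebraMap A B) ≠ ⊥ := by
    rw [hmap, Ne, Ideal.span_singleton_eq_bot]
    exact ht0
  have hβ0 : β ≠ 0 := fun h0 => hβ (h0 ▸ Q.zero_mem)
  have hr0 : r ≠ 0 := by
    intro h0
    rw [h0, zero_pow two_ne_zero] at h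
    exact mul_ne_zero ht0 hβ0 h.symm
  have hQ0 : Q ≠ ⊥ := by
    intro h0
    apply hmap0
    rw [eq_bot_iff, ← h0, Ideal.map_le_iff_le_comap]
    exact (hQo.over).le
  have e1 : (Ideal.span {t}).ramificationIdx' Q =
      Multiset.count Q (normalizedFactors ((Ideal.span {t}).map (algebraMap A B))) :=
    IsDedekindDomain.ramificationIdx'_eq_normalizedFactors_count hmap0 hQ hQ0
  have e2 : (Ideal.span {t}).ramificationIdx' Q = Q.ramificationIdx A :=
    Ideal.ramificationIdx'_eq_ramificationIdx' _ _ hmap0
  have e3 : Q.ramificationIdx A ∣ Nat.card G := by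
    rw [← Ideal.ramificationIdxIn_eq_ramificationIdx (Ideal.span {t}) Q G,
      ← Ideal.ncard_primesOver_mul_ramificationIdxIn_mul_inertiaDegIn (Ideal.span {t}) B G]
    exact Dvd.dvd.mul_left (Dvd.intro _ rfl) _
  have e4 : 2 * Multiset.count Q (normalizedFactors (Ideal.span {r})) =
      Multiset.count Q (normalizedFactors ((Ideal.span {t}).map (algebraMap A B))) := by
    have h1 : (Ideal.span {r}) ^ 2 = (Ideal.span {t}).map (algebraMap A B) * Ideal.span {β} := by
      rw [hmap, Ideal.span_singleton_pow, Ideal.span_singleton_mul_span_singleton, h]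
    have h2 := congrArg (fun I => Multiset.count Q (normalizedFactors I)) h1
    rw [normalizedFactors_pow, Multiset.count_nsmul,
      normalizedFactors_mul hmap0 (by
        rw [Ne, Ideal.zero_eq_bot, Ideal.span_singleton_eq_bot]; exact hβ0),
      Multiset.count_add] at h2
    have h3 : Multiset.count Q (normalizedFactors (Ideal.span {β})) = 0 := by
      rw [Multiset.count_eq_zero]
      intro hmem
      have h4 := dvd_of_mem_normalizedFactors hmem
      rw [Ideal.dvd_span_singleton] at h4
      exact hβ h4
    rw [h3, add_zero] at h2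
    exact h2
  rw [← e2, e1, ← e4] at e3
  exact (Dvd.intro _ rfl).trans e3

end Pool.Agent.J4H41.NC
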