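import Mathlib
import Pool.Agent.J4H41.NC.Ram

/-!
Ramification in finite Galois extensions of the field of fractions of a principal ideal domain.
-/

set_option autoImplicit false

namespace Pool.Agent.J4H41.NC

theorem ram2 {A B E Ω : Type*} [CommRing A] [IsDomain A] [IsPrincipalIdealRing A]
    [CommRing B] [IsDomain B] [Algebra A B] [Field E] [Algebra A E] [IsFractionRing A E]
    [Field Ω] [Algebra E Ω] [Algebra A Ω] [IsScalarTower A E Ω] [Algebra B Ω]
    [IsScalarTower A B Ω] [IsFractionRing B Ω] [IsIntegralClosure B A Ω]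
    [FiniteDimensional E Ω] [IsGalois E Ω]
    (t : A) (ht : Prime t) (Q : Ideal B) (hQ : Q.IsPrime)
    (hQo : Q.LiesOver (Ideal.span {t})) (r β : B)
    (h : r ^ 2 = algebraMap A B t * β) (hβ : β ∉ Q) : 2 ∣ Nat.card (Ω ≃ₐ[E] Ω) := by
  have hinv : Algebra.IsInvariant A B (B ≃ₐ[A] B) := Algebra.isInvariant_of_isGalois' A E Ω B
  have hfin : Finite (B ≃ₐ[A] B) := Finite.of_equiv _ (galRestrict A E Ω B).toEquiv
  have hBinj : Function.Injective (algebraMap B Ω) := IsFractionRing.injective B Ω
  have hAinj : Function.Injective (algebraMap A Ω) := by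
    rw [IsScalarTower.algebraMap_eq A E Ω]
    exact (algebraMap E Ω).injective.comp (IsFractionRing.injective A E)
  have hABinj : Function.Injective (algebraMap A B) := by
    intro x y hxy
    apply hAinj
    rw [IsScalarTower.algebraMap_apply A B Ω, IsScalarTower.algebraMap_apply A B Ω, hxy]
  have hfaith : FaithfulSMul A B := (faithfulSMul_iff_algebraMap_injective A B).mpr hABinj
  have hded : IsDedekindDomain B := IsIntegralClosure.isDedekindDomain A E Ω B
  have hfinB : Module.Finite A B := IsIntegralClosure.finite A E Ω B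
  have htf : Module.IsTorsionFree A B := inferInstance
  have hfree : Module.Free A B := inferInstance
  have hflat : Module.Flat A B := inferInstance
  have hgg : IsGaloisGroup (B ≃ₐ[A] B) A B :=
    { faithful := inferInstance
      commutes := inferInstance
      isInvariant := hinv }
  have htp : (Ideal.span {t}).IsPrime := (Ideal.span_singleton_prime ht.ne_zero).mpr ht
  have h1 := ram_even (B ≃ₐ[A] B) t htp (by
    rw [Ne, ← map_zero (algebraMap A B)]
    exact fun h0 => ht.ne_zero (hABinj h0)) Q hQ hQo r β h hβ
  rwa [Nat.card_congr (galRestrict A E Ω B).toEquiv]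

end Pool.Agent.J4H41.NC
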