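import Mathlib
import Pool.Agent.J4H41.NC.Ram2

/-!
If `M ^ 2 = t N` over `k[t]` and the Galois group of the characteristic polynomial of `M` has odd
order, then `N` is nilpotent at `t = 0`.
-/

set_option autoImplicit false

namespace Pool.Agent.J4H41.NC

open Matrix Polynomial

universe u

theorem key_root {L L' : Type*} [Field L] [Field L'] [IsAlgClosed L'] (i : L →+* L')
    {ι : Type*} [Fintype ι] [DecidableEq ι] (M N : Matrix ι ι L) (x : L) (h : M * M = x • N)
    (hspl : M.charpoly.Splits) (β : L') (hβ : (N.charpoly.map i).IsRoot β) :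
    ∃ r : L, M.charpoly.IsRoot r ∧ (i r) ^ 2 = i x * β := by
  obtain ⟨μ, hμ⟩ := IsAlgClosed.exists_pow_nat_eq (i x * β) (n := 2) two_pos
  have h1 : (N.map i).charpoly.eval β = 0 := by
    rw [Matrix.charpoly_map]; exact hβ
  rw [Matrix.eval_charpoly] at h1
  have h2 : (M.map i) * (M.map i) = i x • N.map i := by
    rw [← Matrix.map_mul, h]
    ext a b
    simp
  have h3 : (Matrix.scalar ι μ - M.map i) * (Matrix.scalar ι μ + M.map i) =
      i x • (Matrix.scalar ι β - N.map i) := by
    rw [smul_sub, ← h2]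
    have hc : Matrix.scalar ι μ * M.map i = M.map i * Matrix.scalar ι μ :=
      (Matrix.scalar_commute μ (fun _ => Commute.all _ _) _).eq
    have hs : Matrix.scalar ι μ * Matrix.scalar ι μ = i x • Matrix.scalar ι β := by
      rw [← map_mul, ← pow_two, hμ]
      ext a b
      by_cases hab : a = b
      · subst hab; simp
      · simp [Matrix.diagonal_apply_ne _ hab]
    rw [mul_add, sub_mul, sub_mul, hs, hc]
    abel
  have h4 : (Matrix.scalar ι μ - M.map i).det * (Matrix.scalar ι μ + M.map i).det = 0 := by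
    rw [← Matrix.det_mul, h3, Matrix.det_smul, h1, mul_zero]
  have h5 : ∃ ν : L', (M.charpoly.map i).IsRoot ν ∧ ν ^ 2 = i x * β := by
    rcases mul_eq_zero.mp h4 with h6 | h6
    · refine ⟨μ, ?_, hμ⟩
      rw [IsRoot.def, ← Matrix.charpoly_map, Matrix.eval_charpoly]
      exact h6
    · refine ⟨-μ, ?_, by rw [neg_pow_two, hμ]⟩
      rw [IsRoot.def, ← Matrix.charpoly_map, Matrix.eval_charpoly]
      have h7 : Matrix.scalar ι (-μ) - M.map i = -(Matrix.scalar ι μ + M.map i) := by
        rw [map_neg]; abel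
      rw [h7, Matrix.det_neg, h6, mul_zero]
  obtain ⟨ν, h6, h7⟩ := h5
  have h8 : ν ∈ (M.charpoly.map i).roots :=
    (mem_roots ((Matrix.charpoly_monic M).map i).ne_zero).mpr h6
  rw [hspl.roots_map, Multiset.mem_map] at h8
  obtain ⟨r, hr, hrν⟩ := h8
  exact ⟨r, isRoot_of_mem_roots hr, by rw [hrν, h7]⟩

theorem sq_root {L : Type*} [Field L] {ι : Type*} [Fintype ι] [DecidableEq ι]
    (M N : Matrix ι ι L) (x : L) (hx : x ≠ 0) (h : M * M = x • N) (hspl : M.charpoly.Splits) :
    N.charpoly.Splits ∧ ∀ β, N.charpoly.IsRoot β → ∃ r, M.charpoly.IsRoot r ∧ r ^ 2 = x * β := by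
  have hkey := key_root (algebraMap L (AlgebraicClosure L)) M N x h hspl
  have hx' : algebraMap L (AlgebraicClosure L) x ≠ 0 := by
    rw [Ne, map_eq_zero]; exact hx
  constructor
  · apply Splits.of_splits_map (algebraMap L (AlgebraicClosure L))
      (IsAlgClosed.splits _)
    intro β hβ
    obtain ⟨r, _, hr⟩ := hkey β (isRoot_of_mem_roots hβ)
    refine ⟨r ^ 2 / x, ?_⟩
    rw [map_div₀, map_pow, hr, mul_div_cancel_left₀ _ hx']
  · intro β hβ
    obtain ⟨r, hr, hr2⟩ := hkey (algebraMap L _ β) hβ.map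
    refine ⟨r, hr, ?_⟩
    apply (algebraMap L (AlgebraicClosure L)).injective
    rw [map_pow, hr2, map_mul]

end Pool.Agent.J4H41.NC
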