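import Mathlib
import Pool.Agent.J4H41.NC.Odd

/-!
If `M ^ 2 = t N` over `k[t]` and the characteristic polynomial of `M` splits in a Galois extension
of `k(t)` of odd degree, then `N` is nilpotent at `t = 0`.
-/

set_option autoImplicit false

namespace Pool.Agent.J4H41.NC

open Matrix Polynomial

theorem nil_of_odd {k E1 Ω : Type*} [Field k] [Field E1] [Algebra k[X] E1]
    [IsFractionRing k[X] E1] [Field Ω] [Algebra E1 Ω] [Algebra k[X] Ω]
    [IsScalarTower k[X] E1 Ω] [FiniteDimensional E1 Ω] [IsGalois E1 Ω]
    (hodd : ¬ 2 ∣ Nat.card (Ω ≃ₐ[E1] Ω))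
    {ι : Type*} [Fintype ι] [DecidableEq ι] (M N : Matrix ι ι k[X]) (h : M * M = (X : k[X]) • N)
    (hspl : (M.charpoly.map (algebraMap k[X] Ω)).Splits) :
    (N.map (Polynomial.eval 0)).charpoly = X ^ Fintype.card ι := by
  classical
  have hAinj : Function.Injective (algebraMap k[X] Ω) := by
    rw [IsScalarTower.algebraMap_eq k[X] E1 Ω]
    exact (algebraMap E1 Ω).injective.comp (IsFractionRing.injective k[X] E1)
  have hfr : IsFractionRing (integralClosure k[X] Ω) Ω :=
    integralClosure.isFractionRing_of_finite_extension E1 Ω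
  have hBinj : Function.Injective (algebraMap (integralClosure k[X] Ω) Ω) :=
    Subtype.val_injective
  have hABinj : Function.Injective (algebraMap k[X] (integralClosure k[X] Ω)) := by
    intro x y hxy
    apply hAinj
    rw [IsScalarTower.algebraMap_apply k[X] (integralClosure k[X] Ω) Ω,
      IsScalarTower.algebraMap_apply k[X] (integralClosure k[X] Ω) Ω, hxy]
  have hfaith : FaithfulSMul k[X] (integralClosure k[X] Ω) :=
    (faithfulSMul_iff_algebraMap_injective _ _).mpr hABinj
  have hprime : (Ideal.span {(X : k[X])}).IsPrime :=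
    (Ideal.span_singleton_prime X_ne_zero).mpr prime_X
  obtain ⟨⟨Q, hQp, hQo⟩⟩ := Ideal.nonempty_primesOver (S := integralClosure k[X] Ω)
    (Ideal.span {(X : k[X])})
  have hM : (M.map (algebraMap k[X] Ω)) * (M.map (algebraMap k[X] Ω)) =
      (algebraMap k[X] Ω X) • (N.map (algebraMap k[X] Ω)) := by
    rw [← Matrix.map_mul, h]
    ext a b
    simp
  have hx : algebraMap k[X] Ω X ≠ 0 := by
    rw [Ne, ← map_zero (algebraMap k[X] Ω)]
    exact fun h0 => X_ne_zero (hAinj h0)
  rw [← Matrix.charpoly_map] at hspl
  obtain ⟨hNs, hNr⟩ := sq_root (M.map (algebraMap k[X] Ω)) (N.map (algebraMap k[X] Ω)) _ hx hM hspl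
  rw [Matrix.charpoly_map] at hNs
  simp only [Matrix.charpoly_map] at hNr
  set f : Polynomial Ω := N.charpoly.map (algebraMap k[X] Ω) with hf
  have hfm : f.Monic := (Matrix.charpoly_monic N).map _
  have hroot : ∀ x, f.IsRoot x → x ∈ integralClosure k[X] Ω := by
    intro x hx
    refine ⟨N.charpoly, Matrix.charpoly_monic N, ?_⟩
    rw [← Polynomial.eval_map]
    exact hx
  let s : Multiset (integralClosure k[X] Ω) :=
    f.roots.pmap (fun x hx => (⟨x, hx⟩ : integralClosure k[X] Ω))
      (fun x hx => hroot x (Polynomial.isRoot_of_mem_roots hx))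
  have hs : s.map (algebraMap (integralClosure k[X] Ω) Ω) = f.roots := by
    rw [Multiset.map_pmap]
    conv_rhs => rw [← Multiset.map_id f.roots, ← Multiset.pmap_eq_map (fun _ => True) id f.roots
      (fun _ _ => trivial)]
    exact Multiset.pmap_congr _ (fun _ _ _ _ => rfl)
  have hB : N.charpoly.map (algebraMap k[X] (integralClosure k[X] Ω)) =
      (s.map fun b => X - C b).prod := by
    apply Polynomial.map_injective _ hBinj
    rw [Polynomial.map_map, Polynomial.map_multiset_prod, Multiset.map_map,
      ← IsScalarTower.algebraMap_eq]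
    have h3 : (s.map (Polynomial.map (algebraMap (integralClosure k[X] Ω) Ω) ∘
        fun b => (X - C b : Polynomial (integralClosure k[X] Ω)))) =
        (s.map (algebraMap (integralClosure k[X] Ω) Ω)).map
          (fun y => (X - C y : Polynomial Ω)) := by
      rw [Multiset.map_map]
      apply Multiset.map_congr rfl
      intro b _
      simp
    rw [h3, hs]
    exact hNs.eq_prod_roots_of_monic hfm
  -- the roots lie in `Q`
  have hsQ : ∀ b ∈ s, b ∈ Q := by
    intro b hb
    by_contra hbQ
    have hb1 : f.IsRoot (b : Ω) := by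
      apply isRoot_of_mem_roots
      rw [← hs]
      exact Multiset.mem_map_of_mem _ hb
    obtain ⟨r, hr, hr2⟩ := hNr _ hb1
    have hri : r ∈ integralClosure k[X] Ω := by
      refine ⟨M.charpoly, Matrix.charpoly_monic M, ?_⟩
      rw [← Polynomial.eval_map]
      exact hr
    apply hodd
    apply ram2 (A := k[X]) (B := integralClosure k[X] Ω) (E := E1) (Ω := Ω) X prime_X Q hQp hQo
      ⟨r, hri⟩ b _ hbQ
    apply hBinj
    rw [map_pow, map_mul, ← IsScalarTower.algebraMap_apply]
    exact hr2
  -- reduction
  have h1 : (N.charpoly.map (algebraMap k[X] (integralClosure k[X] Ω))).map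
      (Ideal.Quotient.mk Q) = X ^ Fintype.card ι := by
    have hdeg : s.card = Fintype.card ι := by
      have h2 := congrArg Polynomial.natDegree hB
      rw [natDegree_multiset_prod_X_sub_C_eq_card,
        (Matrix.charpoly_monic N).natDegree_map, Matrix.charpoly_natDegree_eq_dim] at h2
      exact h2.symm
    rw [hB, Polynomial.map_multiset_prod, Multiset.map_map]
    have h4 : s.map (Polynomial.map (Ideal.Quotient.mk Q) ∘
        fun b => (X - C b : Polynomial (integralClosure k[X] Ω))) = s.map (fun _ => X) := by
      apply Multiset.map_congr rfl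
      intro b hb
      have h5 : Ideal.Quotient.mk Q b = 0 := Ideal.Quotient.eq_zero_iff_mem.mpr (hsQ b hb)
      simp [h5]
    rw [h4, Multiset.map_const', Multiset.prod_replicate, hdeg]
  let j : k →+* (integralClosure k[X] Ω) ⧸ Q :=
    ((Ideal.Quotient.mk Q).comp (algebraMap k[X] (integralClosure k[X] Ω))).comp C
  have hj : (Ideal.Quotient.mk Q).comp (algebraMap k[X] (integralClosure k[X] Ω)) =
      j.comp (Polynomial.evalRingHom 0) := by
    apply Polynomial.ringHom_ext
    · intro a
      simp [j]
    · have h6 : Ideal.Quotient.mk Q (algebraMap k[X] (integralClosure k[X] Ω) X) = 0 := by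
        apply Ideal.Quotient.eq_zero_iff_mem.mpr
        have h7 : (X : k[X]) ∈ Q.under k[X] := by
          rw [← hQo.over]
          exact Ideal.mem_span_singleton_self X
        exact h7
      rw [RingHom.comp_apply, h6, RingHom.comp_apply, Polynomial.coe_evalRingHom, eval_X, map_zero]
  have h8 : (N.map (Polynomial.eval 0)).charpoly.map j = (X ^ Fintype.card ι : k[X]).map j := by
    have h9 : N.map (Polynomial.eval 0) = (Polynomial.evalRingHom (0 : k)).mapMatrix N := rfl
    rw [h9, RingHom.mapMatrix_apply, Matrix.charpoly_map, Polynomial.map_map, ← hj,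
      ← Polynomial.map_map, h1]
    simp
  exact Polynomial.map_injective j j.injective h8

end Pool.Agent.J4H41.NC
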