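import Mathlib
import Pool.Agent.J4H41.NC.Odd2
import Pool.Agent.J4H41.NC.Bc

/-!
If `M ^ 2 = t N` over `k[t]`, and the characteristic polynomial of `M + c` comes from a separable
polynomial whose Galois group has odd order, then `N` is nilpotent at `t = 0`.
-/

set_option autoImplicit false

namespace Pool.Agent.J4H41.NC

open Matrix Polynomial

universe u

theorem main0 {Γ E k E1 Ω : Type*} [CommRing Γ] [IsDomain Γ] [Field E] [Algebra Γ E]
    [Field k] [Field E1] [Algebra k[X] E1] [IsFractionRing k[X] E1] [Algebra E E1]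
    [Field Ω] [Algebra E1 Ω] [Algebra E Ω] [IsScalarTower E E1 Ω]
    (j : Γ →+* k[X])
    (hlift : (algebraMap E E1).comp (algebraMap Γ E) = (algebraMap k[X] E1).comp j)
    (χ : Γ[X]) (hsep : (χ.map (algebraMap Γ E)).Separable)
    (hodd : ¬ 2 ∣ Nat.card (χ.map (algebraMap Γ E)).Gal)
    [hΩ : IsSplittingField E1 Ω ((χ.map (algebraMap Γ E)).map (algebraMap E E1))]
    {ι : Type*} [Fintype ι]
    [DecidableEq ι] (M N : Matrix ι ι k[X]) (c : k[X])
    (hM : (M + Matrix.scalar ι c).charpoly = χ.map j)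
    (h : M * M = (X : k[X]) • N) :
    (N.map (Polynomial.eval 0)).charpoly = X ^ Fintype.card ι := by
  let aΩ : Algebra k[X] Ω := ((algebraMap E1 Ω).comp (algebraMap k[X] E1)).toAlgebra
  have tΩ : IsScalarTower k[X] E1 Ω := IsScalarTower.of_algebraMap_eq fun x => rfl
  have hgal : IsGalois E1 Ω := IsGalois.of_separable_splitting_field
    (p := (χ.map (algebraMap Γ E)).map (algebraMap E E1)) hsep.map
  have hfd : FiniteDimensional E1 Ω :=
    IsSplittingField.finiteDimensional Ω ((χ.map (algebraMap Γ E)).map (algebraMap E E1))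
  have hcard : Nat.card (Ω ≃ₐ[E1] Ω) ∣ Nat.card (χ.map (algebraMap Γ E)).Gal :=
    card_base_change (χ.map (algebraMap Γ E)) hsep.ne_zero
  apply nil_of_odd (E1 := E1) (Ω := Ω) (fun h2 => hodd (h2.trans hcard)) M N h
  have h1 : ((M + Matrix.scalar ι c).charpoly.map (algebraMap k[X] Ω)).Splits := by
    rw [hM, Polynomial.map_map, IsScalarTower.algebraMap_eq k[X] E1 Ω, RingHom.comp_assoc,
      ← hlift, ← RingHom.comp_assoc, ← Polynomial.map_map, ← Polynomial.map_map]
    exact IsSplittingField.splits Ω ((χ.map (algebraMap Γ E)).map (algebraMap E E1))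
  have h2 : M.charpoly = (M + Matrix.scalar ι c).charpoly.comp (X + C c) := by
    rw [← Matrix.charpoly_sub_scalar, add_sub_cancel_right]
  rw [h2, Polynomial.map_comp, Polynomial.map_add, map_X, map_C]
  exact h1.comp_X_add_C _

theorem ex_frac (A : Type u) [CommRing A] [IsDomain A] :
    ∃ (E1 : Type u) (_ : Field E1) (_ : Algebra A E1), IsFractionRing A E1 :=
  ⟨FractionRing A, inferInstance, inferInstance, inferInstance⟩

theorem ex_split {E1 : Type u} [Field E1] (F : E1[X]) :
    ∃ (Ω : Type u) (_ : Field Ω) (_ : Algebra E1 Ω), IsSplittingField E1 Ω F :=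
  ⟨F.SplittingField, inferInstance, inferInstance, inferInstance⟩

theorem main1 {Γ E : Type*} [CommRing Γ] [IsDomain Γ] [Field E] [Algebra Γ E]
    [IsFractionRing Γ E] {k : Type*} [Field k] (j : Γ →+* k[X]) (hj : Function.Injective j)
    (χ : Γ[X]) (hsep : (χ.map (algebraMap Γ E)).Separable)
    (hodd : ¬ 2 ∣ Nat.card (χ.map (algebraMap Γ E)).Gal) {ι : Type*} [Fintype ι]
    [DecidableEq ι] (M N : Matrix ι ι k[X]) (c : k[X])
    (hM : (M + Matrix.scalar ι c).charpoly = χ.map j)
    (h : M * M = (X : k[X]) • N) :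
    (N.map (Polynomial.eval 0)).charpoly = X ^ Fintype.card ι := by
  obtain ⟨E1, i1, i2, i3⟩ := ex_frac k[X]
  have hinj : Function.Injective ((algebraMap k[X] E1).comp j) :=
    (IsFractionRing.injective k[X] E1).comp hj
  let aE : Algebra E E1 := (IsFractionRing.lift hinj : E →+* E1).toAlgebra
  have hlift : (algebraMap E E1).comp (algebraMap Γ E) = (algebraMap k[X] E1).comp j := by
    ext x
    exact IsFractionRing.lift_algebraMap hinj x
  obtain ⟨Ω, i4, i5, i6⟩ := ex_split ((χ.map (algebraMap Γ E)).map (algebraMap E E1))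
  let aΩ : Algebra E Ω := ((algebraMap E1 Ω).comp (algebraMap E E1)).toAlgebra
  have tΩ : IsScalarTower E E1 Ω := IsScalarTower.of_algebraMap_eq fun x => rfl
  exact main0 (E := E) (E1 := E1) (Ω := Ω) j hlift χ hsep hodd M N c hM h

theorem trace_zero_of_charpoly {k : Type*} [Field k] {ι κ : Type*} [Fintype ι] [DecidableEq ι]
    [Fintype κ] [DecidableEq κ] [Nonempty ι] (P : Matrix ι ι k) (U : Matrix ι κ k)
    (Q : Matrix κ κ k) (h : (fromBlocks P U 0 Q).charpoly = X ^ Fintype.card (ι ⊕ κ)) :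
    P.trace = 0 := by
  rw [Matrix.charpoly_fromBlocks_zero₂₁] at h
  have h1 : P.charpoly ∣ X ^ Fintype.card (ι ⊕ κ) := ⟨_, h.symm⟩
  obtain ⟨i, _, hi⟩ := (dvd_prime_pow prime_X _).mp h1
  have h2 := eq_of_monic_of_associated (Matrix.charpoly_monic P) (monic_X_pow i) hi
  have h3 : i = Fintype.card ι := by
    have h4 := Matrix.charpoly_natDegree_eq_dim P
    rw [h2, natDegree_X_pow] at h4
    exact h4
  rw [Matrix.trace_eq_neg_charpoly_coeff, h2, h3, coeff_X_pow, if_neg, neg_zero]
  have := Fintype.card_pos (α := ι)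
  omega

end Pool.Agent.J4H41.NC
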