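import Mathlib
import Pool.Agent.TH82.NC.Nil

/-!
The value of `f` at block matrices with lower left block scaled by `t`.
-/

set_option autoImplicit false

namespace Pool.Agent.J4H41.NC

open Matrix Polynomial Pool.Agent.H552R3.PC Pool.Agent.TH82.NC

variable {K : Type*} [Field K] {σ : Type*} {ι κ : Type*} [Fintype ι] [DecidableEq ι] [Fintype κ]
  [DecidableEq κ] {R : Type*} [CommRing R] [Algebra K R]

/-- Block matrices with the lower left block scaled by the variable. -/
noncomputable def Xt (A : σ → Matrix ι ι R) (A' : σ → Matrix κ κ R) (b : σ → Matrix ι κ R)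
    (c : σ → Matrix κ ι R) (i : σ) : Matrix (ι ⊕ κ) (ι ⊕ κ) R[X] :=
  fromBlocks ((A i).map C) ((b i).map C) ((c i).map fun x => X * C x) ((A' i).map C)

theorem Xt_coeff (A : σ → Matrix ι ι R) (A' : σ → Matrix κ κ R) (b : σ → Matrix ι κ R)
    (c : σ → Matrix κ ι R) (f : FreeAlgebra K σ) :
    (matPolyEquiv (FreeAlgebra.lift K (Xt A A' b c) f)).coeff 0 =
      fromBlocks (FreeAlgebra.lift K A f) (up A A' b f) 0 (FreeAlgebra.lift K A' f) ∧
    ((matPolyEquiv (FreeAlgebra.lift K (Xt A A' b c) f)).coeff 1).toBlocks₂₁ =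
      lo A A' c f := by
  induction f using FreeAlgebra.induction with
  | grade0 r =>
    rw [AlgHom.commutes, AlgHom.commutes, AlgHom.commutes, up_algebraMap, lo_algebraMap,
      ← algebraMap_fromBlocks]
    have h1 : (algebraMap K R[X]) r = C (algebraMap K R r) := rfl
    constructor
    · ext1 a b
      rw [matPolyEquiv_coeff_apply, algebraMap_matrix_apply, algebraMap_matrix_apply, h1]
      by_cases h : a = b
      · rw [if_pos h, if_pos h, coeff_C_zero]
      · rw [if_neg h, if_neg h, coeff_zero]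
    · ext1 a b
      rw [toBlocks₂₁, Matrix.of_apply, matPolyEquiv_coeff_apply, algebraMap_matrix_apply, h1,
        if_neg (by simp), coeff_zero]
      rfl
  | grade1 i =>
    rw [FreeAlgebra.lift_ι_apply, FreeAlgebra.lift_ι_apply, FreeAlgebra.lift_ι_apply, up_ι, lo_ι]
    constructor
    · ext a b
      rw [matPolyEquiv_coeff_apply, Xt]
      rcases a with a | a <;> rcases b with b | b <;> simp
    · ext a b
      rw [toBlocks₂₁, Matrix.of_apply, matPolyEquiv_coeff_apply, Xt]
      simp
  | mul f g hf hg =>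
    constructor
    · rw [map_mul, map_mul, mul_coeff_zero, hf.1, hg.1, fromBlocks_multiply, map_mul, map_mul,
        up_mul]
      simp
    · rw [map_mul, map_mul, mul_coeff_one, hf.1, hg.1, lo_mul, ← hf.2, ← hg.2]
      set P := (matPolyEquiv (FreeAlgebra.lift K (Xt A A' b c) f)).coeff 1
      set Q := (matPolyEquiv (FreeAlgebra.lift K (Xt A A' b c) g)).coeff 1
      rw [← fromBlocks_toBlocks P, ← fromBlocks_toBlocks Q, fromBlocks_multiply,
        fromBlocks_multiply, fromBlocks_add]
      simp [add_comm]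
  | add f g hf hg =>
    constructor
    · rw [map_add, map_add, coeff_add, hf.1, hg.1, fromBlocks_add, map_add, map_add, up_add]
      simp
    · rw [map_add, map_add, coeff_add, lo_add, ← hf.2, ← hg.2]
      rfl

/-- If `f` vanishes on both diagonal blocks then the square of its value is divisible by `t`, and
the quotient is block triangular at `t = 0`. -/
theorem sq_dvd (A : σ → Matrix ι ι R) (A' : σ → Matrix κ κ R) (b : σ → Matrix ι κ R)
    (c : σ → Matrix κ ι R) (f : FreeAlgebra K σ) (h1 : FreeAlgebra.lift K A f = 0)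
    (h2 : FreeAlgebra.lift K A' f = 0) :
    ∃ (N : Matrix (ι ⊕ κ) (ι ⊕ κ) R[X]) (U : Matrix ι κ R),
      FreeAlgebra.lift K (Xt A A' b c) f * FreeAlgebra.lift K (Xt A A' b c) f = (X : R[X]) • N ∧
      N.map (Polynomial.eval 0) = fromBlocks (up A A' b f * lo A A' c f) U 0
        (lo A A' c f * up A A' b f) := by
  obtain ⟨q0, q1⟩ := Xt_coeff A A' b c f
  set M := FreeAlgebra.lift K (Xt A A' b c) f with hM
  set q := matPolyEquiv M with hq
  rw [h1, h2] at q0
  set P := q.coeff 1 with hP
  have h3 : (q * q).coeff 0 = 0 := by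
    rw [mul_coeff_zero, q0, fromBlocks_multiply]
    simp
  obtain ⟨N', hN'⟩ := X_dvd_iff.mpr h3
  have h4 : N'.coeff 0 = fromBlocks (up A A' b f * lo A A' c f)
      (up A A' b f * P.toBlocks₂₂ + P.toBlocks₁₁ * up A A' b f) 0
      (lo A A' c f * up A A' b f) := by
    have h5 : (q * q).coeff 1 = N'.coeff 0 := by rw [hN', coeff_X_mul]
    rw [← h5, mul_coeff_one, q0, ← q1, ← hP]
    conv_lhs => rw [← fromBlocks_toBlocks P, fromBlocks_multiply, fromBlocks_multiply,
      fromBlocks_add]
    simp
  refine ⟨matPolyEquiv.symm N', up A A' b f * P.toBlocks₂₂ + P.toBlocks₁₁ * up A A' b f, ?_, ?_⟩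
  · apply matPolyEquiv.injective
    rw [map_mul, ← hq, hN']
    ext m a b
    rw [matPolyEquiv_coeff_apply, Matrix.smul_apply, smul_eq_mul]
    have h6 : (matPolyEquiv.symm N') a b = ((matPolyEquiv.symm N') a b) := rfl
    cases m with
    | zero => simp
    | succ m =>
      rw [coeff_X_mul, coeff_X_mul, ← matPolyEquiv_coeff_apply, AlgEquiv.apply_symm_apply]
  · rw [← h4]
    ext a b
    rw [Matrix.map_apply, ← coeff_zero_eq_eval_zero, ← matPolyEquiv_coeff_apply,
      AlgEquiv.apply_symm_apply]

end Pool.Agent.J4H41.NC
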