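import Mathlib
import Pool.Agent.J4H41.NC.Odd3
import Pool.Agent.J4H41.NC.Sq
import Pool.Agent.J4H41.NC.Ind

/-!
If `g` is equal to `c` on `M_d(K)` and `M_e(K)` and the Galois group of the characteristic
polynomial of `g` at the generic matrices of size `d + e` has odd order, then the trace of the
product of the off-diagonal blocks of `g - c` vanishes.
-/

set_option autoImplicit false

namespace Pool.Agent.J4H41.NC

open Matrix Polynomial Pool.Agent.H552R3.PC Pool.Agent.TH82.NC

variable {K : Type*} [Field K] {σ : Type*} {d e : ℕ}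

/-- The generic matrices with rows and columns indexed by a sum. -/
noncomputable def GB (K : Type*) [Field K] (σ : Type*) (d e : ℕ) (s : σ) :
    Matrix (Fin d ⊕ Fin e) (Fin d ⊕ Fin e) (GA K σ (d + e)) :=
  Matrix.of fun a b => MvPolynomial.X (s, finSumFinEquiv a, finSumFinEquiv b)

section J

variable {k : Type*} [Field k] [Algebra K k] (ψ : GA K σ (d + e) →ₐ[K] k)

/-- The generic matrices with the lower left block scaled. -/
noncomputable def Wt (s : σ) : Matrix (Fin d ⊕ Fin e) (Fin d ⊕ Fin e) k[X] :=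
  Xt (fun s => ((GB K σ d e s).toBlocks₁₁).map ψ) (fun s => ((GB K σ d e s).toBlocks₂₂).map ψ)
    (fun s => ((GB K σ d e s).toBlocks₁₂).map ψ) (fun s => ((GB K σ d e s).toBlocks₂₁).map ψ) s

/-- The substitution. -/
noncomputable def jj : GA K σ (d + e) →ₐ[K] k[X] :=
  spz (fun s => Matrix.reindexAlgEquiv K k[X] (finSumFinEquiv (m := d) (n := e)) (Wt ψ s))

theorem eval_jj (p : GA K σ (d + e)) : (jj ψ p).eval 1 = ψ p := by
  have h : ((Polynomial.aeval (R := k) (1 : k)).restrictScalars K).comp (jj ψ) = ψ := by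
    apply MvPolynomial.algHom_ext
    rintro ⟨s, a, b⟩
    rw [AlgHom.comp_apply, jj, spz, MvPolynomial.aeval_X]
    obtain ⟨a, rfl⟩ := (finSumFinEquiv (m := d) (n := e)).surjective a
    obtain ⟨b, rfl⟩ := (finSumFinEquiv (m := d) (n := e)).surjective b
    simp only [Matrix.coe_reindexAlgEquiv, Matrix.reindex_apply, Matrix.submatrix_apply,
      Equiv.symm_apply_apply]
    rcases a with a | a <;> rcases b with b | b <;> simp [Wt, Xt, GB, toBlocks₁₁, toBlocks₁₂,
      toBlocks₂₁, toBlocks₂₂]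
  have h1 := congrArg (fun f : GA K σ (d + e) →ₐ[K] k => f p) h
  simpa [Polynomial.coe_aeval_eq_eval] using h1

theorem jj_inj (hψ : Function.Injective ψ) : Function.Injective (jj ψ) := by
  intro x y hxy
  apply hψ
  rw [← eval_jj, ← eval_jj, hxy]

theorem charpoly_jj (g : FreeAlgebra K σ) :
    (FreeAlgebra.lift K (gen K σ (d + e)) g).charpoly.map (jj ψ : GA K σ (d + e) →+* k[X]) =
      (FreeAlgebra.lift K (Wt ψ) g).charpoly := by
  rw [← Matrix.charpoly_map]
  have h1 : (FreeAlgebra.lift K (gen K σ (d + e)) g).map (jj ψ : GA K σ (d + e) →+* k[X]) =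
      FreeAlgebra.lift K (fun s => Matrix.reindexAlgEquiv K k[X]
        (finSumFinEquiv (m := d) (n := e)) (Wt ψ s)) g :=
    spz_gen (fun s => Matrix.reindexAlgEquiv K k[X] (finSumFinEquiv (m := d) (n := e)) (Wt ψ s)) g
  have h2 := lift_map (Matrix.reindexAlgEquiv K k[X] (finSumFinEquiv (m := d) (n := e))).toAlgHom
    (Wt ψ) g
  have h3 : FreeAlgebra.lift K (fun s => Matrix.reindexAlgEquiv K k[X]
        (finSumFinEquiv (m := d) (n := e)) (Wt ψ s)) g =
      Matrix.reindex finSumFinEquiv finSumFinEquiv (FreeAlgebra.lift K (Wt ψ) g) := h2.symm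
  rw [h1, h3, Matrix.charpoly_reindex]

theorem main2k [Infinite K] (hd0 : 0 < d) (hψ : Function.Injective ψ) (g : FreeAlgebra K σ)
    (c0 : K)
    (hd : ∀ Y : σ → Matrix (Fin d) (Fin d) K,
      FreeAlgebra.lift K Y (g - algebraMap K (FreeAlgebra K σ) c0) = 0)
    (he : ∀ Y : σ → Matrix (Fin e) (Fin e) K,
      FreeAlgebra.lift K Y (g - algebraMap K (FreeAlgebra K σ) c0) = 0)
    (hsep : (CC (d + e) g).Separable) (hodd : ¬ 2 ∣ Nat.card (CC (d + e) g).Gal) :
    (up (fun s => ((GB K σ d e s).toBlocks₁₁).map ψ) (fun s => ((GB K σ d e s).toBlocks₂₂).map ψ)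
      (fun s => ((GB K σ d e s).toBlocks₁₂).map ψ) (g - algebraMap K (FreeAlgebra K σ) c0) *
    lo (fun s => ((GB K σ d e s).toBlocks₁₁).map ψ) (fun s => ((GB K σ d e s).toBlocks₂₂).map ψ)
      (fun s => ((GB K σ d e s).toBlocks₂₁).map ψ)
      (g - algebraMap K (FreeAlgebra K σ) c0)).trace = 0 := by
  have : Nonempty (Fin d) := ⟨⟨0, hd0⟩⟩
  obtain ⟨N, U, h1, h2⟩ := sq_dvd (fun s => ((GB K σ d e s).toBlocks₁₁).map ψ)
    (fun s => ((GB K σ d e s).toBlocks₂₂).map ψ) (fun s => ((GB K σ d e s).toBlocks₁₂).map ψ)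
    (fun s => ((GB K σ d e s).toBlocks₂₁).map ψ) (g - algebraMap K (FreeAlgebra K σ) c0)
    (transfer _ hd _) (transfer _ he _)
  have h3 := main1 (E := FractionRing (GA K σ (d + e))) (jj ψ : GA K σ (d + e) →+* k[X])
    (jj_inj ψ hψ) ((FreeAlgebra.lift K (gen K σ (d + e)) g).charpoly) hsep hodd _ N
    (algebraMap K k[X] c0) (by
      rw [charpoly_jj]
      congr 1
      rw [map_sub, AlgHom.commutes]
      exact sub_add_cancel _ _) h1
  rw [h2] at h3
  exact trace_zero_of_charpoly _ _ _ h3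

end J

theorem trace_map_mul {R S : Type*} [CommRing R] [Algebra K R] [CommRing S] [Algebra K S]
    (φ : R →ₐ[K] S) {ι κ : Type*} [Fintype ι] [Fintype κ] (P : Matrix ι κ R) (Q : Matrix κ ι R) :
    (P.map φ * Q.map φ).trace = φ (P * Q).trace := by
  rw [Matrix.trace, Matrix.trace, map_sum]
  refine Finset.sum_congr rfl fun i _ => ?_
  rw [Matrix.diag_apply, Matrix.diag_apply, Matrix.mul_apply, Matrix.mul_apply, map_sum]
  refine Finset.sum_congr rfl fun j _ => ?_
  rw [map_mul, Matrix.map_apply, Matrix.map_apply]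

/-- The trace of the product of the off-diagonal blocks vanishes over all commutative algebras. -/
theorem trace_odd [Infinite K] (hd0 : 0 < d) (g : FreeAlgebra K σ) (c0 : K)
    (hd : ∀ Y : σ → Matrix (Fin d) (Fin d) K,
      FreeAlgebra.lift K Y (g - algebraMap K (FreeAlgebra K σ) c0) = 0)
    (he : ∀ Y : σ → Matrix (Fin e) (Fin e) K,
      FreeAlgebra.lift K Y (g - algebraMap K (FreeAlgebra K σ) c0) = 0)
    (hsep : (CC (d + e) g).Separable) (hodd : ¬ 2 ∣ Nat.card (CC (d + e) g).Gal)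
    {R : Type*} [CommRing R] [Algebra K R]
    (A : σ → Matrix (Fin d) (Fin d) R) (A' : σ → Matrix (Fin e) (Fin e) R)
    (b : σ → Matrix (Fin d) (Fin e) R) (c : σ → Matrix (Fin e) (Fin d) R) :
    (up A A' b (g - algebraMap K (FreeAlgebra K σ) c0) *
      lo A A' c (g - algebraMap K (FreeAlgebra K σ) c0)).trace = 0 := by
  obtain ⟨k, i1, i2, i3⟩ := ex_frac (GA K σ (d + e))
  let aK : Algebra K k := ((algebraMap (GA K σ (d + e)) k).comp
    (algebraMap K (GA K σ (d + e)))).toAlgebra
  have tK : IsScalarTower K (GA K σ (d + e)) k := IsScalarTower.of_algebraMap_eq fun x => rfl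
  let ψ : GA K σ (d + e) →ₐ[K] k := IsScalarTower.toAlgHom K (GA K σ (d + e)) k
  have hψ : Function.Injective ψ := IsFractionRing.injective (GA K σ (d + e)) k
  have h1 := main2k ψ hd0 hψ g c0 hd he hsep hodd
  rw [← up_map, ← lo_map, trace_map_mul] at h1
  have h2 := hψ (h1.trans (map_zero ψ).symm)
  let φ : GA K σ (d + e) →ₐ[K] R := spz (fun s => Matrix.reindexAlgEquiv K R
    (finSumFinEquiv (m := d) (n := e)) (fromBlocks (A s) (b s) (c s) (A' s)))
  have h3 := congrArg φ h2
  rw [← trace_map_mul, up_map, lo_map, map_zero] at h3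
  have e1 : (fun s => ((GB K σ d e s).toBlocks₁₁).map φ) = A := by
    funext s
    ext x y
    simp [GB, toBlocks₁₁, φ, spz]
  have e2 : (fun s => ((GB K σ d e s).toBlocks₂₂).map φ) = A' := by
    funext s
    ext x y
    simp [GB, toBlocks₂₂, φ, spz]
  have e3 : (fun s => ((GB K σ d e s).toBlocks₁₂).map φ) = b := by
    funext s
    ext x y
    simp [GB, toBlocks₁₂, φ, spz]
  have e4 : (fun s => ((GB K σ d e s).toBlocks₂₁).map φ) = c := by
    funext s
    ext x y
    simp [GB, toBlocks₂₁, φ, spz]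
  rwa [e1, e2, e3, e4] at h3

end Pool.Agent.J4H41.NC
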