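import Mathlib
import Pool.Agent.J4H41.NC.Odd4
import Pool.Agent.TH82.NC.Alt

/-!
One of the two off-diagonal blocks vanishes identically if the Galois group has odd order.
-/

set_option autoImplicit false

namespace Pool.Agent.J4H41.NC

open Matrix Polynomial Pool.Agent.H552R3.PC Pool.Agent.TH82.NC
open scoped Kronecker

variable {K : Type*} [Field K] {σ : Type*} {d e : ℕ} [NeZero d] [NeZero e]

/-- One of the two off-diagonal blocks vanishes identically. -/
theorem alternative_of_trace (hco : Nat.Coprime d e) (f : FreeAlgebra K σ)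
    (htr : ∀ (b : σ → Matrix (Fin d) (Fin e) (A0 K σ d e)[X])
      (c : σ → Matrix (Fin e) (Fin d) (A0 K σ d e)[X]),
      (up (V1 K σ hco) (V2 K σ hco) b f * lo (V1 K σ hco) (V2 K σ hco) c f).trace = 0) :
    (∀ (A : σ → Matrix (Fin d) (Fin d) K) (A' : σ → Matrix (Fin e) (Fin e) K)
      (b : σ → Matrix (Fin d) (Fin e) K), up A A' b f = 0) ∨
    (∀ (A : σ → Matrix (Fin d) (Fin d) K) (A' : σ → Matrix (Fin e) (Fin e) K)
      (c : σ → Matrix (Fin e) (Fin d) K), lo A A' c f = 0) := by
  set B := Bop (K := K) (V1 K σ hco) (V2 K σ hco)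
    (fun i => C (MvPolynomial.X (i, Sum.inr (Sum.inr true)))) f with hB
  set G := Gop (K := K) (V1 K σ hco) (V2 K σ hco)
    (fun i => C (MvPolynomial.X (i, Sum.inr (Sum.inr false)))) f with hG
  have hBm : B ∈ Dm K σ d e := Bop_mem _ _ _ (V1_mem hco) (V2_mem hco) _
    (fun i => smul_mem_Dm i true) f
  have hGm : G ∈ Dm K σ d e := Gop_mem _ _ _ (V1_mem hco) (V2_mem hco) _
    (fun i => smul_mem_Dm i false) f
  have hGB : G * B = 0 := Gop_mul_Bop _ _ _ _ f fun b c => htr b c
  have h1 : matPolyEquiv G * matPolyEquiv B = 0 := by rw [← map_mul, hGB, map_zero]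
  have h2 := SP_mul (spm d e) (fun x y => ⟨_, spm_crt hco x y⟩) (t0 K σ d e) t0_inj
    ((mem_Dm G).mp hGm) ((mem_Dm B).mp hBm) h1
  rcases h2 with h3 | h3
  · -- the lower block vanishes
    right
    have hG0 : G = 0 := by
      exact (EmbeddingLike.map_eq_zero_iff
        (f := matPolyEquiv (n := Fin d × Fin e) (R := A0 K σ d e))).mp h3
    intro A A' c
    have hc : c = fun i => ∑ a : Fin e × Fin d, Matrix.single a.1 a.2 (c i a.1 a.2) := by
      funext i
      rw [Fintype.sum_prod_type]
      exact Matrix.matrix_eq_sum_single (c i)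
    rw [hc, lo_sum]
    refine Finset.sum_eq_zero fun a _ => ?_
    have h4 := lo_map (K := K) (V1 K σ hco) (V2 K σ hco) (sz A A' fun i _ => c i a.1 a.2)
      (fun i => Matrix.single a.1 a.2 (C (MvPolynomial.X (i, Sum.inr (Sum.inr false))))) f
    simp only [sz_V1, sz_V2] at h4
    have h5 : (fun i => (Matrix.single a.1 a.2 (C (MvPolynomial.X (i, Sum.inr (Sum.inr false))) :
        (A0 K σ d e)[X])).map (sz A A' fun i _ => c i a.1 a.2)) =
        fun i => Matrix.single a.1 a.2 (c i a.1 a.2) := by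
      funext i
      rw [Matrix.map_single, sz_z]
    rw [h5] at h4
    rw [← h4]
    ext x y
    rw [Matrix.map_apply, Matrix.zero_apply]
    have h6 := congrFun (congrFun hG0 (a.2, a.1)) (y, x)
    rw [hG, Gop, Matrix.of_apply, Matrix.zero_apply] at h6
    rw [h6, map_zero]
  · left
    have hB0 : B = 0 := by
      exact (EmbeddingLike.map_eq_zero_iff
        (f := matPolyEquiv (n := Fin d × Fin e) (R := A0 K σ d e))).mp h3
    intro A A' b
    have hb : b = fun i => ∑ a : Fin d × Fin e, Matrix.single a.1 a.2 (b i a.1 a.2) := by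
      funext i
      rw [Fintype.sum_prod_type]
      exact Matrix.matrix_eq_sum_single (b i)
    rw [hb, up_sum]
    refine Finset.sum_eq_zero fun a _ => ?_
    have h4 := up_map (K := K) (V1 K σ hco) (V2 K σ hco) (sz A A' fun i _ => b i a.1 a.2)
      (fun i => Matrix.single a.1 a.2 (C (MvPolynomial.X (i, Sum.inr (Sum.inr true))))) f
    simp only [sz_V1, sz_V2] at h4
    have h5 : (fun i => (Matrix.single a.1 a.2 (C (MvPolynomial.X (i, Sum.inr (Sum.inr true))) :
        (A0 K σ d e)[X])).map (sz A A' fun i _ => b i a.1 a.2)) =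
        fun i => Matrix.single a.1 a.2 (b i a.1 a.2) := by
      funext i
      rw [Matrix.map_single, sz_z]
    rw [h5] at h4
    rw [← h4]
    ext x y
    rw [Matrix.map_apply, Matrix.zero_apply]
    have h6 := congrFun (congrFun hB0 (x, y)) (a.1, a.2)
    rw [hB, Bop, Matrix.of_apply, Matrix.zero_apply] at h6
    rw [h6, map_zero]

/-- If the Galois group has odd order then `g - c` vanishes on all block upper triangular matrices
or on all block lower triangular matrices. -/
theorem alternative_odd [Infinite K] (hco : Nat.Coprime d e) (g : FreeAlgebra K σ) (c0 : K)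
    (hd : ∀ Y : σ → Matrix (Fin d) (Fin d) K,
      FreeAlgebra.lift K Y (g - algebraMap K (FreeAlgebra K σ) c0) = 0)
    (he : ∀ Y : σ → Matrix (Fin e) (Fin e) K,
      FreeAlgebra.lift K Y (g - algebraMap K (FreeAlgebra K σ) c0) = 0)
    (hsep : (CC (d + e) g).Separable) (hodd : ¬ 2 ∣ Nat.card (CC (d + e) g).Gal) :
    (∀ (A : σ → Matrix (Fin d) (Fin d) K) (A' : σ → Matrix (Fin e) (Fin e) K)
      (b : σ → Matrix (Fin d) (Fin e) K),
      up A A' b (g - algebraMap K (FreeAlgebra K σ) c0) = 0) ∨
    (∀ (A : σ → Matrix (Fin d) (Fin d) K) (A' : σ → Matrix (Fin e) (Fin e) K)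
      (c : σ → Matrix (Fin e) (Fin d) K),
      lo A A' c (g - algebraMap K (FreeAlgebra K σ) c0) = 0) :=
  alternative_of_trace hco _ fun b c =>
    trace_odd (Nat.pos_of_neZero d) g c0 hd he hsep hodd _ _ b c

end Pool.Agent.J4H41.NC
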