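import Mathlib

/-!
In characteristic `p` a polynomial over an integrally closed domain which is a `p`-th power of a
power series over the fraction field is a `p`-th power.
-/

set_option autoImplicit false

namespace Pool.Agent.J4H41.NC

open Polynomial

theorem pow_descend {R k : Type*} [CommRing R] [IsDomain R] [IsIntegrallyClosed R] [Field k]
    [Algebra R k] [IsFractionRing R k] (p : ℕ) (hp : p.Prime) (hk : (p : k) = 0)
    (c : R[X]) (φ : PowerSeries k)
    (h : φ ^ p = PowerSeries.map (algebraMap R k) (c : PowerSeries R)) :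
    ∃ q : R[X], c = q ^ p := by
  have hfact : Fact p.Prime := ⟨hp⟩
  have hck : CharP k p := (CharP.charP_iff_prime_eq_zero hp).mpr hk
  set ι := algebraMap R k with hι
  have hinj : Function.Injective ι := IsFractionRing.injective R k
  have hcs : CharP (PowerSeries k) p := (CharP.charP_iff_prime_eq_zero hp).mpr (by
    have : ((p : ℕ) : PowerSeries k) = PowerSeries.C ((p : ℕ) : k) := by
      rw [map_natCast]
    rw [this, hk, map_zero])
  set m := c.natDegree + 1 with hm
  set φ1 : k[X] := PowerSeries.trunc m φ with hφ1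
  have h1 := PowerSeries.eq_X_pow_mul_shift_add_trunc m φ
  set ψ := PowerSeries.mk fun i ↦ PowerSeries.coeff (i + m) φ with hψ
  have h2 : φ ^ p = PowerSeries.X ^ (m * p) * ψ ^ p + ((φ1 ^ p : k[X]) : PowerSeries k) := by
    conv_lhs => rw [h1]
    rw [add_pow_char, mul_pow, ← pow_mul, Polynomial.coe_pow]
  have hdeg1 : (φ1 ^ p).natDegree < m * p := by
    have h3 : φ1.natDegree < m := PowerSeries.natDegree_trunc_lt φ c.natDegree
    rw [Polynomial.natDegree_pow, mul_comm]
    exact Nat.mul_lt_mul_of_pos_right h3 hp.pos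
  have hdeg2 : (c.map ι).natDegree < m * p := by
    have h3 : (c.map ι).natDegree ≤ c.natDegree := Polynomial.natDegree_map_le
    have h4 : m * 1 ≤ m * p := Nat.mul_le_mul_left _ hp.one_le
    omega
  have h3 : c.map ι = φ1 ^ p := by
    ext1 i
    by_cases hi : i < m * p
    · have h4 := congrArg (PowerSeries.coeff i) (h2.symm.trans h)
      rw [map_add, PowerSeries.coeff_X_pow_mul', if_neg (not_le.mpr hi), zero_add,
        Polynomial.coeff_coe, PowerSeries.coeff_map, Polynomial.coeff_coe] at h4
      rw [Polynomial.coeff_map, ← h4]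
    · rw [Polynomial.coeff_eq_zero_of_natDegree_lt (by omega),
        Polynomial.coeff_eq_zero_of_natDegree_lt (by omega)]
  have h5 : ∀ i, ∃ b : R, ι b = φ1.coeff i := by
    intro i
    have h6 : (c.map ι).coeff (i * p) = (φ1.coeff i) ^ p := by
      rw [h3, ← map_frobenius_expand, Polynomial.coeff_map, Polynomial.coeff_expand_mul hp.pos,
        frobenius_def]
    rw [Polynomial.coeff_map] at h6
    have h7 : IsIntegral R (φ1.coeff i) := by
      refine IsIntegral.of_pow hp.pos ?_
      rw [← h6]
      exact isIntegral_algebraMap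
    exact IsIntegrallyClosed.isIntegral_iff.mp h7
  obtain ⟨q, hq⟩ : ∃ q : R[X], q.map ι = φ1 := by
    have h8 : φ1 ∈ Polynomial.lifts ι := by
      rw [Polynomial.lifts_iff_coeff_lifts]
      intro i
      exact h5 i
    exact (Polynomial.mem_lifts φ1).mp h8
  refine ⟨q, Polynomial.map_injective ι hinj ?_⟩
  rw [h3, Polynomial.map_pow, hq]

end Pool.Agent.J4H41.NC
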