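import Mathlib
import Pool.Agent.J4H41.NC.General
import Pool.Agent.J4H41.NC.PowDesc

/-!
A polynomial commuting with an `n`-central polynomial is constant on matrices of size `n - 1`:
fields of characteristic `n`.
-/

set_option autoImplicit false

namespace Pool.Agent.J4H41.NC

open Matrix Polynomial Pool.Agent.H552R3.PC

section Lin

variable {B : Type*} [CommRing B] [IsDomain B] {n : ℕ}

/-- The characteristic polynomial of a matrix with `(M - q) ^ p = 0`. -/
theorem charpoly_of_nil (M : Matrix (Fin n) (Fin n) B) (q : B)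
    (h : IsNilpotent (M - Matrix.scalar (Fin n) q)) :
    M.charpoly = ∏ _i : Fin n, (X - C q) := by
  have h1 := Matrix.isNilpotent_charpoly_sub_pow_of_isNilpotent h
  rw [Matrix.charpoly_sub_scalar, Fintype.card_fin] at h1
  have h2 : M.charpoly.comp (X + C q) = X ^ n := sub_eq_zero.mp h1.eq_zero
  have h3 : (M.charpoly.comp (X + C q)).comp (X - C q) = (X ^ n).comp (X - C q) := by rw [h2]
  rw [Polynomial.comp_assoc, Polynomial.add_comp, Polynomial.X_comp, Polynomial.C_comp,
    sub_add_cancel, Polynomial.comp_X, Polynomial.pow_comp, Polynomial.X_comp] at h3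
  rw [h3, Finset.prod_const, Finset.card_univ, Fintype.card_fin]

end Lin

section Main

variable {K : Type*} [Field K] {σ : Type*} {N : ℕ}

/-- The theorem for fields of characteristic `n`. -/
theorem cent_of_eq [Infinite K] (hN : 0 < N) (hp : (N + 1).Prime) (hK : ((N + 1 : ℕ) : K) = 0)
    (f g : FreeAlgebra K σ)
    (h : ∀ X : σ → Matrix (Fin (N + 1)) (Fin (N + 1)) K, ∀ Z : Matrix (Fin (N + 1)) (Fin (N + 1)) K,
      FreeAlgebra.lift K X (f ^ (N + 1)) * Z = Z * FreeAlgebra.lift K X (f ^ (N + 1)))
    (hns : ∃ X : σ → Matrix (Fin (N + 1)) (Fin (N + 1)) K,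
      ∃ Z : Matrix (Fin (N + 1)) (Fin (N + 1)) K,
      FreeAlgebra.lift K X f * Z ≠ Z * FreeAlgebra.lift K X f)
    (hfg : ∀ X : σ → Matrix (Fin (N + 1)) (Fin (N + 1)) K,
      FreeAlgebra.lift K X (f * g - g * f) = 0)
    (W0 : σ → Matrix (Fin N) (Fin N) K) :
    FreeAlgebra.lift K W0 g = Matrix.scalar (Fin N) (ct g) := by
  classical
  have : NeZero N := ⟨hN.ne'⟩
  set R := R2 K σ N with hR
  set k0 := FractionRing R with hk0
  set ι : R →+* k0 := algebraMap R k0 with hι
  have hιinj : Function.Injective ι := IsFractionRing.injective R k0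
  -- the power is scalar
  obtain ⟨c0, hc0⟩ : ∃ c0 : R[X], (FreeAlgebra.lift K (Tg K σ N) f) ^ (N + 1) =
      Matrix.scalar (Fin (N + 1)) c0 := by
    have hcomm : ∀ i j : Fin (N + 1),
        Commute (Matrix.single i j (1 : R[X])) ((FreeAlgebra.lift K (Tg K σ N) f) ^ (N + 1)) := by
      intro i j
      have e := transfer_comm (f ^ (N + 1)) (Matrix.single i j 1) (fun X => h X _) (Tg K σ N)
      have e2 : (Matrix.single i j (1 : K)).map (algebraMap K R[X]) = Matrix.single i j 1 := by
        ext1 a b
        simp only [Matrix.map_apply, Matrix.single, Matrix.of_apply]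
        split_ifs <;> simp
      rw [e2, map_pow] at e
      exact e.symm
    obtain ⟨c, hc⟩ := Matrix.mem_range_scalar_iff_commute_single'.mpr hcomm
    exact ⟨c, hc.symm⟩
  -- power series
  let j : R[X] →+* PowerSeries k0 :=
    (PowerSeries.map ι).comp (Polynomial.coeToPowerSeries.ringHom)
  have hccj : (PowerSeries.constantCoeff (R := k0)).comp j = ι.comp (evalRingHom (0 : R)) := by
    apply RingHom.ext
    intro p
    show PowerSeries.constantCoeff (PowerSeries.map ι (p : PowerSeries R)) = ι (p.eval 0)
    rw [← PowerSeries.coeff_zero_eq_constantCoeff_apply, PowerSeries.coeff_map,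
      Polynomial.coeff_coe, Polynomial.coeff_zero_eq_eval_zero]
  set F := (FreeAlgebra.lift K (Tg K σ N) f).map j with hF
  set A := (FreeAlgebra.lift K (Tg K σ N) g).map j with hA
  have hFA : F * A = A * F := by
    rw [hF, hA, ← Matrix.map_mul, ← Matrix.map_mul, ← map_mul, ← map_mul]
    have := transfer (f * g - g * f) hfg (Tg K σ N)
    rw [map_sub, sub_eq_zero] at this
    rw [this]
  have hFp : F ^ (N + 1) = Matrix.scalar (Fin (N + 1)) (j c0) := by
    rw [hF, ← RingHom.mapMatrix_apply, ← map_pow, hc0, RingHom.mapMatrix_apply]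
    ext1 a b
    by_cases hab : a = b
    · subst hab; simp
    · simp [hab]
  have hA0 : A.map (PowerSeries.constantCoeff (R := k0)) =
      (FreeAlgebra.lift K (fun s => blk (Yg K σ N s)) g).map ι := by
    have h1 : A.map (PowerSeries.constantCoeff (R := k0)) =
        ((FreeAlgebra.lift K (Tg K σ N) g).map (evalRingHom (0 : R))).map ι := by
      rw [hA, Matrix.map_map, Matrix.map_map, ← RingHom.coe_comp, ← RingHom.coe_comp, hccj]
    rw [h1, lift_hom (evalRingHom (0 : R)) (fun r => by simp [Polynomial.algebraMap_apply])]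
    congr 3
    funext s
    ext1 a b
    simp [Tg]
  set χ := (FreeAlgebra.lift K (Yg K σ N) g).charpoly with hχ
  set a : R := algebraMap K R (ct g) with ha
  have hcpA : (A.map (PowerSeries.constantCoeff (R := k0))).charpoly =
      (χ * (X - C a)).map ι := by
    rw [hA0, Matrix.charpoly_map, charpoly_blk]
  -- specialisation to the generic matrices of size `N`
  let θ : R →ₐ[K] GA K σ N := MvPolynomial.aeval (Sum.elim (fun p => MvPolynomial.X p) (fun _ => 0))
  have hθK : ∀ r : K, (θ : R →+* GA K σ N) (algebraMap K R r) = algebraMap K (GA K σ N) r :=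
    fun r => θ.commutes r
  have hY : (fun s => (Yg K σ N s).map (θ : R →+* GA K σ N)) = gen K σ N := by
    funext s
    ext1 b c
    exact MvPolynomial.aeval_X _ _
  have hθg : ∀ u : FreeAlgebra K σ, (FreeAlgebra.lift K (Yg K σ N) u).map (θ : R →+* GA K σ N) =
      FreeAlgebra.lift K (gen K σ N) u := by
    intro u
    rw [lift_hom (θ : R →+* GA K σ N) hθK, hY]
  by_cases hcase : χ.eval a = 0
  · -- constant
    have h1 : (FreeAlgebra.lift K (gen K σ N) (algebraMap K _ (ct g) - g)).det = 0 := by
      have h2 : (FreeAlgebra.lift K (Yg K σ N) (algebraMap K _ (ct g) - g)).det = 0 := by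
        rw [← hcase, hχ, Matrix.eval_charpoly]
        congr 1
        rw [map_sub, AlgHom.commutes]
        congr 1
      rw [← hθg, ← RingHom.mapMatrix_apply, ← RingHom.map_det, h2, map_zero]
    have h4 := zero_of_det _ h1
    rw [map_sub, AlgHom.commutes, sub_eq_zero] at h4
    have h5 : FreeAlgebra.lift K (gen K σ N) g =
        Matrix.scalar (Fin N) (algebraMap K (GA K σ N) (ct g)) := by
      rw [← h4]; rfl
    rw [scalar_of_gen h5 W0]
    congr 1
    rw [AlgHom.commutes]
    rfl
  · exfalso
    have h0 : (A.map (PowerSeries.constantCoeff (R := k0))).charpoly.eval (ι a) = 0 := by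
      rw [hcpA, Polynomial.eval_map_apply, eval_mul, eval_sub, eval_X, eval_C, sub_self, mul_zero,
        map_zero]
    have h1 : (A.map (PowerSeries.constantCoeff (R := k0))).charpoly.derivative.eval (ι a) ≠ 0 := by
      rw [hcpA, Polynomial.derivative_map, Polynomial.eval_map_apply, derivative_mul, eval_add,
        eval_mul, eval_mul, eval_sub, eval_X, eval_C, sub_self, mul_zero, zero_add, derivative_sub,
        derivative_X, derivative_C, sub_zero, eval_one, mul_one]
      exact (map_ne_zero_iff ι hιinj).mpr hcase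
    rw [Matrix.charpoly_map] at h0 h1
    obtain ⟨α, hα, hαa⟩ := hensel_root A.charpoly (Matrix.charpoly_monic A) (ι a) h0 h1
    have hα1 : A.charpoly.derivative.eval α ≠ 0 := by
      intro h
      apply h1
      rw [Polynomial.derivative_map, ← hαa, Polynomial.eval_map_apply, h, map_zero]
    set L := FractionRing (PowerSeries k0) with hL
    set κ : PowerSeries k0 →+* L := algebraMap (PowerSeries k0) L with hκ
    have hinj : Function.Injective κ := IsFractionRing.injective (PowerSeries k0) L
    have hFA' : F.map κ * A.map κ = A.map κ * F.map κ := by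
      have := congrArg (fun M : Matrix (Fin (N + 1)) (Fin (N + 1)) (PowerSeries k0) => M.map κ) hFA
      simp only [Matrix.map_mul] at this
      exact this
    obtain ⟨φ, hφ⟩ := common_eigen (F.map κ) (A.map κ) hFA' (κ α)
      (by
        rw [Matrix.charpoly_map, Polynomial.IsRoot, Polynomial.eval_map_apply, hα, map_zero])
      (by
        rw [Matrix.charpoly_map, Polynomial.derivative_map, Polynomial.eval_map_apply]
        exact (map_ne_zero_iff κ hinj).mpr hα1)
    obtain ⟨v, hv0, hv⟩ := eigenvector_of_root _ hφ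
    have hvp : ∀ i : ℕ, ((F.map κ) ^ i).mulVec v = φ ^ i • v := by
      intro i
      induction i with
      | zero => simp
      | succ i ih =>
        rw [pow_succ, ← Matrix.mulVec_mulVec, hv, Matrix.mulVec_smul, ih, smul_smul, pow_succ,
          mul_comm]
    have hφp : φ ^ (N + 1) = κ (j c0) := by
      have e1 := hvp (N + 1)
      have e2 : (F.map κ) ^ (N + 1) = Matrix.scalar (Fin (N + 1)) (κ (j c0)) := by
        rw [← RingHom.mapMatrix_apply, ← map_pow, hFp, RingHom.mapMatrix_apply]
        ext1 a b
        by_cases hab : a = b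
        · subst hab; simp
        · simp [hab]
      rw [e2] at e1
      obtain ⟨i, hi⟩ := Function.ne_iff.mp hv0
      have e3 := congrFun e1 i
      rw [Matrix.scalar_apply, Matrix.mulVec_diagonal, Pi.smul_apply, smul_eq_mul] at e3
      exact (mul_right_cancel₀ hi e3).symm
    have hint : IsIntegral (PowerSeries k0) φ := by
      refine IsIntegral.of_pow (Nat.succ_pos N) ?_
      rw [hφp]
      exact isIntegral_algebraMap
    obtain ⟨φ0, hφ0⟩ := IsIntegrallyClosed.isIntegral_iff.mp hint
    have hφ0p : φ0 ^ (N + 1) = j c0 := by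
      apply hinj
      rw [map_pow, hφ0, hφp]
    have hk0 : ((N + 1 : ℕ) : k0) = 0 := by
      have := congrArg (algebraMap K k0) hK
      rwa [map_natCast, map_zero] at this
    obtain ⟨q, hq⟩ := pow_descend (N + 1) hp hk0 c0 φ0 hφ0p
    -- nilpotency
    have hfact : Fact (N + 1).Prime := ⟨hp⟩
    have hKc : CharP R[X] (N + 1) := (CharP.charP_iff_prime_eq_zero hp).mpr (by
      have := congrArg (algebraMap K R[X]) hK
      rwa [map_natCast, map_zero] at this)
    have hnil : ((FreeAlgebra.lift K (Tg K σ N) f) - Matrix.scalar (Fin (N + 1)) q) ^ (N + 1) =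
        0 := by
      rw [sub_pow_char_of_commute, hc0, hq, ← map_pow, sub_self]
      exact (Matrix.scalar_commute q (fun _ => Commute.all _ _) _).symm
    let θ' : R →ₐ[K] GA K σ (N + 1) :=
      MvPolynomial.aeval (Sum.elim (fun _ => 0) (fun p => MvPolynomial.X p))
    let e : R[X] →+* GA K σ (N + 1) := (θ' : R →+* GA K σ (N + 1)).comp (evalRingHom (1 : R))
    have heK : ∀ r : K, e (algebraMap K R[X] r) = algebraMap K (GA K σ (N + 1)) r := by
      intro r
      show θ' (((algebraMap K R[X] r)).eval 1) = _
      rw [Polynomial.algebraMap_apply, Polynomial.eval_C]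
      exact θ'.commutes r
    have hT : (fun s => (Tg K σ N s).map e) = gen K σ (N + 1) := by
      funext s
      ext1 a b
      have h1 : (blk (Yg K σ N s)).map (θ' : R →+* GA K σ (N + 1)) = 0 := by
        rw [blk_map]
        have : (Yg K σ N s).map (θ' : R →+* GA K σ (N + 1)) = 0 := by
          ext1 j k
          exact MvPolynomial.aeval_X _ _
        rw [this]
        unfold blk
        ext1 j k
        simp
      have h2 := congrFun (congrFun h1 a) b
      simp only [Matrix.map_apply, Matrix.zero_apply] at h2
      simp only [Tg, Matrix.map_apply, Matrix.add_apply, Matrix.smul_apply, smul_eq_mul, e,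
        RingHom.comp_apply, coe_evalRingHom, eval_add, eval_mul, eval_C, eval_X, one_mul, map_add]
      rw [h2, zero_add]
      exact MvPolynomial.aeval_X _ _
    have h3 := lift_hom e heK (Tg K σ N) f
    rw [hT] at h3
    have hnil2 : IsNilpotent (FreeAlgebra.lift K (gen K σ (N + 1)) f -
        Matrix.scalar (Fin (N + 1)) (e q)) := by
      refine ⟨N + 1, ?_⟩
      have h4 := congrArg (RingHom.mapMatrix (m := Fin (N + 1)) e) hnil
      rw [map_pow, map_sub, map_zero, RingHom.mapMatrix_apply, h3] at h4
      have h5 : (RingHom.mapMatrix (m := Fin (N + 1)) e) (Matrix.scalar (Fin (N + 1)) q) =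
          Matrix.scalar (Fin (N + 1)) (e q) := by
        rw [RingHom.mapMatrix_apply]
        ext1 a b
        by_cases hab : a = b
        · subst hab; simp
        · simp [hab]
      rw [h5] at h4
      exact h4
    obtain ⟨r, hr⟩ := scalar_of_splits f (fun _ => e q) (charpoly_of_nil _ _ hnil2)
    obtain ⟨X0, Z0, hXZ⟩ := hns
    apply hXZ
    rw [scalar_of_gen hr X0]
    exact (Matrix.scalar_commute _ (fun _ => Commute.all _ _) Z0).eq

end Main

end Pool.Agent.J4H41.NC
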