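import Mathlib

/-!
Decomposition groups: if an irreducible separable polynomial divides the reduction of `χ`, then its
degree divides the order of the Galois group of any finite Galois extension over which `χ` splits.
-/

set_option autoImplicit false

namespace Pool.Agent.J4H41.NC

open Polynomial

universe u

theorem specc0 {A B : Type u} [CommRing A] [CommRing B] [Algebra A B] (G : Type u)
    [Group G] [Finite G] [MulSemiringAction G B] [SMulCommClass G A B] [Algebra.IsInvariant A B G]
    (P : Ideal A) (Q : Ideal B) [P.IsPrime] [Q.IsPrime] [Q.LiesOver P]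
    (E' : Type u) [Field E'] [Algebra (A ⧸ P) E'] [IsFractionRing (A ⧸ P) E'] :
    ∃ (L : Type u) (_ : Field L) (_ : Algebra E' L) (_ : Normal E' L) (π : B →+* L),
      (∀ a : A, π (algebraMap A B a) =
        algebraMap E' L (algebraMap (A ⧸ P) E' (Ideal.Quotient.mk P a))) ∧
      Finite (L ≃ₐ[E'] L) ∧ Nat.card (L ≃ₐ[E'] L) ∣ Nat.card G := by
  let L := FractionRing (B ⧸ Q)
  have i1 : Function.Injective (algebraMap (A ⧸ P) L) := by
    rw [IsScalarTower.algebraMap_eq (A ⧸ P) (B ⧸ Q) L]
    exact (IsFractionRing.injective (B ⧸ Q) L).comp (FaithfulSMul.algebraMap_injective _ _)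
  letI a2 : Algebra E' L := (IsFractionRing.lift i1 : E' →+* L).toAlgebra
  have t2 : IsScalarTower (A ⧸ P) E' L := by
    apply IsScalarTower.of_algebraMap_eq
    intro x
    exact (IsFractionRing.lift_algebraMap i1 x).symm
  have hn : Normal E' L := Ideal.IsFractionRing.normal G P Q E' L
  have hsurj := IsFractionRing.stabilizerHom_surjective G P Q E' L
  refine ⟨L, inferInstance, a2, hn, (algebraMap (B ⧸ Q) L).comp (Ideal.Quotient.mk Q), ?_, ?_, ?_⟩
  · intro a
    rw [← IsScalarTower.algebraMap_apply (A ⧸ P) E' L, IsScalarTower.algebraMap_apply (A ⧸ P)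
      (B ⧸ Q) L]
    rfl
  · exact Finite.of_surjective _ hsurj
  · exact (Subgroup.card_dvd_of_surjective _ hsurj).trans
      (Subgroup.card_subgroup_dvd_card _)

theorem specc1 {A B A' E E' Ω : Type u} [CommRing A] [IsDomain A] [IsIntegrallyClosed A]
    [CommRing B] [IsDomain B] [Algebra A B] [Field E] [Algebra A E] [IsFractionRing A E]
    [Field Ω] [Algebra E Ω] [Algebra A Ω] [IsScalarTower A E Ω] [Algebra B Ω]
    [IsScalarTower A B Ω] [IsFractionRing B Ω] [IsIntegralClosure B A Ω]
    [FiniteDimensional E Ω] [IsGalois E Ω] [CommRing A'] [IsDomain A'] [Field E']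
    [Algebra A' E'] [IsFractionRing A' E'] (φ : A →+* A') (hφ : Function.Surjective φ) :
    ∃ (L : Type u) (_ : Field L) (_ : Algebra E' L) (_ : Normal E' L) (π : B →+* L),
      (∀ a : A, π (algebraMap A B a) = algebraMap E' L (algebraMap A' E' (φ a))) ∧
      Finite (L ≃ₐ[E'] L) ∧ Nat.card (L ≃ₐ[E'] L) ∣ Nat.card (Ω ≃ₐ[E] Ω) := by
  have hinv : Algebra.IsInvariant A B (B ≃ₐ[A] B) := Algebra.isInvariant_of_isGalois' A E Ω B
  have hfin : Finite (B ≃ₐ[A] B) := Finite.of_equiv _ (galRestrict A E Ω B).toEquiv
  have hP : (RingHom.ker φ).IsPrime := RingHom.ker_isPrime φ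
  have hBinj : Function.Injective (algebraMap B Ω) := IsFractionRing.injective B Ω
  have hAinj : Function.Injective (algebraMap A Ω) := by
    rw [IsScalarTower.algebraMap_eq A E Ω]
    exact (algebraMap E Ω).injective.comp (IsFractionRing.injective A E)
  have hABinj : Function.Injective (algebraMap A B) := by
    intro x y hxy
    apply hAinj
    rw [IsScalarTower.algebraMap_apply A B Ω, IsScalarTower.algebraMap_apply A B Ω, hxy]
  have hfaith : FaithfulSMul A B := (faithfulSMul_iff_algebraMap_injective A B).mpr hABinj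
  have hint : Algebra.IsIntegral A B := Algebra.IsInvariant.isIntegral A B (B ≃ₐ[A] B)
  obtain ⟨⟨Q, hQp, hQo⟩⟩ := Ideal.nonempty_primesOver (S := B) (RingHom.ker φ)
  let eP : A ⧸ (RingHom.ker φ) ≃+* A' := RingHom.quotientKerEquivOfSurjective hφ
  letI a1 : Algebra (A ⧸ (RingHom.ker φ)) E' :=
    ((algebraMap A' E').comp (eP : A ⧸ (RingHom.ker φ) →+* A')).toAlgebra
  have f1 : IsFractionRing (A ⧸ (RingHom.ker φ)) E' :=
    IsFractionRing.of_ringEquiv_left eP (fun x => rfl)
  obtain ⟨L, hL, hEL, hN, π, h1, h2, h3⟩ := specc0 (B ≃ₐ[A] B) (RingHom.ker φ) Q E'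
  refine ⟨L, hL, hEL, hN, π, ?_, h2, ?_⟩
  · intro a
    rw [h1]
    rfl
  · rw [Nat.card_congr (galRestrict A E Ω B).toEquiv]
    exact h3

/-- In a normal extension the degree of an irreducible separable polynomial with a root divides the
order of the automorphism group. -/
theorem natDegree_dvd_card {E L : Type u} [Field E] [Field L] [Algebra E L] [Normal E L]
    [Finite (L ≃ₐ[E] L)] (μ : E[X]) (hμ : Irreducible μ) (hs : μ.Separable)
    (hspl : (μ.map (algebraMap E L)).Splits) : μ.natDegree ∣ Nat.card (L ≃ₐ[E] L) := by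
  classical
  have hdeg : (μ.map (algebraMap E L)).degree ≠ 0 := by
    rw [degree_map]
    exact (degree_pos_of_irreducible hμ).ne'
  obtain ⟨x, hx⟩ := hspl.exists_eval_eq_zero hdeg
  rw [Polynomial.eval_map_algebraMap] at hx
  have horb : MulAction.orbit (L ≃ₐ[E] L) x = μ.rootSet L := by
    ext y
    rw [← Normal.minpoly_eq_iff_mem_orbit, mem_rootSet]
    have h1 := minpoly.eq_of_irreducible hμ hx
    constructor
    · intro h
      refine ⟨hμ.ne_zero, ?_⟩
      have h2 := minpoly.aeval E y
      rw [h, ← h1, map_mul, aeval_C] at h2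
      rcases mul_eq_zero.mp h2 with h3 | h3
      · exact h3
      · exfalso
        rw [map_eq_zero, inv_eq_zero, leadingCoeff_eq_zero] at h3
        exact hμ.ne_zero h3
    · rintro ⟨_, h⟩
      rw [← h1, ← minpoly.eq_of_irreducible hμ h]
  have h2 := (MulAction.stabilizer (L ≃ₐ[E] L) x).index_dvd_card
  rw [MulAction.index_stabilizer, horb] at h2
  have h3 : (μ.rootSet L).ncard = μ.natDegree := by
    rw [← Nat.card_coe_set_eq, Nat.card_eq_fintype_card,
      Polynomial.card_rootSet_eq_natDegree hs hspl]
  rwa [h3] at h2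

theorem dc {A A' E E' Ω : Type u} [CommRing A] [IsDomain A] [IsIntegrallyClosed A]
    [CommRing A'] [IsDomain A'] [Field E] [Algebra A E] [IsFractionRing A E]
    [Field Ω] [Algebra E Ω] [Algebra A Ω] [IsScalarTower A E Ω] [FiniteDimensional E Ω]
    [IsGalois E Ω] [Field E'] [Algebra A' E'] [IsFractionRing A' E']
    (φ : A →+* A') (hφ : Function.Surjective φ) (χ : A[X]) (hχ : χ.Monic)
    (hspl : (χ.map (algebraMap A Ω)).Splits)
    (μ : E'[X]) (hμ : Irreducible μ) (hμs : μ.Separable)
    (hdvd : μ ∣ (χ.map φ).map (algebraMap A' E')) :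
    μ.natDegree ∣ Nat.card (Ω ≃ₐ[E] Ω) := by
  classical
  have hfr : IsFractionRing (integralClosure A Ω) Ω :=
    integralClosure.isFractionRing_of_finite_extension E Ω
  obtain ⟨L, hL, hEL, hN, π, h1, hfin, hcard⟩ := specc1 (B := integralClosure A Ω) (E := E)
    (Ω := Ω) (E' := E') φ hφ
  set f : Polynomial Ω := χ.map (algebraMap A Ω) with hf
  have hfm : f.Monic := hχ.map _
  have hroot : ∀ x, f.IsRoot x → x ∈ integralClosure A Ω := by
    intro x hx
    refine ⟨χ, hχ, ?_⟩
    rw [← Polynomial.eval_map]
    exact hx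
  let s : Multiset (integralClosure A Ω) :=
    f.roots.pmap (fun x hx => (⟨x, hx⟩ : integralClosure A Ω))
      (fun x hx => hroot x (Polynomial.isRoot_of_mem_roots hx))
  have hs : s.map (algebraMap (integralClosure A Ω) Ω) = f.roots := by
    rw [Multiset.map_pmap]
    conv_rhs => rw [← Multiset.map_id f.roots, ← Multiset.pmap_eq_map (fun _ => True) id f.roots
      (fun _ _ => trivial)]
    exact Multiset.pmap_congr _ (fun _ _ _ _ => rfl)
  have hBinj : Function.Injective (algebraMap (integralClosure A Ω) Ω) := Subtype.val_injective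
  have hB : χ.map (algebraMap A (integralClosure A Ω)) = (s.map fun b => X - C b).prod := by
    apply Polynomial.map_injective _ hBinj
    rw [Polynomial.map_map, Polynomial.map_multiset_prod, Multiset.map_map,
      ← IsScalarTower.algebraMap_eq]
    have h3 : (s.map (Polynomial.map (algebraMap (integralClosure A Ω) Ω) ∘
        fun b => (X - C b : Polynomial (integralClosure A Ω)))) =
        (s.map (algebraMap (integralClosure A Ω) Ω)).map (fun y => (X - C y : Polynomial Ω)) := by
      rw [Multiset.map_map]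
      apply Multiset.map_congr rfl
      intro b _
      simp
    rw [h3, hs]
    exact hspl.eq_prod_roots_of_monic hfm
  set F : Polynomial L := ((χ.map φ).map (algebraMap A' E')).map (algebraMap E' L) with hF
  have hFm : F.Monic := ((hχ.map _).map _).map _
  have hFB : F = ((s.map fun b => (X - C b : Polynomial (integralClosure A Ω))).prod).map π := by
    rw [← hB, Polynomial.map_map, hF, Polynomial.map_map, Polynomial.map_map]
    congr 1
    ext a
    exact (h1 a).symm
  have h5 : ((s.map fun b => (X - C b : Polynomial (integralClosure A Ω))).prod).Splits := by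
    apply Splits.multisetProd
    intro h hh
    obtain ⟨b, _, rfl⟩ := Multiset.mem_map.mp hh
    exact Splits.X_sub_C b
  have h6 : F.Splits := by
    rw [hFB]
    exact h5.map π
  have h7 : (μ.map (algebraMap E' L)).Splits :=
    h6.of_dvd hFm.ne_zero (Polynomial.map_dvd _ hdvd)
  exact (natDegree_dvd_card μ hμ hμs h7).trans hcard

end Pool.Agent.J4H41.NC
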