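import Mathlib
import Pool.Agent.J4H41.NC.Dc
import Pool.Agent.J4H41.NC.Ind

/-!
If `m` is coprime to the order of the Galois group of the characteristic polynomial of `g` at
generic `n × n` matrices, `n ≥ m`, then `g` is scalar valued on `m × m` matrices.
-/

set_option autoImplicit false

namespace Pool.Agent.J4H41.NC

open Matrix Polynomial Pool.Agent.H552R3.PC

variable {K : Type*} [Field K] {σ : Type*}

theorem phi_chain (g : FreeAlgebra K σ) (m n : ℕ) (hmn : m ≤ n) :
    ∃ φ : GA K σ n →ₐ[K] GA K σ m, Function.Surjective φ ∧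
      ((FreeAlgebra.lift K (gen K σ n) g).charpoly).map (φ : GA K σ n →+* GA K σ m) =
        (FreeAlgebra.lift K (gen K σ m) g).charpoly *
          (X - C (algebraMap K (GA K σ m) (ct g))) ^ (n - m) := by
  induction n, hmn using Nat.le_induction with
  | base =>
    refine ⟨AlgHom.id K _, Function.surjective_id, ?_⟩
    rw [Nat.sub_self, pow_zero, mul_one]
    exact Polynomial.map_id
  | succ n hn ih =>
    obtain ⟨φ, hφ, h⟩ := ih
    refine ⟨φ.comp (phi K σ n), hφ.comp (phi_surj n), ?_⟩
    have h1 : ((φ.comp (phi K σ n) : GA K σ (n + 1) →ₐ[K] GA K σ m) :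
        GA K σ (n + 1) →+* GA K σ m) =
        (φ : GA K σ n →+* GA K σ m).comp (phi K σ n : GA K σ (n + 1) →+* GA K σ n) := rfl
    rw [h1, ← Polynomial.map_map, map_phi, Polynomial.map_mul, h, Polynomial.map_sub,
      map_X, map_C]
    have h2 : (φ : GA K σ n →+* GA K σ m) (algebraMap K (GA K σ n) (ct g)) =
        algebraMap K (GA K σ m) (ct g) := φ.commutes _
    rw [h2, mul_assoc, ← pow_succ]
    congr 2
    omega

theorem exists_mu {m : ℕ} [NeZero m] (g : FreeAlgebra K σ) (hmK : (m : K) ≠ 0)
    (hns : ¬ ∃ r : GA K σ m, FreeAlgebra.lift K (gen K σ m) g = Matrix.scalar (Fin m) r) :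
    ∃ (μ : (FractionRing (GA K σ m))[X]) (k : ℕ), Irreducible μ ∧ μ.Separable ∧
      1 < μ.natDegree ∧ μ.natDegree ∣ m ∧ 0 < k ∧ CC m g = μ ^ k := by
  classical
  obtain ⟨μ, k, hμm, hμi, hk0, hμk⟩ := pow_irr (N := m) g
  have hdeg : k * μ.natDegree = m := by
    rw [← hμm.natDegree_pow, ← hμk, Matrix.charpoly_natDegree_eq_dim, Fintype.card_fin]
  have hm0 : m ≠ 0 := NeZero.ne m
  have hd0 : μ.natDegree ≠ 0 := by
    intro h; rw [h, mul_zero] at hdeg; exact hm0 hdeg.symm
  have hd1 : μ.natDegree ≠ 1 := by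
    intro h1
    apply hns
    have h2 : μ = X - C (-(μ.coeff 0)) := by
      rw [map_neg, sub_neg_eq_add]
      exact hμm.eq_X_add_C h1
    apply scalar_of_splits g (fun _ => -(μ.coeff 0))
    have hk : k = m := by rw [h1, mul_one] at hdeg; exact hdeg
    rw [hμk, hk, Finset.prod_const, Finset.card_univ, Fintype.card_fin, ← h2]
  have hiE : Irreducible (μ.map (algebraMap (GA K σ m) (FractionRing (GA K σ m)))) :=
    (Polynomial.Monic.irreducible_iff_irreducible_map_fraction_map hμm).mp hμi
  have hdE : (μ.map (algebraMap (GA K σ m) (FractionRing (GA K σ m)))).natDegree =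
      μ.natDegree := hμm.natDegree_map _
  have hdK : (μ.natDegree : K) ≠ 0 := by
    intro h
    apply hmK
    rw [← hdeg, Nat.cast_mul, h, mul_zero]
  refine ⟨μ.map (algebraMap (GA K σ m) (FractionRing (GA K σ m))), k, hiE, ?_, ?_, ?_, hk0, ?_⟩
  · rw [separable_iff_derivative_ne_zero hiE]
    intro h
    have h1 := congrArg (fun p : (FractionRing (GA K σ m))[X] => p.coeff (μ.natDegree - 1)) h
    simp only [coeff_derivative, coeff_zero] at h1
    have h2 : μ.natDegree - 1 + 1 = μ.natDegree := by omega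
    rw [h2, ← hdE, (hμm.map _).coeff_natDegree, one_mul] at h1
    rw [hdE] at h1
    apply hdK
    apply (algebraMap K (FractionRing (GA K σ m))).injective
    rw [map_zero, map_natCast, ← h1, Nat.cast_sub (by omega : 1 ≤ μ.natDegree)]
    push_cast
    ring
  · rw [hdE]; omega
  · rw [hdE]; exact Dvd.intro_left k hdeg
  · rw [CC, hμk, Polynomial.map_pow]

theorem sep_irr {m n : ℕ} [NeZero m] (hmn : m < n) (g : FreeAlgebra K σ) (hmK : (m : K) ≠ 0)
    (hns : ¬ ∃ r : GA K σ m, FreeAlgebra.lift K (gen K σ m) g = Matrix.scalar (Fin m) r)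
    (hi : Irreducible (CC n g)) : (CC n g).Separable := by
  classical
  by_contra hsep
  rw [separable_iff_derivative_ne_zero hi, not_not] at hsep
  set χ := (FreeAlgebra.lift K (gen K σ n) g).charpoly with hχ
  have hχm : χ.Monic := Matrix.charpoly_monic _
  have hχd : χ.natDegree = n := by
    rw [hχ, Matrix.charpoly_natDegree_eq_dim, Fintype.card_fin]
  have hd : derivative χ = 0 := by
    apply Polynomial.map_injective _ (IsFractionRing.injective (GA K σ n)
      (FractionRing (GA K σ n)))
    rw [← Polynomial.derivative_map, Polynomial.map_zero]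
    exact hsep
  obtain ⟨φ, _, hφ⟩ := phi_chain g m n hmn.le
  obtain ⟨i, hi'⟩ : ∃ i, n - m = i + 1 := ⟨n - m - 1, by omega⟩
  by_cases hj : ((i + 1 : ℕ) : K) = 0
  · have hnK : (n : K) ≠ 0 := by
      have : n = m + (i + 1) := by omega
      rw [this, Nat.cast_add m (i + 1), hj, add_zero]
      exact hmK
    have h1 := congrArg (fun p : (GA K σ n)[X] => p.coeff (n - 1)) hd
    simp only [coeff_derivative, coeff_zero] at h1
    have h2 : n - 1 + 1 = n := by omega
    have h3 : χ.coeff n = 1 := by
      have := hχm.coeff_natDegree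
      rwa [hχd] at this
    rw [h2, h3, one_mul] at h1
    apply hnK
    apply (algebraMap K (GA K σ n)).injective
    rw [map_zero, map_natCast, ← h1, Nat.cast_sub (by omega : 1 ≤ n)]
    push_cast
    ring
  · have h1 : derivative (χ.map (φ : GA K σ n →+* GA K σ m)) = 0 := by
      rw [Polynomial.derivative_map, hd, Polynomial.map_zero]
    rw [hχ, hφ, hi', derivative_mul, derivative_X_sub_C_pow, Nat.add_sub_cancel] at h1
    set c : GA K σ m := algebraMap K (GA K σ m) (ct g) with hc
    set f := (FreeAlgebra.lift K (gen K σ m) g).charpoly with hf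
    have h2 : (X - C c) ^ i * (derivative f * (X - C c) + f * C (((i + 1 : ℕ) : GA K σ m))) = 0 := by
      rw [← h1, pow_succ]
      ring
    have h3 : derivative f * (X - C c) + f * C (((i + 1 : ℕ) : GA K σ m)) = 0 := by
      rcases mul_eq_zero.mp h2 with h | h
      · exact absurd h (pow_ne_zero _ (X_sub_C_ne_zero c))
      · exact h
    have h4 := congrArg (Polynomial.eval c) h3
    rw [eval_add, eval_mul, eval_mul, eval_sub, eval_X, eval_C, sub_self, mul_zero, zero_add,
      eval_C, eval_zero] at h4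
    have h5 : f.eval c = 0 := by
      rcases mul_eq_zero.mp h4 with h | h
      · exact h
      · exfalso
        apply hj
        apply (algebraMap K (GA K σ m)).injective
        rw [map_natCast, map_zero]
        exact h
    obtain ⟨μ, k, h6, _, h7, _, h8, h9⟩ := exists_mu g hmK hns
    have h10 : (CC m g).IsRoot (algebraMap (GA K σ m) (FractionRing (GA K σ m)) c) := by
      rw [IsRoot.def, CC, Polynomial.eval_map_algebraMap, Polynomial.aeval_algebraMap_apply,
        Polynomial.coe_aeval_eq_eval, h5, map_zero]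
    rw [h9, IsRoot.def, eval_pow] at h10
    have h11 := (pow_eq_zero_iff h8.ne').mp h10
    have h12 : μ.natDegree = 1 := Polynomial.natDegree_eq_of_degree_eq_some
          (degree_eq_one_of_irreducible_of_root h6 h11)
    omega

/-- The degree of the irreducible factor at size `m` divides the order of the Galois group at each
size `n ≥ m` at which the characteristic polynomial is separable. -/
theorem not_coprime {m n : ℕ} [NeZero m] (hmn : m ≤ n) (g : FreeAlgebra K σ) (hmK : (m : K) ≠ 0)
    (hns : ¬ ∃ r : GA K σ m, FreeAlgebra.lift K (gen K σ m) g = Matrix.scalar (Fin m) r)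
    (hs : (CC n g).Separable) :
    ∃ d : ℕ, 1 < d ∧ d ∣ m ∧ d ∣ Nat.card (CC n g).Gal := by
  obtain ⟨μ, k, h1, h2, h3, h4, h5, h6⟩ := exists_mu g hmK hns
  obtain ⟨φ, hφs, hφ⟩ := phi_chain g m n hmn
  refine ⟨μ.natDegree, h3, h4, ?_⟩
  have hgal : IsGalois (FractionRing (GA K σ n)) (CC n g).SplittingField :=
    IsGalois.of_separable_splitting_field hs
  refine dc (E := FractionRing (GA K σ n)) (Ω := (CC n g).SplittingField)
    (E' := FractionRing (GA K σ m)) (φ : GA K σ n →+* GA K σ m) hφs
    (FreeAlgebra.lift K (gen K σ n) g).charpoly (Matrix.charpoly_monic _) ?_ μ h1 h2 ?_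
  · have h7 := IsSplittingField.splits (CC n g).SplittingField (CC n g)
    unfold CC at h7 ⊢
    rw [Polynomial.map_map, ← IsScalarTower.algebraMap_eq] at h7
    exact h7
  · rw [hφ, Polynomial.map_mul]
    apply Dvd.dvd.mul_right
    change μ ∣ CC m g
    rw [h6]
    exact dvd_pow_self μ h5.ne'

/-- For prime `n` and solvable Galois group: `g` is scalar valued on `M_m(K)` for all `m < n`
coprime to `n - 1`. -/
theorem solv_scalar {m n : ℕ} [NeZero m] [NeZero n] (hn : n.Prime) (hmn : m < n)
    (g : FreeAlgebra K σ) (hmK : (m : K) ≠ 0)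
    (hns : ¬ ∃ r : GA K σ m, FreeAlgebra.lift K (gen K σ m) g = Matrix.scalar (Fin m) r)
    (hnsn : ¬ ∃ r : GA K σ n, FreeAlgebra.lift K (gen K σ n) g = Matrix.scalar (Fin n) r)
    (hsol : Group.IsSolvable (CC n g).Gal) : ¬ m.Coprime (n - 1) := by
  intro hcop
  have hirr := (irr_or_scalar hn g).resolve_left hnsn
  have hi : Irreducible (CC n g) :=
    (Polynomial.Monic.irreducible_iff_irreducible_map_fraction_map
      (Matrix.charpoly_monic _)).mp hirr
  have hs := sep_irr hmn g hmK hns hi
  have hnd : (CC n g).natDegree = n := by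
    unfold CC
    rw [(Matrix.charpoly_monic _).natDegree_map, Matrix.charpoly_natDegree_eq_dim,
      Fintype.card_fin]
  obtain ⟨d, h1, h2, h3⟩ := not_coprime hmn.le g hmK hns hs
  obtain ⟨l, hl, hld⟩ := Nat.exists_prime_and_dvd (by omega : d ≠ 1)
  have hlm : l ≤ m := Nat.le_of_dvd (Nat.pos_of_ne_zero (NeZero.ne m)) (hld.trans h2)
  have h4 := dvd_of_solvable (CC n g) hi hs (by rwa [hnd]) hsol l hl (by rw [hnd]; omega)
    (hld.trans h3)
  rw [hnd] at h4
  exact hl.one_lt.ne' (Nat.eq_one_of_dvd_coprimes hcop (hld.trans h2) h4)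

end Pool.Agent.J4H41.NC
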