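import Mathlib
import Pool.Agent.J4H41.NC.Cent

/-!
A criterion for a polynomial to be scalar valued on matrices of size `N`, through its behaviour
near block diagonal matrices of size `N + 1`.
-/

set_option autoImplicit false

namespace Pool.Agent.J4H41.NC

open Matrix Polynomial Pool.Agent.H552R3.PC

variable {K : Type*} [Field K] {σ : Type*} {N : ℕ}

/-- The field of rational functions in the coordinates. -/
abbrev K0 (K : Type*) [Field K] (σ : Type*) (N : ℕ) := FractionRing (R2 K σ N)

/-- From polynomials in `t` to power series over the fraction field. -/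
noncomputable def jm (K : Type*) [Field K] (σ : Type*) (N : ℕ) :
    (R2 K σ N)[X] →+* PowerSeries (K0 K σ N) :=
  (PowerSeries.map (algebraMap (R2 K σ N) (K0 K σ N))).comp (Polynomial.coeToPowerSeries.ringHom)

theorem jm_inj (K : Type*) [Field K] (σ : Type*) (N : ℕ) : Function.Injective (jm K σ N) := by
  intro p q hpq
  have h1 : PowerSeries.map (algebraMap (R2 K σ N) (K0 K σ N)) (p : PowerSeries (R2 K σ N)) =
    PowerSeries.map (algebraMap (R2 K σ N) (K0 K σ N)) (q : PowerSeries (R2 K σ N)) := hpq
  have h2 : (p : PowerSeries (R2 K σ N)) = (q : PowerSeries (R2 K σ N)) := by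
    refine PowerSeries.ext fun i => ?_
    have h3 := congrArg (PowerSeries.coeff i) h1
    rw [PowerSeries.coeff_map, PowerSeries.coeff_map] at h3
    exact IsFractionRing.injective (R2 K σ N) (K0 K σ N) h3
  exact Polynomial.coe_injective (R2 K σ N) h2

/-- The field of Laurent series. -/
abbrev LL (K : Type*) [Field K] (σ : Type*) (N : ℕ) := FractionRing (PowerSeries (K0 K σ N))

theorem crit (hN : 0 < N) (g : FreeAlgebra K σ)
    (h : ∀ α : PowerSeries (K0 K σ N),
      (((FreeAlgebra.lift K (Tg K σ N) g).map (jm K σ N)).charpoly).eval α = 0 →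
      (((FreeAlgebra.lift K (Tg K σ N) g).map (jm K σ N)).charpoly).derivative.eval α ≠ 0 →
      ∃ β : Fin (N + 1) → LL K σ N,
        (((FreeAlgebra.lift K (Tg K σ N) g).map (jm K σ N)).map
          (algebraMap (PowerSeries (K0 K σ N)) (LL K σ N))).charpoly = ∏ i, (X - C (β i))) :
    ∃ r : GA K σ N, FreeAlgebra.lift K (gen K σ N) g = Matrix.scalar (Fin N) r := by
  classical
  have : NeZero N := ⟨hN.ne'⟩
  set R := R2 K σ N with hR
  set k0 := K0 K σ N with hk0
  set ι : R →+* k0 := algebraMap R k0 with hι
  have hιinj : Function.Injective ι := IsFractionRing.injective R k0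
  have hccj : (PowerSeries.constantCoeff (R := k0)).comp (jm K σ N) =
      ι.comp (evalRingHom (0 : R)) := by
    apply RingHom.ext
    intro p
    show PowerSeries.constantCoeff (PowerSeries.map ι (p : PowerSeries R)) = ι (p.eval 0)
    rw [← PowerSeries.coeff_zero_eq_constantCoeff_apply, PowerSeries.coeff_map,
      Polynomial.coeff_coe, Polynomial.coeff_zero_eq_eval_zero]
  set A := (FreeAlgebra.lift K (Tg K σ N) g).map (jm K σ N) with hA
  have hA0 : A.map (PowerSeries.constantCoeff (R := k0)) =
      (FreeAlgebra.lift K (fun s => blk (Yg K σ N s)) g).map ι := by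
    have h1 : A.map (PowerSeries.constantCoeff (R := k0)) =
        ((FreeAlgebra.lift K (Tg K σ N) g).map (evalRingHom (0 : R))).map ι := by
      rw [hA, Matrix.map_map, Matrix.map_map, ← RingHom.coe_comp, ← RingHom.coe_comp, hccj]
    rw [h1, lift_hom (evalRingHom (0 : R)) (fun r => by simp [Polynomial.algebraMap_apply])]
    congr 3
    funext s
    ext1 a b
    simp [Tg]
  set χ := (FreeAlgebra.lift K (Yg K σ N) g).charpoly with hχ
  set a : R := algebraMap K R (ct g) with ha
  have hcpA : (A.map (PowerSeries.constantCoeff (R := k0))).charpoly =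
      (χ * (X - C a)).map ι := by
    rw [hA0, Matrix.charpoly_map, charpoly_blk]
  -- specialisation to the generic matrices of size `N`
  let θ : R →ₐ[K] GA K σ N := MvPolynomial.aeval (Sum.elim (fun p => MvPolynomial.X p) (fun _ => 0))
  have hθK : ∀ r : K, (θ : R →+* GA K σ N) (algebraMap K R r) = algebraMap K (GA K σ N) r :=
    fun r => θ.commutes r
  have hY : (fun s => (Yg K σ N s).map (θ : R →+* GA K σ N)) = gen K σ N := by
    funext s
    ext1 b c
    exact MvPolynomial.aeval_X _ _
  have hθg : ∀ u : FreeAlgebra K σ, (FreeAlgebra.lift K (Yg K σ N) u).map (θ : R →+* GA K σ N) =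
      FreeAlgebra.lift K (gen K σ N) u := by
    intro u
    rw [lift_hom (θ : R →+* GA K σ N) hθK, hY]
  by_cases hcase : χ.eval a = 0
  · -- constant
    refine ⟨algebraMap K _ (ct g), ?_⟩
    have h1 : (FreeAlgebra.lift K (gen K σ N) (algebraMap K _ (ct g) - g)).det = 0 := by
      have h2 : (FreeAlgebra.lift K (Yg K σ N) (algebraMap K _ (ct g) - g)).det = 0 := by
        rw [← hcase, hχ, Matrix.eval_charpoly]
        congr 1
        rw [map_sub, AlgHom.commutes]
        congr 1
      rw [← hθg, ← RingHom.mapMatrix_apply, ← RingHom.map_det, h2, map_zero]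
    have h4 := zero_of_det _ h1
    rw [map_sub, AlgHom.commutes, sub_eq_zero] at h4
    rw [← h4]
    rfl
  · have h0 : (A.map (PowerSeries.constantCoeff (R := k0))).charpoly.eval (ι a) = 0 := by
      rw [hcpA, Polynomial.eval_map_apply, eval_mul, eval_sub, eval_X, eval_C, sub_self, mul_zero,
        map_zero]
    have h1 : (A.map (PowerSeries.constantCoeff (R := k0))).charpoly.derivative.eval (ι a) ≠ 0 := by
      rw [hcpA, Polynomial.derivative_map, Polynomial.eval_map_apply, derivative_mul, eval_add,
        eval_mul, eval_mul, eval_sub, eval_X, eval_C, sub_self, mul_zero, zero_add, derivative_sub,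
        derivative_X, derivative_C, sub_zero, eval_one, mul_one]
      exact (map_ne_zero_iff ι hιinj).mpr hcase
    rw [Matrix.charpoly_map] at h0 h1
    obtain ⟨α, hα, hαa⟩ := hensel_root A.charpoly (Matrix.charpoly_monic A) (ι a) h0 h1
    have hα1 : A.charpoly.derivative.eval α ≠ 0 := by
      intro h
      apply h1
      rw [Polynomial.derivative_map, ← hαa, Polynomial.eval_map_apply, h, map_zero]
    obtain ⟨β, hβ⟩ := h α hα hα1
    rw [Matrix.charpoly_map] at hβ
    obtain ⟨b, hb⟩ := descend (F := LL K σ N) A.charpoly (Matrix.charpoly_monic _) β hβ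
    have hα2 : (χ * (X - C a)).map ι =
        ∏ i, (X - C (PowerSeries.constantCoeff (b i))) := by
      rw [← hcpA, Matrix.charpoly_map, hb, Polynomial.map_prod]
      refine Finset.prod_congr rfl fun i _ => ?_
      rw [Polynomial.map_sub, Polynomial.map_X, Polynomial.map_C]
    rw [Polynomial.map_mul, Polynomial.map_sub, Polynomial.map_X, Polynomial.map_C] at hα2
    obtain ⟨β', hβ'⟩ := prod_cancel _ _ _ hα2
    obtain ⟨b', hb'⟩ := descend (F := k0) χ (Matrix.charpoly_monic _) β' hβ'
    have h5 : (FreeAlgebra.lift K (gen K σ N) g).charpoly = ∏ i, (X - C (θ (b' i))) := by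
      rw [← hθg, Matrix.charpoly_map, ← hχ, hb', Polynomial.map_prod]
      refine Finset.prod_congr rfl fun i _ => ?_
      rw [Polynomial.map_sub, Polynomial.map_X, Polynomial.map_C]
      rfl
    exact scalar_of_splits g _ h5

/-- Specialisation of the line to the generic matrices of size `N + 1`. -/
noncomputable def spe (K : Type*) [Field K] (σ : Type*) (N : ℕ) :
    (R2 K σ N)[X] →+* GA K σ (N + 1) :=
  ((MvPolynomial.aeval (Sum.elim (fun _ => 0) (fun p => MvPolynomial.X p)) :
    R2 K σ N →ₐ[K] GA K σ (N + 1)) : R2 K σ N →+* GA K σ (N + 1)).comp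
    (evalRingHom (1 : R2 K σ N))

theorem spe_K (r : K) : spe K σ N (algebraMap K (R2 K σ N)[X] r) =
    algebraMap K (GA K σ (N + 1)) r := by
  unfold spe
  rw [RingHom.comp_apply, coe_evalRingHom, Polynomial.algebraMap_apply, Polynomial.eval_C]
  exact (MvPolynomial.aeval (Sum.elim (fun _ => 0) (fun p => MvPolynomial.X p)) :
    R2 K σ N →ₐ[K] GA K σ (N + 1)).commutes r

theorem spe_T (s : σ) : (Tg K σ N s).map (spe K σ N) = gen K σ (N + 1) s := by
  ext1 a b
  set θ' : R2 K σ N →ₐ[K] GA K σ (N + 1) :=
    MvPolynomial.aeval (Sum.elim (fun _ => 0) (fun p => MvPolynomial.X p)) with hθ'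
  have h1 : (blk (Yg K σ N s)).map (θ' : R2 K σ N →+* GA K σ (N + 1)) = 0 := by
    rw [blk_map]
    have : (Yg K σ N s).map (θ' : R2 K σ N →+* GA K σ (N + 1)) = 0 := by
      ext1 j k
      exact MvPolynomial.aeval_X _ _
    rw [this]
    unfold blk
    ext1 j k
    simp
  have h2 := congrFun (congrFun h1 a) b
  simp only [Matrix.map_apply, Matrix.zero_apply] at h2
  simp only [Tg, Matrix.map_apply, Matrix.add_apply, Matrix.smul_apply, smul_eq_mul, spe,
    RingHom.comp_apply, coe_evalRingHom, eval_add, eval_mul, eval_C, eval_X, one_mul, map_add]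
  rw [← hθ', h2, zero_add]
  exact MvPolynomial.aeval_X _ _

/-- A polynomial that is not zero on matrices of size `N + 1` has a nonzero determinant on the
line. -/
theorem det_T_ne_zero (u : FreeAlgebra K σ)
    (hu : ∃ X : σ → Matrix (Fin (N + 1)) (Fin (N + 1)) K, FreeAlgebra.lift K X u ≠ 0) :
    (FreeAlgebra.lift K (Tg K σ N) u).det ≠ 0 := by
  intro h0
  obtain ⟨X0, hX0⟩ := hu
  apply hX0
  have h3 := lift_hom (spe K σ N) spe_K (Tg K σ N) u
  have hT : (fun s => (Tg K σ N s).map (spe K σ N)) = gen K σ (N + 1) := by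
    funext s
    exact spe_T s
  rw [hT] at h3
  have h4 : (FreeAlgebra.lift K (gen K σ (N + 1)) u).det = 0 := by
    rw [← h3, ← RingHom.mapMatrix_apply, ← RingHom.map_det, h0, map_zero]
  have h5 := zero_of_det u h4
  rw [← spz_gen X0 u, h5, map_zero]

end Pool.Agent.J4H41.NC
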