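import Mathlib
import Pool.Agent.J4H41.NC.Grp

/-!
An irreducible separable polynomial of prime degree with solvable Galois group splits in every
field which contains two of its roots.
-/

set_option autoImplicit false

namespace Pool.Agent.J4H41.NC

open Polynomial

theorem gen_two {E : Type*} [Field E] (χ : E[X]) (hi : Irreducible χ) (hs : χ.Separable)
    (hn : χ.natDegree.Prime) (hsol : Group.IsSolvable χ.Gal) (s1 s2 : χ.SplittingField)
    (h1 : s1 ∈ χ.rootSet χ.SplittingField) (h2 : s2 ∈ χ.rootSet χ.SplittingField)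
    (hne : s1 ≠ s2) : IntermediateField.adjoin E {s1, s2} = ⊤ := by
  classical
  have hgal : IsGalois E χ.SplittingField := IsGalois.of_separable_splitting_field hs
  have hcard : (Nat.card (χ.rootSet χ.SplittingField)).Prime := by
    rw [Nat.card_eq_fintype_card, Polynomial.card_rootSet_eq_natDegree hs
      (IsSplittingField.splits χ.SplittingField χ)]
    exact hn
  have htrans : MulAction.IsPretransitive χ.Gal (χ.rootSet χ.SplittingField) := by
    refine ⟨fun x y => ?_⟩
    have hx := minpoly.eq_of_irreducible hi (mem_rootSet.mp x.2).2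
    have hy := minpoly.eq_of_irreducible hi (mem_rootSet.mp y.2).2
    obtain ⟨g, hg⟩ := (Normal.minpoly_eq_iff_mem_orbit χ.SplittingField).mp (hy.symm.trans hx)
    exact ⟨g, Subtype.ext hg⟩
  have hfaith : FaithfulSMul χ.Gal (χ.rootSet χ.SplittingField) := by
    refine ⟨fun {a b} hab => ?_⟩
    apply Polynomial.Gal.ext χ
    intro x hx
    exact congrArg Subtype.val (hab ⟨x, hx⟩)
  have hbot : (IntermediateField.adjoin E {s1, s2}).fixingSubgroup = ⊥ := by
    rw [Subgroup.eq_bot_iff_forall]
    intro ϕ hϕ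
    rw [IntermediateField.mem_fixingSubgroup_iff] at hϕ
    have e1 : ϕ s1 = s1 := hϕ s1 (IntermediateField.subset_adjoin E _ (by simp))
    have e2 : ϕ s2 = s2 := hϕ s2 (IntermediateField.subset_adjoin E _ (by simp))
    exact fix_two (G := χ.Gal) hcard ⟨s1, h1⟩ ⟨s2, h2⟩ (fun e => hne (congrArg Subtype.val e)) ϕ
      (Subtype.ext e1) (Subtype.ext e2)
  rw [← IsGalois.fixedField_fixingSubgroup (IntermediateField.adjoin E {s1, s2}), hbot]
  exact IntermediateField.fixedField_bot

theorem two_roots {E F : Type*} [Field E] [Field F] (χ : E[X]) (hi : Irreducible χ)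
    (hs : χ.Separable) (hn : χ.natDegree.Prime) (hsol : Group.IsSolvable χ.Gal) (j : E →+* F)
    (r1 r2 : F) (h1 : (χ.map j).IsRoot r1) (h2 : (χ.map j).IsRoot r2) (hne : r1 ≠ r2) :
    (χ.map j).Splits := by
  classical
  letI : Algebra E F := j.toAlgebra
  let Ω := AlgebraicClosure F
  have hχ0 : χ ≠ 0 := hi.ne_zero
  have hsp : (χ.map (algebraMap E Ω)).Splits := IsAlgClosed.splits _
  let ψ : χ.SplittingField →ₐ[E] Ω := IsSplittingField.lift χ.SplittingField χ hsp
  have himg : ψ '' χ.rootSet χ.SplittingField = χ.rootSet Ω :=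
    (IsSplittingField.splits χ.SplittingField χ).image_rootSet ψ
  have hr : ∀ r : F, (χ.map j).IsRoot r → algebraMap F Ω r ∈ χ.rootSet Ω := by
    intro r hr
    rw [mem_rootSet]
    refine ⟨hχ0, ?_⟩
    have : Polynomial.aeval r χ = 0 := by
      rw [Polynomial.aeval_def, ← Polynomial.eval_map]
      exact hr
    rw [Polynomial.aeval_algebraMap_apply, this, map_zero]
  obtain ⟨s1, hs1, e1⟩ : algebraMap F Ω r1 ∈ ψ '' χ.rootSet χ.SplittingField := by
    rw [himg]; exact hr r1 h1
  obtain ⟨s2, hs2, e2⟩ : algebraMap F Ω r2 ∈ ψ '' χ.rootSet χ.SplittingField := by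
    rw [himg]; exact hr r2 h2
  have hsne : s1 ≠ s2 := by
    intro h
    apply hne
    apply (algebraMap F Ω).injective
    rw [← e1, ← e2, h]
  have htop := gen_two χ hi hs hn hsol s1 s2 hs1 hs2 hsne
  have hrange : ∀ x : χ.SplittingField, ∃ y : F, algebraMap F Ω y = ψ x := by
    intro x
    have hx : x ∈ IntermediateField.adjoin E {s1, s2} := by
      rw [htop]; exact IntermediateField.mem_top
    have h3 : IntermediateField.adjoin E {s1, s2} ≤
        (IsScalarTower.toAlgHom E F Ω).fieldRange.comap ψ := by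
      rw [IntermediateField.adjoin_le_iff]
      intro z hz
      rcases hz with rfl | hz
      · exact ⟨r1, e1.symm⟩
      · rw [Set.mem_singleton_iff] at hz
        subst hz
        exact ⟨r2, e2.symm⟩
    obtain ⟨y, hy⟩ := h3 hx
    exact ⟨y, hy⟩
  -- all roots are in `F`
  have hroots : ∀ a ∈ ((χ.map j).map (algebraMap F Ω)).roots, a ∈ (algebraMap F Ω).range := by
    intro a ha
    have hχΩ : (χ.map j).map (algebraMap F Ω) = χ.map (algebraMap E Ω) := by
      rw [Polynomial.map_map]
      rfl
    have ha2 : a ∈ χ.rootSet Ω := by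
      rw [mem_rootSet]
      refine ⟨hχ0, ?_⟩
      rw [hχΩ] at ha
      have := (Polynomial.mem_roots'.mp ha).2
      rw [Polynomial.IsRoot, Polynomial.eval_map] at this
      exact this
    rw [← himg] at ha2
    obtain ⟨x, -, rfl⟩ := ha2
    obtain ⟨y, hy⟩ := hrange x
    exact ⟨y, hy⟩
  exact Polynomial.Splits.of_splits_map (algebraMap F Ω) (IsAlgClosed.splits _)
    hroots

end Pool.Agent.J4H41.NC
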