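import Mathlib
import Pool.Agent.J4H41.NC.Crit

/-!
A polynomial generating a Galois maximal subfield of the generic division algebra of degree `N + 1`
is scalar valued on matrices of size `N`.
-/

set_option autoImplicit false

namespace Pool.Agent.J4H41.NC

open Matrix Polynomial Pool.Agent.H552R3.PC

section Field

variable {L : Type*} [Field L] {n : ℕ}

theorem simple_eigen (A : Matrix (Fin n) (Fin n) L) (α : L)
    (h0 : A.charpoly.IsRoot α) (h1 : A.charpoly.derivative.eval α ≠ 0) :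
    ∃ v : Fin n → L, v ≠ 0 ∧ A.mulVec v = α • v ∧
      ∀ w : Fin n → L, A.mulVec w = α • w → ∃ c : L, w = c • v := by
  obtain ⟨v, hv0, hv⟩ := eigenvector_of_root A h0
  set E := Module.End.eigenspace (Matrix.toLin' A) α with hE
  have hvE : v ∈ E := by
    rw [hE, Module.End.mem_eigenspace_iff, Matrix.toLin'_apply]; exact hv
  have hne : A.charpoly ≠ 0 := (Matrix.charpoly_monic A).ne_zero
  have hmult : A.charpoly.rootMultiplicity α ≤ 1 := by
    by_contra hcon
    push Not at hcon
    exact h1 ((Polynomial.one_lt_rootMultiplicity_iff_isRoot hne).mp hcon).2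
  have hfin : Module.finrank L E ≤ 1 := by
    have h2 := LinearMap.finrank_eigenspace_le (Matrix.toLin' A) α
    rw [Matrix.charpoly_toLin'] at h2
    exact h2.trans hmult
  have hpos : 0 < Module.finrank L E := by
    rw [Module.finrank_pos_iff]
    exact ⟨⟨v, hvE⟩, 0, fun h => hv0 (congrArg Subtype.val h)⟩
  have hone : Module.finrank L E = 1 := by omega
  refine ⟨v, hv0, hv, fun w hw => ?_⟩
  have hwE : w ∈ E := by
    rw [hE, Module.End.mem_eigenspace_iff, Matrix.toLin'_apply]; exact hw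
  obtain ⟨c, hc⟩ := (finrank_eq_one_iff_of_nonzero' (⟨v, hvE⟩ : E)
    (fun h => hv0 (congrArg Subtype.val h))).mp hone ⟨w, hwE⟩
  exact ⟨c, (congrArg Subtype.val hc).symm⟩

end Field

variable {K : Type*} [Field K] {σ : Type*} {N : ℕ}

/-- Values on the line over the field of Laurent series. -/
noncomputable def MM (K : Type*) [Field K] (σ : Type*) (N : ℕ) :
    FreeAlgebra K σ →+* Matrix (Fin (N + 1)) (Fin (N + 1)) (LL K σ N) :=
  (RingHom.mapMatrix (m := Fin (N + 1))
    ((algebraMap (PowerSeries (K0 K σ N)) (LL K σ N)).comp (jm K σ N))).comp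
    (FreeAlgebra.lift K (Tg K σ N) :
      FreeAlgebra K σ →ₐ[K] Matrix (Fin (N + 1)) (Fin (N + 1)) (R2 K σ N)[X]).toRingHom

theorem MM_eq (g : FreeAlgebra K σ) : ((FreeAlgebra.lift K (Tg K σ N) g).map (jm K σ N)).map
    (algebraMap (PowerSeries (K0 K σ N)) (LL K σ N)) = MM K σ N g := by
  ext a b
  rfl

theorem psi_inj (K : Type*) [Field K] (σ : Type*) (N : ℕ) : Function.Injective
    ((algebraMap (PowerSeries (K0 K σ N)) (LL K σ N)).comp (jm K σ N)) := by
  rw [RingHom.coe_comp]
  exact (IsFractionRing.injective (PowerSeries (K0 K σ N)) (LL K σ N)).comp (jm_inj K σ N)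

theorem MM_det (u : FreeAlgebra K σ)
    (hu : ∃ X : σ → Matrix (Fin (N + 1)) (Fin (N + 1)) K, FreeAlgebra.lift K X u ≠ 0) :
    (MM K σ N u).det ≠ 0 := by
  have h1 : (MM K σ N u).det = ((algebraMap (PowerSeries (K0 K σ N)) (LL K σ N)).comp
      (jm K σ N)) (FreeAlgebra.lift K (Tg K σ N) u).det := by
    rw [RingHom.map_det]
    rfl
  rw [h1]
  exact (map_ne_zero_iff _ (psi_inj K σ N)).mpr (det_T_ne_zero u hu)

theorem MM_zero [Infinite K] (u : FreeAlgebra K σ)
    (hu : ∀ X : σ → Matrix (Fin (N + 1)) (Fin (N + 1)) K, FreeAlgebra.lift K X u = 0) :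
    MM K σ N u = 0 := by
  have h1 := transfer u hu (Tg K σ N)
  show (RingHom.mapMatrix (m := Fin (N + 1))
    ((algebraMap (PowerSeries (K0 K σ N)) (LL K σ N)).comp (jm K σ N)))
      (FreeAlgebra.lift K (Tg K σ N) u) = 0
  rw [h1, map_zero]

theorem MM_scalar [Infinite K] (u : FreeAlgebra K σ)
    (hu : ∀ X : σ → Matrix (Fin (N + 1)) (Fin (N + 1)) K,
      ∀ Z : Matrix (Fin (N + 1)) (Fin (N + 1)) K,
      FreeAlgebra.lift K X u * Z = Z * FreeAlgebra.lift K X u) :
    ∃ z : LL K σ N, MM K σ N u = Matrix.scalar (Fin (N + 1)) z := by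
  have hcomm : ∀ i j : Fin (N + 1),
      Commute (Matrix.single i j (1 : (R2 K σ N)[X])) (FreeAlgebra.lift K (Tg K σ N) u) := by
    intro i j
    have e := transfer_comm u (Matrix.single i j 1) (fun X => hu X _) (Tg K σ N)
    have e2 : (Matrix.single i j (1 : K)).map (algebraMap K (R2 K σ N)[X]) =
        Matrix.single i j 1 := by
      ext1 a b
      simp only [Matrix.map_apply, Matrix.single, Matrix.of_apply]
      split_ifs <;> simp
    rw [e2] at e
    exact e.symm
  obtain ⟨c, hc⟩ := Matrix.mem_range_scalar_iff_commute_single'.mpr hcomm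
  refine ⟨((algebraMap (PowerSeries (K0 K σ N)) (LL K σ N)).comp (jm K σ N)) c, ?_⟩
  show (RingHom.mapMatrix (m := Fin (N + 1))
    ((algebraMap (PowerSeries (K0 K σ N)) (LL K σ N)).comp (jm K σ N)))
      (FreeAlgebra.lift K (Tg K σ N) u) = _
  rw [← hc, RingHom.mapMatrix_apply]
  ext1 a b
  by_cases hab : a = b
  · subst hab; simp
  · simp [hab]

theorem scalar_mulVec {L : Type*} [Field L] {n : ℕ} (z : L) (v : Fin n → L) :
    (Matrix.scalar (Fin n) z).mulVec v = z • v := by
  ext a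
  rw [Matrix.scalar_apply, Matrix.mulVec_diagonal, Pi.smul_apply, smul_eq_mul]

/-- Polynomials `g` with `N + 1` different conjugates `h i g (h i)⁻¹` commuting with `g`. -/
theorem gal [Infinite K] (hN : 0 < N) (g : FreeAlgebra K σ)
    (h k : Fin (N + 1) → FreeAlgebra K σ)
    (hz : ∀ i, ∀ X : σ → Matrix (Fin (N + 1)) (Fin (N + 1)) K,
      ∀ Z : Matrix (Fin (N + 1)) (Fin (N + 1)) K,
      FreeAlgebra.lift K X (h i * k i) * Z = Z * FreeAlgebra.lift K X (h i * k i))
    (hz0 : ∀ i, ∃ X : σ → Matrix (Fin (N + 1)) (Fin (N + 1)) K,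
      FreeAlgebra.lift K X (h i * k i) ≠ 0)
    (hc : ∀ i, ∀ X : σ → Matrix (Fin (N + 1)) (Fin (N + 1)) K,
      FreeAlgebra.lift K X (g * (h i * g * k i) - h i * g * k i * g) = 0)
    (hd : ∀ i j, i ≠ j → ∃ X : σ → Matrix (Fin (N + 1)) (Fin (N + 1)) K,
      FreeAlgebra.lift K X (k j * h i * g - g * (k j * h i)) ≠ 0) :
    ∃ r : GA K σ N, FreeAlgebra.lift K (gen K σ N) g = Matrix.scalar (Fin N) r := by
  classical
  apply crit hN g
  intro α hα hα1
  rw [MM_eq]
  have hinj : Function.Injective (algebraMap (PowerSeries (K0 K σ N)) (LL K σ N)) :=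
    IsFractionRing.injective (PowerSeries (K0 K σ N)) (LL K σ N)
  set κ := algebraMap (PowerSeries (K0 K σ N)) (LL K σ N) with hκ
  set G := MM K σ N g with hG
  obtain ⟨v, hv0, hv, hvu⟩ := simple_eigen G (κ α)
    (by
      rw [hG, ← MM_eq, Matrix.charpoly_map, Polynomial.IsRoot, Polynomial.eval_map_apply, hα,
        map_zero])
    (by
      rw [hG, ← MM_eq, Matrix.charpoly_map, Polynomial.derivative_map, Polynomial.eval_map_apply]
      exact (map_ne_zero_iff κ hinj).mpr hα1)
  choose z hz' using fun i => MM_scalar (h i * k i) (hz i)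
  have hz1 : ∀ i, z i ≠ 0 := by
    intro i hi
    have h1 := MM_det (h i * k i) (hz0 i)
    rw [hz' i, hi, map_zero] at h1
    exact h1 Matrix.det_zero
  have hHK : ∀ i, MM K σ N (h i) * MM K σ N (k i) = Matrix.scalar (Fin (N + 1)) (z i) := by
    intro i
    rw [← map_mul, hz' i]
  have hKH : ∀ i, MM K σ N (k i) * MM K σ N (h i) = Matrix.scalar (Fin (N + 1)) (z i) := by
    intro i
    have h1 : MM K σ N (h i) * (Matrix.scalar (Fin (N + 1)) (z i)⁻¹ * MM K σ N (k i)) = 1 := by
      rw [← mul_assoc, (Matrix.scalar_commute (z i)⁻¹ (fun _ => Commute.all _ _)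
        (MM K σ N (h i))).symm.eq, mul_assoc, hHK i, ← map_mul, inv_mul_cancel₀ (hz1 i), map_one]
    have h2 := mul_eq_one_comm.mp h1
    have h3 := congrArg (fun M => Matrix.scalar (Fin (N + 1)) (z i) * M) h2
    rw [mul_one, ← mul_assoc, ← mul_assoc, ← map_mul, mul_inv_cancel₀ (hz1 i), map_one,
      one_mul] at h3
    exact h3
  have hl : ∀ i, ∃ c : LL K σ N, (MM K σ N (h i * g * k i)).mulVec v = c • v := by
    intro i
    apply hvu
    have h1 := MM_zero _ (hc i)
    rw [map_sub, map_mul _ g, map_mul _ _ g, sub_eq_zero] at h1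
    rw [Matrix.mulVec_mulVec, hG, h1, ← Matrix.mulVec_mulVec, ← hG, hv, Matrix.mulVec_smul]
  choose l hl using hl
  -- the eigenvectors
  set w : Fin (N + 1) → Fin (N + 1) → LL K σ N := fun i => (MM K σ N (k i)).mulVec v with hw
  have hHw : ∀ i, (MM K σ N (h i)).mulVec (w i) = z i • v := by
    intro i
    rw [hw]
    simp only
    rw [Matrix.mulVec_mulVec, hHK, scalar_mulVec]
  have hw0 : ∀ i, w i ≠ 0 := by
    intro i hi
    have h1 := hHw i
    rw [hi, Matrix.mulVec_zero] at h1
    exact (smul_ne_zero (hz1 i) hv0) h1.symm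
  have hGw : ∀ i, G.mulVec (w i) = (l i / z i) • w i := by
    intro i
    have h1 := hl i
    rw [map_mul, map_mul, ← hG, ← Matrix.mulVec_mulVec, ← Matrix.mulVec_mulVec] at h1
    have h2 := congrArg (fun u => (MM K σ N (k i)).mulVec u) h1
    rw [Matrix.mulVec_mulVec, hKH, scalar_mulVec, Matrix.mulVec_smul] at h2
    have h3 : G.mulVec (w i) = (z i)⁻¹ • (z i • G.mulVec (w i)) := by
      rw [smul_smul, inv_mul_cancel₀ (hz1 i), one_smul]
    rw [h3]
    show (z i)⁻¹ • (z i • G.mulVec ((MM K σ N (k i)).mulVec v)) = _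
    rw [h2, smul_smul, div_eq_mul_inv, mul_comm (l i)]
  have hroot : ∀ i, G.charpoly.IsRoot (l i / z i) := fun i =>
    root_of_eigenvector G (hw0 i) (hGw i)
  have hinj2 : Function.Injective (fun i => l i / z i) := by
    intro i j hij
    by_contra hne
    have h1 := MM_det _ (hd i j hne)
    apply h1
    rw [← Matrix.exists_mulVec_eq_zero_iff]
    refine ⟨w i, hw0 i, ?_⟩
    rw [map_sub, map_mul _ g, map_mul _ _ g, map_mul, ← hG, Matrix.sub_mulVec,
      ← Matrix.mulVec_mulVec, ← Matrix.mulVec_mulVec, ← Matrix.mulVec_mulVec,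
      ← Matrix.mulVec_mulVec, hGw, Matrix.mulVec_smul, hHw, Matrix.mulVec_smul,
      Matrix.mulVec_smul, Matrix.mulVec_smul]
    show (l i / z i) • z i • w j - z i • G.mulVec (w j) = 0
    rw [hGw, smul_smul, smul_smul]
    simp only at hij
    rw [hij, mul_comm, sub_self]
  exact splits_of_commute G G rfl _ hinj2 hroot

end Pool.Agent.J4H41.NC
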