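import Mathlib
import Pool.Agent.J4H41.NC.Gal
import Pool.Agent.J4H41.NC.General
import Pool.Agent.J4H41.NC.CharN

/-!
Polynomials whose conjugates by an `n`-central polynomial commute.
-/

set_option autoImplicit false

namespace Pool.Agent.J4H41.NC

open Matrix Polynomial Pool.Agent.H552R3.PC

variable {K : Type*} [Field K] {σ : Type*} {N : ℕ}

/-- The product of two polynomials not vanishing on matrices of size `N + 1`. -/
theorem mul_ne [Infinite K] (a b : FreeAlgebra K σ)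
    (ha : ∃ X : σ → Matrix (Fin (N + 1)) (Fin (N + 1)) K, FreeAlgebra.lift K X a ≠ 0)
    (hb : ∃ X : σ → Matrix (Fin (N + 1)) (Fin (N + 1)) K, FreeAlgebra.lift K X b ≠ 0) :
    ∃ X : σ → Matrix (Fin (N + 1)) (Fin (N + 1)) K, FreeAlgebra.lift K X (a * b) ≠ 0 := by
  by_contra hcon
  push Not at hcon
  have h1 := transfer (a * b) hcon (Tg K σ N)
  have h2 := det_T_ne_zero a ha
  have h3 := det_T_ne_zero b hb
  rw [map_mul] at h1
  have h4 := congrArg Matrix.det h1
  rw [Matrix.det_mul, Matrix.det_zero] at h4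
  exact (mul_ne_zero h2 h3) h4

theorem pow_ne [Infinite K] (a : FreeAlgebra K σ)
    (ha : ∃ X : σ → Matrix (Fin (N + 1)) (Fin (N + 1)) K, FreeAlgebra.lift K X a ≠ 0) (m : ℕ) :
    ∃ X : σ → Matrix (Fin (N + 1)) (Fin (N + 1)) K, FreeAlgebra.lift K X (a ^ m) ≠ 0 := by
  induction m with
  | zero => exact ⟨fun _ => 0, by rw [pow_zero, map_one]; exact one_ne_zero⟩
  | succ m ih => rw [pow_succ]; exact mul_ne _ _ ih ha

/-- If `g` commutes with `f ^ m`, with `f ^ n` central and `m` prime to `n`, then it commutes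
with `f`. -/
theorem comm_of_pow [Infinite K] (hN : 0 < N) (f g : FreeAlgebra K σ)
    (h : ∀ X : σ → Matrix (Fin (N + 1)) (Fin (N + 1)) K, ∀ Z : Matrix (Fin (N + 1)) (Fin (N + 1)) K,
      FreeAlgebra.lift K X (f ^ (N + 1)) * Z = Z * FreeAlgebra.lift K X (f ^ (N + 1)))
    (hne : ∃ X : σ → Matrix (Fin (N + 1)) (Fin (N + 1)) K, FreeAlgebra.lift K X (f ^ (N + 1)) ≠ 0)
    (m : ℕ) (hm : Nat.Coprime m (N + 1))
    (hc : ∀ X : σ → Matrix (Fin (N + 1)) (Fin (N + 1)) K,
      FreeAlgebra.lift K X (f ^ m * g - g * f ^ m) = 0)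
    (X : σ → Matrix (Fin (N + 1)) (Fin (N + 1)) K) :
    FreeAlgebra.lift K X (f * g - g * f) = 0 := by
  revert X
  by_contra hcon
  push Not at hcon
  obtain ⟨u, w, huw⟩ : ∃ u w : ℕ, m * u = 1 + (N + 1) * w := by
    obtain ⟨u, -, hu⟩ := Nat.exists_mul_mod_eq_one_of_coprime hm (by omega)
    refine ⟨u, m * u / (N + 1), ?_⟩
    have := Nat.mod_add_div (m * u) (N + 1)
    rw [hu] at this
    exact this.symm
  obtain ⟨X, hX⟩ := mul_ne (N := N) ((f ^ (N + 1)) ^ w) (f * g - g * f) (pow_ne _ hne w) hcon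
  apply hX
  have h1 := hc X
  rw [map_sub, map_mul, map_mul, map_pow, sub_eq_zero] at h1
  have h2 : Commute (FreeAlgebra.lift K X f ^ (m * u)) (FreeAlgebra.lift K X g) := by
    rw [pow_mul]
    exact Commute.pow_left h1 u
  rw [huw, pow_add, pow_one, pow_mul] at h2
  have h3 : ∀ Z, (FreeAlgebra.lift K X f ^ (N + 1)) ^ w * Z =
      Z * (FreeAlgebra.lift K X f ^ (N + 1)) ^ w := by
    intro Z
    have h4 : Commute (FreeAlgebra.lift K X f ^ (N + 1)) Z := by
      have := h X Z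
      rw [map_pow] at this
      exact this
    exact (Commute.pow_left h4 w).eq
  rw [map_mul, map_sub, map_mul, map_mul, map_pow, map_pow, mul_sub, ← mul_assoc, h3, h2.eq,
    h3 (FreeAlgebra.lift K X g * FreeAlgebra.lift K X f), mul_assoc, sub_self]

/-- The cyclic case: the conjugates of `g` by powers of `f` commute with `g`, but `f` does not. -/
theorem cyc [Infinite K] (hN : 0 < N) (hp : (N + 1).Prime) (f g : FreeAlgebra K σ)
    (h : ∀ X : σ → Matrix (Fin (N + 1)) (Fin (N + 1)) K, ∀ Z : Matrix (Fin (N + 1)) (Fin (N + 1)) K,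
      FreeAlgebra.lift K X (f ^ (N + 1)) * Z = Z * FreeAlgebra.lift K X (f ^ (N + 1)))
    (hne : ∃ X : σ → Matrix (Fin (N + 1)) (Fin (N + 1)) K, FreeAlgebra.lift K X (f ^ (N + 1)) ≠ 0)
    (hc : ∀ i, 0 < i → i < N + 1 → ∀ X : σ → Matrix (Fin (N + 1)) (Fin (N + 1)) K,
      Commute (FreeAlgebra.lift K X g) (FreeAlgebra.lift K X (f ^ i * g * f ^ (N + 1 - i))))
    (hfg : ∃ X : σ → Matrix (Fin (N + 1)) (Fin (N + 1)) K,
      FreeAlgebra.lift K X (f * g - g * f) ≠ 0) :
    ∃ r : GA K σ N, FreeAlgebra.lift K (gen K σ N) g = Matrix.scalar (Fin N) r := by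
  have hsum : ∀ i : Fin (N + 1), f ^ (i : ℕ) * f ^ (N + 1 - (i : ℕ)) = f ^ (N + 1) := by
    intro i
    rw [← pow_add]
    congr 1
    have := i.2
    omega
  refine gal hN g (fun i => f ^ (i : ℕ)) (fun i => f ^ (N + 1 - (i : ℕ))) ?_ ?_ ?_ ?_
  · intro i X Z
    rw [hsum]
    exact h X Z
  · intro i
    rw [hsum]
    exact hne
  · intro i X
    rw [map_sub, map_mul _ g, map_mul _ _ g, sub_eq_zero]
    rcases Nat.eq_zero_or_pos (i : ℕ) with hi | hi
    · rw [hi, pow_zero, one_mul, Nat.sub_zero, map_mul, mul_assoc, h X, ← mul_assoc]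
    · exact (hc i hi i.2 X).eq
  · intro i j hij
    by_contra hcon
    push Not at hcon
    obtain ⟨X, hX⟩ := hfg
    apply hX
    refine comm_of_pow hN f g h hne (N + 1 - (j : ℕ) + (i : ℕ)) ?_ ?_ X
    · rw [Nat.coprime_comm, Nat.Prime.coprime_iff_not_dvd hp]
      rintro ⟨c, hc⟩
      have hi := i.2
      have hj := j.2
      have hne : (i : ℕ) ≠ j := fun e => hij (Fin.ext e)
      have hc1 : c = 1 := by
        have h1 : 0 < c := by
          rcases Nat.eq_zero_or_pos c with h0 | h0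
          · subst h0; omega
          · exact h0
        have h2 : c < 2 := by
          by_contra h3
          have h4 : (N + 1) * 2 ≤ (N + 1) * c := Nat.mul_le_mul_left _ (by omega)
          omega
        omega
      subst hc1
      omega
    · intro X
      have := hcon X
      rw [← pow_add] at this
      exact this

/-- Both cases: the value of `g` on matrices of size `N` are scalar. -/
theorem both [Infinite K] (hN : 0 < N) (hp : (N + 1).Prime) (f g : FreeAlgebra K σ)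
    (h : ∀ X : σ → Matrix (Fin (N + 1)) (Fin (N + 1)) K, ∀ Z : Matrix (Fin (N + 1)) (Fin (N + 1)) K,
      FreeAlgebra.lift K X (f ^ (N + 1)) * Z = Z * FreeAlgebra.lift K X (f ^ (N + 1)))
    (hne : ∃ X : σ → Matrix (Fin (N + 1)) (Fin (N + 1)) K, FreeAlgebra.lift K X (f ^ (N + 1)) ≠ 0)
    (hns : ∃ X : σ → Matrix (Fin (N + 1)) (Fin (N + 1)) K,
      ∃ Z : Matrix (Fin (N + 1)) (Fin (N + 1)) K,
      FreeAlgebra.lift K X f * Z ≠ Z * FreeAlgebra.lift K X f)
    (hc : ∀ i, 0 < i → i < N + 1 → ∀ X : σ → Matrix (Fin (N + 1)) (Fin (N + 1)) K,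
      Commute (FreeAlgebra.lift K X g) (FreeAlgebra.lift K X (f ^ i * g * f ^ (N + 1 - i))))
    (X : σ → Matrix (Fin N) (Fin N) K) :
    ∃ c : K, FreeAlgebra.lift K X g = Matrix.scalar (Fin N) c := by
  by_cases hfg : ∃ X : σ → Matrix (Fin (N + 1)) (Fin (N + 1)) K,
      FreeAlgebra.lift K X (f * g - g * f) ≠ 0
  · obtain ⟨r, hr⟩ := cyc hN hp f g h hne hc hfg
    exact ⟨_, scalar_of_gen hr X⟩
  · push Not at hfg
    by_cases hK : ((N + 1 : ℕ) : K) = 0
    · exact ⟨_, cent_of_eq hN hp hK f g h hns hfg X⟩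
    · exact cent_of_ne hN hp hK f g h hns hne hfg X

end Pool.Agent.J4H41.NC
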