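import Mathlib
import Pool.Agent.J4H41.NC.Pow
import Pool.Agent.J4H41.NC.Two

/-!
Polynomials `g` commuting with one conjugate `f g f ⁻¹` by an `n`-central polynomial `f`.
-/

set_option autoImplicit false

namespace Pool.Agent.J4H41.NC

open Matrix Polynomial Pool.Agent.H552R3.PC

variable {K : Type*} [Field K] {σ : Type*} {N : ℕ}

/-- From the coordinates of the generic matrices of size `N + 1` to Laurent series. -/
noncomputable def jL (K : Type*) [Field K] (σ : Type*) (N : ℕ) : GA K σ (N + 1) →+* LL K σ N :=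
  ((algebraMap (PowerSeries (K0 K σ N)) (LL K σ N)).comp (jm K σ N)).comp
    ((spz (Tg K σ N) : GA K σ (N + 1) →ₐ[K] (R2 K σ N)[X]) :
      GA K σ (N + 1) →+* (R2 K σ N)[X])

theorem spz_T_inj : Function.Injective (spz (Tg K σ N) : GA K σ (N + 1) → (R2 K σ N)[X]) := by
  have h1 : ∀ c : GA K σ (N + 1), spe K σ N (spz (Tg K σ N) c) = c := by
    intro c
    have h3 := spz_hom (spe K σ N) spe_K (Tg K σ N) c
    have h4 : (fun s => (Tg K σ N s).map (spe K σ N)) = gen K σ (N + 1) := by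
      funext s
      exact spe_T s
    rw [h4] at h3
    rw [h3]
    unfold spz
    have : (fun p : σ × Fin (N + 1) × Fin (N + 1) => gen K σ (N + 1) p.1 p.2.1 p.2.2) =
        MvPolynomial.X := by
      funext p
      rfl
    rw [this]
    exact MvPolynomial.aeval_X_left_apply c
  intro a b hab
  rw [← h1 a, ← h1 b, hab]

theorem jL_inj : Function.Injective (jL K σ N) := by
  rw [jL, RingHom.coe_comp]
  exact (psi_inj K σ N).comp spz_T_inj

theorem charpoly_jL (g : FreeAlgebra K σ) :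
    (FreeAlgebra.lift K (gen K σ (N + 1)) g).charpoly.map (jL K σ N) =
      (MM K σ N g).charpoly := by
  rw [← Matrix.charpoly_map]
  congr 1
  have h1 : (FreeAlgebra.lift K (gen K σ (N + 1)) g).map
      ((spz (Tg K σ N) : GA K σ (N + 1) →ₐ[K] (R2 K σ N)[X]) :
      GA K σ (N + 1) →+* (R2 K σ N)[X]) = FreeAlgebra.lift K (Tg K σ N) g := by
    rw [← spz_gen (Tg K σ N) g]; rfl
  show _ = (FreeAlgebra.lift K (Tg K σ N) g).map
    ((algebraMap (PowerSeries (K0 K σ N)) (LL K σ N)).comp (jm K σ N))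
  rw [← h1, Matrix.map_map]
  rfl

/-- The cyclic case, with one commuting conjugate. -/
theorem cyc1 [Infinite K] (hN : 0 < N) (hp : (N + 1).Prime) (f g : FreeAlgebra K σ)
    (h : ∀ X : σ → Matrix (Fin (N + 1)) (Fin (N + 1)) K, ∀ Z : Matrix (Fin (N + 1)) (Fin (N + 1)) K,
      FreeAlgebra.lift K X (f ^ (N + 1)) * Z = Z * FreeAlgebra.lift K X (f ^ (N + 1)))
    (hne : ∃ X : σ → Matrix (Fin (N + 1)) (Fin (N + 1)) K, FreeAlgebra.lift K X (f ^ (N + 1)) ≠ 0)
    (hc : ∀ X : σ → Matrix (Fin (N + 1)) (Fin (N + 1)) K,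
      FreeAlgebra.lift K X (g * (f * g * f ^ N) - f * g * f ^ N * g) = 0)
    (hfg : ∃ X : σ → Matrix (Fin (N + 1)) (Fin (N + 1)) K,
      FreeAlgebra.lift K X (f * g - g * f) ≠ 0) :
    ∃ r : GA K σ N, FreeAlgebra.lift K (gen K σ N) g = Matrix.scalar (Fin N) r := by
  classical
  apply crit hN g
  intro α hα hα1
  rw [MM_eq]
  have hinj : Function.Injective (algebraMap (PowerSeries (K0 K σ N)) (LL K σ N)) :=
    IsFractionRing.injective (PowerSeries (K0 K σ N)) (LL K σ N)
  set κ := algebraMap (PowerSeries (K0 K σ N)) (LL K σ N) with hκ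
  set G := MM K σ N g with hG
  have hr0 : G.charpoly.eval (κ α) = 0 := by
    rw [hG, ← MM_eq, Matrix.charpoly_map, Polynomial.eval_map_apply, hα, map_zero]
  have hr1 : G.charpoly.derivative.eval (κ α) ≠ 0 := by
    rw [hG, ← MM_eq, Matrix.charpoly_map, Polynomial.derivative_map, Polynomial.eval_map_apply]
    exact (map_ne_zero_iff κ hinj).mpr hα1
  have hsimple : ∀ β, G.charpoly.eval β = 0 → G.charpoly.derivative.eval β ≠ 0 := by
    intro β hβ
    rw [hG, ← charpoly_jL] at hβ hr0 hr1 ⊢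
    exact (simple_all g (jL K σ N) jL_inj (κ α) hr0 hr1).2 β hβ
  obtain ⟨v, hv0, hv⟩ := eigenvector_of_root G hr0
  set F := MM K σ N f with hF
  obtain ⟨z, hz⟩ := MM_scalar (f ^ (N + 1)) h
  have hz1 : z ≠ 0 := by
    intro hi
    have h1 := MM_det (f ^ (N + 1)) hne
    rw [hz, hi, map_zero] at h1
    exact h1 Matrix.det_zero
  set Fi : Matrix (Fin (N + 1)) (Fin (N + 1)) (LL K σ N) :=
    Matrix.scalar (Fin (N + 1)) z⁻¹ * F ^ N with hFi
  have hFFi : F * Fi = 1 := by
    rw [hFi, ← mul_assoc, (Matrix.scalar_commute z⁻¹ (fun _ => Commute.all _ _) F).symm.eq,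
      mul_assoc, ← pow_succ', hF, ← map_pow, hz, ← map_mul, inv_mul_cancel₀ hz1, map_one]
  have hFiF : Fi * F = 1 := mul_eq_one_comm.mp hFFi
  have hFN : F ^ N = Matrix.scalar (Fin (N + 1)) z * Fi := by
    rw [hFi, ← mul_assoc, ← map_mul, mul_inv_cancel₀ hz1, map_one, one_mul]
  have hcomm : Fi * G * F * G = G * Fi * G * F := by
    have h1 := MM_zero _ hc
    rw [map_sub, map_mul _ g, map_mul _ _ g, map_mul, map_mul, map_pow, ← hG, ← hF, hFN,
      sub_eq_zero] at h1
    have hs := fun M : Matrix (Fin (N + 1)) (Fin (N + 1)) (LL K σ N) =>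
      (Matrix.scalar_commute z (fun _ => Commute.all _ _) M).eq
    have h2 : Matrix.scalar (Fin (N + 1)) z * (G * F * G * Fi) =
        Matrix.scalar (Fin (N + 1)) z * (F * G * Fi * G) := by
      calc Matrix.scalar (Fin (N + 1)) z * (G * F * G * Fi)
          = (Matrix.scalar (Fin (N + 1)) z * (G * F * G)) * Fi := by simp only [mul_assoc]
        _ = G * F * G * Matrix.scalar (Fin (N + 1)) z * Fi := by rw [hs]
        _ = G * (F * G * (Matrix.scalar (Fin (N + 1)) z * Fi)) := by simp only [mul_assoc]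
        _ = F * G * (Matrix.scalar (Fin (N + 1)) z * Fi) * G := h1
        _ = (F * G * Matrix.scalar (Fin (N + 1)) z) * (Fi * G) := by simp only [mul_assoc]
        _ = Matrix.scalar (Fin (N + 1)) z * (F * G) * (Fi * G) := by rw [hs]
        _ = _ := by simp only [mul_assoc]
    have h3 : G * F * G * Fi = F * G * Fi * G := by
      have h4 := congrArg (fun M => Matrix.scalar (Fin (N + 1)) z⁻¹ * M) h2
      simp only [← mul_assoc] at h4
      rw [← map_mul, inv_mul_cancel₀ hz1, map_one, one_mul, one_mul] at h4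
      simpa only [mul_assoc] using h4
    calc Fi * G * F * G = Fi * (G * F * G * Fi) * F := by
          simp only [mul_assoc]; rw [hFiF, mul_one]
      _ = Fi * (F * G * Fi * G) * F := by rw [h3]
      _ = (Fi * F) * (G * Fi * G * F) := by simp only [mul_assoc]
      _ = _ := by rw [hFiF, one_mul]
  -- the eigenvectors `F ^ i v`
  have hinvert : ∀ w : Fin (N + 1) → LL K σ N, F.mulVec w = 0 → w = 0 := by
    intro w hw
    have := congrArg (fun u => Fi.mulVec u) hw
    simp only [Matrix.mulVec_mulVec, hFiF, Matrix.one_mulVec, Matrix.mulVec_zero] at this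
    exact this
  have hstep : ∀ (u : Fin (N + 1) → LL K σ N) (β : LL K σ N), u ≠ 0 → G.mulVec u = β • u →
      ∃ β' : LL K σ N, G.mulVec (F.mulVec u) = β' • F.mulVec u := by
    intro u β hu0 hu
    have hroot : G.charpoly.IsRoot β := root_of_eigenvector G hu0 hu
    obtain ⟨w, hw0, hw, hwu⟩ := simple_eigen G β hroot (hsimple β hroot)
    have h1 : G.mulVec (Fi.mulVec (G.mulVec (F.mulVec u))) =
        β • Fi.mulVec (G.mulVec (F.mulVec u)) := by
      have h2 := congrArg (fun M => M.mulVec u) hcomm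
      simp only [← Matrix.mulVec_mulVec] at h2
      rw [← h2, hu, Matrix.mulVec_smul, Matrix.mulVec_smul, Matrix.mulVec_smul]
    obtain ⟨c1, hc1⟩ := hwu _ h1
    obtain ⟨c2, hc2⟩ := hwu u hu
    have hc20 : c2 ≠ 0 := by
      rintro rfl
      rw [zero_smul] at hc2
      exact hu0 hc2
    refine ⟨c1 / c2, ?_⟩
    have h3 : Fi.mulVec (G.mulVec (F.mulVec u)) = (c1 / c2) • u := by
      rw [hc1, hc2, smul_smul, div_mul_cancel₀ _ hc20]
    have h4 := congrArg (fun u => F.mulVec u) h3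
    simp only [Matrix.mulVec_smul] at h4
    rw [Matrix.mulVec_mulVec, hFFi, Matrix.one_mulVec] at h4
    exact h4
  have hall : ∀ i : ℕ, (F ^ i).mulVec v ≠ 0 ∧
      ∃ β : LL K σ N, G.mulVec ((F ^ i).mulVec v) = β • (F ^ i).mulVec v := by
    intro i
    induction i with
    | zero => rw [pow_zero, Matrix.one_mulVec]; exact ⟨hv0, _, hv⟩
    | succ i ih =>
      obtain ⟨h1, β, h2⟩ := ih
      rw [pow_succ', ← Matrix.mulVec_mulVec]
      exact ⟨fun h => h1 (hinvert _ h), hstep _ β h1 h2⟩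
  choose hne0 β hβ using hall
  have hroot : ∀ i : ℕ, G.charpoly.IsRoot (β i) := fun i => root_of_eigenvector G (hne0 i) (hβ i)
  have hdist : ∀ i j : ℕ, i < j → j < N + 1 → β i ≠ β j := by
    intro i j hij hj heq
    obtain ⟨w, hw0, hw, hwu⟩ := simple_eigen G (β i) (hroot i) (hsimple _ (hroot i))
    obtain ⟨c1, hc1⟩ := hwu _ (hβ i)
    obtain ⟨c2, hc2⟩ := hwu ((F ^ j).mulVec v) (by rw [heq]; exact hβ j)
    have hc10 : c1 ≠ 0 := by
      rintro rfl
      rw [zero_smul] at hc1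
      exact hne0 i hc1
    have h1 : (F ^ (j - i)).mulVec ((F ^ i).mulVec v) = (c2 / c1) • (F ^ i).mulVec v := by
      rw [Matrix.mulVec_mulVec, ← pow_add, Nat.sub_add_cancel hij.le, hc2, hc1, smul_smul,
        div_mul_cancel₀ _ hc10]
    have hcop : Nat.Coprime (j - i) (N + 1) := by
      rw [Nat.coprime_comm, Nat.Prime.coprime_iff_not_dvd hp]
      intro hd
      have := Nat.le_of_dvd (by omega) hd
      omega
    obtain ⟨X, hX⟩ := hfg
    apply hX
    refine comm_of_pow hN f g h hne (j - i) hcop ?_ X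
    by_contra hcon
    push Not at hcon
    apply MM_det _ hcon
    rw [← Matrix.exists_mulVec_eq_zero_iff]
    refine ⟨(F ^ i).mulVec v, hne0 i, ?_⟩
    rw [map_sub, map_mul, map_mul, map_pow, ← hG, ← hF, Matrix.sub_mulVec,
      ← Matrix.mulVec_mulVec, ← Matrix.mulVec_mulVec, hβ, h1, Matrix.mulVec_smul,
      Matrix.mulVec_smul, hβ, h1, smul_comm, sub_self]
  have hinj2 : Function.Injective (fun i : Fin (N + 1) => β i) := by
    intro i j hij
    by_contra hne
    rcases lt_or_gt_of_ne hne with h1 | h1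
    · exact hdist i j h1 j.2 hij
    · exact hdist j i h1 i.2 hij.symm
  exact splits_of_commute G G rfl _ hinj2 (fun i => hroot i)

/-- Both cases, with one commuting conjugate. -/
theorem both1 [Infinite K] (hN : 0 < N) (hp : (N + 1).Prime) (f g : FreeAlgebra K σ)
    (h : ∀ X : σ → Matrix (Fin (N + 1)) (Fin (N + 1)) K, ∀ Z : Matrix (Fin (N + 1)) (Fin (N + 1)) K,
      FreeAlgebra.lift K X (f ^ (N + 1)) * Z = Z * FreeAlgebra.lift K X (f ^ (N + 1)))
    (hne : ∃ X : σ → Matrix (Fin (N + 1)) (Fin (N + 1)) K, FreeAlgebra.lift K X (f ^ (N + 1)) ≠ 0)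
    (hns : ∃ X : σ → Matrix (Fin (N + 1)) (Fin (N + 1)) K,
      ∃ Z : Matrix (Fin (N + 1)) (Fin (N + 1)) K,
      FreeAlgebra.lift K X f * Z ≠ Z * FreeAlgebra.lift K X f)
    (hc : ∀ X : σ → Matrix (Fin (N + 1)) (Fin (N + 1)) K,
      FreeAlgebra.lift K X (g * (f * g * f ^ N) - f * g * f ^ N * g) = 0)
    (X : σ → Matrix (Fin N) (Fin N) K) :
    ∃ c : K, FreeAlgebra.lift K X g = Matrix.scalar (Fin N) c := by
  by_cases hfg : ∃ X : σ → Matrix (Fin (N + 1)) (Fin (N + 1)) K,
      FreeAlgebra.lift K X (f * g - g * f) ≠ 0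
  · obtain ⟨r, hr⟩ := cyc1 hN hp f g h hne hc hfg
    exact ⟨_, scalar_of_gen hr X⟩
  · push Not at hfg
    by_cases hK : ((N + 1 : ℕ) : K) = 0
    · exact ⟨_, cent_of_eq hN hp hK f g h hns hfg X⟩
    · exact cent_of_ne hN hp hK f g h hns hne hfg X

end Pool.Agent.J4H41.NC
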