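import Mathlib

/-!
Decomposition groups of prime order extensions.
-/

set_option autoImplicit false

namespace Pool.Agent.J4H41.NC

open Polynomial
open scoped Pointwise

universe u

theorem bot_case {A B G : Type*} [CommRing A] [CommRing B] [Algebra A B]
    [Group G] [Finite G] [MulSemiringAction G B] [Algebra.IsInvariant A B G]
    (Q : Ideal B) [hQ : Q.IsPrime] (h : MulAction.stabilizer G Q = ⊥) :
    ∃ a0 : A, algebraMap A B a0 ∉ Q ∧
      ∀ y : B, ∃ a : A, algebraMap A B a0 * y - algebraMap A B a ∈ Q := by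
  classical
  have : Fintype G := Fintype.ofFinite G
  have h1 : ∀ g : G, ∃ b : B, (g ≠ 1 → b ∈ g • Q) ∧ b ∉ Q := by
    intro g
    by_cases hg : g = 1
    · exact ⟨1, fun h => absurd hg h, (Ideal.ne_top_iff_one Q).mp hQ.ne_top⟩
    · by_contra hcon
      push Not at hcon
      have h2 : ∀ x ∈ Q, g • x ∈ Q := fun x hx =>
        hcon _ (fun _ => Ideal.smul_mem_pointwise_smul g x Q hx)
      have h3 : ∀ (k : ℕ), ∀ x ∈ Q, g ^ k • x ∈ Q := by
        intro k
        induction k with
        | zero => intro x hx; rwa [pow_zero, one_smul]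
        | succ k ih =>
          intro x hx
          rw [pow_succ', mul_smul]
          exact h2 _ (ih x hx)
      have h4 : g⁻¹ = g ^ (Nat.card G - 1) := by
        symm
        rw [eq_inv_iff_mul_eq_one, ← pow_succ, Nat.sub_add_cancel Nat.card_pos, pow_card_eq_one']
      have h5 : g ∈ MulAction.stabilizer G Q := by
        rw [MulAction.mem_stabilizer_iff]
        apply le_antisymm
        · intro x hx
          exact hcon x fun _ => hx
        · intro x hx
          rw [Ideal.mem_pointwise_smul_iff_inv_smul_mem, h4]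
          exact h3 _ x hx
      rw [h, Subgroup.mem_bot] at h5
      exact hg h5
  choose b hb1 hb2 using h1
  set c : B := ∏ g : G, b g with hc
  have hcQ : c ∉ Q := by
    intro hcQ
    obtain ⟨g, _, hg⟩ := (hQ.prod_mem_iff).mp hcQ
    exact hb2 g hg
  have hcg : ∀ g : G, g ≠ 1 → c ∈ g • Q := fun g hg =>
    Ideal.mem_of_dvd _ (Finset.dvd_prod_of_mem b (Finset.mem_univ g)) (hb1 g hg)
  have key : ∀ y : B, ∃ a : A, algebraMap A B a - c * y ∈ Q := by
    intro y
    obtain ⟨a, ha⟩ := Algebra.IsInvariant.isInvariant (A := A) (B := B) (G := G)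
      (∑ g : G, g • (c * y)) (by
        intro g
        rw [Finset.smul_sum]
        refine Fintype.sum_equiv (Equiv.mulLeft g) _ _ fun x => ?_
        rw [Equiv.coe_mulLeft, mul_smul])
    refine ⟨a, ?_⟩
    rw [ha, ← Finset.add_sum_erase _ _ (Finset.mem_univ (1 : G)), one_smul, add_sub_cancel_left]
    refine Ideal.sum_mem _ fun g hg => ?_
    have hg1 : g⁻¹ ≠ 1 := inv_ne_one.mpr (Finset.ne_of_mem_erase hg)
    have h2 := Ideal.mul_mem_right y _ (hcg g⁻¹ hg1)
    rw [Ideal.mem_inv_pointwise_smul_iff] at h2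
    exact h2
  obtain ⟨a0, ha0⟩ := key 1
  rw [mul_one] at ha0
  refine ⟨a0, fun h0 => hcQ ?_, fun y => ?_⟩
  · have := Q.sub_mem h0 ha0
    rwa [sub_sub_cancel] at this
  · obtain ⟨a, ha⟩ := key y
    refine ⟨a, ?_⟩
    have h2 := Q.sub_mem (Q.mul_mem_right y ha0) ha
    have h3 : (algebraMap A B a0 - c) * y - (algebraMap A B a - c * y) =
        algebraMap A B a0 * y - algebraMap A B a := by ring
    rwa [h3] at h2

theorem specp0 {A B : Type u} [CommRing A] [CommRing B] [Algebra A B] (G : Type u)
    [Group G] [Finite G] [MulSemiringAction G B] [SMulCommClass G A B] [Algebra.IsInvariant A B G]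
    (hG : (Nat.card G).Prime)
    (P : Ideal A) (Q : Ideal B) [P.IsPrime] [Q.IsPrime] [Q.LiesOver P]
    (E' : Type u) [Field E'] [Algebra (A ⧸ P) E'] [IsFractionRing (A ⧸ P) E'] :
    ∃ (L : Type u) (_ : Field L) (_ : Algebra E' L) (π : B →+* L),
      (∀ a : A, π (algebraMap A B a) =
        algebraMap E' L (algebraMap (A ⧸ P) E' (Ideal.Quotient.mk P a))) ∧
      ((∀ y : B, ∃ e : E', π y = algebraMap E' L e) ∨
        ∀ (g : G) (x : B) (a : A), π x = π (algebraMap A B a) →
          π (g • x) = π (algebraMap A B a)) := by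
  let L := FractionRing (B ⧸ Q)
  have i1 : Function.Injective (algebraMap (A ⧸ P) L) := by
    rw [IsScalarTower.algebraMap_eq (A ⧸ P) (B ⧸ Q) L]
    exact (IsFractionRing.injective (B ⧸ Q) L).comp (FaithfulSMul.algebraMap_injective _ _)
  let a2 : Algebra E' L := (IsFractionRing.lift i1 : E' →+* L).toAlgebra
  have t2 : IsScalarTower (A ⧸ P) E' L := by
    apply IsScalarTower.of_algebraMap_eq
    intro x
    exact (IsFractionRing.lift_algebraMap i1 x).symm
  have hπ : ∀ a : A, ((algebraMap (B ⧸ Q) L).comp (Ideal.Quotient.mk Q)) (algebraMap A B a) =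
        algebraMap E' L (algebraMap (A ⧸ P) E' (Ideal.Quotient.mk P a)) := by
    intro a
    rw [← IsScalarTower.algebraMap_apply (A ⧸ P) E' L, IsScalarTower.algebraMap_apply (A ⧸ P)
      (B ⧸ Q) L]
    rfl
  have hker : ∀ x y : B, ((algebraMap (B ⧸ Q) L).comp (Ideal.Quotient.mk Q)) x =
      ((algebraMap (B ⧸ Q) L).comp (Ideal.Quotient.mk Q)) y ↔ x - y ∈ Q := by
    intro x y
    rw [RingHom.comp_apply, RingHom.comp_apply, (IsFractionRing.injective (B ⧸ Q) L).eq_iff,
      Ideal.Quotient.mk_eq_mk_iff_sub_mem]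
  refine ⟨L, inferInstance, a2, (algebraMap (B ⧸ Q) L).comp (Ideal.Quotient.mk Q), hπ, ?_⟩
  have : Fact (Nat.card G).Prime := ⟨hG⟩
  rcases (MulAction.stabilizer G Q).eq_bot_or_eq_top_of_prime_card with hD | hD
  · left
    obtain ⟨a0, ha0, h1⟩ := bot_case (A := A) Q hD
    intro y
    obtain ⟨a, ha⟩ := h1 y
    have h2 := (hker _ _).mpr ha
    rw [map_mul, hπ, hπ] at h2
    have h3 : algebraMap E' L (algebraMap (A ⧸ P) E' (Ideal.Quotient.mk P a0)) ≠ 0 := by
      rw [← hπ]
      intro h0
      apply ha0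
      have := (hker (algebraMap A B a0) 0).mp (by rw [h0, map_zero])
      rwa [sub_zero] at this
    refine ⟨algebraMap (A ⧸ P) E' (Ideal.Quotient.mk P a) /
      algebraMap (A ⧸ P) E' (Ideal.Quotient.mk P a0), ?_⟩
    rw [map_div₀, eq_div_iff h3, mul_comm, h2]
  · right
    intro g x a hx
    rw [hker] at hx ⊢
    have hg : g • Q = Q := by
      have : g ∈ MulAction.stabilizer G Q := by rw [hD]; exact Subgroup.mem_top g
      exact this
    have h2 := Ideal.smul_mem_pointwise_smul g _ Q hx
    rw [hg, smul_sub, smul_algebraMap] at h2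
    exact h2

theorem specp1 {A B A' E E' Ω : Type u} [CommRing A] [IsDomain A] [IsIntegrallyClosed A]
    [CommRing B] [IsDomain B] [Algebra A B] [Field E] [Algebra A E] [IsFractionRing A E]
    [Field Ω] [Algebra E Ω] [Algebra A Ω] [IsScalarTower A E Ω] [Algebra B Ω]
    [IsScalarTower A B Ω] [IsFractionRing B Ω] [IsIntegralClosure B A Ω]
    [FiniteDimensional E Ω] [IsGalois E Ω] [CommRing A'] [IsDomain A'] [Field E']
    [Algebra A' E'] [IsFractionRing A' E'] (φ : A →+* A') (hφ : Function.Surjective φ)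
    (hG : (Nat.card (Ω ≃ₐ[E] Ω)).Prime) :
    ∃ (L : Type u) (_ : Field L) (_ : Algebra E' L) (π : B →+* L),
      (∀ a : A, π (algebraMap A B a) = algebraMap E' L (algebraMap A' E' (φ a))) ∧
      ((∀ y : B, ∃ e : E', π y = algebraMap E' L e) ∨
        ∀ (g : Ω ≃ₐ[E] Ω) (x x' : B) (a : A), g (algebraMap B Ω x) = algebraMap B Ω x' →
          π x = π (algebraMap A B a) → π x' = π (algebraMap A B a)) := by
  have hinv : Algebra.IsInvariant A B (B ≃ₐ[A] B) := Algebra.isInvariant_of_isGalois' A E Ω B
  have hfin : Finite (B ≃ₐ[A] B) := Finite.of_equiv _ (galRestrict A E Ω B).toEquiv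
  have hP : (RingHom.ker φ).IsPrime := RingHom.ker_isPrime φ
  have hBinj : Function.Injective (algebraMap B Ω) := IsFractionRing.injective B Ω
  have hAinj : Function.Injective (algebraMap A Ω) := by
    rw [IsScalarTower.algebraMap_eq A E Ω]
    exact (algebraMap E Ω).injective.comp (IsFractionRing.injective A E)
  have hABinj : Function.Injective (algebraMap A B) := by
    intro x y hxy
    apply hAinj
    rw [IsScalarTower.algebraMap_apply A B Ω, IsScalarTower.algebraMap_apply A B Ω, hxy]
  have hfaith : FaithfulSMul A B := (faithfulSMul_iff_algebraMap_injective A B).mpr hABinj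
  have hint : Algebra.IsIntegral A B := Algebra.IsInvariant.isIntegral A B (B ≃ₐ[A] B)
  obtain ⟨⟨Q, hQp, hQo⟩⟩ := Ideal.nonempty_primesOver (S := B) (RingHom.ker φ)
  let eP : A ⧸ (RingHom.ker φ) ≃+* A' := RingHom.quotientKerEquivOfSurjective hφ
  let a1 : Algebra (A ⧸ (RingHom.ker φ)) E' :=
    ((algebraMap A' E').comp (eP : A ⧸ (RingHom.ker φ) →+* A')).toAlgebra
  have f1 : IsFractionRing (A ⧸ (RingHom.ker φ)) E' :=
    IsFractionRing.of_ringEquiv_left eP (fun x => rfl)
  have hG' : (Nat.card (B ≃ₐ[A] B)).Prime := by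
    rwa [← Nat.card_congr (galRestrict A E Ω B).toEquiv]
  obtain ⟨L, hL, hEL, π, h1, h2⟩ := specp0 (B ≃ₐ[A] B) hG' (RingHom.ker φ) Q E'
  refine ⟨L, hL, hEL, π, ?_, ?_⟩
  · intro a
    rw [h1]
    rfl
  · rcases h2 with h2 | h2
    · exact Or.inl h2
    · right
      intro g x x' a hg hx
      have h3 := algebraMap_galRestrict_apply A g x
      rw [hg] at h3
      have h4 : (galRestrict A E Ω B) g x = x' := hBinj h3
      rw [← h4]
      exact h2 _ x a hx

/-- If the Galois group has prime order and the reduction of `χ` has a root, then the irreducible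
factors of the reduction have degree one. -/
theorem deg_one {A A' E E' Ω : Type u} [CommRing A] [IsDomain A] [IsIntegrallyClosed A]
    [CommRing A'] [IsDomain A'] [Field E] [Algebra A E] [IsFractionRing A E]
    [Field Ω] [Algebra E Ω] [Algebra A Ω] [IsScalarTower A E Ω] [FiniteDimensional E Ω]
    [IsGalois E Ω] [Field E'] [Algebra A' E'] [IsFractionRing A' E']
    (hG : (Nat.card (Ω ≃ₐ[E] Ω)).Prime)
    (φ : A →+* A') (hφ : Function.Surjective φ) (χ : A[X]) (hχ : χ.Monic)
    (hirr : Irreducible (χ.map (algebraMap A E)))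
    (hspl : (χ.map (algebraMap A Ω)).Splits) (c0 : A') (hc0 : (χ.map φ).eval c0 = 0)
    (μ : E'[X]) (hμ : Irreducible μ)
    (hdvd : μ ∣ (χ.map φ).map (algebraMap A' E')) :
    μ.natDegree = 1 := by
  classical
  have hfr : IsFractionRing (integralClosure A Ω) Ω :=
    integralClosure.isFractionRing_of_finite_extension E Ω
  obtain ⟨L, hL, hEL, π, h1, h2⟩ := specp1 (B := integralClosure A Ω) (E := E)
    (Ω := Ω) (E' := E') φ hφ hG
  set f : Polynomial Ω := χ.map (algebraMap A Ω) with hf
  have hfm : f.Monic := hχ.map _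
  have hroot : ∀ x, f.IsRoot x → x ∈ integralClosure A Ω := by
    intro x hx
    refine ⟨χ, hχ, ?_⟩
    rw [← Polynomial.eval_map]
    exact hx
  let s : Multiset (integralClosure A Ω) :=
    f.roots.pmap (fun x hx => (⟨x, hx⟩ : integralClosure A Ω))
      (fun x hx => hroot x (Polynomial.isRoot_of_mem_roots hx))
  have hs : s.map (algebraMap (integralClosure A Ω) Ω) = f.roots := by
    rw [Multiset.map_pmap]
    conv_rhs => rw [← Multiset.map_id f.roots, ← Multiset.pmap_eq_map (fun _ => True) id f.roots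
      (fun _ _ => trivial)]
    exact Multiset.pmap_congr _ (fun _ _ _ _ => rfl)
  have hBinj : Function.Injective (algebraMap (integralClosure A Ω) Ω) := Subtype.val_injective
  have hB : χ.map (algebraMap A (integralClosure A Ω)) = (s.map fun b => X - C b).prod := by
    apply Polynomial.map_injective _ hBinj
    rw [Polynomial.map_map, Polynomial.map_multiset_prod, Multiset.map_map,
      ← IsScalarTower.algebraMap_eq]
    have h3 : (s.map (Polynomial.map (algebraMap (integralClosure A Ω) Ω) ∘
        fun b => (X - C b : Polynomial (integralClosure A Ω)))) =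
        (s.map (algebraMap (integralClosure A Ω) Ω)).map (fun y => (X - C y : Polynomial Ω)) := by
      rw [Multiset.map_map]
      apply Multiset.map_congr rfl
      intro b _
      simp
    rw [h3, hs]
    exact hspl.eq_prod_roots_of_monic hfm
  set F : Polynomial L := ((χ.map φ).map (algebraMap A' E')).map (algebraMap E' L) with hF
  have hFm : F.Monic := ((hχ.map _).map _).map _
  have hFB : F = ((s.map π).map fun b => (X - C b : Polynomial L)).prod := by
    have h3 : F = ((s.map fun b => (X - C b : Polynomial (integralClosure A Ω))).prod).map π := by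
      rw [← hB, Polynomial.map_map, hF, Polynomial.map_map, Polynomial.map_map]
      congr 1
      ext a
      exact (h1 a).symm
    rw [h3, Polynomial.map_multiset_prod, Multiset.map_map, Multiset.map_map]
    congr 1
    apply Multiset.map_congr rfl
    intro b _
    simp
  have hFr : F.roots = s.map π := by rw [hFB, Polynomial.roots_multiset_prod_X_sub_C]
  have hmemf : ∀ x ∈ s, f.IsRoot (algebraMap (integralClosure A Ω) Ω x) := by
    intro x hx
    apply isRoot_of_mem_roots
    rw [← hs]
    exact Multiset.mem_map_of_mem _ hx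
  -- all roots of `F` are rational
  have hrat : ∀ x ∈ s, ∃ e : E', π x = algebraMap E' L e := by
    rcases h2 with h2 | h2
    · exact fun x _ => h2 x
    · obtain ⟨a1, ha1⟩ := hφ c0
      have h3 : algebraMap E' L (algebraMap A' E' c0) ∈ F.roots := by
        rw [mem_roots hFm.ne_zero, IsRoot.def, hF, Polynomial.eval_map_algebraMap,
          Polynomial.aeval_algebraMap_apply, Polynomial.aeval_map_algebraMap,
          Polynomial.aeval_algebraMap_apply, Polynomial.coe_aeval_eq_eval, hc0, map_zero, map_zero]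
      rw [hFr, Multiset.mem_map] at h3
      obtain ⟨x1, hx1, hπ1⟩ := h3
      rw [← ha1, ← h1] at hπ1
      intro x hx
      have hmin : ∀ z ∈ s, minpoly E (algebraMap (integralClosure A Ω) Ω z) =
          χ.map (algebraMap A E) := by
        intro z hz
        symm
        apply minpoly.eq_of_irreducible_of_monic hirr _ (hχ.map _)
        rw [Polynomial.aeval_map_algebraMap]
        have := hmemf z hz
        rwa [IsRoot.def, hf, Polynomial.eval_map_algebraMap] at this
      obtain ⟨τ, hτ⟩ := (Normal.minpoly_eq_iff_mem_orbit (F := E) (E := Ω)).mp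
        ((hmin x hx).trans (hmin x1 hx1).symm)
      refine ⟨algebraMap A' E' (φ a1), ?_⟩
      rw [← h1]
      exact h2 τ x1 x a1 hτ hπ1
  have hsplF : F.Splits := by
    rw [hFB]
    apply Splits.multisetProd
    intro h hh
    obtain ⟨b, _, rfl⟩ := Multiset.mem_map.mp hh
    exact Splits.X_sub_C b
  have h7 : (μ.map (algebraMap E' L)).Splits :=
    hsplF.of_dvd hFm.ne_zero (Polynomial.map_dvd _ hdvd)
  have hdeg : (μ.map (algebraMap E' L)).degree ≠ 0 := by
    rw [degree_map]
    exact (degree_pos_of_irreducible hμ).ne'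
  obtain ⟨y, hy⟩ := h7.exists_eval_eq_zero hdeg
  have hyF : y ∈ F.roots := by
    rw [mem_roots hFm.ne_zero]
    exact IsRoot.dvd hy (Polynomial.map_dvd _ hdvd)
  rw [hFr, Multiset.mem_map] at hyF
  obtain ⟨x, hx, hxy⟩ := hyF
  obtain ⟨e, he⟩ := hrat x hx
  have h8 : μ.IsRoot e := by
    rw [← hxy, he, Polynomial.eval_map_algebraMap, Polynomial.aeval_algebraMap_apply,
      map_eq_zero] at hy
    simpa using hy
  exact natDegree_eq_of_degree_eq_some (degree_eq_one_of_irreducible_of_root hμ h8)

end Pool.Agent.J4H41.NC
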