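import Mathlib
import Pool.Agent.J4H41.NC.Pd
import Pool.Agent.J4H41.NC.Cop

/-!
If the Galois group of the characteristic polynomial of `g` at the generic `n × n` matrices has
prime order then `g` is scalar valued on the smaller matrices.
-/

set_option autoImplicit false

namespace Pool.Agent.J4H41.NC

open Matrix Polynomial Pool.Agent.H552R3.PC

variable {K : Type*} [Field K] {σ : Type*}

theorem prime_scalar {m n : ℕ} [NeZero m] (hmn : m < n) (g : FreeAlgebra K σ)
    (hirr : Irreducible (CC n g)) (hs : (CC n g).Separable) (hG : (Nat.card (CC n g).Gal).Prime) :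
    ∃ r : GA K σ m, FreeAlgebra.lift K (gen K σ m) g = Matrix.scalar (Fin m) r := by
  obtain ⟨μ, k, hμm, hμi, hk0, hμk⟩ := pow_irr (N := m) g
  have hiE : Irreducible (μ.map (algebraMap (GA K σ m) (FractionRing (GA K σ m)))) :=
    (Polynomial.Monic.irreducible_iff_irreducible_map_fraction_map hμm).mp hμi
  obtain ⟨φ, hφs, hφ⟩ := phi_chain g m n hmn.le
  have hgal : IsGalois (FractionRing (GA K σ n)) (CC n g).SplittingField :=
    IsGalois.of_separable_splitting_field hs
  have h1 : (μ.map (algebraMap (GA K σ m) (FractionRing (GA K σ m)))).natDegree = 1 := by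
    refine deg_one (E := FractionRing (GA K σ n)) (Ω := (CC n g).SplittingField)
      (E' := FractionRing (GA K σ m)) hG (φ : GA K σ n →+* GA K σ m) hφs
      (FreeAlgebra.lift K (gen K σ n) g).charpoly (Matrix.charpoly_monic _) hirr ?_
      (algebraMap K (GA K σ m) (ct g)) ?_ _ hiE ?_
    · have h7 := IsSplittingField.splits (CC n g).SplittingField (CC n g)
      unfold CC at h7 ⊢
      rw [Polynomial.map_map, ← IsScalarTower.algebraMap_eq] at h7
      exact h7
    · rw [hφ, eval_mul, eval_pow, eval_sub, eval_X, eval_C, sub_self, zero_pow (by omega),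
        mul_zero]
    · rw [hφ, Polynomial.map_mul]
      apply Dvd.dvd.mul_right
      rw [hμk, Polynomial.map_pow]
      exact dvd_pow_self _ hk0.ne'
  have h2 : μ.natDegree = 1 := by rwa [hμm.natDegree_map] at h1
  have hdeg : k * μ.natDegree = m := by
    rw [← hμm.natDegree_pow, ← hμk, Matrix.charpoly_natDegree_eq_dim, Fintype.card_fin]
  have h3 : μ = X - C (-(μ.coeff 0)) := by
    rw [map_neg, sub_neg_eq_add]
    exact hμm.eq_X_add_C h2
  apply scalar_of_splits g (fun _ => -(μ.coeff 0))
  have hk : k = m := by rw [h2, mul_one] at hdeg; exact hdeg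
  rw [hμk, hk, Finset.prod_const, Finset.card_univ, Fintype.card_fin, ← h3]

/-- For `n` prime and a Galois group of order `n`. -/
theorem cyc_scalar {m n : ℕ} [NeZero m] [NeZero n] (hn : n.Prime) (hmn : m < n)
    (g : FreeAlgebra K σ) (hs : (CC n g).Separable) (hG : Nat.card (CC n g).Gal = n) :
    ∀ X : σ → Matrix (Fin m) (Fin m) K, ∃ c : K,
      FreeAlgebra.lift K X g = Matrix.scalar (Fin m) c := by
  rcases irr_or_scalar hn g with ⟨r, hr⟩ | hirr
  · intro X
    exact ⟨_, all_down g (fun X => ⟨_, scalar_of_gen hr X⟩) (n - 1 - m) m (by omega) X⟩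
  · obtain ⟨r, hr⟩ := prime_scalar hmn g
      ((Polynomial.Monic.irreducible_iff_irreducible_map_fraction_map
        (Matrix.charpoly_monic _)).mp hirr) hs (by rw [hG]; exact hn)
    exact fun X => ⟨_, scalar_of_gen hr X⟩

end Pool.Agent.J4H41.NC
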