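import Mathlib

/-!
If the order of the group is not divisible by the characteristic of the residue field, the residue
field extension of a Galois extension is separable.
-/

set_option autoImplicit false

namespace Pool.Agent.J4H41.NC

open Polynomial
open scoped Pointwise

universe u

theorem fix_case {A B G : Type*} [CommRing A] [CommRing B] [Algebra A B]
    [Group G] [Finite G] [MulSemiringAction G B] [Algebra.IsInvariant A B G]
    (Q : Ideal B) [hQ : Q.IsPrime]
    (hD : ((Nat.card (MulAction.stabilizer G Q) : ℕ) : B) ∉ Q) :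
    ∃ a0 : A, algebraMap A B a0 ∉ Q ∧
      ∀ y : B, (∀ g ∈ MulAction.stabilizer G Q, g • y - y ∈ Q) →
        ∃ a : A, algebraMap A B a0 * y - algebraMap A B a ∈ Q := by
  classical
  have : Fintype G := Fintype.ofFinite G
  set D := MulAction.stabilizer G Q with hDdef
  have h1 : ∀ g : G, ∃ b : B, (g ∉ D → b ∈ g • Q) ∧ b ∉ Q := by
    intro g
    by_cases hg : g ∈ D
    · exact ⟨1, fun h => absurd hg h, (Ideal.ne_top_iff_one Q).mp hQ.ne_top⟩
    · by_contra hcon
      push Not at hcon
      have h2 : ∀ x ∈ Q, g • x ∈ Q := fun x hx =>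
        hcon _ (fun _ => Ideal.smul_mem_pointwise_smul g x Q hx)
      have h3 : ∀ (k : ℕ), ∀ x ∈ Q, g ^ k • x ∈ Q := by
        intro k
        induction k with
        | zero => intro x hx; rwa [pow_zero, one_smul]
        | succ k ih =>
          intro x hx
          rw [pow_succ', mul_smul]
          exact h2 _ (ih x hx)
      have h4 : g⁻¹ = g ^ (Nat.card G - 1) := by
        symm
        rw [eq_inv_iff_mul_eq_one, ← pow_succ, Nat.sub_add_cancel Nat.card_pos, pow_card_eq_one']
      apply hg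
      rw [hDdef, MulAction.mem_stabilizer_iff]
      apply le_antisymm
      · intro x hx
        exact hcon x fun _ => hx
      · intro x hx
        rw [Ideal.mem_pointwise_smul_iff_inv_smul_mem, h4]
        exact h3 _ x hx
  choose b hb1 hb2 using h1
  set c : B := ∏ g : G, b g with hc
  have hcQ : c ∉ Q := by
    intro hcQ
    obtain ⟨g, _, hg⟩ := (hQ.prod_mem_iff).mp hcQ
    exact hb2 g hg
  have hcg : ∀ g : G, g ∉ D → c ∈ g • Q := fun g hg =>
    Ideal.mem_of_dvd _ (Finset.dvd_prod_of_mem b (Finset.mem_univ g)) (hb1 g hg)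
  have hstab : ∀ g ∈ D, ∀ x : B, g • x ∈ Q → x ∈ Q := by
    intro g hg x hx
    have h2 : g • Q = Q := hg
    rw [← h2] at hx
    exact Ideal.smul_mem_pointwise_smul_iff.mp hx
  set c' : B := ∏ h : D, (h : G) • c with hc'
  have hc'Q : c' ∉ Q := by
    intro h0
    obtain ⟨h, _, hh⟩ := (hQ.prod_mem_iff).mp h0
    exact hcQ (hstab h h.2 _ hh)
  have hc'g : ∀ g : G, g ∉ D → c' ∈ g • Q := by
    intro g hg
    apply Ideal.mem_of_dvd _ (Finset.dvd_prod_of_mem (fun h : D => (h : G) • c)
      (Finset.mem_univ (1 : D)))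
    simp only [OneMemClass.coe_one, one_smul]
    exact hcg g hg
  have hc'D : ∀ g ∈ D, g • c' = c' := by
    intro g hg
    rw [hc', Finset.smul_prod']
    refine Fintype.prod_equiv (Equiv.mulLeft (⟨g, hg⟩ : D)) _ _ fun x => ?_
    rw [Equiv.coe_mulLeft, Subgroup.coe_mul, mul_smul]
  have key : ∀ y : B, (∀ g ∈ D, g • y - y ∈ Q) →
      ∃ a : A, algebraMap A B a - (Nat.card D : ℕ) * (c' * y) ∈ Q := by
    intro y hy
    obtain ⟨a, ha⟩ := Algebra.IsInvariant.isInvariant (A := A) (B := B) (G := G)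
      (∑ g : G, g • (c' * y)) (by
        intro g
        rw [Finset.smul_sum]
        refine Fintype.sum_equiv (Equiv.mulLeft g) _ _ fun x => ?_
        rw [Equiv.coe_mulLeft, mul_smul])
    refine ⟨a, ?_⟩
    have h3 : ((Nat.card D : ℕ) : B) * (c' * y) = ∑ g : G, if g ∈ D then c' * y else 0 := by
      rw [Finset.sum_ite, Finset.sum_const_zero, add_zero, Finset.sum_const, nsmul_eq_mul]
      congr 2
      rw [Nat.card_eq_fintype_card, Fintype.card_subtype]
    rw [ha, h3, ← Finset.sum_sub_distrib]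
    refine Ideal.sum_mem _ fun g _ => ?_
    by_cases hg : g ∈ D
    · rw [if_pos hg, smul_mul', hc'D g hg, ← mul_sub]
      exact Ideal.mul_mem_left _ _ (hy g hg)
    · rw [if_neg hg, sub_zero]
      have hg1 : g⁻¹ ∉ D := fun h => hg (by simpa using D.inv_mem h)
      have h2 := Ideal.mul_mem_right y _ (hc'g g⁻¹ hg1)
      rw [Ideal.mem_inv_pointwise_smul_iff] at h2
      exact h2
  obtain ⟨a0, ha0⟩ := key 1 (fun g _ => by rw [smul_one, sub_self]; exact Q.zero_mem)
  rw [mul_one] at ha0
  refine ⟨a0, fun h0 => ?_, fun y hy => ?_⟩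
  · have := Q.sub_mem h0 ha0
    rw [sub_sub_cancel] at this
    rcases hQ.mem_or_mem this with h | h
    · exact hD h
    · exact hc'Q h
  · obtain ⟨a, ha⟩ := key y hy
    refine ⟨a, ?_⟩
    have h2 := Q.sub_mem (Q.mul_mem_right y ha0) ha
    have h3 : (algebraMap A B a0 - (Nat.card D : ℕ) * c') * y -
        (algebraMap A B a - (Nat.card D : ℕ) * (c' * y)) =
        algebraMap A B a0 * y - algebraMap A B a := by ring
    rwa [h3] at h2

theorem sep_of_fix {E' L : Type*} [Field E'] [Field L] [Algebra E' L] [Finite (L ≃ₐ[E'] L)]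
    (hfix : ∀ y : L, (∀ τ : L ≃ₐ[E'] L, τ y = y) → ∃ e, algebraMap E' L e = y)
    (μ : E'[X]) (hμ : Irreducible μ) (y : L) (hy : aeval y μ = 0) : μ.Separable := by
  have h1 : (minpoly (FixedPoints.subfield (L ≃ₐ[E'] L) L) y).Separable :=
    Algebra.IsSeparable.isSeparable (FixedPoints.subfield (L ≃ₐ[E'] L) L) y
  have h2 : (minpoly (FixedPoints.subfield (L ≃ₐ[E'] L) L) y).map
      (algebraMap (FixedPoints.subfield (L ≃ₐ[E'] L) L) L) ∈ lifts (algebraMap E' L) := by
    rw [lifts_iff_coeff_lifts]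
    intro i
    rw [coeff_map]
    obtain ⟨e, he⟩ := hfix _ (fun τ =>
      ((minpoly (FixedPoints.subfield (L ≃ₐ[E'] L) L) y).coeff i).2 τ)
    exact ⟨e, he⟩
  obtain ⟨ν, hν⟩ := (mem_lifts _).mp h2
  have h3 : ν.Separable := by
    rw [← separable_map (algebraMap E' L), hν]
    exact h1.map
  have h4 : aeval y ν = 0 := by
    rw [← eval_map_algebraMap, hν, eval_map_algebraMap, minpoly.aeval]
  have h5 : μ ∣ ν := by
    have h6 := minpoly.dvd E' y h4
    rw [← minpoly.eq_of_irreducible hμ hy] at h6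
    exact (dvd_mul_right _ _).trans h6
  exact h3.of_dvd h5

end Pool.Agent.J4H41.NC
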