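import Mathlib
import Pool.Agent.J4H41.NC.Rs
import Pool.Agent.J4H41.NC.Dc

/-!
The degree of each irreducible factor of the reduction of `χ` divides the order of the Galois group
if the latter is not divisible by the characteristic.
-/

set_option autoImplicit false

namespace Pool.Agent.J4H41.NC

open Polynomial
open scoped Pointwise

universe u

theorem specq0 {A B : Type u} [CommRing A] [CommRing B] [Algebra A B] (G : Type u)
    [Group G] [Finite G] [MulSemiringAction G B] [SMulCommClass G A B] [Algebra.IsInvariant A B G]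
    (P : Ideal A) (Q : Ideal B) [P.IsPrime] [Q.IsPrime] [Q.LiesOver P]
    (E' : Type u) [Field E'] [Algebra (A ⧸ P) E'] [IsFractionRing (A ⧸ P) E']
    (hG : ((Nat.card G : ℕ) : E') ≠ 0) :
    ∃ (L : Type u) (_ : Field L) (_ : Algebra E' L) (_ : Normal E' L) (π : B →+* L),
      (∀ a : A, π (algebraMap A B a) =
        algebraMap E' L (algebraMap (A ⧸ P) E' (Ideal.Quotient.mk P a))) ∧
      Finite (L ≃ₐ[E'] L) ∧ Nat.card (L ≃ₐ[E'] L) ∣ Nat.card G ∧
      ∀ y : L, (∀ τ : L ≃ₐ[E'] L, τ y = y) → ∃ e, algebraMap E' L e = y := by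
  classical
  let L := FractionRing (B ⧸ Q)
  have i1 : Function.Injective (algebraMap (A ⧸ P) L) := by
    rw [IsScalarTower.algebraMap_eq (A ⧸ P) (B ⧸ Q) L]
    exact (IsFractionRing.injective (B ⧸ Q) L).comp (FaithfulSMul.algebraMap_injective _ _)
  let a2 : Algebra E' L := (IsFractionRing.lift i1 : E' →+* L).toAlgebra
  have t2 : IsScalarTower (A ⧸ P) E' L := by
    apply IsScalarTower.of_algebraMap_eq
    intro x
    exact (IsFractionRing.lift_algebraMap i1 x).symm
  have hn : Normal E' L := Ideal.IsFractionRing.normal G P Q E' L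
  have hsurj := IsFractionRing.stabilizerHom_surjective G P Q E' L
  have hπ : ∀ a : A, ((algebraMap (B ⧸ Q) L).comp (Ideal.Quotient.mk Q)) (algebraMap A B a) =
        algebraMap E' L (algebraMap (A ⧸ P) E' (Ideal.Quotient.mk P a)) := by
    intro a
    rw [← IsScalarTower.algebraMap_apply (A ⧸ P) E' L, IsScalarTower.algebraMap_apply (A ⧸ P)
      (B ⧸ Q) L]
    rfl
  have hker : ∀ x y : B, ((algebraMap (B ⧸ Q) L).comp (Ideal.Quotient.mk Q)) x =
      ((algebraMap (B ⧸ Q) L).comp (Ideal.Quotient.mk Q)) y ↔ x - y ∈ Q := by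
    intro x y
    rw [RingHom.comp_apply, RingHom.comp_apply, (IsFractionRing.injective (B ⧸ Q) L).eq_iff,
      Ideal.Quotient.mk_eq_mk_iff_sub_mem]
  refine ⟨L, inferInstance, a2, hn, (algebraMap (B ⧸ Q) L).comp (Ideal.Quotient.mk Q), hπ,
    ?_, ?_, ?_⟩
  · exact Finite.of_surjective _ hsurj
  · exact (Subgroup.card_dvd_of_surjective _ hsurj).trans
      (Subgroup.card_subgroup_dvd_card _)
  set π := (algebraMap (B ⧸ Q) L).comp (Ideal.Quotient.mk Q) with hπdef
  have hker0 : ∀ x : B, π x = 0 ↔ x ∈ Q := by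
    intro x
    rw [← map_zero π, hker, sub_zero]
  set D := MulAction.stabilizer G Q with hDdef
  have hD : ((Nat.card D : ℕ) : B) ∉ Q := by
    rw [← hker0, map_natCast]
    intro h0
    apply hG
    obtain ⟨k, hk⟩ := Subgroup.card_subgroup_dvd_card D
    apply (algebraMap E' L).injective
    rw [map_natCast, map_zero, hk, Nat.cast_mul, h0, zero_mul]
  obtain ⟨a0, ha0, hfix⟩ := fix_case (A := A) Q hD
  have : Fintype D := Fintype.ofFinite D
  intro y hy
  obtain ⟨b, z, hz, rfl⟩ := IsFractionRing.div_surjective (A := B ⧸ Q) y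
  obtain ⟨b, rfl⟩ := Ideal.Quotient.mk_surjective b
  obtain ⟨z, rfl⟩ := Ideal.Quotient.mk_surjective z
  have hzQ : z ∉ Q := by
    intro h
    exact nonZeroDivisors.ne_zero hz (Ideal.Quotient.eq_zero_iff_mem.mpr h)
  change ∀ τ : L ≃ₐ[E'] L, τ (π b / π z) = π b / π z at hy
  change ∃ e, algebraMap E' L e = π b / π z
  have hz0 : π z ≠ 0 := fun h => hzQ ((hker0 z).mp h)
  set v : B := ∏ g : D, (g : G) • z with hv
  set w : B := ∏ g ∈ Finset.univ.erase (1 : D), (g : G) • z with hw
  have hvw : v = z * w := by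
    rw [hv, hw, ← Finset.mul_prod_erase _ _ (Finset.mem_univ (1 : D))]
    simp
  have hvD : ∀ g ∈ D, g • v = v := by
    intro g hg
    rw [hv, Finset.smul_prod']
    refine Fintype.prod_equiv (Equiv.mulLeft (⟨g, hg⟩ : D)) _ _ fun x => ?_
    rw [Equiv.coe_mulLeft, Subgroup.coe_mul, mul_smul]
  have hvQ : v ∉ Q := by
    intro h0
    obtain ⟨h, _, hh⟩ := (Ideal.IsPrime.prod_mem_iff (hp := inferInstance)).mp h0
    apply hzQ
    have h2 : (h : G) • Q = Q := h.2
    rw [← h2] at hh
    exact Ideal.smul_mem_pointwise_smul_iff.mp hh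
  have hv0 : π v ≠ 0 := fun h => hvQ ((hker0 v).mp h)
  have hyv : π (b * w) = (π b / π z) * π v := by
    rw [hvw, map_mul, map_mul, ← mul_assoc, div_mul_cancel₀ _ hz0]
  have hu : ∀ g ∈ D, g • (b * w) - b * w ∈ Q := by
    intro g hg
    rw [← hker]
    have h2 := IsFractionRing.stabilizerHom_apply_apply_mk G P Q E' L ⟨g, hg⟩
    have h3 : ∀ x : B, (IsFractionRing.stabilizerHom G P Q E' L ⟨g, hg⟩) (π x) = π (g • x) :=
      fun x => h2 x
    change π (g • (b * w)) = π (b * w)
    rw [← h3, hyv, map_mul, hy, h3, hvD g hg]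
  obtain ⟨a1, ha1⟩ := hfix (b * w) hu
  obtain ⟨a2', ha2⟩ := hfix v (fun g hg => by rw [hvD g hg, sub_self]; exact Q.zero_mem)
  have e1 := (hker _ _).mpr ha1
  have e2 := (hker _ _).mpr ha2
  change π _ = π _ at e1
  change π _ = π _ at e2
  rw [map_mul] at e1 e2
  have ha00 : π (algebraMap A B a0) ≠ 0 := fun h => ha0 ((hker0 _).mp h)
  refine ⟨algebraMap (A ⧸ P) E' (Ideal.Quotient.mk P a1) /
    algebraMap (A ⧸ P) E' (Ideal.Quotient.mk P a2'), ?_⟩
  rw [map_div₀, ← hπ, ← hπ]
  change π _ / π _ = _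
  rw [← e1, ← e2, hyv, mul_div_mul_left _ _ ha00, mul_div_cancel_right₀ _ hv0]

theorem specq1 {A B A' E E' Ω : Type u} [CommRing A] [IsDomain A] [IsIntegrallyClosed A]
    [CommRing B] [IsDomain B] [Algebra A B] [Field E] [Algebra A E] [IsFractionRing A E]
    [Field Ω] [Algebra E Ω] [Algebra A Ω] [IsScalarTower A E Ω] [Algebra B Ω]
    [IsScalarTower A B Ω] [IsFractionRing B Ω] [IsIntegralClosure B A Ω]
    [FiniteDimensional E Ω] [IsGalois E Ω] [CommRing A'] [IsDomain A'] [Field E']
    [Algebra A' E'] [IsFractionRing A' E'] (φ : A →+* A') (hφ : Function.Surjective φ)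
    (hG : ((Nat.card (Ω ≃ₐ[E] Ω) : ℕ) : E') ≠ 0) :
    ∃ (L : Type u) (_ : Field L) (_ : Algebra E' L) (_ : Normal E' L) (π : B →+* L),
      (∀ a : A, π (algebraMap A B a) = algebraMap E' L (algebraMap A' E' (φ a))) ∧
      Finite (L ≃ₐ[E'] L) ∧ Nat.card (L ≃ₐ[E'] L) ∣ Nat.card (Ω ≃ₐ[E] Ω) ∧
      ∀ y : L, (∀ τ : L ≃ₐ[E'] L, τ y = y) → ∃ e, algebraMap E' L e = y := by
  have hinv : Algebra.IsInvariant A B (B ≃ₐ[A] B) := Algebra.isInvariant_of_isGalois' A E Ω B
  have hfin : Finite (B ≃ₐ[A] B) := Finite.of_equiv _ (galRestrict A E Ω B).toEquiv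
  have hP : (RingHom.ker φ).IsPrime := RingHom.ker_isPrime φ
  have hBinj : Function.Injective (algebraMap B Ω) := IsFractionRing.injective B Ω
  have hAinj : Function.Injective (algebraMap A Ω) := by
    rw [IsScalarTower.algebraMap_eq A E Ω]
    exact (algebraMap E Ω).injective.comp (IsFractionRing.injective A E)
  have hABinj : Function.Injective (algebraMap A B) := by
    intro x y hxy
    apply hAinj
    rw [IsScalarTower.algebraMap_apply A B Ω, IsScalarTower.algebraMap_apply A B Ω, hxy]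
  have hfaith : FaithfulSMul A B := (faithfulSMul_iff_algebraMap_injective A B).mpr hABinj
  have hint : Algebra.IsIntegral A B := Algebra.IsInvariant.isIntegral A B (B ≃ₐ[A] B)
  obtain ⟨⟨Q, hQp, hQo⟩⟩ := Ideal.nonempty_primesOver (S := B) (RingHom.ker φ)
  let eP : A ⧸ (RingHom.ker φ) ≃+* A' := RingHom.quotientKerEquivOfSurjective hφ
  let a1 : Algebra (A ⧸ (RingHom.ker φ)) E' :=
    ((algebraMap A' E').comp (eP : A ⧸ (RingHom.ker φ) →+* A')).toAlgebra
  have f1 : IsFractionRing (A ⧸ (RingHom.ker φ)) E' :=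
    IsFractionRing.of_ringEquiv_left eP (fun x => rfl)
  have hG' : ((Nat.card (B ≃ₐ[A] B) : ℕ) : E') ≠ 0 := by
    rwa [← Nat.card_congr (galRestrict A E Ω B).toEquiv]
  obtain ⟨L, hL, hEL, hN, π, h1, h2, h3, h4⟩ := specq0 (B ≃ₐ[A] B) (RingHom.ker φ) Q E' hG'
  refine ⟨L, hL, hEL, hN, π, ?_, h2, ?_, h4⟩
  · intro a
    rw [h1]
    rfl
  · rw [Nat.card_congr (galRestrict A E Ω B).toEquiv]
    exact h3

theorem dcq {A A' E E' Ω : Type u} [CommRing A] [IsDomain A] [IsIntegrallyClosed A]
    [CommRing A'] [IsDomain A'] [Field E] [Algebra A E] [IsFractionRing A E]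
    [Field Ω] [Algebra E Ω] [Algebra A Ω] [IsScalarTower A E Ω] [FiniteDimensional E Ω]
    [IsGalois E Ω] [Field E'] [Algebra A' E'] [IsFractionRing A' E']
    (φ : A →+* A') (hφ : Function.Surjective φ) (χ : A[X]) (hχ : χ.Monic)
    (hG : ((Nat.card (Ω ≃ₐ[E] Ω) : ℕ) : E') ≠ 0)
    (hspl : (χ.map (algebraMap A Ω)).Splits)
    (μ : E'[X]) (hμ : Irreducible μ)
    (hdvd : μ ∣ (χ.map φ).map (algebraMap A' E')) :
    μ.natDegree ∣ Nat.card (Ω ≃ₐ[E] Ω) := by
  classical
  have hfr : IsFractionRing (integralClosure A Ω) Ω :=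
    integralClosure.isFractionRing_of_finite_extension E Ω
  obtain ⟨L, hL, hEL, hN, π, h1, hfin, hcard, hfix⟩ := specq1 (B := integralClosure A Ω) (E := E)
    (Ω := Ω) (E' := E') φ hφ hG
  set f : Polynomial Ω := χ.map (algebraMap A Ω) with hf
  have hfm : f.Monic := hχ.map _
  have hroot : ∀ x, f.IsRoot x → x ∈ integralClosure A Ω := by
    intro x hx
    refine ⟨χ, hχ, ?_⟩
    rw [← Polynomial.eval_map]
    exact hx
  let s : Multiset (integralClosure A Ω) :=
    f.roots.pmap (fun x hx => (⟨x, hx⟩ : integralClosure A Ω))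
      (fun x hx => hroot x (Polynomial.isRoot_of_mem_roots hx))
  have hs : s.map (algebraMap (integralClosure A Ω) Ω) = f.roots := by
    rw [Multiset.map_pmap]
    conv_rhs => rw [← Multiset.map_id f.roots, ← Multiset.pmap_eq_map (fun _ => True) id f.roots
      (fun _ _ => trivial)]
    exact Multiset.pmap_congr _ (fun _ _ _ _ => rfl)
  have hBinj : Function.Injective (algebraMap (integralClosure A Ω) Ω) := Subtype.val_injective
  have hB : χ.map (algebraMap A (integralClosure A Ω)) = (s.map fun b => X - C b).prod := by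
    apply Polynomial.map_injective _ hBinj
    rw [Polynomial.map_map, Polynomial.map_multiset_prod, Multiset.map_map,
      ← IsScalarTower.algebraMap_eq]
    have h3 : (s.map (Polynomial.map (algebraMap (integralClosure A Ω) Ω) ∘
        fun b => (X - C b : Polynomial (integralClosure A Ω)))) =
        (s.map (algebraMap (integralClosure A Ω) Ω)).map (fun y => (X - C y : Polynomial Ω)) := by
      rw [Multiset.map_map]
      apply Multiset.map_congr rfl
      intro b _
      simp
    rw [h3, hs]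
    exact hspl.eq_prod_roots_of_monic hfm
  set F : Polynomial L := ((χ.map φ).map (algebraMap A' E')).map (algebraMap E' L) with hF
  have hFm : F.Monic := ((hχ.map _).map _).map _
  have hFB : F = ((s.map fun b => (X - C b : Polynomial (integralClosure A Ω))).prod).map π := by
    rw [← hB, Polynomial.map_map, hF, Polynomial.map_map, Polynomial.map_map]
    congr 1
    ext a
    exact (h1 a).symm
  have h5 : ((s.map fun b => (X - C b : Polynomial (integralClosure A Ω))).prod).Splits := by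
    apply Splits.multisetProd
    intro h hh
    obtain ⟨b, _, rfl⟩ := Multiset.mem_map.mp hh
    exact Splits.X_sub_C b
  have h6 : F.Splits := by
    rw [hFB]
    exact h5.map π
  have h7 : (μ.map (algebraMap E' L)).Splits :=
    h6.of_dvd hFm.ne_zero (Polynomial.map_dvd _ hdvd)
  have hdeg : (μ.map (algebraMap E' L)).degree ≠ 0 := by
    rw [degree_map]
    exact (degree_pos_of_irreducible hμ).ne'
  obtain ⟨x, hx⟩ := h7.exists_eval_eq_zero hdeg
  rw [Polynomial.eval_map_algebraMap] at hx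
  have hμs : μ.Separable := sep_of_fix hfix μ hμ x hx
  exact (natDegree_dvd_card μ hμ hμs h7).trans hcard

end Pool.Agent.J4H41.NC
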