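import Mathlib
import Pool.Agent.J4H41.NC.Rs2
import Pool.Agent.J4H41.NC.Cop

/-!
If `m` is coprime to the order of the Galois group of the characteristic polynomial of `g` at
generic `n × n` matrices, `n ≥ m`, then `g` is scalar valued on `m × m` matrices, in every
characteristic.
-/

set_option autoImplicit false

namespace Pool.Agent.J4H41.NC

open Matrix Polynomial Pool.Agent.H552R3.PC

variable {K : Type*} [Field K] {σ : Type*}

theorem cop_scalar {m n : ℕ} [NeZero m] (hmn : m ≤ n) (g : FreeAlgebra K σ)
    (hs : (CC n g).Separable) (hcop : m.Coprime (Nat.card (CC n g).Gal)) :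
    ∃ r : GA K σ m, FreeAlgebra.lift K (gen K σ m) g = Matrix.scalar (Fin m) r := by
  by_cases hGK : ((Nat.card (CC n g).Gal : ℕ) : K) = 0
  · -- then the characteristic does not divide `m`
    have hmK : (m : K) ≠ 0 := by
      intro hm0
      obtain ⟨p, hp⟩ := CharP.exists K
      have h1 : p ∣ m := (CharP.cast_eq_zero_iff K p m).mp hm0
      have h2 : p ∣ Nat.card (CC n g).Gal := (CharP.cast_eq_zero_iff K p _).mp hGK
      have h3 := Nat.eq_one_of_dvd_coprimes hcop h1 h2
      rw [h3] at hp
      exact CharP.char_ne_one K 1 rfl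
    by_contra hns
    obtain ⟨d, h1, h2, h3⟩ := not_coprime hmn g hmK hns hs
    have := Nat.eq_one_of_dvd_coprimes hcop h2 h3
    omega
  · obtain ⟨μ, k, hμm, hμi, hk0, hμk⟩ := pow_irr (N := m) g
    have hiE : Irreducible (μ.map (algebraMap (GA K σ m) (FractionRing (GA K σ m)))) :=
      (Polynomial.Monic.irreducible_iff_irreducible_map_fraction_map hμm).mp hμi
    obtain ⟨φ, hφs, hφ⟩ := phi_chain g m n hmn
    have hgal : IsGalois (FractionRing (GA K σ n)) (CC n g).SplittingField :=
      IsGalois.of_separable_splitting_field hs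
    have hGE : ((Nat.card ((CC n g).SplittingField ≃ₐ[FractionRing (GA K σ n)]
        (CC n g).SplittingField) : ℕ) : FractionRing (GA K σ m)) ≠ 0 := by
      intro h0
      apply hGK
      apply (algebraMap K (FractionRing (GA K σ m))).injective
      rw [map_natCast, map_zero]
      exact h0
    have h1 : (μ.map (algebraMap (GA K σ m) (FractionRing (GA K σ m)))).natDegree ∣
        Nat.card (CC n g).Gal := by
      refine dcq (E := FractionRing (GA K σ n)) (Ω := (CC n g).SplittingField)
        (E' := FractionRing (GA K σ m)) (φ : GA K σ n →+* GA K σ m) hφs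
        (FreeAlgebra.lift K (gen K σ n) g).charpoly (Matrix.charpoly_monic _) hGE ?_ _ hiE ?_
      · have h7 := IsSplittingField.splits (CC n g).SplittingField (CC n g)
        unfold CC at h7 ⊢
        rw [Polynomial.map_map, ← IsScalarTower.algebraMap_eq] at h7
        exact h7
      · rw [hφ, Polynomial.map_mul]
        apply Dvd.dvd.mul_right
        rw [hμk, Polynomial.map_pow]
        exact dvd_pow_self _ hk0.ne'
    rw [hμm.natDegree_map] at h1
    have hdeg : k * μ.natDegree = m := by
      rw [← hμm.natDegree_pow, ← hμk, Matrix.charpoly_natDegree_eq_dim, Fintype.card_fin]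
    have h2 : μ.natDegree = 1 := Nat.eq_one_of_dvd_coprimes hcop (Dvd.intro_left k hdeg) h1
    have h3 : μ = X - C (-(μ.coeff 0)) := by
      rw [map_neg, sub_neg_eq_add]
      exact hμm.eq_X_add_C h2
    apply scalar_of_splits g (fun _ => -(μ.coeff 0))
    have hk : k = m := by rw [h2, mul_one] at hdeg; exact hdeg
    rw [hμk, hk, Finset.prod_const, Finset.card_univ, Fintype.card_fin, ← h3]

/-- For prime `n` and solvable Galois group. -/
theorem solv_cop {m n : ℕ} [NeZero m] [NeZero n] (hn : n.Prime) (hmn : m < n)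
    (g : FreeAlgebra K σ) (hs : (CC n g).Separable) (hsol : Group.IsSolvable (CC n g).Gal)
    (hcop : m.Coprime (n - 1)) :
    ∀ X : σ → Matrix (Fin m) (Fin m) K, ∃ c : K,
      FreeAlgebra.lift K X g = Matrix.scalar (Fin m) c := by
  rcases irr_or_scalar hn g with ⟨r, hr⟩ | hirr
  · intro X
    exact ⟨_, all_down g (fun X => ⟨_, scalar_of_gen hr X⟩) (n - 1 - m) m (by omega) X⟩
  · have hi : Irreducible (CC n g) :=
      (Polynomial.Monic.irreducible_iff_irreducible_map_fraction_map
        (Matrix.charpoly_monic _)).mp hirr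
    have hnd : (CC n g).natDegree = n := by
      unfold CC
      rw [(Matrix.charpoly_monic _).natDegree_map, Matrix.charpoly_natDegree_eq_dim,
        Fintype.card_fin]
    have hcop' : m.Coprime (Nat.card (CC n g).Gal) := by
      by_contra hcon
      obtain ⟨l, hl, h1, h2⟩ := Nat.Prime.not_coprime_iff_dvd.mp hcon
      have hlm : l ≤ m := Nat.le_of_dvd (Nat.pos_of_ne_zero (NeZero.ne m)) h1
      have h4 := dvd_of_solvable (CC n g) hi hs (by rwa [hnd]) hsol l hl (by rw [hnd]; omega) h2
      rw [hnd] at h4
      exact hl.one_lt.ne' (Nat.eq_one_of_dvd_coprimes hcop h1 h4)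
    obtain ⟨r, hr⟩ := cop_scalar hmn.le g hs hcop'
    exact fun X => ⟨_, scalar_of_gen hr X⟩

end Pool.Agent.J4H41.NC
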