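import Mathlib
import Pool.Agent.R844.NC.Main

/-!
The words of a polynomial which vanishes on the block triangular matrices.
-/

set_option autoImplicit false

namespace Pool.Agent.J4H41.NC

open Pool.Agent.R844.NC

variable {K : Type*} [Field K] {σ : Type*}

/-- The length of the words of a polynomial vanishing on all block upper triangular matrices. -/
theorem long [Infinite K] [DecidableEq σ] {d e : ℕ} (hd : 0 < d) (he : 0 < e) {c : List σ →₀ K}
    (hv : VanAll (Fin d) c) (h : VanU (Fin d) (Fin e) c) {l : List σ} (hl : c l ≠ 0) :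
    2 * (d + e) ≤ l.length ∧
      (l.toFinset.card < 2 * d → 2 * (d + e) + (d + e) / d ≤ l.length) := by
  have h1 : 2 * d ≤ l.length := degree hv hl
  have h2 : 2 * (d + e) ≤ l.length := by
    have h3 := peel c (2 * d - 1) (noId_lt (by omega)) h (l.take (2 * d))
      (by rw [List.length_take]; omega)
    have h4 : pl (l.take (2 * d)) c (l.drop (2 * d)) ≠ 0 := by
      rw [pl_apply, List.take_append_drop]
      exact hl
    have h5 := degree h3 h4
    rw [List.length_drop] at h5
    omega
  refine ⟨h2, fun hT => ?_⟩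
  have h3 := few h hl hT (by omega)
  have h4 : (d + e) / d = e / d + 1 := by
    rw [Nat.add_comm d e]
    exact Nat.add_div_right _ hd
  omega

theorem long' [Infinite K] [DecidableEq σ] {d e : ℕ} (hd : 0 < d) (he : 0 < e) {c : List σ →₀ K}
    (hv : VanAll (Fin d) c) (h : VanU (Fin d) (Fin e) c ∨ VanU (Fin d) (Fin e) (rv c))
    {l : List σ} (hl : c l ≠ 0) :
    2 * (d + e) ≤ l.length ∧
      (l.toFinset.card < 2 * d → 2 * (d + e) + (d + e) / d ≤ l.length) := by
  rcases h with h | h
  · exact long hd he hv h hl
  · have h1 := long hd he hv.rv h (l := l.reverse) (by rw [rv_apply, List.reverse_reverse]; exact hl)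
    rwa [List.length_reverse, List.toFinset_reverse] at h1

theorem sw_dir [Infinite K] {k n : ℕ} (hk : 0 < k) (hkn : k < n) (c : List σ →₀ K)
    (h : VanU (Fin k) (Fin (n - k)) c) (p s : List σ) (hps : p.length + 2 + s.length = 2 * n)
    (hne : p.length + 1 ≠ 2 * k) : Sw c p s := by
  classical
  have red : Sw (c.filter fun l => l.length = 2 * n) p s → Sw c p s := by
    intro H a b
    have h3 := H a b
    rw [Finsupp.filter_apply, Finsupp.filter_apply, Finsupp.filter_apply, if_pos, if_pos,
      if_pos] at h3
    · exact h3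
    all_goals simp only [List.length_append, List.length_cons]; omega
  apply red
  have hh : ∀ l, (c.filter fun l => l.length = 2 * n) l ≠ 0 → l.length = 2 * (k + (n - k)) := by
    intro l hl
    by_contra hne
    exact hl (by rw [Finsupp.filter_apply, if_neg (by omega)])
  rcases le_or_gt (2 * k) p.length with hp | hp
  · exact swA hk hh (h.hom _) (by omega) hp
  · exact swB (by omega) hh (h.hom _) (by omega) (by omega)

theorem sw_both [Infinite K] {k n : ℕ} (hk : 0 < k) (hkn : k < n) (c : List σ →₀ K)
    (h : VanU (Fin k) (Fin (n - k)) c ∨ VanU (Fin k) (Fin (n - k)) (rv c)) (p s : List σ)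
    (hps : p.length + 2 + s.length = 2 * n)
    (hne : p.length + 1 ≠ 2 * k) (hne' : s.length + 1 ≠ 2 * k) : Sw c p s := by
  rcases h with h | h
  · exact sw_dir hk hkn c h p s hps hne
  · apply Sw.of_rv
    exact sw_dir hk hkn (rv c) h _ _ (by rw [List.length_reverse, List.length_reverse]; omega)
      (by rw [List.length_reverse]; exact hne')

theorem sw_two [Infinite K] {k k' n : ℕ} (hk : 0 < k) (hkn : k < n) (hk' : 0 < k')
    (hkn' : k' < n) (hkk : k ≠ k') (hkk' : k + k' ≠ n) (c : List σ →₀ K)
    (h : VanU (Fin k) (Fin (n - k)) c ∨ VanU (Fin k) (Fin (n - k)) (rv c))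
    (h' : VanU (Fin k') (Fin (n - k')) c ∨ VanU (Fin k') (Fin (n - k')) (rv c)) (p s : List σ)
    (hps : p.length + 2 + s.length = 2 * n) : Sw c p s := by
  by_cases h1 : p.length + 1 ≠ 2 * k ∧ s.length + 1 ≠ 2 * k
  · exact sw_both hk hkn c h p s hps h1.1 h1.2
  · exact sw_both hk' hkn' c h' p s hps (by omega) (by omega)

end Pool.Agent.J4H41.NC
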