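import Mathlib
import Pool.Agent.R676.NC.Comp

/-!
Polynomials which are constant on block triangular matrices are constant on triangular matrices.
-/

set_option autoImplicit false

namespace Pool.Agent.J4H41.NC

open Matrix Pool.Agent.R676.NC
open Pool.Agent.Results.MP_5d2531_al.BlockTriangular (coef)

variable {K : Type*} [Field K] {σ : Type*}

theorem lift_rdx {ι κ : Type*} [Fintype ι] [Fintype κ] [DecidableEq ι] [DecidableEq κ]
    (e : ι ≃ κ) (Y : σ → Matrix ι ι K) (f : FreeAlgebra K σ) :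
    FreeAlgebra.lift K (fun i => Matrix.reindexAlgEquiv K K e (Y i)) f =
      Matrix.reindexAlgEquiv K K e (FreeAlgebra.lift K Y f) := by
  have h : FreeAlgebra.lift K (fun i => Matrix.reindexAlgEquiv K K e (Y i)) =
      ((Matrix.reindexAlgEquiv K K e : Matrix ι ι K ≃ₐ[K] Matrix κ κ K) :
        Matrix ι ι K →ₐ[K] Matrix κ κ K).comp (FreeAlgebra.lift K Y) := by
    apply FreeAlgebra.hom_ext
    funext i
    simp
  rw [h]
  rfl

theorem cst_up {d m N : ℕ} (e : Fin d ⊕ Fin m ≃ Fin N) (f : FreeAlgebra K σ) (c : K)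
    (h : ∀ (A : σ → Matrix (Fin d) (Fin d) K) (A' : σ → Matrix (Fin m) (Fin m) K)
      (B : σ → Matrix (Fin d) (Fin m) K),
      FreeAlgebra.lift K (fun i => Matrix.fromBlocks (A i) (B i) 0 (A' i)) f =
        Matrix.scalar (Fin d ⊕ Fin m) c)
    (X : σ → Matrix (Fin N) (Fin N) K)
    (hX : ∀ i (k : Fin m) (u : Fin d), X i (e (Sum.inr k)) (e (Sum.inl u)) = 0) :
    FreeAlgebra.lift K X f = algebraMap K _ c := by
  set Y : σ → Matrix (Fin d ⊕ Fin m) (Fin d ⊕ Fin m) K := fun i =>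
    Matrix.reindexAlgEquiv K K e.symm (X i) with hY
  have h1 : ∀ i, Y i = Matrix.fromBlocks (Y i).toBlocks₁₁ (Y i).toBlocks₁₂ 0 (Y i).toBlocks₂₂ := by
    intro i
    conv_lhs => rw [← Matrix.fromBlocks_toBlocks (Y i)]
    congr 1
    ext k u
    exact hX i k u
  have h2 : X = fun i => Matrix.reindexAlgEquiv K K e (Y i) := by
    funext i
    ext a b
    simp [hY]
  rw [h2, lift_rdx, show Y = fun i => Matrix.fromBlocks (Y i).toBlocks₁₁ (Y i).toBlocks₁₂ 0
    (Y i).toBlocks₂₂ from funext h1, h]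
  exact AlgEquiv.commutes (Matrix.reindexAlgEquiv K K e) c

theorem cst_lo {d m N : ℕ} (e : Fin d ⊕ Fin m ≃ Fin N) (f : FreeAlgebra K σ) (c : K)
    (h : ∀ (A : σ → Matrix (Fin d) (Fin d) K) (A' : σ → Matrix (Fin m) (Fin m) K)
      (C : σ → Matrix (Fin m) (Fin d) K),
      FreeAlgebra.lift K (fun i => Matrix.fromBlocks (A i) 0 (C i) (A' i)) f =
        Matrix.scalar (Fin d ⊕ Fin m) c)
    (X : σ → Matrix (Fin N) (Fin N) K)
    (hX : ∀ i (k : Fin m) (u : Fin d), X i (e (Sum.inl u)) (e (Sum.inr k)) = 0) :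
    FreeAlgebra.lift K X f = algebraMap K _ c := by
  set Y : σ → Matrix (Fin d ⊕ Fin m) (Fin d ⊕ Fin m) K := fun i =>
    Matrix.reindexAlgEquiv K K e.symm (X i) with hY
  have h1 : ∀ i, Y i = Matrix.fromBlocks (Y i).toBlocks₁₁ 0 (Y i).toBlocks₂₁ (Y i).toBlocks₂₂ := by
    intro i
    conv_lhs => rw [← Matrix.fromBlocks_toBlocks (Y i)]
    congr 1
    ext u k
    exact hX i k u
  have h2 : X = fun i => Matrix.reindexAlgEquiv K K e (Y i) := by
    funext i
    ext a b
    simp [hY]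
  rw [h2, lift_rdx, show Y = fun i => Matrix.fromBlocks (Y i).toBlocks₁₁ 0 (Y i).toBlocks₂₁
    (Y i).toBlocks₂₂ from funext h1, h]
  exact AlgEquiv.commutes (Matrix.reindexAlgEquiv K K e) c

/-- The number of rearrangements. -/
theorem many [Infinite K] {d m : ℕ} (hd : 0 < d) (f : FreeAlgebra K σ) (c : K)
    (h : (∀ (A : σ → Matrix (Fin d) (Fin d) K) (A' : σ → Matrix (Fin m) (Fin m) K)
      (B : σ → Matrix (Fin d) (Fin m) K),
      FreeAlgebra.lift K (fun i => Matrix.fromBlocks (A i) (B i) 0 (A' i)) f =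
        Matrix.scalar (Fin d ⊕ Fin m) c) ∨
      (∀ (A : σ → Matrix (Fin d) (Fin d) K) (A' : σ → Matrix (Fin m) (Fin m) K)
      (C : σ → Matrix (Fin m) (Fin d) K),
      FreeAlgebra.lift K (fun i => Matrix.fromBlocks (A i) 0 (C i) (A' i)) f =
        Matrix.scalar (Fin d ⊕ Fin m) c)) (w : List σ) (hw : w ≠ []) (hc : coef f w ≠ 0) :
    2 ^ (d + m) ≤ {l : List σ | l.Perm w ∧ coef f l ≠ 0}.ncard := by
  obtain ⟨N, hN⟩ : ∃ N, d + m = N + 1 := ⟨d + m - 1, by omega⟩
  rw [hN]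
  refine (count_free f c (fun X hX => ?_) w hw hc).2.1
  rcases h with h | h
  · let e : Fin d ⊕ Fin m ≃ Fin (N + 1) := finSumFinEquiv.trans (finCongr hN)
    refine cst_up e f c h X fun i k u => hX i _ _ ?_
    rw [Fin.lt_def]
    have := u.isLt
    simp [e]
    omega
  · let e : Fin d ⊕ Fin m ≃ Fin (N + 1) := (Equiv.sumComm _ _).trans
      (finSumFinEquiv.trans (finCongr (by omega)))
    refine cst_lo e f c h X fun i k u => hX i _ _ ?_
    rw [Fin.lt_def]
    have := k.isLt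
    simp [e]
    omega

end Pool.Agent.J4H41.NC
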